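import Pool.Agent.E8helper56.TX.Uni

set_option autoImplicit false
set_option linter.unusedSectionVars false

/-!
# Uniform bounds for tensor systems: the theorems
-/

open Matrix MeasureTheory

noncomputable section

namespace Pool.Agent.E8helper56.TX

open Pool.Agent.E8helper1.TX

variable {n : Type} [Fintype n] [DecidableEq n] {m : ℕ}

theorem comm_GF (S : TSys n) (m : ℕ) : comm (GF S.S) m = S.S m := by
  apply le_antisymm
  · intro A hA
    exact t_TAN n S m A fun g hg hF => hA g ⟨hg, hF⟩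
  · intro A hA g hg
    exact hg.2 m A hA

theorem mul_comm_of_subsingleton {α : Type} [Fintype α] [Subsingleton α] (A B : Matrix α α ℂ) :
    A * B = B * A := by
  ext a b
  obtain rfl := Subsingleton.elim a b
  rw [Matrix.mul_apply, Matrix.mul_apply, Fintype.sum_subsingleton _ a, Fintype.sum_subsingleton _ a,
    mul_comm]

/-- the trace gap, without the condition on the trace -/
theorem gap' (S : TSys n) (T : ∀ m, Submodule ℂ (Op n m))
    (h : ∀ x : Matrix n n ℂ, xᴴ = -x → (∀ A ∈ S.S 2, A * dpow x 2 = dpow x 2 * A) → Kills T x)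
    (g : Matrix n n ℂ) (hg : g ∈ GF S.S) (htr : (Fintype.card n : ℝ) - 1 < ‖g.trace‖) :
    Fixes T g := by
  rcases isEmpty_or_nonempty n with hn | hn
  · intro m A _
    have : Subsingleton (Fin m → n) := ⟨fun f g => funext fun i => (hn.false (f i)).elim⟩
    exact mul_comm_of_subsingleton _ _
  · refine gap S T h g hg htr ?_
    have h1 : (1 : ℝ) ≤ Fintype.card n := by exact_mod_cast (Fintype.card_pos : 0 < Fintype.card n)
    linarith

/-- the smaller group -/
theorem fixes_sup {S T : ∀ m, Submodule ℂ (Op n m)} {g : Matrix n n ℂ} :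
    Fixes (fun m => S m ⊔ T m) g ↔ Fixes S g ∧ Fixes T g := by
  constructor
  · intro h
    exact ⟨fun m A hA => h m A (Submodule.mem_sup_left hA), fun m A hA => h m A
      (Submodule.mem_sup_right hA)⟩
  · rintro ⟨h1, h2⟩ m A hA
    obtain ⟨B, hB, C, hC, rfl⟩ := Submodule.mem_sup.1 hA
    rw [add_mul, mul_add, h1 m B hB, h2 m C hC]

/-- **Uniform bound for the index.** -/
theorem uni1 (S : TSys n) (T : ∀ m, Submodule ℂ (Op n m))
    (h : ∀ x : Matrix n n ℂ, xᴴ = -x → (∀ A ∈ S.S 2, A * dpow x 2 = dpow x 2 * A) → Kills T x)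
    (m : ℕ) : Module.finrank ℂ (T m) ≤
      (2 * Fintype.card n + 1) ^ (2 * Fintype.card n ^ 2) * Module.finrank ℂ (S.S m) := by
  have h1 := dim_le (GF S.S) (GF fun m => S.S m ⊔ T m) (isCGroup_GF _) (isCGroup_GF _)
    (fun g hg => ⟨hg.1, (fixes_sup.1 hg.2).1⟩)
    (fun g hg htr => ⟨hg.1, fixes_sup.2 ⟨hg.2, gap' S T h g hg
      (htr.trans_le (Complex.re_le_norm _))⟩⟩) m
  rw [comm_GF] at h1
  refine le_trans (Submodule.finrank_mono ?_) h1
  intro A hA g hg
  exact (fixes_sup.1 hg.2).2 m A hA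

/-- The operators which commute with the derivations given by a set of matrices. -/
def TL (L : Set (Matrix n n ℂ)) (m : ℕ) : Submodule ℂ (Op n m) where
  carrier := {A | ∀ x ∈ L, A * dpow x m = dpow x m * A}
  zero_mem' := by intro x _; rw [zero_mul, mul_zero]
  add_mem' := by
    intro A B hA hB x hx
    rw [add_mul, mul_add, hA x hx, hB x hx]
  smul_mem' := by
    intro c A hA x hx
    rw [Matrix.smul_mul, Matrix.mul_smul, hA x hx]

theorem dpow_add (x y : Matrix n n ℂ) : dpow (x + y) m = dpow x m + dpow y m := by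
  ext I J
  simp only [dpow, Matrix.add_apply]
  rw [← Finset.sum_add_distrib]
  refine Finset.sum_congr rfl fun i _ => ?_
  split_ifs
  · rfl
  · rw [add_zero]

theorem dpow_smul (c : ℂ) (x : Matrix n n ℂ) : dpow (c • x) m = c • dpow x m := by
  ext I J
  simp only [dpow, Matrix.smul_apply, smul_eq_mul]
  rw [Finset.mul_sum]
  refine Finset.sum_congr rfl fun i _ => ?_
  split_ifs
  · rfl
  · rw [mul_zero]

theorem dpow_star (x : Matrix n n ℂ) : dpow xᴴ m = (dpow x m)ᴴ := by
  ext I J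
  rw [Matrix.conjTranspose_apply]
  simp only [dpow, Matrix.conjTranspose_apply]
  rw [star_sum]
  refine Finset.sum_congr rfl fun i _ => ?_
  by_cases h : ∀ j, j ≠ i → I j = J j
  · rw [if_pos h, if_pos fun j hj => (h j hj).symm]
  · rw [if_neg h, if_neg (fun h' => h fun j hj => (h' j hj).symm), star_zero]

/-- one-parameter groups -/
theorem exp_lemma (y : Matrix n n ℂ) (hy : yᴴ = -y) (m : ℕ) :
    ∃ g ∈ Matrix.unitaryGroup n ℂ,
      (∀ k, ∀ A : Op n k, A * dpow y k = dpow y k * A → A * tpow g k = tpow g k * A) ∧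
      ∀ A : Op n m, A * tpow g m = tpow g m * A → A * dpow y m = dpow y m * A := by
  set H : Matrix n n ℂ := (-Complex.I) • y with hH
  have hHH : H.IsHermitian := by
    show Hᴴ = H
    rw [hH, Matrix.conjTranspose_smul, hy]
    simp
  have hsp := hHH.spectral_theorem
  set V : Matrix n n ℂ := (hHH.eigenvectorUnitary : Matrix n n ℂ) with hV
  set lam : n → ℝ := hHH.eigenvalues with hlam
  have hV1 : Vᴴ * V = 1 := Matrix.mem_unitaryGroup_iff'.1 hHH.eigenvectorUnitary.2
  have hV2 : V * Vᴴ = 1 := Matrix.mem_unitaryGroup_iff.1 hHH.eigenvectorUnitary.2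
  have hHV : H = V * diagonal (fun k => (lam k : ℂ)) * Vᴴ := hsp
  have hyV : y = V * diagonal (fun k => (lam k : ℂ) * Complex.I) * Vᴴ := by
    have h1 : y = Complex.I • H := by
      rw [hH, smul_smul, mul_neg, Complex.I_mul_I, neg_neg, one_smul]
    have h2 : diagonal (fun k => (lam k : ℂ) * Complex.I) =
        Complex.I • diagonal (fun k => (lam k : ℂ)) := by
      rw [← Matrix.diagonal_smul]
      congr 1
      funext k
      rw [Pi.smul_apply, smul_eq_mul, mul_comm]
    rw [h2, Matrix.mul_smul, Matrix.smul_mul, ← hHV, ← h1]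
  set t : ℝ := 1 / (1 + m * ∑ k, |lam k|) with ht
  have hden : 0 < 1 + (m : ℝ) * ∑ k, |lam k| := by positivity
  have ht0 : 0 < t := by rw [ht]; positivity
  have hbound : ∀ I : Fin m → n, |t * ∑ i, lam (I i)| < Real.pi := by
    intro I
    have h1 : |∑ i, lam (I i)| ≤ m * ∑ k, |lam k| := by
      calc |∑ i, lam (I i)| ≤ ∑ i, |lam (I i)| := Finset.abs_sum_le_sum_abs _ _
        _ ≤ ∑ _i : Fin m, ∑ k, |lam k| := Finset.sum_le_sum fun i _ =>
            Finset.single_le_sum (f := fun k => |lam k|) (fun k _ => abs_nonneg _)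
              (Finset.mem_univ (I i))
        _ = m * ∑ k, |lam k| := by
            rw [Finset.sum_const, Finset.card_univ, Fintype.card_fin, nsmul_eq_mul]
    rw [abs_mul, abs_of_pos ht0]
    have h2 : t * |∑ i, lam (I i)| ≤ 1 := by
      rw [ht, one_div, inv_mul_le_iff₀ hden, mul_one]
      linarith
    have h3 := Real.pi_gt_three
    linarith
  have ht1 : ∀ m, tpow Vᴴ m * tpow V m = 1 := fun m => by rw [tpow_mul, hV1, tpow_one']
  have ht2 : ∀ m, tpow V m * tpow Vᴴ m = 1 := fun m => by rw [tpow_mul, hV2, tpow_one']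
  have htg : ∀ k, tpow (V * diagonal (fun j => Complex.exp (((t * lam j : ℝ) : ℂ) * Complex.I)) * Vᴴ)
      k = tpow V k * diagonal (fun I : Fin k → n =>
      Complex.exp (((t * ∑ i, lam (I i) : ℝ) : ℂ) * Complex.I)) * tpow Vᴴ k := by
    intro k
    rw [← tpow_mul, ← tpow_mul, tpow_diag]
    congr 3
    funext I
    rw [← Complex.exp_sum]
    congr 1
    push_cast
    rw [Finset.mul_sum, Finset.sum_mul]
  have htx : ∀ k, dpow y k =
      tpow V k * diagonal (fun I : Fin k → n => ((∑ i, lam (I i) : ℝ) : ℂ) * Complex.I) *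
        tpow Vᴴ k := by
    intro k
    rw [hyV, ← tpow_dpow _ _ _ hV2, dpow_diag]
    congr 3
    funext I
    push_cast
    rw [Finset.sum_mul]
  refine ⟨V * diagonal (fun j => Complex.exp (((t * lam j : ℝ) : ℂ) * Complex.I)) * Vᴴ, ?_, ?_, ?_⟩
  · rw [Matrix.mem_unitaryGroup_iff', Matrix.star_eq_conjTranspose, Matrix.conjTranspose_mul,
      Matrix.conjTranspose_mul, Matrix.conjTranspose_conjTranspose, Matrix.diagonal_conjTranspose]
    have h1 : diagonal (star fun j => Complex.exp (((t * lam j : ℝ) : ℂ) * Complex.I)) *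
        diagonal (fun j => Complex.exp (((t * lam j : ℝ) : ℂ) * Complex.I)) = 1 := by
      rw [Matrix.diagonal_mul_diagonal, ← Matrix.diagonal_one]
      congr 1
      funext j
      rw [Pi.star_apply]
      show star (Complex.exp _) * Complex.exp _ = 1
      rw [Complex.star_def, Complex.conj_mul', Complex.norm_exp_ofReal_mul_I]
      simp
    calc V * (diagonal (star fun j => Complex.exp (((t * lam j : ℝ) : ℂ) * Complex.I)) * Vᴴ) *
          (V * diagonal (fun j => Complex.exp (((t * lam j : ℝ) : ℂ) * Complex.I)) * Vᴴ)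
        = V * (diagonal (star fun j => Complex.exp (((t * lam j : ℝ) : ℂ) * Complex.I)) * (Vᴴ * V) *
          diagonal (fun j => Complex.exp (((t * lam j : ℝ) : ℂ) * Complex.I))) * Vᴴ := by
          simp only [Matrix.mul_assoc]
      _ = 1 := by rw [hV1, Matrix.mul_one, h1, Matrix.mul_one, hV2]
  · intro k A hA
    rw [htx, comm_conj _ _ _ _ (ht1 k) (ht2 k), comm_diag] at hA
    rw [htg, comm_conj _ _ _ _ (ht1 k) (ht2 k), comm_diag]
    intro I J hIJ
    have h1 := hA I J hIJ
    have h2 : ((∑ i, lam (I i) : ℝ) : ℂ) = ((∑ i, lam (J i) : ℝ) : ℂ) :=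
      mul_right_cancel₀ Complex.I_ne_zero h1
    have h3 : (∑ i, lam (I i) : ℝ) = ∑ i, lam (J i) := by exact_mod_cast h2
    show Complex.exp (((t * ∑ i, lam (I i) : ℝ) : ℂ) * Complex.I) =
      Complex.exp (((t * ∑ i, lam (J i) : ℝ) : ℂ) * Complex.I)
    rw [h3]
  · intro A hA
    rw [htg, comm_conj _ _ _ _ (ht1 m) (ht2 m), comm_diag] at hA
    rw [htx, comm_conj _ _ _ _ (ht1 m) (ht2 m), comm_diag]
    intro I J hIJ
    have h1 := hA I J hIJ
    have h2 := Complex.exp_inj_of_neg_pi_lt_of_le_pi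
      (x := ((t * ∑ i, lam (I i) : ℝ) : ℂ) * Complex.I)
      (y := ((t * ∑ i, lam (J i) : ℝ) : ℂ) * Complex.I) (by
        have := (abs_lt.1 (hbound I)).1
        simpa using this) (by
        have := (abs_lt.1 (hbound I)).2.le
        simpa using this) (by
        have := (abs_lt.1 (hbound J)).1
        simpa using this) (by
        have := (abs_lt.1 (hbound J)).2.le
        simpa using this) h1
    have h3 : ((t * ∑ i, lam (I i) : ℝ) : ℂ) = ((t * ∑ i, lam (J i) : ℝ) : ℂ) :=
      mul_right_cancel₀ Complex.I_ne_zero h2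
    have h4 : t * ∑ i, lam (I i) = t * ∑ i, lam (J i) := by exact_mod_cast h3
    have h5 := mul_left_cancel₀ ht0.ne' h4
    show ((∑ i, lam (I i) : ℝ) : ℂ) * Complex.I = ((∑ i, lam (J i) : ℝ) : ℂ) * Complex.I
    rw [h5]

theorem kills_star (S : TSys n) {x : Matrix n n ℂ} (h : Kills S.S x) : Kills S.S xᴴ := by
  intro m A hA
  have h1 := congrArg Matrix.conjTranspose (h m Aᴴ (S.star_mem hA))
  rw [Matrix.conjTranspose_mul, Matrix.conjTranspose_mul, Matrix.conjTranspose_conjTranspose] at h1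
  rw [dpow_star]
  exact h1.symm

theorem kills_lin {T : ∀ m, Submodule ℂ (Op n m)} {x y : Matrix n n ℂ} (hx : Kills T x)
    (hy : Kills T y) (a b : ℂ) : Kills T (a • x + b • y) := by
  intro m A hA
  rw [dpow_add, dpow_smul, dpow_smul, mul_add, add_mul, Matrix.mul_smul, Matrix.mul_smul,
    Matrix.smul_mul, Matrix.smul_mul, hx m A hA, hy m A hA]

/-- the commutant of the group is the commutant of the Lie algebra -/
theorem comm_group_eq (S : TSys n) (L : Set (Matrix n n ℂ)) (hL : ∀ x ∈ L, Kills S.S x)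
    (h : ∀ x : Matrix n n ℂ, xᴴ = -x → (∀ A ∈ S.S 2, A * dpow x 2 = dpow x 2 * A) →
      Kills (TL L) x) (k : ℕ) :
    comm (GF fun m => S.S m ⊔ TL L m) k = TL L k := by
  apply le_antisymm
  · intro A hA x hx
    -- skew-hermitian elements which kill `S`
    have hskew : ∀ y : Matrix n n ℂ, yᴴ = -y → Kills S.S y → A * dpow y k = dpow y k * A := by
      intro y hy hyS
      obtain ⟨g, hgu, hg1, hg2⟩ := exp_lemma y hy k
      refine hg2 A (hA g ⟨hgu, fixes_sup.2 ⟨fun m B hB => hg1 m B (hyS m B hB), fun m B hB =>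
        hg1 m B (h y hy (fun B hB => hyS 2 B hB) m B hB)⟩⟩)
    have hxS := hL x hx
    have hxS' := kills_star S hxS
    set y1 : Matrix n n ℂ := (1 / 2 : ℂ) • x + (-(1 / 2) : ℂ) • xᴴ with hy1
    set y2 : Matrix n n ℂ := (-(Complex.I / 2)) • x + (-(Complex.I / 2)) • xᴴ with hy2
    have h1 : y1ᴴ = -y1 := by
      rw [hy1, Matrix.conjTranspose_add, Matrix.conjTranspose_smul, Matrix.conjTranspose_smul,
        Matrix.conjTranspose_conjTranspose]
      ext i j
      simp
    have h2 : y2ᴴ = -y2 := by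
      rw [hy2, Matrix.conjTranspose_add, Matrix.conjTranspose_smul, Matrix.conjTranspose_smul,
        Matrix.conjTranspose_conjTranspose]
      ext i j
      simp
      ring
    have h3 : x = y1 + Complex.I • y2 := by
      ext i j
      simp only [hy1, hy2, Matrix.add_apply, Matrix.smul_apply, smul_eq_mul]
      ring_nf
      rw [Complex.I_sq]
      ring
    have h4 := hskew y1 h1 (kills_lin hxS hxS' _ _)
    have h5 := hskew y2 h2 (kills_lin hxS hxS' _ _)
    rw [h3, dpow_add, dpow_smul, mul_add, add_mul, Matrix.mul_smul, Matrix.smul_mul, h4, h5]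
  · intro A hA g hg
    exact (fixes_sup.1 hg.2).2 k A hA

/-- **One bounded tensor power decides.** -/
theorem uni2 [Nonempty n] (S : TSys n) (L : Set (Matrix n n ℂ)) (hL : ∀ x ∈ L, Kills S.S x)
    (h : ∀ x : Matrix n n ℂ, xᴴ = -x → (∀ A ∈ S.S 2, A * dpow x 2 = dpow x 2 * A) →
      Kills (TL L) x) (m : ℕ)
    (hm : 2 * (Fintype.card n : ℝ) ^ 3 * Real.log (3 * Fintype.card n) ≤ m)
    (hT : TL L m ≤ S.S m) (k : ℕ) : TL L k = S.S k := by
  have hST : ∀ k, S.S k ≤ TL L k := fun k A hA x hx => hL x hx k A hA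
  have hGH : GF S.S ⊆ GF fun m => S.S m ⊔ TL L m := by
    refine group_eq (GF S.S) (GF fun m => S.S m ⊔ TL L m) (isCGroup_GF _) (isCGroup_GF _)
      (fun g hg => ⟨hg.1, (fixes_sup.1 hg.2).1⟩)
      (fun g hg htr => ⟨hg.1, fixes_sup.2 ⟨hg.2, gap' S (TL L) h g hg htr⟩⟩) m hm ?_
    rw [comm_group_eq S L hL h, comm_GF, le_antisymm hT (hST m)]
  refine le_antisymm ?_ (hST k)
  intro A hA
  rw [← comm_group_eq S L hL h] at hA
  rw [← comm_GF S]
  exact fun g hg => hA g (hGH hg)

/-- **One bounded tensor power decides**, for a family `T` which is determined by the group which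
fixes it. -/
theorem uni2' [Nonempty n] (S : TSys n) (T : ∀ m, Submodule ℂ (Op n m)) (hST : ∀ m, S.S m ≤ T m)
    (h : ∀ x : Matrix n n ℂ, xᴴ = -x → (∀ A ∈ S.S 2, A * dpow x 2 = dpow x 2 * A) → Kills T x)
    (h2 : ∀ m (A : Op n m), (∀ g ∈ Matrix.unitaryGroup n ℂ, Fixes S.S g → Fixes T g →
      A * tpow g m = tpow g m * A) → A ∈ T m) (m : ℕ)
    (hm : 2 * (Fintype.card n : ℝ) ^ 3 * Real.log (3 * Fintype.card n) ≤ m)
    (hT : T m ≤ S.S m) (k : ℕ) : T k = S.S k := by
  have hcomm : ∀ k, comm (GF fun m => S.S m ⊔ T m) k = T k := by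
    intro k
    apply le_antisymm
    · intro A hA
      exact h2 k A fun g hg hS hTg => hA g ⟨hg, fixes_sup.2 ⟨hS, hTg⟩⟩
    · intro A hA g hg
      exact (fixes_sup.1 hg.2).2 k A hA
  have hGH : GF S.S ⊆ GF fun m => S.S m ⊔ T m := by
    refine group_eq (GF S.S) (GF fun m => S.S m ⊔ T m) (isCGroup_GF _) (isCGroup_GF _)
      (fun g hg => ⟨hg.1, (fixes_sup.1 hg.2).1⟩)
      (fun g hg htr => ⟨hg.1, fixes_sup.2 ⟨hg.2, gap' S T h g hg htr⟩⟩) m hm ?_
    rw [hcomm, comm_GF, le_antisymm hT (hST m)]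
  refine le_antisymm ?_ (hST k)
  intro A hA
  rw [← hcomm] at hA
  rw [← comm_GF S]
  exact fun g hg => hA g (hGH hg)

end Pool.Agent.E8helper56.TX
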