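import Mathlib
import Pool.Agent.E8helper1.CT.Core

/-!
# A form of degree four that determines the normalizer of a Lie algebra
-/

set_option autoImplicit false
set_option linter.unusedSectionVars false

namespace Pool.Agent.E8helper56.TX

open Module TensorProduct Pool.Agent.H204R3.SP Pool.Agent.H204R3.GP Pool.Agent.W522.U
  Pool.Agent.W528.Odd
open Pool.Agent.E8helper1.AP (A1 A1_apply span_A1 exists_orth_proj orth_unique trace_nondeg)
open Pool.Agent.E8helper1.CT

noncomputable section

variable {k : Type} [Field k] [CharZero k] {V Γ : Type} [AddCommGroup V] [Module k V]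
  [FiniteDimensional k V] [Group Γ] {ρ : Representation k Γ V} {χ : Γ →* k}
  {ω : V →ₗ[k] V →ₗ[k] k}

theorem four_form (hnd : ∀ u, (∀ v, ω u v = 0) → u = 0)
    {L : Submodule k (Module.End k V)} (hL : orth L L = ⊥) :
    ∃ φ : MultilinearMap k (fun _ : Fin 2 × Fin 2 => V) k,
      (∀ (g g' : Module.End k V) (c : k), g * g' = 1 → g' * g = 1 →
        (∀ u v, ω (g u) (g v) = c * ω u v) → (∀ y ∈ L, g * y * g' ∈ L) →
        (∀ y ∈ L, g' * y * g ∈ L) → ∀ v, φ (fun l => g (v l)) = c ^ 2 * φ v) ∧
      ∀ x : Module.End k V, (∀ u w, ω (x u) w + ω u (x w) = 0) → Kills x φ → ∀ y ∈ L,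
        x * y - y * x ∈ L := by
  classical
  obtain ⟨P, hP1, hP2⟩ := exists_orth_proj L hL
  have hPL : ∀ y ∈ L, P y = y := fun y hy => orth_unique hL (hP1 y) hy (hP2 y)
  -- the form
  let bas := Module.finBasis k (Module.End k V)
  let C : Fin (finrank k (Module.End k V)) → Fin 2 → (V →ₗ[k] V →ₗ[k] k) := fun i =>
    ![(A1 ω).compr₂ ((bas.coord i).comp P),
      (A1 ω).compr₂ ((LinearMap.trace k V).comp (LinearMap.mulLeft k (bas i)))]
  let φ : MultilinearMap k (fun _ : Fin 2 × Fin 2 => V) k := ∑ i, mmG 1 (C i)
  have hφ : ∀ v, φ v = LinearMap.trace k V (P (A1 ω (v (0, 0)) (v (0, 1))) *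
      A1 ω (v (1, 0)) (v (1, 1))) := by
    intro v
    have h1 : P (A1 ω (v (0, 0)) (v (0, 1))) =
        ∑ i, bas.coord i (P (A1 ω (v (0, 0)) (v (0, 1)))) • bas i := (bas.sum_repr _).symm
    rw [h1, Finset.sum_mul, map_sum]
    change (∑ i, mmG 1 (C i)) v = _
    have h2 : ∀ s : Finset (Fin (finrank k (Module.End k V))), (∑ i ∈ s, mmG 1 (C i)) v =
        ∑ i ∈ s, mmG 1 (C i) v := by
      intro s
      induction s using Finset.induction_on with
      | empty => rfl
      | insert j s hj ih =>
        rw [Finset.sum_insert hj, Finset.sum_insert hj, ← ih]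
        rfl
    rw [h2]
    refine Finset.sum_congr rfl fun i _ => ?_
    rw [mmG_apply, Fin.prod_univ_two, smul_mul_assoc, map_smul, smul_eq_mul]
    rfl
  refine ⟨φ, ?_, ?_⟩
  · intro g g' c hgg hgg' hω hconj hconj' v
    have hPg : ∀ (y : Module.End k V), P (g * y * g') = g * P y * g' := by
      intro y
      refine orth_unique hL (hP1 _) (hconj _ (hP1 y)) fun c hc => ?_
      have h1 := hconj' c hc
      have h2 : ∀ y, LinearMap.trace k V (g * y * g' * c) =
          LinearMap.trace k V (y * (g' * c * g)) := by
        intro y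
        rw [mul_assoc, mul_assoc, LinearMap.trace_mul_comm, mul_assoc, mul_assoc]
      rw [hP2 _ c hc, h2, h2, hP2 _ _ h1]
    have hAg : ∀ u v, A1 ω (g u) (g v) = c • (g * A1 ω u v * g') := by
      intro u v
      refine LinearMap.ext fun w => ?_
      have e1 : g (g' w) = w := by
        rw [← Module.End.mul_apply, hgg, Module.End.one_apply]
      rw [A1_apply, LinearMap.smul_apply, Module.End.mul_apply, Module.End.mul_apply,
        A1_apply, map_smul, smul_smul, ← hω, e1]
    rw [hφ, hφ, hAg, hAg, map_smul, hPg, smul_mul_assoc, mul_smul_comm, map_smul,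
      map_smul, smul_eq_mul, smul_eq_mul, ← mul_assoc, ← pow_two]
    congr 1
    have h1 : ∀ a b : Module.End k V, LinearMap.trace k V
        (g * a * g' * (g * b * g')) = LinearMap.trace k V (a * b) := by
      intro a b
      have e2 : g * a * g' * (g * b * g') = g * (a * b * g') := by
        calc _ = g * a * (g' * g) * b * g' := by simp only [mul_assoc]
          _ = _ := by rw [hgg', mul_one]; simp only [mul_assoc]
      rw [e2, LinearMap.trace_mul_comm, mul_assoc, hgg', mul_one]
    exact h1 _ _
  · intro x hxs hx y hy
    have hAx : ∀ u v : V, A1 ω (x u) v + A1 ω u (x v) = x * A1 ω u v - A1 ω u v * x := by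
      intro u v
      refine LinearMap.ext fun w => ?_
      rw [LinearMap.add_apply, LinearMap.sub_apply, Module.End.mul_apply, Module.End.mul_apply,
        A1_apply, A1_apply, A1_apply, A1_apply, map_smul]
      have h1 := hxs u w
      have h2 : ω (x u) w = -ω u (x w) := by linear_combination h1
      rw [h2, neg_smul]
      abel
    -- the operator kills the form
    have key : ∀ a b c d : V, LinearMap.trace k V (P (x * A1 ω a b - A1 ω a b * x) *
        A1 ω c d) + LinearMap.trace k V (P (A1 ω a b) *
        (x * A1 ω c d - A1 ω c d * x)) = 0 := by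
      intro a b c d
      have h1 := hx (fun k => if k.1 = 0 then (if k.2 = 0 then a else b) else
        (if k.2 = 0 then c else d))
      rw [Fintype.sum_prod_type, Fin.sum_univ_two, Fin.sum_univ_two, Fin.sum_univ_two, hφ, hφ, hφ,
        hφ] at h1
      rw [← hAx, ← hAx, map_add, add_mul, mul_add, map_add, map_add, ← add_assoc]
      simpa [Function.update_apply, add_assoc] using h1
    have hspan := span_A1 ω hnd
    have key2 : ∀ y z : Module.End k V, LinearMap.trace k V (P (x * y - y * x) * z) +
        LinearMap.trace k V (P y * (x * z - z * x)) = 0 := by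
      intro y z
      induction hspan y using Submodule.span_induction with
      | mem y hy =>
        obtain ⟨a, b, rfl⟩ := hy
        induction hspan z using Submodule.span_induction with
        | mem z hz =>
          obtain ⟨c, d, rfl⟩ := hz
          exact key a b c d
        | zero => simp
        | add z z' _ _ hz hz' =>
          have e1 : x * (z + z') - (z + z') * x = (x * z - z * x) + (x * z' - z' * x) := by
            rw [mul_add, add_mul]
            abel
          rw [e1, mul_add, mul_add, map_add, map_add]
          linear_combination hz + hz'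
        | smul c z _ hz =>
          have e1 : x * (c • z) - (c • z) * x = c • (x * z - z * x) := by
            rw [mul_smul_comm, smul_mul_assoc, smul_sub]
          rw [e1, mul_smul_comm, mul_smul_comm, map_smul, map_smul, ← smul_add, hz, smul_zero]
      | zero => simp
      | add y y' _ _ hy hy' =>
        have e1 : x * (y + y') - (y + y') * x = (x * y - y * x) + (x * y' - y' * x) := by
          rw [mul_add, add_mul]
          abel
        rw [e1, map_add, map_add, add_mul, add_mul, map_add, map_add]
        linear_combination hy + hy'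
      | smul c y _ hy =>
        have e1 : x * (c • y) - (c • y) * x = c • (x * y - y * x) := by
          rw [mul_smul_comm, smul_mul_assoc, smul_sub]
        rw [e1, map_smul, map_smul, smul_mul_assoc, smul_mul_assoc, map_smul, map_smul, ← smul_add,
          hy, smul_zero]
    have key3 : P (x * y - y * x) = x * P y - P y * x := by
      rw [← sub_eq_zero]
      refine trace_nondeg fun z => ?_
      have h1 := key2 y z
      have h2 : LinearMap.trace k V (P y * (x * z - z * x)) =
          -LinearMap.trace k V ((x * P y - P y * x) * z) := by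
        have h3 := trace_br x (P y) z
        have h4 : LinearMap.trace k V (x * (P y * z - z * P y)) =
            -LinearMap.trace k V (P y * (x * z - z * x)) := by
          rw [mul_sub, mul_sub, map_sub, map_sub]
          have e1 : LinearMap.trace k V (x * (P y * z)) = LinearMap.trace k V (P y * (z * x)) := by
            rw [LinearMap.trace_mul_comm, mul_assoc]
          have e2 : LinearMap.trace k V (x * (z * P y)) = LinearMap.trace k V (P y * (x * z)) := by
            rw [← mul_assoc, LinearMap.trace_mul_comm]
          rw [e1, e2]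
          ring
        rw [h3, h4, neg_neg]
      rw [sub_mul, map_sub, sub_eq_zero]
      rw [h2] at h1
      linear_combination h1
    rw [hPL y hy] at key3
    rw [← key3]
    exact hP1 _

/-- The decomposition of an operator that kills the even invariant forms of degree four. -/
theorem four_split' (hnd : ∀ u, (∀ v, ω u v = 0) → u = 0)
    (hω : ∀ g u v, ω (ρ g u) (ρ g v) = χ g * ω u v) (hss : HasProj ρ) {p : Module.End k V}
    (hp : p * p = 1) (hpρ : ∀ g, p * ρ g = ρ g * p) (hωp : ∀ u v, ω (p u) (p v) = ω u v)
    {x : Module.End k V} (hxs : ∀ u w, ω (x u) w + ω u (x w) = 0)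
    (hx : ∀ φ, IsTate ρ χ 2 φ → (∀ v, φ (fun l => p (v l)) = φ v) → Kills x φ) :
    ∃ y ∈ lieT ρ χ, ∀ z ∈ lieT ρ χ, (x - y) * z = z * (x - y) := by
  have hL := orth_bot ω hnd hω hss
  obtain ⟨P, hP1, hP2⟩ := exists_orth_proj (lieT ρ χ) hL
  obtain ⟨φ, hφ1, hφ2⟩ := four_form hnd hL
  have hpc : ∀ y ∈ lieT ρ χ, p * y * p = y := by
    intro y hy
    have h1 : p * y = y * p := by
      refine LinearMap.ext fun v => ?_
      rw [Module.End.mul_apply, Module.End.mul_apply]
      exact (Pool.Agent.W839.OT.HTFam.comm ρ χ ω hnd hω ⊤ inferInstance p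
        (fun s _ v => LinearMap.congr_fun (hpρ s) v) y hy v).symm
    rw [h1, mul_assoc, hp, mul_one]
  have hxφ : Kills x φ := by
    refine hx φ ⟨⊤, inferInstance, fun g _ v => ?_⟩ ?_
    · refine hφ1 (ρ g) (ρ g⁻¹) (χ g) ?_ ?_ (hω g) (fun y hy => lieT_conj _ _ g hy)
        (fun y hy => ?_) v
      · rw [← map_mul, mul_inv_cancel, map_one]
      · rw [← map_mul, inv_mul_cancel, map_one]
      · have := lieT_conj ρ χ g⁻¹ hy
        rwa [inv_inv] at this
    · intro v
      have h1 := hφ1 p p 1 hp hp (fun u v => by rw [hωp, one_mul])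
        (fun y hy => by rw [hpc y hy]; exact hy) (fun y hy => by rw [hpc y hy]; exact hy) v
      rw [h1]
      ring
  refine ⟨P x, hP1 x, fun z hz => ?_⟩
  have h1 : (x - P x) * z - z * (x - P x) ∈ orth (lieT ρ χ) (lieT ρ χ) := by
    refine ⟨?_, fun c hc => ?_⟩
    · have h2 := hφ2 x hxs hxφ z hz
      have h3 := lieT_bracket _ _ (hP1 x) hz
      have h4 : (x - P x) * z - z * (x - P x) = (x * z - z * x) - (P x * z - z * P x) := by
        rw [sub_mul, mul_sub]
        abel
      rw [h4]
      exact Submodule.sub_mem _ h2 h3
    · rw [trace_br, sub_mul, map_sub, hP2 x _ (lieT_bracket _ _ hz hc), sub_self]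
  rw [hL, Submodule.mem_bot, sub_eq_zero] at h1
  exact h1

end

end Pool.Agent.E8helper56.TX
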