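import Mathlib
import Pool.Agent.E8helper1.TX.Lie

/-!
# Operators on tensor powers as multilinear forms
-/

set_option autoImplicit false
set_option linter.unusedSectionVars false

namespace Pool.Agent.E8helper56.TX

open Matrix Module Pool.Agent.E8helper1.TX
open Pool.Agent.H204R3.SP (Kills IsTate lieT)

variable {K : Type} [Field K] {n : Type} [Fintype n] [DecidableEq n] {m : ℕ}

/-- The index. -/
def ij (I J : Fin m → n) (l : Fin m × Fin 2) : n := if l.2 = 0 then I l.1 else J l.1

/-- The form given by a matrix. -/
noncomputable def frm (M : Matrix (Fin m → n) (Fin m → n) K) :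
    MultilinearMap K (fun _ : Fin m × Fin 2 => (n → K)) K :=
  ∑ I, ∑ J, M I J • (MultilinearMap.mkPiAlgebra K (Fin m × Fin 2) K).compLinearMap
    (fun l => LinearMap.proj (ij I J l))

theorem frm_apply (M : Matrix (Fin m → n) (Fin m → n) K) (v : Fin m × Fin 2 → (n → K)) :
    frm M v = ∑ I, ∑ J, M I J * ∏ l, v l (ij I J l) := by
  unfold frm
  rw [_root_.sum_apply]
  refine Finset.sum_congr rfl fun I _ => ?_
  rw [_root_.sum_apply]
  refine Finset.sum_congr rfl fun J _ => ?_
  rw [_root_.smul_apply, MultilinearMap.compLinearMap_apply,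
    MultilinearMap.mkPiAlgebra_apply, smul_eq_mul]
  rfl

theorem ij_eq (c : Fin m × Fin 2 → n) : ij (fun i => c (i, 0)) (fun i => c (i, 1)) = c := by
  funext l
  obtain ⟨i, s⟩ := l
  fin_cases s
  · rfl
  · rfl

theorem ij_inj {I J : Fin m → n} {c : Fin m × Fin 2 → n} (h : ∀ l, c l = ij I J l) :
    I = (fun i => c (i, 0)) ∧ J = (fun i => c (i, 1)) := by
  refine ⟨funext fun i => ?_, funext fun i => ?_⟩
  · rw [h]
    rfl
  · rw [h]
    rfl

theorem frm_prod (M : Matrix (Fin m → n) (Fin m → n) K) (v : Fin m × Fin 2 → (n → K)) :
    frm M v = ∑ I, ∑ J, M I J * ((∏ i, v (i, 0) (I i)) * ∏ i, v (i, 1) (J i)) := by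
  rw [frm_apply]
  refine Finset.sum_congr rfl fun I _ => Finset.sum_congr rfl fun J _ => ?_
  congr 1
  rw [Fintype.prod_prod_type_right, Fin.prod_univ_two]
  rfl

theorem frm_single (M : Matrix (Fin m → n) (Fin m → n) K) (c : Fin m × Fin 2 → n) :
    frm M (fun l => Pi.single (c l) 1) = M (fun i => c (i, 0)) (fun i => c (i, 1)) := by
  rw [frm_apply, Finset.sum_eq_single (fun i => c (i, 0)), Finset.sum_eq_single (fun i => c (i, 1))]
  · rw [ij_eq, Finset.prod_eq_one, mul_one]
    intro l _
    rw [Pi.single_eq_same]
  · intro J _ hJ
    have h1 : ∃ l, c l ≠ ij (fun i => c (i, 0)) J l := by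
      by_contra h2
      push Not at h2
      exact hJ (ij_inj h2).2
    obtain ⟨l, hl⟩ := h1
    rw [Finset.prod_eq_zero (Finset.mem_univ l), mul_zero]
    rw [Pi.single_eq_of_ne (Ne.symm hl)]
  · intro h
    exact absurd (Finset.mem_univ _) h
  · intro I _ hI
    refine Finset.sum_eq_zero fun J _ => ?_
    have h1 : ∃ l, c l ≠ ij I J l := by
      by_contra h2
      push Not at h2
      exact hI (ij_inj h2).1
    obtain ⟨l, hl⟩ := h1
    rw [Finset.prod_eq_zero (Finset.mem_univ l), mul_zero]
    rw [Pi.single_eq_of_ne (Ne.symm hl)]
  · intro h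
    exact absurd (Finset.mem_univ _) h

theorem frm_ext {φ ψ : MultilinearMap K (fun _ : Fin m × Fin 2 => (n → K)) K}
    (h : ∀ c : Fin m × Fin 2 → n, φ (fun l => Pi.single (c l) 1) =
      ψ (fun l => Pi.single (c l) 1)) : φ = ψ := by
  refine Basis.ext_multilinear (fun _ => Pi.basisFun K n) fun c => ?_
  have h1 : (fun l : Fin m × Fin 2 => (Pi.basisFun K n) (c l)) =
      fun l => Pi.single (c l) (1 : K) := by
    funext l
    rw [Pi.basisFun_apply]
  rw [h1]
  exact h c

theorem frm_inj {M M' : Matrix (Fin m → n) (Fin m → n) K} (h : frm M = frm M') : M = M' := by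
  ext I J
  have h1 := frm_single M (ij I J)
  have h2 := frm_single M' (ij I J)
  rw [h] at h1
  rw [h1] at h2
  exact h2

/-- The matrix of a form. -/
def mfr (φ : MultilinearMap K (fun _ : Fin m × Fin 2 => (n → K)) K) :
    Matrix (Fin m → n) (Fin m → n) K :=
  fun I J => φ (fun l => Pi.single (ij I J l) 1)

theorem frm_mfr (φ : MultilinearMap K (fun _ : Fin m × Fin 2 => (n → K)) K) :
    frm (mfr φ) = φ := by
  refine frm_ext fun c => ?_
  rw [frm_single]
  unfold mfr
  rw [ij_eq]

theorem frm_comp (M : Matrix (Fin m → n) (Fin m → n) K) (G : Matrix n n K)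
    (v : Fin m × Fin 2 → (n → K)) :
    frm M (fun l => G *ᵥ v l) = frm ((tpowK K G m)ᵀ * M * tpowK K G m) v := by
  have h1 : (frm M).compLinearMap (fun _ => Matrix.toLin' G) =
      frm ((tpowK K G m)ᵀ * M * tpowK K G m) := by
    refine frm_ext fun c => ?_
    rw [frm_single, MultilinearMap.compLinearMap_apply, frm_prod, Matrix.mul_apply]
    have e1 : ∀ l, (Matrix.toLin' G) (Pi.single (c l) 1) = fun a => G a (c l) := by
      intro l
      rw [Matrix.toLin'_apply, Matrix.mulVec_single_one]
      rfl
    simp only [e1]
    rw [Finset.sum_comm]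
    refine Finset.sum_congr rfl fun J _ => ?_
    rw [Matrix.mul_apply, Finset.sum_mul]
    refine Finset.sum_congr rfl fun I _ => ?_
    rw [Matrix.transpose_apply]
    unfold tpowK
    ring
  have h2 := congrArg (fun φ : MultilinearMap K (fun _ : Fin m × Fin 2 => (n → K)) K => φ v) h1
  simp only [MultilinearMap.compLinearMap_apply] at h2
  exact h2

theorem sum_off (i : Fin m) (J : Fin m → n) (f : (Fin m → n) → K) :
    (∑ I, if ∀ j, j ≠ i → I j = J j then f I else 0) = ∑ a, f (Function.update J i a) := by
  rw [← Finset.sum_filter]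
  symm
  refine Finset.sum_bij (fun a _ => Function.update J i a) ?_ ?_ ?_ ?_
  · intro a _
    rw [Finset.mem_filter]
    exact ⟨Finset.mem_univ _, fun j hj => Function.update_of_ne hj _ _⟩
  · intro a _ b _ h
    have h1 := congrFun h i
    rwa [Function.update_self, Function.update_self] at h1
  · intro I hI
    rw [Finset.mem_filter] at hI
    refine ⟨I i, Finset.mem_univ _, ?_⟩
    funext j
    by_cases hj : j = i
    · subst hj
      rw [Function.update_self]
    · rw [Function.update_of_ne hj, hI.2 j hj]
  · intro a _
    rfl

theorem frm_kill (M : Matrix (Fin m → n) (Fin m → n) K) (x : Matrix n n K)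
    (v : Fin m × Fin 2 → (n → K)) :
    ∑ k, frm M (Function.update v k (x *ᵥ v k)) =
      frm ((dpowK K x m)ᵀ * M + M * dpowK K x m) v := by
  have h1 : (∑ k, (frm M).compLinearMap (fun l => if l = k then Matrix.toLin' x else
      LinearMap.id)) = frm ((dpowK K x m)ᵀ * M + M * dpowK K x m) := by
    refine frm_ext fun c => ?_
    rw [frm_single, _root_.sum_apply]
    have e1 : ∀ k, ((frm M).compLinearMap (fun l => if l = k then Matrix.toLin' x else
        LinearMap.id)) (fun l => Pi.single (c l) 1) =
        ∑ a, x a (c k) * M (fun i => (Function.update c k a) (i, 0))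
          (fun i => (Function.update c k a) (i, 1)) := by
      intro k
      rw [MultilinearMap.compLinearMap_apply]
      have e2 : (fun l => (if l = k then Matrix.toLin' x else LinearMap.id)
          (Pi.single (c l) (1 : K))) = Function.update (fun l => Pi.single (c l) (1 : K)) k
          (∑ a, x a (c k) • Pi.single a (1 : K)) := by
        funext l
        by_cases hl : l = k
        · subst hl
          rw [if_pos rfl, Function.update_self, Matrix.toLin'_apply, Matrix.mulVec_single_one]
          funext b
          rw [Finset.sum_apply]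
          simp only [Pi.smul_apply, smul_eq_mul, Pi.single_apply]
          simp
        · rw [if_neg hl, Function.update_of_ne hl]
          rfl
      rw [e2, MultilinearMap.map_update_sum]
      refine Finset.sum_congr rfl fun a _ => ?_
      rw [MultilinearMap.map_update_smul, smul_eq_mul]
      congr 1
      refine Eq.trans ?_ (frm_single M (Function.update c k a))
      congr 1
      funext l
      by_cases hl : l = k
      · subst hl
        rw [Function.update_self, Function.update_self]
      · rw [Function.update_of_ne hl, Function.update_of_ne hl]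
    rw [Finset.sum_congr rfl fun k _ => e1 k, Fintype.sum_prod_type_right, Fin.sum_univ_two,
      Matrix.add_apply, Matrix.mul_apply, Matrix.mul_apply]
    congr 1
    · simp only [Matrix.transpose_apply, dpowK]
      simp only [Finset.sum_mul, ite_mul, zero_mul]
      conv_rhs => rw [Finset.sum_comm]
      refine Finset.sum_congr rfl fun i _ => ?_
      rw [sum_off i (fun i => c (i, 0)) (fun I => x (I i) (c (i, 0)) * M I fun i => c (i, 1))]
      refine Finset.sum_congr rfl fun a _ => ?_
      rw [Function.update_self]
      congr 2
      · funext j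
        by_cases hj : j = i
        · subst hj
          rw [Function.update_self, Function.update_self]
        · rw [Function.update_of_ne hj, Function.update_of_ne (fun h => hj (congrArg Prod.fst h))]
      · funext j
        rw [Function.update_of_ne (fun h => by simpa using congrArg Prod.snd h)]
    · simp only [dpowK, Finset.mul_sum, mul_ite, mul_zero]
      conv_rhs => rw [Finset.sum_comm]
      refine Finset.sum_congr rfl fun i _ => ?_
      rw [sum_off i (fun i => c (i, 1)) (fun J => M (fun i => c (i, 0)) J * x (J i) (c (i, 1)))]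
      refine Finset.sum_congr rfl fun a _ => ?_
      rw [Function.update_self, mul_comm]
      congr 2
      · funext j
        rw [Function.update_of_ne (fun h => by simpa using congrArg Prod.snd h)]
      · funext j
        by_cases hj : j = i
        · subst hj
          rw [Function.update_self, Function.update_self]
        · rw [Function.update_of_ne hj, Function.update_of_ne (fun h => hj (congrArg Prod.fst h))]
  rw [← h1, _root_.sum_apply]
  refine Finset.sum_congr rfl fun k _ => ?_
  rw [MultilinearMap.compLinearMap_apply]
  congr 1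
  funext l
  by_cases hl : l = k
  · subst hl
    rw [Function.update_self, if_pos rfl, Matrix.toLin'_apply]
  · rw [Function.update_of_ne hl, if_neg hl]
    rfl

end Pool.Agent.E8helper56.TX
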