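import Mathlib
import Pool.Agent.E8helper56.TX.Frm

/-!
# Tensor powers of matrices and bilinear forms
-/

set_option autoImplicit false
set_option linter.unusedSectionVars false

namespace Pool.Agent.E8helper56.TX

open Matrix Module Pool.Agent.E8helper1.TX
open Pool.Agent.H204R3.SP (Kills IsTate lieT)

variable {K : Type} [Field K] {n : Type} [Fintype n] [DecidableEq n]

/-- One factor `y`, the others `G`. -/
def mtK (y G : Matrix n n K) (m : ℕ) : Matrix (Fin m → n) (Fin m → n) K :=
  fun I J => ∑ i, y (I i) (J i) * ∏ j ∈ Finset.univ.erase i, G (I j) (J j)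

theorem tpowK_mul (a b : Matrix n n K) (m : ℕ) :
    tpowK K (a * b) m = tpowK K a m * tpowK K b m := by
  ext I J
  rw [Matrix.mul_apply]
  unfold tpowK
  simp only [Matrix.mul_apply]
  rw [Finset.prod_univ_sum, Fintype.piFinset_univ]
  refine Finset.sum_congr rfl fun L _ => ?_
  rw [Finset.prod_mul_distrib]

theorem tpowK_one (m : ℕ) : tpowK K (1 : Matrix n n K) m = 1 := by
  ext I J
  unfold tpowK
  by_cases h : I = J
  · subst h
    rw [Matrix.one_apply_eq]
    exact Finset.prod_eq_one fun i _ => Matrix.one_apply_eq _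
  · rw [Matrix.one_apply_ne h]
    obtain ⟨i, hi⟩ := Function.ne_iff.1 h
    exact Finset.prod_eq_zero (Finset.mem_univ i) (Matrix.one_apply_ne hi)

theorem tpowK_pow (a : Matrix n n K) (m k : ℕ) : tpowK K (a ^ k) m = (tpowK K a m) ^ k := by
  induction k with
  | zero => rw [pow_zero, pow_zero, tpowK_one]
  | succ k ih => rw [pow_succ, pow_succ, tpowK_mul, ih]

theorem tpowK_transpose (a : Matrix n n K) (m : ℕ) : (tpowK K a m)ᵀ = tpowK K aᵀ m := rfl

theorem dpowK_transpose (a : Matrix n n K) (m : ℕ) : (dpowK K a m)ᵀ = dpowK K aᵀ m := by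
  ext I J
  rw [Matrix.transpose_apply]
  unfold dpowK
  refine Finset.sum_congr rfl fun i _ => ?_
  have h : (∀ j, j ≠ i → J j = I j) ↔ (∀ j, j ≠ i → I j = J j) :=
    ⟨fun h j hj => (h j hj).symm, fun h j hj => (h j hj).symm⟩
  by_cases h1 : ∀ j, j ≠ i → I j = J j
  · rw [if_pos h1, if_pos (h.2 h1)]
    rfl
  · rw [if_neg h1, if_neg (fun h2 => h1 (h.1 h2))]

theorem dpow_tpow (x G : Matrix n n K) (m : ℕ) :
    dpowK K x m * tpowK K G m = mtK (x * G) G m := by
  ext I J
  rw [Matrix.mul_apply]
  unfold dpowK tpowK mtK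
  simp only [Finset.sum_mul, ite_mul, zero_mul]
  rw [Finset.sum_comm]
  refine Finset.sum_congr rfl fun i _ => ?_
  have e0 : ∀ L : Fin m → n, (∀ j, j ≠ i → I j = L j) ↔ (∀ j, j ≠ i → L j = I j) := fun L =>
    ⟨fun h j hj => (h j hj).symm, fun h j hj => (h j hj).symm⟩
  simp only [e0]
  rw [sum_off i I (fun L => x (I i) (L i) * ∏ j, G (L j) (J j)), Matrix.mul_apply, Finset.sum_mul]
  refine Finset.sum_congr rfl fun a _ => ?_
  rw [Function.update_self, ← Finset.mul_prod_erase _ _ (Finset.mem_univ i), Function.update_self,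
    mul_assoc]
  congr 2
  refine Finset.prod_congr rfl fun j hj => ?_
  rw [Function.update_of_ne (Finset.ne_of_mem_erase hj)]

theorem tpow_dpowK (x G : Matrix n n K) (m : ℕ) :
    tpowK K G m * dpowK K x m = mtK (G * x) G m := by
  have h1 := congrArg Matrix.transpose (dpow_tpow xᵀ Gᵀ m)
  rw [Matrix.transpose_mul, tpowK_transpose, dpowK_transpose, Matrix.transpose_transpose,
    Matrix.transpose_transpose] at h1
  rw [h1]
  ext I J
  rw [Matrix.transpose_apply]
  unfold mtK
  rw [← Matrix.transpose_mul]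
  rfl

theorem mtK_neg (y G : Matrix n n K) (m : ℕ) : mtK (-y) G m = -mtK y G m := by
  ext I J
  rw [Matrix.neg_apply]
  unfold mtK
  rw [← Finset.sum_neg_distrib]
  refine Finset.sum_congr rfl fun i _ => ?_
  rw [Matrix.neg_apply, neg_mul]

theorem skew_tpow {B x : Matrix n n K} (hx : xᵀ * B = -(B * x)) (m : ℕ) :
    (dpowK K x m)ᵀ * tpowK K B m = -(tpowK K B m * dpowK K x m) := by
  rw [dpowK_transpose, dpow_tpow, hx, mtK_neg, tpow_dpowK]

theorem tpowK_unit {B : Matrix n n K} (hB : IsUnit B.det) (m : ℕ) :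
    IsUnit (tpowK K B m).det := by
  have h1 : tpowK K B m * tpowK K B⁻¹ m = 1 := by
    rw [← tpowK_mul, Matrix.mul_nonsing_inv _ hB, tpowK_one]
  have h2 := congrArg Matrix.det h1
  rw [Matrix.det_mul, Matrix.det_one] at h2
  exact IsUnit.of_mul_eq_one _ h2

theorem cancel_left {N : Type} [Fintype N] [DecidableEq N] {B X Y : Matrix N N K}
    (hB : IsUnit B.det) (h : B * X = B * Y) : X = Y := by
  have h1 := congrArg (fun Z => B⁻¹ * Z) h
  simp only [← Matrix.mul_assoc, Matrix.nonsing_inv_mul _ hB, Matrix.one_mul] at h1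
  exact h1

/-- Killing the form means commuting with the derivation. -/
theorem kill_iff {m : ℕ} {B x : Matrix n n K} (hB : IsUnit B.det) (hx : xᵀ * B = -(B * x))
    (A : Matrix (Fin m → n) (Fin m → n) K) :
    Kills (Matrix.toLin' x) (frm (tpowK K B m * A)) ↔ A * dpowK K x m = dpowK K x m * A := by
  have h0 : (dpowK K x m)ᵀ * (tpowK K B m * A) + tpowK K B m * A * dpowK K x m =
      tpowK K B m * (A * dpowK K x m - dpowK K x m * A) := by
    rw [← Matrix.mul_assoc, skew_tpow hx, Matrix.neg_mul, Matrix.mul_sub, Matrix.mul_assoc,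
      Matrix.mul_assoc]
    abel
  have h1 : Kills (Matrix.toLin' x) (frm (tpowK K B m * A)) ↔
      frm (tpowK K B m * (A * dpowK K x m - dpowK K x m * A)) = frm 0 := by
    rw [← h0]
    constructor
    · intro h
      refine MultilinearMap.ext fun v => ?_
      rw [← frm_kill]
      have h2 := h v
      simp only [Matrix.toLin'_apply] at h2
      rw [h2, frm_apply]
      simp only [Matrix.zero_apply, zero_mul, Finset.sum_const_zero]
    · intro h v
      simp only [Matrix.toLin'_apply]
      rw [frm_kill, h, frm_apply]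
      simp only [Matrix.zero_apply, zero_mul, Finset.sum_const_zero]
  rw [h1]
  constructor
  · intro h
    have h2 := frm_inj h
    have h3 : tpowK K B m * (A * dpowK K x m - dpowK K x m * A) = tpowK K B m * 0 := by
      rw [h2, Matrix.mul_zero]
    exact sub_eq_zero.1 (cancel_left (tpowK_unit hB m) h3)
  · intro h
    rw [h, sub_self, Matrix.mul_zero]

/-- Invariance of the form means commuting with the tensor power. -/
theorem inv_iff {m : ℕ} {B G : Matrix n n K} (hB : IsUnit B.det) (hG : Gᵀ * B * G = B)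
    (A : Matrix (Fin m → n) (Fin m → n) K) :
    (∀ v, frm (tpowK K B m * A) (fun l => G *ᵥ v l) = frm (tpowK K B m * A) v) ↔
      A * tpowK K G m = tpowK K G m * A := by
  have hT : (tpowK K G m)ᵀ * tpowK K B m * tpowK K G m = tpowK K B m := by
    rw [tpowK_transpose, ← tpowK_mul, ← tpowK_mul, hG]
  have hU : IsUnit ((tpowK K G m)ᵀ * tpowK K B m).det := by
    have h1 := tpowK_unit hB m
    rw [← hT, Matrix.det_mul] at h1
    exact isUnit_of_mul_isUnit_left h1
  have h1 : (∀ v, frm (tpowK K B m * A) (fun l => G *ᵥ v l) = frm (tpowK K B m * A) v) ↔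
      (tpowK K G m)ᵀ * (tpowK K B m * A) * tpowK K G m = tpowK K B m * A := by
    constructor
    · intro h
      refine frm_inj (MultilinearMap.ext fun v => ?_)
      rw [← frm_comp]
      exact h v
    · intro h v
      rw [frm_comp, h]
  rw [h1]
  constructor
  · intro h
    refine cancel_left hU ?_
    rw [← Matrix.mul_assoc, ← Matrix.mul_assoc, Matrix.mul_assoc (tpowK K G m)ᵀ, h, hT]
  · intro h
    rw [← Matrix.mul_assoc, Matrix.mul_assoc _ A, h, ← Matrix.mul_assoc, hT]

/-- The tensor product of two matrices. -/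
def t2 (a b : Matrix n n K) : Matrix (Fin 2 → n) (Fin 2 → n) K :=
  fun I J => a (I 0) (J 0) * b (I 1) (J 1)

theorem sum_twoK {f : (Fin 2 → n) → K} : ∑ I, f I = ∑ a, ∑ b, f ![a, b] := by
  rw [← Fintype.sum_prod_type']
  exact (Fintype.sum_equiv (finTwoArrowEquiv n).symm _ _ fun p => rfl).symm

theorem t2_mul (a b c d : Matrix n n K) : t2 a b * t2 c d = t2 (a * c) (b * d) := by
  ext I J
  rw [Matrix.mul_apply, sum_twoK]
  unfold t2
  rw [Matrix.mul_apply, Matrix.mul_apply, Finset.sum_mul_sum]
  refine Finset.sum_congr rfl fun i _ => Finset.sum_congr rfl fun j _ => ?_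
  simp only [Matrix.cons_val_zero, Matrix.cons_val_one]
  ring

theorem tpowK_two (a : Matrix n n K) : tpowK K a 2 = t2 a a := by
  ext I J
  unfold tpowK t2
  rw [Fin.prod_univ_two]

theorem dpowK_two (x : Matrix n n K) : dpowK K x 2 = t2 x 1 + t2 1 x := by
  ext I J
  rw [Matrix.add_apply]
  unfold dpowK t2
  rw [Fin.sum_univ_two]
  congr 1
  · by_cases h : I 1 = J 1
    · rw [if_pos, h, Matrix.one_apply_eq, mul_one]
      intro j hj
      fin_cases j
      · exact absurd rfl hj
      · exact h
    · rw [if_neg, Matrix.one_apply_ne h, mul_zero]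
      exact fun h1 => h (h1 1 (by decide))
  · by_cases h : I 0 = J 0
    · rw [if_pos, h, Matrix.one_apply_eq, one_mul]
      intro j hj
      fin_cases j
      · exact h
      · exact absurd rfl hj
    · rw [if_neg, Matrix.one_apply_ne h, zero_mul]
      exact fun h1 => h (h1 0 (by decide))

theorem t2_sub (a b c : Matrix n n K) : t2 (a - b) c = t2 a c - t2 b c := by
  ext I J
  simp only [t2, Matrix.sub_apply]
  ring

theorem t2_comm {z x : Matrix n n K} (h : t2 z 1 * dpowK K x 2 = dpowK K x 2 * t2 z 1) :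
    z * x = x * z := by
  have h1 : t2 (z * x) (1 : Matrix n n K) = t2 (x * z) 1 := by
    rw [dpowK_two, Matrix.mul_add, Matrix.add_mul, t2_mul, t2_mul, t2_mul, t2_mul] at h
    simp only [Matrix.one_mul, Matrix.mul_one] at h
    exact add_right_cancel h
  ext i j
  have h2 := congrFun (congrFun h1 ![i, i]) ![j, i]
  change (z * x) i j * (1 : Matrix n n K) i i = (x * z) i j * (1 : Matrix n n K) i i at h2
  rw [Matrix.one_apply_eq, mul_one, mul_one] at h2
  exact h2

theorem dpowK_sub_smul (x : Matrix n n K) (c : K) :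
    dpowK K (x - c • 1) 2 = dpowK K x 2 - (2 * c) • 1 := by
  rw [dpowK_two, dpowK_two]
  ext I J
  simp only [Matrix.add_apply, Matrix.sub_apply, Matrix.smul_apply, t2, smul_eq_mul]
  have h1 : (1 : Matrix (Fin 2 → n) (Fin 2 → n) K) I J =
      (1 : Matrix n n K) (I 0) (J 0) * (1 : Matrix n n K) (I 1) (J 1) := by
    have := tpowK_one (K := K) (n := n) 2
    rw [← this, tpowK_two]
    rfl
  rw [h1]
  ring

end Pool.Agent.E8helper56.TX
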