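import Mathlib
import Pool.Agent.E8helper56.TX.OpK
import Pool.Agent.E8helper56.TX.FourE

/-!
# The operators that commute with the Tate tensors of degree two
-/

set_option autoImplicit false
set_option linter.unusedSectionVars false

namespace Pool.Agent.E8helper56.TX

open Matrix Module Pool.Agent.E8helper1.TX
open Pool.Agent.H204R3.SP (Kills IsTate lieT)
open Pool.Agent.H204R3.GP (HasProj)
open Pool.Agent.Y126.Notions (PotentiallySemisimple)
open Pool.Agent.E8helper1.CT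

/-- Invariant subspaces have equivariant projections. -/
theorem hasProj_of' {k V Γ : Type} [Field k] [AddCommGroup V] [Module k V] [Group Γ]
    {ρ : Representation k Γ V} (h : PotentiallySemisimple ρ) : HasProj ρ := by
  intro Δ hΔ U hU
  obtain ⟨U', hU', hc⟩ := h Δ hΔ U hU
  refine ⟨U.subtype ∘ₗ U.projectionOnto U' hc, fun v => Submodule.coe_mem _, fun u hu => ?_,
    fun s hs v => ?_⟩
  · rw [LinearMap.comp_apply, Submodule.projectionOnto_apply_left hc ⟨u, hu⟩]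
    rfl
  · obtain ⟨a, b, rfl⟩ : ∃ (a : U) (b : U'), (a : V) + b = v := by
      have hv : v ∈ U ⊔ U' := by
        rw [hc.sup_eq_top]
        exact Submodule.mem_top
      obtain ⟨a, ha, b, hb, rfl⟩ := Submodule.mem_sup.1 hv
      exact ⟨⟨a, ha⟩, ⟨b, hb⟩, rfl⟩
    have e : ∀ (a : U) (b : U'), (U.subtype ∘ₗ U.projectionOnto U' hc) ((a : V) + b) = a := by
      intro a b
      rw [LinearMap.comp_apply, map_add, Submodule.projectionOnto_apply_left hc a,
        Submodule.projectionOnto_apply_right hc b, add_zero]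
      rfl
    rw [e a b, map_add]
    exact e ⟨ρ s a, hU s hs a a.2⟩ ⟨ρ s b, hU' s hs b b.2⟩

section gen

variable {K : Type} [Field K] {n : Type} [Fintype n] [DecidableEq n] {Γ : Type} [Group Γ]

theorem mrep_apply (R : Γ →* Matrix n n K) (g : Γ) (v : n → K) : mrep R g v = R g *ᵥ v := rfl

/-- The bilinear form given by a matrix. -/
noncomputable def om (B : Matrix n n K) : (n → K) →ₗ[K] (n → K) →ₗ[K] K :=
  Matrix.toLinearMap₂' K B

theorem om_apply (B : Matrix n n K) (u w : n → K) : om B u w = u ⬝ᵥ (B *ᵥ w) :=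
  Matrix.toLinearMap₂'_apply' _ _ _

theorem om_single (B : Matrix n n K) (i j : n) :
    om B (Pi.single i 1) (Pi.single j 1) = B i j := by
  rw [om_apply, Matrix.mulVec_single_one, single_one_dotProduct]
  rfl

theorem om_mulVec (B G H : Matrix n n K) (u w : n → K) :
    om B (G *ᵥ u) (H *ᵥ w) = om (Gᵀ * B * H) u w := by
  rw [om_apply, om_apply, ← Matrix.mulVec_mulVec, ← Matrix.mulVec_mulVec,
    Matrix.dotProduct_mulVec u, Matrix.vecMul_transpose]

theorem om_ext {B C : Matrix n n K} (h : ∀ u w, om B u w = om C u w) : B = C := by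
  ext i j
  rw [← om_single B, h, om_single]

theorem om_add (B C : Matrix n n K) (u w : n → K) : om (B + C) u w = om B u w + om C u w := by
  rw [om_apply, om_apply, om_apply, Matrix.add_mulVec, dotProduct_add]

theorem om_nd {B : Matrix n n K} (hB : IsUnit B.det) (u : n → K) (h : ∀ v, om B u v = 0) :
    u = 0 := by
  have h1 : u ᵥ* B = 0 := by
    funext j
    have h2 := h (Pi.single j 1)
    rw [om_apply, Matrix.dotProduct_mulVec, dotProduct_single, mul_one] at h2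
    exact h2
  have h3 := congrArg (fun w => w ᵥ* B⁻¹) h1
  simp only [Matrix.vecMul_vecMul, Matrix.mul_nonsing_inv _ hB, Matrix.vecMul_one,
    Matrix.zero_vecMul] at h3
  exact h3

theorem skew_iff {B x : Matrix n n K} :
    xᵀ * B = -(B * x) ↔ ∀ u w, om B (x *ᵥ u) w + om B u (x *ᵥ w) = 0 := by
  have h0 : ∀ u w, om B (x *ᵥ u) w + om B u (x *ᵥ w) = om (xᵀ * B + B * x) u w := by
    intro u w
    have h1 := om_mulVec B x 1 u w
    have h2 := om_mulVec B 1 x u w
    rw [Matrix.one_mulVec, Matrix.mul_one] at h1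
    rw [Matrix.one_mulVec, Matrix.transpose_one, Matrix.one_mul] at h2
    rw [h1, h2, om_add]
  constructor
  · intro h u w
    rw [h0, h, neg_add_cancel, om_apply, Matrix.zero_mulVec, dotProduct_zero]
  · intro h
    rw [eq_neg_iff_add_eq_zero]
    refine om_ext fun u w => ?_
    rw [← h0, h, om_apply, Matrix.zero_mulVec, dotProduct_zero]

/-- The operator `a ⊗ b ↦ C (a, b) e ⊗ e`. -/
def opE (e : n → K) (C : Matrix n n K) : Matrix (Fin 2 → n) (Fin 2 → n) K :=
  fun I J => e (I 0) * e (I 1) * C (J 0) (J 1)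

theorem opE_mul (e : n → K) (C G H : Matrix n n K) :
    opE e C * t2 G H = opE e (Gᵀ * C * H) := by
  ext I J
  rw [Matrix.mul_apply, sum_twoK]
  unfold opE t2
  rw [Matrix.mul_apply, Finset.mul_sum, Finset.sum_comm]
  refine Finset.sum_congr rfl fun b _ => ?_
  rw [Matrix.mul_apply, Finset.sum_mul, Finset.mul_sum]
  refine Finset.sum_congr rfl fun a _ => ?_
  simp only [Matrix.cons_val_zero, Matrix.cons_val_one, Matrix.transpose_apply]
  ring

theorem mul_opE (e : n → K) (C G H : Matrix n n K) (I J : Fin 2 → n) :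
    (t2 G H * opE e C) I J = (G *ᵥ e) (I 0) * (H *ᵥ e) (I 1) * C (J 0) (J 1) := by
  rw [Matrix.mul_apply, sum_twoK]
  unfold opE t2 Matrix.mulVec dotProduct
  rw [Finset.sum_mul_sum, Finset.sum_mul]
  refine Finset.sum_congr rfl fun a _ => ?_
  rw [Finset.sum_mul]
  refine Finset.sum_congr rfl fun b _ => ?_
  simp only [Matrix.cons_val_zero, Matrix.cons_val_one]
  ring

theorem opE_add (e : n → K) (C C' : Matrix n n K) : opE e (C + C') = opE e C + opE e C' := by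
  ext I J
  simp only [opE, Matrix.add_apply]
  ring

variable {R : Γ →* Matrix n n K} {p : Matrix n n K}

theorem pot_comm {x z : Matrix n n K}
    (hx : ∀ A ∈ PotOp R p 2, A * dpowK _ x 2 = dpowK _ x 2 * A) (hz : IsPot R p z) :
    z * x = x * z := by
  obtain ⟨⟨Δ, hΔ, h1⟩, h2⟩ := hz
  refine t2_comm (hx (t2 z 1) ⟨⟨Δ, hΔ, fun g hg => ?_⟩, ?_⟩)
  · rw [tpowK_two, t2_mul, t2_mul, h1 g hg, Matrix.one_mul, Matrix.mul_one]
  · rw [tpowK_two, t2_mul, t2_mul, h2, Matrix.one_mul, Matrix.mul_one]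

theorem eig_of {x : Matrix n n K}
    (hx : ∀ A ∈ PotOp R p 2, A * dpowK _ x 2 = dpowK _ x 2 * A)
    {e t : n → K} (ht0 : t ≠ 0) (he : ∀ g, R g *ᵥ e = e) (hep : p *ᵥ e = e)
    (ht : ∀ g, t ᵥ* R g = t) (htp : t ᵥ* p = t) : ∃ c : K, x *ᵥ e = c • e := by
  have hz : IsPot R p (vecMulVec e t) := by
    refine ⟨⟨⊤, inferInstance, fun g _ => ?_⟩, ?_⟩
    · rw [Matrix.vecMulVec_mul, Matrix.mul_vecMulVec, he, ht]
    · rw [Matrix.vecMulVec_mul, Matrix.mul_vecMulVec, hep, htp]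
  have h1 := pot_comm hx hz
  rw [Matrix.vecMulVec_mul, Matrix.mul_vecMulVec] at h1
  obtain ⟨j, hj⟩ := Function.ne_iff.1 ht0
  refine ⟨(t ᵥ* x) j / t j, ?_⟩
  funext i
  have h2 := congrFun (congrFun h1 i) j
  rw [Matrix.vecMulVec_apply, Matrix.vecMulVec_apply] at h2
  rw [Pi.smul_apply, smul_eq_mul, div_mul_eq_mul_div, eq_div_iff hj, ← h2, mul_comm]

theorem skew_of {x B : Matrix n n K}
    (hx : ∀ A ∈ PotOp R p 2, A * dpowK _ x 2 = dpowK _ x 2 * A)
    {e : n → K} (he0 : e ≠ 0) (he : ∀ g, R g *ᵥ e = e) (hep : p *ᵥ e = e)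
    (hB : ∀ g, (R g)ᵀ * B * R g = B) (hBp : pᵀ * B * p = B) (hxe : x *ᵥ e = 0) :
    xᵀ * B = -(B * x) := by
  have hm : ∀ G : Matrix n n K, Gᵀ * B * G = B → G *ᵥ e = e →
      opE e B * tpowK K G 2 = tpowK K G 2 * opE e B := by
    intro G h1 h2
    rw [tpowK_two, opE_mul, h1]
    ext I J
    rw [mul_opE, h2]
    rfl
  have h1 := hx (opE e B) ⟨⟨⊤, inferInstance, fun g _ => hm _ (hB g) (he g)⟩, hm _ hBp hep⟩
  rw [dpowK_two, Matrix.mul_add, Matrix.add_mul, opE_mul, opE_mul, Matrix.transpose_one,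
    Matrix.one_mul, Matrix.mul_one, ← opE_add] at h1
  obtain ⟨i, hi⟩ := Function.ne_iff.1 he0
  rw [eq_neg_iff_add_eq_zero]
  ext a b
  have h2 := congrFun (congrFun h1 ![i, i]) ![a, b]
  rw [Matrix.add_apply, mul_opE, mul_opE, hxe] at h2
  change e i * e i * (xᵀ * B + B * x) a b = 0 * _ * _ + _ * 0 * _ at h2
  rw [zero_mul, zero_mul, mul_zero, zero_mul, add_zero] at h2
  exact (mul_eq_zero.1 h2).resolve_left (mul_ne_zero hi hi)

/-- Potential operators give Tate forms. -/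
theorem isTate_of {B : Matrix n n K} (hBu : IsUnit B.det) (hB : ∀ g, (R g)ᵀ * B * R g = B)
    {m : ℕ} {A : Matrix (Fin m → n) (Fin m → n) K} (hA : A ∈ PotOp R p m) :
    IsTate (mrep R) (1 : Γ →* K) m (frm (tpowK K B m * A)) := by
  obtain ⟨⟨Δ, hΔ, h1⟩, -⟩ := hA
  refine ⟨Δ, hΔ, fun s hs v => ?_⟩
  rw [MonoidHom.one_apply, one_pow, one_mul]
  exact (inv_iff hBu (hB s) A).2 (h1 s hs) v

theorem exists_op {B : Matrix n n K} (hBu : IsUnit B.det) {m : ℕ}
    (φ : MultilinearMap K (fun _ : Fin m × Fin 2 => (n → K)) K) :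
    ∃ A, φ = frm (tpowK K B m * A) := by
  refine ⟨(tpowK K B m)⁻¹ * mfr φ, ?_⟩
  rw [← Matrix.mul_assoc, Matrix.mul_nonsing_inv _ (tpowK_unit hBu m), Matrix.one_mul, frm_mfr]

theorem potOp_of {B : Matrix n n K} (hBu : IsUnit B.det) (hB : ∀ g, (R g)ᵀ * B * R g = B)
    (hBp : pᵀ * B * p = B)
    {m : ℕ} {A : Matrix (Fin m → n) (Fin m → n) K}
    (h : IsTate (mrep R) (1 : Γ →* K) m (frm (tpowK K B m * A)))
    (hp : ∀ v, frm (tpowK K B m * A) (fun l => p *ᵥ v l) = frm (tpowK K B m * A) v) :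
    A ∈ PotOp R p m := by
  obtain ⟨Δ, hΔ, h1⟩ := h
  refine ⟨⟨Δ, hΔ, fun g hg => ?_⟩, (inv_iff hBu hBp A).1 hp⟩
  refine (inv_iff hBu (hB g) A).1 fun v => ?_
  have h2 := h1 g hg v
  rw [MonoidHom.one_apply, one_pow, one_mul] at h2
  exact h2

end gen

variable {ℓ : ℕ} [Fact ℓ.Prime] {n : Type} [Fintype n] [DecidableEq n] {Γ : Type} [Group Γ]

theorem om_inv (D : GalData ℓ n Γ) (g : Γ) (u v : n → ℚ_[ℓ]) :
    om D.B (mrep D.R g u) (mrep D.R g v) = (1 : Γ →* ℚ_[ℓ]) g * om D.B u v := by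
  rw [MonoidHom.one_apply, one_mul, mrep_apply, mrep_apply, om_mulVec, D.B_inv]

/-- The Lie algebra that kills all Tate forms commutes with the potential operators. -/
theorem lieT_comm (D : GalData ℓ n Γ) {y : Module.End ℚ_[ℓ] (n → ℚ_[ℓ])}
    (hy : y ∈ lieT (mrep D.R) (1 : Γ →* ℚ_[ℓ])) :
    (∀ m, ∀ A ∈ PotOp D.R D.p m, A * dpowK _ (LinearMap.toMatrix' y) m =
      dpowK _ (LinearMap.toMatrix' y) m * A) ∧
    (LinearMap.toMatrix' y)ᵀ * D.B = -(D.B * LinearMap.toMatrix' y) := by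
  have h1 : ∀ v, LinearMap.toMatrix' y *ᵥ v = y v := fun v => LinearMap.toMatrix'_mulVec y v
  have hs : (LinearMap.toMatrix' y)ᵀ * D.B = -(D.B * LinearMap.toMatrix' y) := by
    rw [skew_iff]
    intro u w
    rw [h1, h1]
    exact Pool.Agent.H204R3.SP.lieT_sp (mrep D.R) (1 : Γ →* ℚ_[ℓ]) (om D.B) (om_inv D) hy u w
  refine ⟨fun m A hA => ?_, hs⟩
  refine (kill_iff D.B_unit hs A).1 ?_
  rw [Matrix.toLin'_toMatrix']
  exact hy m _ (isTate_of D.B_unit D.B_inv hA)

theorem t_LIE1' : S_LIE1' := by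
  intro ℓ _ n _ _ Γ _ D x hx
  obtain ⟨c, hc⟩ := eig_of hx D.t_ne D.e_inv D.e_p D.t_inv D.t_p
  obtain ⟨x', hx'⟩ : ∃ x', x' = x - c • (1 : Matrix n n ℚ_[ℓ]) := ⟨_, rfl⟩
  have hxe : x' *ᵥ D.e = 0 := by
    rw [hx', Matrix.sub_mulVec, hc, Matrix.smul_mulVec, Matrix.one_mulVec, sub_self]
  have hx2 : ∀ A ∈ PotOp D.R D.p 2, A * dpowK _ x' 2 = dpowK _ x' 2 * A := by
    intro A hA
    rw [hx', dpowK_sub_smul, Matrix.mul_sub, Matrix.sub_mul, hx A hA, Matrix.mul_smul,
      Matrix.smul_mul, Matrix.mul_one, Matrix.one_mul]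
  have hsk := skew_of hx2 D.e_ne D.e_inv D.e_p D.B_inv D.B_p hxe
  have hsk' : ∀ u w, om D.B (Matrix.toLin' x' u) w + om D.B u (Matrix.toLin' x' w) = 0 := by
    intro u w
    rw [Matrix.toLin'_apply, Matrix.toLin'_apply]
    exact skew_iff.1 hsk u w
  have hss := hasProj_of' D.ss
  obtain ⟨y, hy, hm⟩ := four_split' (ω := om D.B) (x := Matrix.toLin' x') (p := Matrix.toLin' D.p)
    (om_nd D.B_unit) (om_inv D) hss
    (by
      rw [Module.End.mul_eq_comp, ← Matrix.toLin'_mul, D.p_mul, Matrix.toLin'_one]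
      rfl)
    (fun g => by
      refine LinearMap.ext fun v => ?_
      rw [Module.End.mul_apply, Module.End.mul_apply, Matrix.toLin'_apply, Matrix.toLin'_apply,
        mrep_apply, mrep_apply, Matrix.mulVec_mulVec, Matrix.mulVec_mulVec, D.p_comm])
    (fun u v => by
      rw [Matrix.toLin'_apply, Matrix.toLin'_apply, om_mulVec, D.B_p])
    hsk'
    (fun φ h1 h2 => by
      obtain ⟨A, rfl⟩ := exists_op D.B_unit φ
      refine (kill_iff D.B_unit hsk A).2 (hx2 A (potOp_of D.B_unit D.B_inv D.B_p h1 fun v => ?_))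
      simp only [Matrix.toLin'_apply] at h2
      exact h2 v)
  obtain ⟨Y, hY⟩ : ∃ Y, Y = LinearMap.toMatrix' y := ⟨_, rfl⟩
  have hyY : y = Matrix.toLin' Y := by rw [hY, Matrix.toLin'_toMatrix']
  obtain ⟨hy1, hy2⟩ := lieT_comm D hy
  rw [← hY] at hy1 hy2
  obtain ⟨Δ, hΔ, hneat⟩ := exists_neat D.lattice
  have hpot : IsPot D.R D.p (x' - Y) := by
    refine ⟨⟨Δ, hΔ, fun g hg => ?_⟩, ?_⟩
    · obtain ⟨j, hj, h⟩ := tors (AlgebraicClosure ℚ_[ℓ]) hm g
      have h1 := hneat g hg _ j hj h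
      have h2 := congrArg LinearMap.toMatrix' h1
      rw [Module.End.mul_eq_comp, Module.End.mul_eq_comp, LinearMap.toMatrix'_comp,
        LinearMap.toMatrix'_comp, map_sub, LinearMap.toMatrix'_toLin', ← hY] at h2
      have h3 : LinearMap.toMatrix' (mrep D.R g) = D.R g := LinearMap.toMatrix'_toLin' (D.R g)
      rw [h3] at h2
      exact h2
    · have hp : IsPot D.R D.p D.p := ⟨⟨⊤, inferInstance, fun g _ => D.p_comm g⟩, rfl⟩
      have h1 := pot_comm hx2 hp
      have h2 := pot_comm (hy1 2) hp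
      rw [Matrix.sub_mul, Matrix.mul_sub, h1, h2]
  refine ⟨Y, x' - Y, c, ?_, hy1, hy2, hpot, fun z' hz' => ?_, ?_⟩
  · rw [hx']
    abel
  · have h1 := pot_comm hx2 hz'
    have h2 := pot_comm (hy1 2) hz'
    rw [Matrix.sub_mul, Matrix.mul_sub, h1, h2]
  · rw [Matrix.transpose_sub, Matrix.sub_mul, Matrix.mul_sub, hsk, hy2]
    abel

end Pool.Agent.E8helper56.TX
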