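import Mathlib
import Pool.Agent.E8helper1.CT.Core

/-!
# Forms killed by the Lie algebra are invariant under a power of each element
-/

set_option autoImplicit false
set_option linter.unusedSectionVars false

namespace Pool.Agent.E8helper56.TX

open Module TensorProduct Pool.Agent.H204R3.SP Pool.Agent.H204R3.GP Pool.Agent.W522.U
  Pool.Agent.W528.Odd Pool.Agent.TH118.CR
open Pool.Agent.E8helper1.AP (Jb ext_one exists_jb fK fK_unit mem_pow vanish' lg lg_kill bp bp_zero
  bp_one bp_eval unip_expand stable_gen)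
open Pool.Agent.E8helper1.CT

noncomputable section

section unip

variable {K : Type} [Field K] [CharZero K] {X : Type} [AddCommGroup X] [Module K X]

/-- The polynomial of a unipotent operator and a form. -/
theorem exists_poly {N : Module.End K X} {n : ℕ} (hN : N ^ n = 0) {κ : Type} [Fintype κ]
    [DecidableEq κ] (φ : MultilinearMap K (fun _ : κ => X) K) (v : κ → X) :
    ∃ P : Polynomial K, (∀ t : ℕ, P.eval (t : K) = φ (fun k => ((1 + N) ^ t) (v k))) ∧
      P.derivative.eval 0 = ∑ k, φ (Function.update v k (lg N n (v k))) := by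
  -- expansion
  have hexp : ∀ a : κ → Fin n → K, φ (fun k => ∑ j : Fin n, a k j • (N ^ (j : ℕ)) (v k)) =
      ∑ J : κ → Fin n, (∏ k, a k (J k)) * φ (fun k => (N ^ (J k : ℕ)) (v k)) := by
    intro a
    rw [MultilinearMap.map_sum]
    refine Finset.sum_congr rfl fun J _ => ?_
    rw [MultilinearMap.map_smul_univ, smul_eq_mul]
  have hpow : ∀ (t : ℕ) (w : X), ((1 + N) ^ t) w =
      ∑ j : Fin n, ((t.choose j : ℕ) : K) • (N ^ (j : ℕ)) w := by
    intro t w
    rw [unip_expand hN, LinearMap.sum_apply, Finset.sum_range]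
    rfl
  let P : Polynomial K := ∑ J : κ → Fin n, (∏ k, bp K (J k)) *
    Polynomial.C (φ (fun k => (N ^ (J k : ℕ)) (v k)))
  have hP : ∀ t : ℕ, P.eval (t : K) = φ (fun k => ((1 + N) ^ t) (v k)) := by
    intro t
    simp only [hpow]
    rw [hexp (fun _ j => ((t.choose j : ℕ) : K)), Polynomial.eval_finsetSum]
    refine Finset.sum_congr rfl fun J _ => ?_
    rw [Polynomial.eval_mul, Polynomial.eval_C, Polynomial.eval_prod]
    congr 1
    exact Finset.prod_congr rfl fun k _ => bp_eval _ _
  refine ⟨P, hP, ?_⟩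
  have h2 : P.derivative.eval 0 = ∑ J : κ → Fin n, (∑ k, (∏ l ∈ Finset.univ.erase k,
      (bp K (J l)).eval 0) * (bp K (J k)).derivative.eval 0) *
      φ (fun k => (N ^ (J k : ℕ)) (v k)) := by
    simp only [P]
    rw [Polynomial.derivative_sum, Polynomial.eval_finsetSum]
    refine Finset.sum_congr rfl fun J _ => ?_
    rw [Polynomial.derivative_mul, Polynomial.derivative_C, mul_zero, add_zero,
      Polynomial.eval_mul, Polynomial.eval_C, Polynomial.derivative_prod_finset,
      Polynomial.eval_finsetSum]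
    congr 1
    refine Finset.sum_congr rfl fun k _ => ?_
    rw [Polynomial.eval_mul, Polynomial.eval_prod]
  rw [h2]
  simp only [Finset.sum_mul]
  rw [Finset.sum_comm]
  refine Finset.sum_congr rfl fun k _ => ?_
  let a : κ → Fin n → K := fun l j => if l = k then (bp K j).derivative.eval 0 else (bp K j).eval 0
  have h3 : Function.update v k (lg N n (v k)) =
      fun l => ∑ j : Fin n, a l j • (N ^ (j : ℕ)) (v l) := by
    funext l
    by_cases hl : l = k
    · subst hl
      rw [Function.update_self]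
      unfold lg
      rw [LinearMap.sum_apply, Finset.sum_range]
      refine Finset.sum_congr rfl fun j _ => ?_
      simp only [a, if_pos rfl]
      rfl
    · rw [Function.update_of_ne hl]
      have h4 := hpow 0 (v l)
      rw [pow_zero, Module.End.one_apply] at h4
      rw [h4]
      refine Finset.sum_congr rfl fun j _ => ?_
      simp only [a, if_neg hl]
      congr 1
      rw [← bp_eval, Nat.cast_zero]
      rw [← h4]
  rw [h3, hexp]
  refine Finset.sum_congr rfl fun J _ => ?_
  congr 1
  rw [← Finset.prod_erase_mul _ _ (Finset.mem_univ k)]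
  congr 1
  · refine Finset.prod_congr rfl fun l hl => ?_
    simp only [a, if_neg (Finset.ne_of_mem_erase hl)]
  · simp only [a, if_pos rfl]

theorem eq_of_nat {P Q : Polynomial K} (h : ∀ t : ℕ, P.eval (t : K) = Q.eval (t : K)) : P = Q := by
  rw [← sub_eq_zero]
  refine Polynomial.eq_zero_of_infinite_isRoot _ ?_
  refine Set.infinite_of_injective_forall_mem (f := fun k : ℕ => (k : K)) Nat.cast_injective ?_
  intro t
  change (P - Q).IsRoot _
  rw [Polynomial.IsRoot, Polynomial.eval_sub, h, sub_self]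

/-- Forms killed by the logarithm are invariant. -/
theorem unip_inv {N : Module.End K X} {n : ℕ} (hN : N ^ n = 0) {κ : Type} [Fintype κ]
    [DecidableEq κ] (φ : MultilinearMap K (fun _ : κ => X) K) (hφ : Kills (lg N n) φ)
    (t : ℕ) (v : κ → X) : φ (fun k => ((1 + N) ^ t) (v k)) = φ v := by
  obtain ⟨P, hP, -⟩ := exists_poly hN φ v
  have h1 : P.derivative = 0 := by
    refine eq_of_nat fun t => ?_
    obtain ⟨Q, hQ, hQ'⟩ := exists_poly hN φ (fun k => ((1 + N) ^ t) (v k))
    rw [hφ] at hQ'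
    have h2 : Q = P.comp (Polynomial.X + Polynomial.C (t : K)) := by
      refine eq_of_nat fun s => ?_
      rw [hQ, Polynomial.eval_comp, Polynomial.eval_add, Polynomial.eval_X, Polynomial.eval_C,
        ← Nat.cast_add, hP]
      congr 1
      funext k
      rw [← Module.End.mul_apply, ← pow_add]
    rw [h2, Polynomial.derivative_comp, Polynomial.derivative_add, Polynomial.derivative_X,
      Polynomial.derivative_C, add_zero, one_mul, Polynomial.eval_comp, Polynomial.eval_add,
      Polynomial.eval_X, Polynomial.eval_C, zero_add] at hQ'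
    rw [hQ', Polynomial.eval_zero]
  have h3 := Polynomial.eq_C_of_derivative_eq_zero h1
  rw [← hP]
  have h4 := hP 0
  rw [h3, Polynomial.eval_C] at h4
  rw [h3, Polynomial.eval_C, h4]
  rfl

variable [FiniteDimensional K X]

/-- **A form that is killed by the slopes and by the logarithm of the unipotent part is invariant
under a power.** -/
theorem inv_pow [IsAlgClosed K] {G : Module.End K X} (J : Jb G) (hG : ∀ p, J.lam p ≠ 0)
    {κ : Type} [Fintype κ] [DecidableEq κ] (φ : MultilinearMap K (fun _ : κ => X) K)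
    (hm : ∀ a : Additive Kˣ →+ K, Kills (J.op (fun c => fK a c • 1)) φ)
    (hm' : Kills (lg (J.un - 1) (finrank K X)) φ) :
    ∃ j : ℕ, 0 < j ∧ ∀ v, φ (fun l => (G ^ j) (v l)) = φ v := by
  classical
  have _ := J.fι
  -- the torsion
  have h1 : ∀ I : κ → J.ι, φ (fun l => J.e (I l)) ≠ 0 → ∃ j : ℕ, 0 < j ∧
      (∏ l, J.lam (I l)) ^ j = 1 := by
    intro I hI
    by_contra hcon
    push Not at hcon
    let x : Kˣ := ∏ l, Units.mk0 _ (hG (I l))
    have hx : (x : K) = ∏ l, J.lam (I l) := by
      rw [Units.coe_prod]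
      rfl
    obtain ⟨a, ha⟩ := exists_add x (by
      intro j hj h
      apply hcon j hj
      rw [← hx, ← Units.val_pow_eq_pow_val, h, Units.val_one])
    apply ha
    have h2 := hm a (fun l => J.e (I l))
    have h3 : ∀ l : κ, φ (Function.update (fun l => J.e (I l)) l
        (J.op (fun c => fK a c • 1) (J.e (I l)))) =
        fK a (J.lam (I l)) * φ (fun l => J.e (I l)) := by
      intro l
      rw [J.op_on _ (J.mem (I l)), LinearMap.smul_apply, Module.End.one_apply,
        MultilinearMap.map_update_smul, smul_eq_mul, Function.update_eq_self]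
    rw [Finset.sum_congr rfl fun l _ => h3 l, ← Finset.sum_mul] at h2
    have h4 := (mul_eq_zero.1 h2).resolve_right hI
    have h5 : a (Additive.ofMul x) = ∑ l, fK a (J.lam (I l)) := by
      change a (Additive.ofMul (∏ l, Units.mk0 _ (hG (I l)))) = _
      rw [ofMul_prod, map_sum]
      refine Finset.sum_congr rfl fun l _ => ?_
      exact (fK_unit a (Units.mk0 _ (hG (I l)))).symm
    rw [h5, h4]
  choose! j hj0 hj using h1
  let S : Finset (κ → J.ι) := Finset.univ.filter fun I => φ (fun l => J.e (I l)) ≠ 0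
  obtain ⟨N, hN0, hN⟩ : ∃ N : ℕ, 0 < N ∧ ∀ I : κ → J.ι, φ (fun l => J.e (I l)) ≠ 0 →
      (∏ l, J.lam (I l)) ^ N = 1 := by
    refine ⟨∏ I ∈ S, j I, Finset.prod_pos fun I hI => ?_, fun I hI => ?_⟩
    · exact hj0 _ (Finset.mem_filter.1 hI).2
    · obtain ⟨i, hi⟩ := Finset.dvd_prod_of_mem j
        (show I ∈ S from Finset.mem_filter.2 ⟨Finset.mem_univ _, hI⟩)
      rw [hi, pow_mul, hj I hI, one_pow]
  refine ⟨N, hN0, ?_⟩
  have h4 : G ^ N = J.un ^ N * J.op (fun c => c ^ N • 1) := by
    refine J.e.ext fun p => ?_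
    rw [Module.End.mul_apply, J.op_on _ (J.mem p), LinearMap.smul_apply, Module.End.one_apply,
      map_smul, J.un_pow N (J.mem p), smul_smul, _root_.inv_pow, mul_inv_cancel₀ (pow_ne_zero N (hG p)),
      one_smul]
  have h5 : ∀ v, φ (fun l => (J.op (fun c => c ^ N • 1)) (v l)) = φ v := by
    have h6 : φ.compLinearMap (fun _ => J.op (fun c => c ^ N • 1)) = φ := by
      refine Basis.ext_multilinear (fun _ => J.e) fun I => ?_
      rw [MultilinearMap.compLinearMap_apply]
      have h7 : ∀ l, (J.op (fun c => c ^ N • 1)) (J.e (I l)) = J.lam (I l) ^ N • J.e (I l) := by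
        intro l
        rw [J.op_on _ (J.mem (I l)), LinearMap.smul_apply, Module.End.one_apply]
      simp only [h7]
      rw [MultilinearMap.map_smul_univ]
      by_cases h0 : φ (fun l => J.e (I l)) = 0
      · rw [h0, smul_zero]
      · rw [Finset.prod_pow, hN I h0, one_smul]
    intro v
    exact congrArg (fun F : MultilinearMap K (fun _ : κ => X) K => F v) h6
  intro v
  rw [h4]
  have h6 := unip_inv (un_nil J hG) φ hm' N (fun l => (J.op (fun c => c ^ N • 1)) (v l))
  have h7 : (1 + (J.un - 1)) = J.un := by abel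
  rw [h7, h5] at h6
  exact h6

end unip

section ext

variable {k Ω : Type} [Field k] [CharZero k] [Field Ω] [CharZero Ω] [Algebra k Ω] [IsAlgClosed Ω]
  {V Γ : Type} [AddCommGroup V] [Module k V] [FiniteDimensional k V] [Group Γ]
  {ρ : Representation k Γ V}

omit [IsAlgClosed Ω] in
/-- The operator kills the form if its components do. -/
theorem kills_oc {κ : Type} [Fintype κ] [DecidableEq κ]
    {φ : MultilinearMap k (fun _ : κ => V) k} {β : Type} [DecidableEq β] (w : Basis β k Ω)
    {y : Module.End Ω (Ω ⊗[k] V)} (h : ∀ i, Kills (oc w y i) φ) :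
    Kills y (bcm (Ω := Ω) (Module.finBasis k V) φ) := by
  obtain ⟨F, -, hsum⟩ := exists_oc w y
  rw [hsum]
  intro v
  have h1 : ∀ l : κ, bcm (Ω := Ω) (Module.finBasis k V) φ (Function.update v l
      ((∑ i ∈ F, w i • (oc w y i).baseChange Ω) (v l))) =
      ∑ i ∈ F, w i * bcm (Ω := Ω) (Module.finBasis k V) φ (Function.update v l
        ((oc w y i).baseChange Ω (v l))) := by
    intro l
    rw [LinearMap.sum_apply, MultilinearMap.map_update_sum]
    refine Finset.sum_congr rfl fun i _ => ?_
    rw [LinearMap.smul_apply, MultilinearMap.map_update_smul, smul_eq_mul]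
  rw [Finset.sum_congr rfl fun l _ => h1 l, Finset.sum_comm]
  refine Finset.sum_eq_zero fun i _ => ?_
  rw [← Finset.mul_sum, kills_bcm (h i) v, mul_zero]

/-- **A form killed by the Lie algebra is invariant under a power of each element.** -/
theorem tors_form (Ω : Type) [Field Ω] [CharZero Ω] [Algebra k Ω] [IsAlgClosed Ω]
    {κ : Type} [Fintype κ] [DecidableEq κ] {φ : MultilinearMap k (fun _ : κ => V) k}
    (hφ : ∀ z ∈ lieT ρ (1 : Γ →* k), Kills z φ) (γ : Γ) :
    ∃ j : ℕ, 0 < j ∧ ∀ v, φ (fun l => ((ρ γ) ^ j) (v l)) = φ v := by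
  classical
  obtain ⟨G, hG⟩ : ∃ G : Module.End Ω (Ω ⊗[k] V), G = (ρ γ).baseChange Ω := ⟨_, rfl⟩
  have hGpow : ∀ M : ℕ, G ^ M = ((ρ γ) ^ M).baseChange Ω := by
    intro M
    rw [hG, baseChange_pow]
  have hGψ : ∀ (j : ℕ) (ψ : MultilinearMap k (fun _ : Fin j × Fin 2 => V) k),
      IsTate ρ (1 : Γ →* k) j ψ →
      ∃ M : ℕ, M ≠ 0 ∧ ∀ v, bcm (Ω := Ω) (Module.finBasis k V) ψ (fun l => (G ^ M) (v l)) =
        bcm (Ω := Ω) (Module.finBasis k V) ψ v := by
    rintro j ψ ⟨Δ, hΔ, hψ⟩
    obtain ⟨M, hM0, hM⟩ := exists_pow_mem Δ hΔ γ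
    refine ⟨M, hM0, fun v => ?_⟩
    have h1 := hψ _ hM
    have h2 : (bcm (Ω := Ω) (Module.finBasis k V) ψ).compLinearMap (fun _ => G ^ M) =
        bcm (Ω := Ω) (Module.finBasis k V) ψ := by
      refine ext_one fun v => ?_
      rw [MultilinearMap.compLinearMap_apply, bcm_one]
      have h3 : (fun l => (G ^ M) ((1 : Ω) ⊗ₜ[k] v l)) =
          fun l => ((1 : Ω) ⊗ₜ[k] (ρ (γ ^ M)) (v l)) := by
        funext l
        rw [hGpow, LinearMap.baseChange_tmul, map_pow]
      rw [h3, bcm_one, h1, MonoidHom.one_apply, one_pow, one_mul]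
    exact congrArg (fun F : MultilinearMap Ω (fun _ : Fin j × Fin 2 => Ω ⊗[k] V) Ω => F v) h2
  obtain ⟨J⟩ := exists_jb G
  have hinj : ∀ v, G v = 0 → v = 0 := by
    intro v hv
    have h1 : ((ρ γ⁻¹).baseChange Ω) (G v) = v := by
      rw [hG, ← Module.End.mul_apply, ← LinearMap.baseChange_mul,
        ← map_mul, inv_mul_cancel, map_one]
      exact LinearMap.congr_fun LinearMap.baseChange_id v
    rw [hv, map_zero] at h1
    exact h1.symm
  have hlam : ∀ p, J.lam p ≠ 0 := lam_ne J hinj
  have hkill : ∀ {y : Module.End Ω (Ω ⊗[k] V)},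
      (∀ (j : ℕ) (ψ : MultilinearMap k (fun _ : Fin j × Fin 2 => V) k),
        IsTate ρ (1 : Γ →* k) j ψ → Kills y (bcm (Ω := Ω) (Module.finBasis k V) ψ)) →
      Kills y (bcm (Ω := Ω) (Module.finBasis k V) φ) := by
    intro y hy
    refine kills_oc (Basis.ofVectorSpace k Ω) fun i => hφ _ ?_
    intro j ψ hψ
    exact oc_kills _ (hy j ψ hψ) i
  obtain ⟨j, hj, h⟩ := inv_pow J hlam (bcm (Ω := Ω) (Module.finBasis k V) φ)
    (fun a => hkill fun i ψ hψ => by
      obtain ⟨M, hM0, hM⟩ := hGψ i ψ hψ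
      exact slope_kill J hM0 hM a)
    (hkill fun i ψ hψ => by
      obtain ⟨M, hM0, hM⟩ := hGψ i ψ hψ
      exact un_kill J hlam hM0 hM)
  refine ⟨j, hj, fun v => (algebraMap k Ω).injective ?_⟩
  rw [← bcm_one (Ω := Ω) (Module.finBasis k V) φ v, ← h, ← bcm_one (Ω := Ω) (Module.finBasis k V) φ]
  congr 1
  funext l
  rw [hGpow, LinearMap.baseChange_tmul]

end ext

end

end Pool.Agent.E8helper56.TX
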