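import Mathlib
import Pool.Agent.E8helper56.TX.LieL1
import Pool.Agent.E8helper56.TX.Inv

/-!
# The tensors that commute with the Lie algebra
-/

set_option autoImplicit false
set_option linter.unusedSectionVars false

namespace Pool.Agent.E8helper56.TX

open Matrix Module Pool.Agent.E8helper1.TX
open Pool.Agent.H204R3.SP (Kills IsTate lieT)
open Pool.Agent.E8helper1.CT

variable {ℓ : ℕ} [Fact ℓ.Prime] {n : Type} [Fintype n] [DecidableEq n] {Γ : Type} [Group Γ]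

theorem lattice_iff {R : Γ →* Matrix n n ℚ_[ℓ]} : HasLattice ℓ (mrep R) ↔
    ∃ P Q : Matrix n n ℚ_[ℓ], P * Q = 1 ∧ Q * P = 1 ∧ ∀ s i j, ‖(Q * R s * P) i j‖ ≤ 1 := by
  constructor
  · rintro ⟨d, b, hb⟩
    have hd : Fintype.card (Fin d) = Fintype.card n := by
      rw [← Module.finrank_eq_card_basis b, Module.finrank_pi]
    let e : Fin d ≃ n := Fintype.equivOfCardEq hd
    let b' := b.reindex e
    refine ⟨(Pi.basisFun ℚ_[ℓ] n).toMatrix b', b'.toMatrix (Pi.basisFun ℚ_[ℓ] n),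
      Basis.toMatrix_mul_toMatrix_flip _ _, Basis.toMatrix_mul_toMatrix_flip _ _, fun s i j => ?_⟩
    have h1 : ∀ v : n → ℚ_[ℓ], b'.toMatrix (Pi.basisFun ℚ_[ℓ] n) *ᵥ v = b'.repr v := by
      intro v
      have h2 := Basis.toMatrix_mulVec_repr (Pi.basisFun ℚ_[ℓ] n) b' v
      have h3 : ((Pi.basisFun ℚ_[ℓ] n).repr v : n → ℚ_[ℓ]) = v := by
        funext i
        rw [Pi.basisFun_repr]
      rwa [h3] at h2
    have h2 : (Pi.basisFun ℚ_[ℓ] n).toMatrix b' *ᵥ Pi.single j 1 = b' j := by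
      rw [Matrix.mulVec_single_one]
      funext i
      rw [Matrix.col_apply, Basis.toMatrix_apply, Pi.basisFun_repr]
    have h3 : (b'.toMatrix (Pi.basisFun ℚ_[ℓ] n) * R s * (Pi.basisFun ℚ_[ℓ] n).toMatrix b') i j =
        b'.repr (mrep R s (b' j)) i := by
      have h4 : (b'.toMatrix (Pi.basisFun ℚ_[ℓ] n) * R s * (Pi.basisFun ℚ_[ℓ] n).toMatrix b') i j =
          ((b'.toMatrix (Pi.basisFun ℚ_[ℓ] n) * R s * (Pi.basisFun ℚ_[ℓ] n).toMatrix b') *ᵥ
            Pi.single j 1) i := by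
        rw [Matrix.mulVec_single_one]
        rfl
      rw [h4, ← Matrix.mulVec_mulVec, ← Matrix.mulVec_mulVec, h2, h1]
      rfl
    rw [h3, Basis.repr_reindex_apply, Basis.reindex_apply]
    exact hb s _ _
  · rintro ⟨P, Q, hPQ, hQP, h⟩
    let e : n ≃ Fin (Fintype.card n) := Fintype.equivFin n
    let L : (n → ℚ_[ℓ]) ≃ₗ[ℚ_[ℓ]] (n → ℚ_[ℓ]) :=
      LinearEquiv.ofLinearMap (Matrix.toLin' Q) (Matrix.toLin' P)
        (by rw [← Matrix.toLin'_mul, hQP, Matrix.toLin'_one])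
        (by rw [← Matrix.toLin'_mul, hPQ, Matrix.toLin'_one])
    let b : Basis n ℚ_[ℓ] (n → ℚ_[ℓ]) := Basis.ofEquivFun L
    refine ⟨Fintype.card n, b.reindex e, fun s i j => ?_⟩
    rw [Basis.repr_reindex_apply, Basis.reindex_apply]
    have h1 : b (e.symm j) = P *ᵥ Pi.single (e.symm j) 1 := by
      have h2 : b (e.symm j) = L.symm (Pi.single (e.symm j) 1) := by
        rw [Basis.coe_ofEquivFun]
      rw [h2]
      rfl
    have h2 : ∀ v i, b.repr v i = (Q *ᵥ v) i := by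
      intro v i
      rw [Basis.ofEquivFun_repr_apply]
      rfl
    rw [h1, h2, mrep_apply, Matrix.mulVec_mulVec, Matrix.mulVec_mulVec, Matrix.mulVec_single_one]
    exact h s _ _

/-- The tensor power of the representation. -/
noncomputable def tpowHom {K : Type} [Field K] (R : Γ →* Matrix n n K) (m : ℕ) :
    Γ →* Matrix (Fin m → n) (Fin m → n) K where
  toFun g := tpowK K (R g) m
  map_one' := by rw [map_one, tpowK_one]
  map_mul' g h := by rw [map_mul, tpowK_mul]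

theorem lattice_tpow {R : Γ →* Matrix n n ℚ_[ℓ]} (h : HasLattice ℓ (mrep R)) (m : ℕ) :
    HasLattice ℓ (mrep (tpowHom R m)) := by
  obtain ⟨P, Q, hPQ, hQP, h⟩ := lattice_iff.1 h
  refine lattice_iff.2 ⟨tpowK _ P m, tpowK _ Q m, ?_, ?_, fun s I J => ?_⟩
  · rw [← tpowK_mul, hPQ, tpowK_one]
  · rw [← tpowK_mul, hQP, tpowK_one]
  · change ‖(tpowK _ Q m * tpowK _ (R s) m * tpowK _ P m) I J‖ ≤ 1
    rw [← tpowK_mul, ← tpowK_mul]
    unfold tpowK
    rw [norm_prod]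
    exact Finset.prod_le_one (fun i _ => norm_nonneg _) fun i _ => h s _ _

theorem t_LIE2 : S_LIE2 := by
  intro ℓ _ n _ _ Γ _ D m M hM hMp
  obtain ⟨Δ, hΔ, hneat⟩ := exists_neat (lattice_tpow D.lattice m)
  refine ⟨⟨Δ, hΔ, fun g hg => ?_⟩, hMp⟩
  have hk : ∀ z ∈ lieT (mrep D.R) (1 : Γ →* ℚ_[ℓ]), Kills z (frm (tpowK _ D.B m * M)) := by
    intro z hz
    obtain ⟨h1, h2⟩ := lieT_comm D hz
    have h3 := (kill_iff D.B_unit h2 M).2 (hM _ (h1 2))
    rwa [Matrix.toLin'_toMatrix'] at h3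
  obtain ⟨j, hj, h⟩ := tors_form (AlgebraicClosure ℚ_[ℓ]) hk g
  have hR : (D.R g) ^ j = D.R (g ^ j) := (map_pow D.R g j).symm
  have h1 : M * tpowK _ ((D.R g) ^ j) m = tpowK _ ((D.R g) ^ j) m * M := by
    refine (inv_iff D.B_unit (by rw [hR]; exact D.B_inv _) M).1 fun v => ?_
    rw [← h v]
    congr 1
    funext l
    rw [hR, ← map_pow]
    rfl
  have h2 := hneat g hg (Matrix.toLin' M) j hj (by
    refine LinearMap.ext fun v => ?_
    rw [Module.End.mul_apply, Module.End.mul_apply, ← map_pow, mrep_apply, mrep_apply,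
      Matrix.toLin'_apply, Matrix.toLin'_apply, Matrix.mulVec_mulVec, Matrix.mulVec_mulVec, map_pow]
    change (M * (tpowK _ (D.R g) m) ^ j) *ᵥ v = ((tpowK _ (D.R g) m) ^ j * M) *ᵥ v
    rw [← tpowK_pow, h1])
  have h3 := congrArg LinearMap.toMatrix' h2
  rw [Module.End.mul_eq_comp, Module.End.mul_eq_comp, LinearMap.toMatrix'_comp,
    LinearMap.toMatrix'_comp, LinearMap.toMatrix'_toLin'] at h3
  have h4 : LinearMap.toMatrix' (mrep (tpowHom D.R m) g) = tpowK _ (D.R g) m :=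
    LinearMap.toMatrix'_toLin' _
  rw [h4] at h3
  exact h3

end Pool.Agent.E8helper56.TX
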