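import Pool.Agent.E8helper56.TX.NoIV
import Pool.Agent.E8helper1.TX.Hod1
import Pool.Agent.E8helper63.TX.Dim

set_option autoImplicit false
set_option linter.unusedSectionVars false

/-!
# The theorems over the rational field for the commutants of a Hodge cocharacter
-/

namespace Pool.Agent.E8helper56.TX

open Matrix Module
open Pool.Agent.E8helper1.TX
open Pool.Agent.E8helper41.TX (cjm_apply cjm_dpow cjm_comm cjm_inj cjm_back mem_bcM bcM_mono
  finrank_map_cjm)
open Pool.Agent.E8helper63.TX (t_DIM1 t_DIM2)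
open scoped ComplexOrder

noncomputable section

variable {K : Type} [Field K] [Algebra K ℂ] (rat : ∀ r : K, ∃ q : ℚ, (q : K) = r)
  {n : Type} [Fintype n] [DecidableEq n] (hm : Matrix n n ℂ)
  (S T : ∀ m, Submodule K (Matrix (Fin m → n) (Fin m → n) K))
  (hT : ∀ m B, B ∈ T m ↔ B.map (algebraMap K ℂ) * dpow hm m = dpow hm m * B.map (algebraMap K ℂ))

theorem bcM_le {N : Type} [Fintype N] [DecidableEq N] {A B : Submodule K (Matrix N N K)}
    (h : bcM K A = bcM K B) : A = B :=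
  le_antisymm (fun M hM => t_DIM2 K N B M (h.le (mem_bcM hM)))
    (fun M hM => t_DIM2 K N A M (h.ge (mem_bcM hM)))

include rat hT in
/-- **One bounded power decides**, over the rational field. -/
theorem hodge_mat4 (hTRF : S_TRF) [Nonempty n] {w : ℕ} (hw : 1 ≤ w)
    (hint : ∀ (μ : ℂ) (u : n → ℂ), u ≠ 0 → hm *ᵥ u = μ • u → ∃ z : ℤ, μ = z ∧ |z| ≤ w)
    (P0 : PSys0 n) (hP0 : ∀ m, P0.S m = bcM K (S m)) (Q : Matrix n n ℂ) (hQ : Q.PosDef)
    (hstar : ∀ m, ∀ A ∈ P0.S m, tpow Q⁻¹ m * Aᴴ * tpow Q m ∈ P0.S m)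
    (hstarT : ∀ m, ∀ A ∈ bcM K (T m), tpow Q⁻¹ m * Aᴴ * tpow Q m ∈ bcM K (T m))
    (hST : ∀ m, S m ≤ T m) (M0 : ℕ)
    (hM0 : M0 = (Fintype.card n).factorial * w ^ (Fintype.card n - 1)) (m : ℕ)
    (hmm : (Fintype.card n : ℝ) ^ 3 * (M0 : ℝ) ^ 2 * Real.log (2 * Fintype.card n * M0 + 1) ≤ m)
    (hle : T m ≤ S m) (k : ℕ) : T k = S k :=
  bcM_le (hodge_mat rat hm S T hT hTRF hw hint P0 hP0 Q hQ hstar hstarT hST M0 hM0 m hmm hle k)

/-- the system in the new basis contains the system of the algebraic classes -/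
theorem kills_LP {P : Matrix n n ℂ} (hP : IsUnit P.det)
    (hTL : ∀ m, TL (LP hm P) m = (bcM K (T m)).map (cjm P m)) (Tt : TSys n) (P0 : PSys0 n)
    (hTS : ∀ m, Tt.S m = (P0.S m).map (cjm P m)) (hP0 : ∀ m, P0.S m = bcM K (S m))
    (hST : ∀ m, S m ≤ T m) : ∀ x ∈ LP hm P, Kills Tt.S x := by
  intro x hx m A hA
  have h2 : A ∈ TL (LP hm P) m := by
    rw [hTL]
    rw [hTS m, hP0 m] at hA
    exact Submodule.map_mono (bcM_mono (hST m)) hA
  exact h2 x hx

include rat hT in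
/-- **The index from one power.** -/
theorem hodge_mat3 (hTRF : S_TRF) [Nonempty n] {w : ℕ} (hw : 1 ≤ w)
    (hint : ∀ (μ : ℂ) (u : n → ℂ), u ≠ 0 → hm *ᵥ u = μ • u → ∃ z : ℤ, μ = z ∧ |z| ≤ w)
    (P0 : PSys0 n) (hP0 : ∀ m, P0.S m = bcM K (S m)) (Q : Matrix n n ℂ) (hQ : Q.PosDef)
    (hstar : ∀ m, ∀ A ∈ P0.S m, tpow Q⁻¹ m * Aᴴ * tpow Q m ∈ P0.S m)
    (hstarT : ∀ m, ∀ A ∈ bcM K (T m), tpow Q⁻¹ m * Aᴴ * tpow Q m ∈ bcM K (T m)) (M0 : ℕ)
    (hM0 : M0 = (Fintype.card n).factorial * w ^ (Fintype.card n - 1))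
    (hle : T M0 ≤ S M0) (m : ℕ) : finrank K (T m) ≤
      (2 * Fintype.card n * M0) ^ (2 * Fintype.card n ^ 2) * finrank K (S m) := by
  obtain ⟨P, Tt, hP, hPQP, hTS⟩ := hTRF n P0 Q hQ hstar
  have hQu : IsUnit Q.det := by
    rw [isUnit_iff_ne_zero]
    exact hQ.det_pos.ne'
  have hTL := fun m => TL_LP rat hm T hT hP m
  have h1 := uni7 w hw Tt (LP hm P) (fun x hx => Pool.Agent.E8helper1.TX.isInt_conj hm hint hP hx)
    (fun m A hA => by
      rw [hTL] at hA ⊢
      obtain ⟨B, hB, rfl⟩ := hA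
      rw [cjm_star hP hQu hPQP]
      exact Submodule.mem_map_of_mem (hstarT m B hB)) M0 hM0
    (by
      rw [hTL, hTS M0, hP0 M0]
      exact Submodule.map_mono (bcM_mono hle)) m
  have e1 : finrank ℂ (TL (LP hm P) m) = finrank K (T m) := by
    rw [hTL, finrank_map_cjm hP, t_DIM1]
  have e2 : finrank ℂ (Tt.S m) = finrank K (S m) := by
    rw [hTS m, finrank_map_cjm hP, hP0 m, t_DIM1]
  rwa [e1, e2] at h1

section noskew

variable (B : Matrix n n K)
  (hBx : hmᵀ * B.map (algebraMap K ℂ) = -(B.map (algebraMap K ℂ) * hm))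
  (hno : ∀ z : Matrix n n K, z.map (algebraMap K ℂ) * hm = hm * z.map (algebraMap K ℂ) →
    (∀ a : Matrix n n K, a.map (algebraMap K ℂ) * hm = hm * a.map (algebraMap K ℂ) →
      z * a = a * z) → zᵀ * B = -(B * z) → z = 0)

/-- the skew elements of the centre -/
def cen (hm BC : Matrix n n ℂ) : Submodule ℂ (Matrix n n ℂ) where
  carrier := {z | z ∈ cmt hm ∧ (∀ a ∈ cmt hm, z * a = a * z) ∧ zᵀ * BC = -(BC * z)}
  zero_mem' := ⟨Submodule.zero_mem _, fun a _ => by rw [zero_mul, mul_zero], by simp⟩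
  add_mem' := by
    rintro z z' ⟨h1, h2, h3⟩ ⟨h1', h2', h3'⟩
    refine ⟨Submodule.add_mem _ h1 h1', fun a ha => by rw [add_mul, mul_add, h2 a ha, h2' a ha], ?_⟩
    rw [Matrix.transpose_add, add_mul, h3, h3', mul_add]
    abel
  smul_mem' := by
    rintro c z ⟨h1, h2, h3⟩
    refine ⟨Submodule.smul_mem _ c h1, fun a ha => by
      rw [Matrix.smul_mul, Matrix.mul_smul, h2 a ha], ?_⟩
    rw [Matrix.transpose_smul, Matrix.smul_mul, h3, Matrix.mul_smul, smul_neg]

theorem map_neg' {N : Type} (τ : ℂ ≃+* ℂ) (M : Matrix N N ℂ) : (-M).map τ = -(M.map τ) := by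
  ext i j
  simp

theorem map_trans_symm {N : Type} (τ : ℂ ≃+* ℂ) (M : Matrix N N ℂ) :
    (M.map τ.symm).map τ = M := by
  ext i j
  simp

include rat hno in
theorem cen_zero : ∀ z ∈ cen hm (B.map (algebraMap K ℂ)), z = 0 := by
  intro z hz
  have h1 := desc_mat (cen hm (B.map (algebraMap K ℂ))) (fun τ M hM => by
    obtain ⟨h1, h2, h3⟩ := hM
    refine ⟨cmt_map hm τ h1, fun a ha => ?_, ?_⟩
    · have h4 := h2 _ (cmt_map hm τ.symm ha)
      have h5 := congrArg (fun M : Matrix n n ℂ => M.map τ) h4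
      simp only [Matrix.map_mul] at h5
      rwa [map_trans_symm] at h5
    · have h5 := congrArg (fun M : Matrix n n ℂ => M.map τ) h3
      simp only [Matrix.map_mul, map_neg'] at h5
      rw [map_fix rat] at h5
      exact h5) hz
  have h2 : {M | M ∈ cen hm (B.map (algebraMap K ℂ)) ∧
      ∃ B : Matrix n n ℚ, M = B.map fun q => (q : ℂ)} ⊆ {0} := by
    rintro _ ⟨⟨h3, h4, h5⟩, z0, rfl⟩
    have e : (z0.map fun q => (q : ℂ)) = (z0.map fun q => (q : K)).map (algebraMap K ℂ) := by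
      ext i j
      simp only [Matrix.map_apply, map_ratCast]
    rw [e] at h3 h4 h5 ⊢
    have hinj : Function.Injective (fun M : Matrix n n K => M.map (algebraMap K ℂ)) :=
      Matrix.map_injective (algebraMap K ℂ).injective
    have h6 : (z0.map fun q => (q : K)) = 0 := by
      refine hno _ ?_ ?_ ?_
      · have h7 := h3 (RingEquiv.refl ℂ)
        rwa [map_refl_aut] at h7
      · intro a ha
        have h7 : a.map (algebraMap K ℂ) ∈ cmt hm := by
          intro σ
          have h8 := congrArg (fun M : Matrix n n ℂ => M.map σ) ha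
          simp only [Matrix.map_mul] at h8
          rw [map_fix rat] at h8
          exact h8
        apply hinj
        have h8 := h4 _ h7
        simp only [Matrix.map_mul]
        exact h8
      · apply hinj
        have h8 : ∀ M : Matrix n n K, (-M).map (algebraMap K ℂ) = -(M.map (algebraMap K ℂ)) := by
          intro M
          ext i j
          simp
        simp only [Matrix.map_mul, h8]
        exact h5
    rw [h6, Matrix.map_zero _ (map_zero _)]
    rfl
  have h3 := Submodule.span_mono (R := ℂ) h2 h1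
  rw [Submodule.span_zero_singleton] at h3
  exact (Submodule.mem_bot ℂ).1 h3

theorem back' {P : Matrix n n ℂ} (hP : IsUnit P.det) (x : Matrix n n ℂ) :
    P * (P⁻¹ * x * P) * P⁻¹ = x := by
  calc P * (P⁻¹ * x * P) * P⁻¹ = (P * P⁻¹) * x * (P * P⁻¹) := by simp only [Matrix.mul_assoc]
    _ = x := by rw [Matrix.mul_nonsing_inv _ hP, Matrix.one_mul, Matrix.mul_one]

include rat hT hBx hno in
/-- **No part of type IV.** -/
theorem hodge_mat2 (hTRF : S_TRF) [Nonempty n]
    (P0 : PSys0 n) (hP0 : ∀ m, P0.S m = bcM K (S m)) (Q : Matrix n n ℂ) (hQ : Q.PosDef)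
    (hstar : ∀ m, ∀ A ∈ P0.S m, tpow Q⁻¹ m * Aᴴ * tpow Q m ∈ P0.S m)
    (hstarT : ∀ m, ∀ A ∈ bcM K (T m), tpow Q⁻¹ m * Aᴴ * tpow Q m ∈ bcM K (T m))
    (hST : ∀ m, S m ≤ T m) (hB : IsUnit B.det) (h2 : T 2 ≤ S 2) :
    (∀ m, finrank K (T m) ≤
      (2 * Fintype.card n + 1) ^ (2 * Fintype.card n ^ 2) * finrank K (S m)) ∧
    ∀ m : ℕ, 2 * (Fintype.card n : ℝ) ^ 3 * Real.log (3 * Fintype.card n) ≤ m →
      T m ≤ S m → ∀ k, T k = S k := by
  obtain ⟨P, Tt, hP, hPQP, hTS⟩ := hTRF n P0 Q hQ hstar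
  have hQu : IsUnit Q.det := by
    rw [isUnit_iff_ne_zero]
    exact hQ.det_pos.ne'
  have hTL := fun m => TL_LP rat hm T hT hP m
  set BC := B.map (algebraMap K ℂ) with hBC
  have hBCu : IsUnit BC.det := by
    have h3 : BC.det = algebraMap K ℂ B.det := by
      rw [hBC, RingHom.map_det]
      rfl
    rw [h3]
    exact hB.map _
  have hσ : ∀ σ : ℂ ≃+* ℂ, (hm.map σ)ᵀ * BC = -(BC * hm.map σ) := by
    intro σ
    have h5 := congrArg (fun M : Matrix n n ℂ => M.map σ) hBx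
    simp only [Matrix.map_mul, map_neg'] at h5
    rw [map_fix rat] at h5
    exact h5
  have hPP : ∀ x : Matrix n n ℂ, P * (P⁻¹ * x * P) = x * P := by
    intro x
    rw [← Matrix.mul_assoc, ← Matrix.mul_assoc, Matrix.mul_nonsing_inv _ hP, Matrix.one_mul]
  have h1 := uni6 Tt (LP hm P) (kills_LP hm S T hP hTL Tt P0 hTS hP0 hST)
    (fun m A hA => by
      rw [hTL] at hA ⊢
      obtain ⟨B, hB, rfl⟩ := hA
      rw [cjm_star hP hQu hPQP]
      exact Submodule.mem_map_of_mem (hstarT m B hB)) (Pᵀ * BC * P)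
    (by
      rw [Matrix.det_mul, Matrix.det_mul, Matrix.det_transpose]
      exact (hP.mul hBCu).mul hP)
    (by
      rintro x ⟨σ, rfl⟩
      have h3 : (P⁻¹ * hm.map σ * P)ᵀ * Pᵀ = Pᵀ * (hm.map σ)ᵀ := by
        rw [← Matrix.transpose_mul, hPP, Matrix.transpose_mul]
      calc (P⁻¹ * hm.map σ * P)ᵀ * (Pᵀ * BC * P) =
            ((P⁻¹ * hm.map σ * P)ᵀ * Pᵀ) * BC * P := by simp only [Matrix.mul_assoc]
        _ = Pᵀ * ((hm.map σ)ᵀ * BC) * P := by rw [h3]; simp only [Matrix.mul_assoc]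
        _ = -(Pᵀ * BC * (hm.map σ * P)) := by
            rw [hσ]
            simp only [Matrix.mul_neg, Matrix.neg_mul, Matrix.mul_assoc]
        _ = -(Pᵀ * BC * P * (P⁻¹ * hm.map σ * P)) := by rw [← hPP]; simp only [Matrix.mul_assoc])
    (by
      intro z hz1 hz2 hz3
      have hcj : ∀ a b : Matrix n n ℂ, (P * a * P⁻¹) * b = b * (P * a * P⁻¹) ↔
          a * (P⁻¹ * b * P) = (P⁻¹ * b * P) * a := by
        intro a b
        constructor
        · intro h
          have h3 := congrArg (fun M => P⁻¹ * M * P) h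
          calc a * (P⁻¹ * b * P) = P⁻¹ * (P * a * P⁻¹ * b) * P := by
                simp only [← Matrix.mul_assoc]
                rw [Matrix.nonsing_inv_mul _ hP, Matrix.one_mul]
            _ = P⁻¹ * (b * (P * a * P⁻¹)) * P := h3
            _ = (P⁻¹ * b * P) * a * (P⁻¹ * P) := by simp only [Matrix.mul_assoc]
            _ = _ := by rw [Matrix.nonsing_inv_mul _ hP, Matrix.mul_one]
        · intro h
          have h3 := congrArg (fun M => P * M * P⁻¹) h
          calc (P * a * P⁻¹) * b = P * (a * (P⁻¹ * b * P)) * P⁻¹ := by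
                simp only [Matrix.mul_assoc]
                rw [Matrix.mul_nonsing_inv _ hP, Matrix.mul_one]
            _ = P * ((P⁻¹ * b * P) * a) * P⁻¹ := h3
            _ = (P * P⁻¹) * b * (P * a * P⁻¹) := by simp only [Matrix.mul_assoc]
            _ = _ := by rw [Matrix.mul_nonsing_inv _ hP, Matrix.one_mul]
      have hz4 : P * z * P⁻¹ ∈ cen hm BC := by
        refine ⟨fun σ => (hcj z _).2 (hz1 _ ⟨σ, rfl⟩), fun a ha => (hcj z a).2 (hz2 _ ?_), ?_⟩
        · rintro x ⟨σ, rfl⟩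
          rw [← hcj]
          rw [back' hP]
          exact ha σ
        · have h3 : (P * z * P⁻¹)ᵀ = (P⁻¹)ᵀ * (zᵀ * Pᵀ) := by
            rw [Matrix.transpose_mul, Matrix.transpose_mul]
          have h4 : (P⁻¹)ᵀ * Pᵀ = 1 := by
            rw [← Matrix.transpose_mul, Matrix.mul_nonsing_inv _ hP, Matrix.transpose_one]
          calc (P * z * P⁻¹)ᵀ * BC = (P⁻¹)ᵀ * (zᵀ * (Pᵀ * BC * P)) * P⁻¹ := by
                rw [h3]
                simp only [Matrix.mul_assoc]
                rw [Matrix.mul_nonsing_inv _ hP, Matrix.mul_one]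
            _ = -(((P⁻¹)ᵀ * Pᵀ) * BC * (P * z * P⁻¹)) := by
                rw [hz3]
                simp only [Matrix.mul_neg, Matrix.neg_mul, Matrix.mul_assoc]
            _ = _ := by rw [h4, Matrix.one_mul]
      have h5 := cen_zero rat hm B hno _ hz4
      have h6 := congrArg (fun M => P⁻¹ * M * P) h5
      calc z = (P⁻¹ * P) * z * (P⁻¹ * P) := by
            rw [Matrix.nonsing_inv_mul _ hP, Matrix.one_mul, Matrix.mul_one]
        _ = P⁻¹ * (P * z * P⁻¹) * P := by simp only [Matrix.mul_assoc]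
        _ = P⁻¹ * 0 * P := h6
        _ = 0 := by rw [Matrix.mul_zero, Matrix.zero_mul])
    (by
      rw [hTL, hTS 2, hP0 2]
      exact Submodule.map_mono (bcM_mono h2))
  refine ⟨fun m => ?_, fun m hm' hle k => ?_⟩
  · have h3 := h1.1 m
    have e1 : finrank ℂ (TL (LP hm P) m) = finrank K (T m) := by
      rw [hTL, finrank_map_cjm hP, t_DIM1]
    have e2 : finrank ℂ (Tt.S m) = finrank K (S m) := by
      rw [hTS m, finrank_map_cjm hP, hP0 m, t_DIM1]
    rwa [e1, e2] at h3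
  · have h3 := h1.2 m hm' (by
      rw [hTL, hTS m, hP0 m]
      exact Submodule.map_mono (bcM_mono hle)) k
    rw [hTL, hTS k, hP0 k] at h3
    exact bcM_le (Submodule.map_injective_of_injective (cjm_inj hP) h3)

end noskew

end

end Pool.Agent.E8helper56.TX
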