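import Pool.Agent.E8helper56.TX.SW1

set_option autoImplicit false
set_option linter.unusedSectionVars false

/-!
# Tensor systems

A tensor system is a family `S m` of `*`-closed algebras of operators on `V^{⊗ m}` which contains the
permutations and is closed under tensor products and partial traces.
-/

open Matrix
open scoped Kronecker

noncomputable section

namespace Pool.Agent.E8helper56.TX

variable {n : Type*} [Fintype n] [DecidableEq n]

/-- splitting of multi-indices -/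
def sp (m k : ℕ) (n : Type*) : (Fin (m + k) → n) ≃ (Fin m → n) × (Fin k → n) where
  toFun f := (fun i => f (Fin.castAdd k i), fun j => f (Fin.natAdd m j))
  invFun p := Fin.append p.1 p.2
  left_inv f := Fin.append_castAdd_natAdd
  right_inv p := by
    ext i
    · simp
    · simp

/-- tensor product of operators -/
def ten {m k : ℕ} (A : Matrix (Fin m → n) (Fin m → n) ℂ) (B : Matrix (Fin k → n) (Fin k → n) ℂ) :
    Matrix (Fin (m + k) → n) (Fin (m + k) → n) ℂ :=
  fun a b => A (fun i => a (Fin.castAdd k i)) (fun i => b (Fin.castAdd k i)) *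
    B (fun j => a (Fin.natAdd m j)) (fun j => b (Fin.natAdd m j))

/-- partial trace over the last `k` factors -/
def ptr (m k : ℕ) (Z : Matrix (Fin (m + k) → n) (Fin (m + k) → n) ℂ) :
    Matrix (Fin m → n) (Fin m → n) ℂ :=
  fun a b => ∑ c : Fin k → n, Z (Fin.append a c) (Fin.append b c)

theorem ten_eq {m k : ℕ} (A : Matrix (Fin m → n) (Fin m → n) ℂ)
    (B : Matrix (Fin k → n) (Fin k → n) ℂ) :
    ten A B = (A ⊗ₖ B).submatrix (sp m k n) (sp m k n) := rfl

theorem ten_mul {m k : ℕ} (A A' : Matrix (Fin m → n) (Fin m → n) ℂ)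
    (B B' : Matrix (Fin k → n) (Fin k → n) ℂ) :
    ten A B * ten A' B' = ten (A * A') (B * B') := by
  rw [ten_eq, ten_eq, ten_eq, Matrix.submatrix_mul_equiv, Matrix.mul_kronecker_mul]

theorem ten_conjTranspose {m k : ℕ} (A : Matrix (Fin m → n) (Fin m → n) ℂ)
    (B : Matrix (Fin k → n) (Fin k → n) ℂ) : (ten A B)ᴴ = ten Aᴴ Bᴴ := by
  ext a b
  simp [ten, Matrix.conjTranspose_apply]

theorem trace_ten {m k : ℕ} (A : Matrix (Fin m → n) (Fin m → n) ℂ)
    (B : Matrix (Fin k → n) (Fin k → n) ℂ) : (ten A B).trace = A.trace * B.trace := by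
  rw [ten_eq, ← Matrix.trace_kronecker]
  simp only [Matrix.trace, Matrix.diag_apply, Matrix.submatrix_apply]
  exact Equiv.sum_comp (sp m k n) (fun p => (A ⊗ₖ B) p p)

theorem tp_add (m k : ℕ) (g : Matrix n n ℂ) :
    tp (Fin (m + k)) g = ten (tp (Fin m) g) (tp (Fin k) g) := by
  ext a b
  simp only [tp_apply, ten]
  rw [Fin.prod_univ_add]

theorem ptr_ten {m k : ℕ} (A : Matrix (Fin m → n) (Fin m → n) ℂ)
    (B : Matrix (Fin k → n) (Fin k → n) ℂ) : ptr m k (ten A B) = B.trace • A := by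
  ext a b
  simp only [ptr, ten, Matrix.smul_apply, Fin.append_left, Fin.append_right, smul_eq_mul]
  rw [← Finset.mul_sum, mul_comm]
  rfl

/-- partial trace as a linear map -/
def ptrL (m k : ℕ) : Matrix (Fin (m + k) → n) (Fin (m + k) → n) ℂ →ₗ[ℂ]
    Matrix (Fin m → n) (Fin m → n) ℂ where
  toFun := ptr m k
  map_add' := by
    intro A B
    ext a b
    simp only [ptr, Matrix.add_apply, Finset.sum_add_distrib]
  map_smul' := by
    intro c A
    ext a b
    simp only [ptr, Matrix.smul_apply, Finset.smul_sum, RingHom.id_apply]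

/-- A tensor system. -/
structure Sys (n : Type*) [Fintype n] [DecidableEq n] where
  S : ∀ m : ℕ, Submodule ℂ (Matrix (Fin m → n) (Fin m → n) ℂ)
  mul : ∀ m, ∀ A ∈ S m, ∀ B ∈ S m, A * B ∈ S m
  adj : ∀ m, ∀ A ∈ S m, Aᴴ ∈ S m
  perm : ∀ m (σ : Equiv.Perm (Fin m)), pm n ℂ σ ∈ S m
  ten : ∀ m k, ∀ A ∈ S m, ∀ B ∈ S k, ten A B ∈ S (m + k)
  ptr : ∀ m k, ∀ Z ∈ S (m + k), ptr m k Z ∈ S m

namespace Sys

variable (S : Sys n)

theorem one_mem (m : ℕ) : (1 : Matrix (Fin m → n) (Fin m → n) ℂ) ∈ S.S m := by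
  rw [← pm_one (M := Fin m)]
  exact S.perm m 1

/-- the group of a tensor system -/
def G : Set (Matrix n n ℂ) :=
  {g | g ∈ Matrix.unitaryGroup n ℂ ∧ ∀ m, ∀ A ∈ S.S m, A * tp (Fin m) g = tp (Fin m) g * A}

end Sys

theorem tp_unitary {m : ℕ} {g : Matrix n n ℂ} (hg : g ∈ Matrix.unitaryGroup n ℂ) :
    (tp (Fin m) g)ᴴ * tp (Fin m) g = 1 := by
  rw [← tp_conjTranspose, ← tp_mul, ← Matrix.star_eq_conjTranspose,
    Matrix.mem_unitaryGroup_iff'.1 hg, tp_one]

theorem tp_unitary' {m : ℕ} {g : Matrix n n ℂ} (hg : g ∈ Matrix.unitaryGroup n ℂ) :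
    tp (Fin m) g * (tp (Fin m) g)ᴴ = 1 := by
  rw [← tp_conjTranspose, ← tp_mul, ← Matrix.star_eq_conjTranspose,
    Matrix.mem_unitaryGroup_iff.1 hg, tp_one]

/-- the key identity -/
theorem key_ptr {m k : ℕ} (u : Matrix n n ℂ) (E : Matrix (Fin m → n) (Fin m → n) ℂ)
    (A B : Matrix (Fin k → n) (Fin k → n) ℂ) :
    ptr m k (ten 1 A * (tp (Fin (m + k)) u * ten E B * (tp (Fin (m + k)) u)ᴴ)) =
      ((tp (Fin k) u)ᴴ * A * tp (Fin k) u * B).trace •
        (tp (Fin m) u * E * (tp (Fin m) u)ᴴ) := by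
  rw [tp_add, ten_conjTranspose, ten_mul, ten_mul, ten_mul, ptr_ten, Matrix.one_mul]
  congr 1
  have h1 : A * (tp (Fin k) u * B * (tp (Fin k) u)ᴴ) = (A * tp (Fin k) u * B) * (tp (Fin k) u)ᴴ := by
    simp only [Matrix.mul_assoc]
  rw [h1, Matrix.trace_mul_comm]
  simp only [Matrix.mul_assoc]

end Pool.Agent.E8helper56.TX
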