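import Mathlib

set_option autoImplicit false
set_option linter.unusedSectionVars false

/-!
# Small integral relations
-/

open Matrix

noncomputable section

namespace Pool.Agent.E8helper56.TX

variable {E : Type} [Fintype E] [DecidableEq E]

theorem fact_bound (s : Finset E) (d : E → ℕ) (hd : ∀ e, 1 ≤ d e) :
    s.card ≤ ∑ e ∈ s, d e ∧ s.card.factorial * ∏ e ∈ s, d e ≤ (∑ e ∈ s, d e).factorial := by
  induction s using Finset.induction_on with
  | empty => simp
  | insert a s ha ih =>
    obtain ⟨ih1, ih2⟩ := ih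
    rw [Finset.card_insert_of_notMem ha, Finset.sum_insert ha, Finset.prod_insert ha]
    have h1 := hd a
    refine ⟨by omega, ?_⟩
    clear hd ha
    generalize s.card = c at *
    generalize ∑ e ∈ s, d e = N at *
    generalize ∏ e ∈ s, d e = Q at *
    generalize d a = k at *
    have h2 : k * (N + 1).factorial ≤ (k + N).factorial := by
      rcases Nat.eq_or_lt_of_le h1 with h | h
      · rw [← h, one_mul, add_comm]
      · obtain ⟨j, rfl⟩ : ∃ j, k = j + 2 := ⟨k - 2, by omega⟩
        have h3 : j + 2 + N = (j + 1 + N) + 1 := by omega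
        rw [h3, Nat.factorial_succ (j + 1 + N)]
        exact Nat.mul_le_mul (by omega) (Nat.factorial_le (by omega))
    calc (c + 1).factorial * (k * Q) = (c + 1) * k * (c.factorial * Q) := by
          rw [Nat.factorial_succ]
          ring
      _ ≤ (N + 1) * k * N.factorial := Nat.mul_le_mul (Nat.mul_le_mul_right _ (by omega)) ih2
      _ = k * (N + 1).factorial := by
          rw [Nat.factorial_succ]
          ring
      _ ≤ _ := h2

/-- the bound for the cofactors -/
theorem cof_bound (M : Matrix E E ℤ) (d : E → ℕ) (w : ℕ)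
    (hM : ∀ a e, |M a e| ≤ (w : ℤ) * d e) (b : E) :
    ∑ e, |M.adjugate e b| * d e ≤ ((Fintype.card E).factorial * (w ^ (Fintype.card E - 1) *
      ∏ e, d e) : ℕ) := by
  have h1 : ∀ e, |M.adjugate e b| * d e ≤ ∑ σ : Equiv.Perm E, if σ e = b then
      ((w ^ (Fintype.card E - 1) * ∏ e, d e : ℕ) : ℤ) else 0 := by
    intro e
    rw [Matrix.adjugate_apply, Matrix.det_apply]
    refine (mul_le_mul_of_nonneg_right (Finset.abs_sum_le_sum_abs _ _) (by positivity)).trans ?_
    rw [Finset.sum_mul]
    refine Finset.sum_le_sum fun σ _ => ?_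
    have h2 : |Equiv.Perm.sign σ • ∏ i, (M.updateRow b (Pi.single e 1)) (σ i) i| =
        ∏ i, |(M.updateRow b (Pi.single e 1)) (σ i) i| := by
      rw [Units.smul_def, smul_eq_mul, abs_mul, Finset.abs_prod]
      rcases Int.units_eq_one_or (Equiv.Perm.sign σ) with h | h
      · rw [h]
        simp
      · rw [h]
        simp
    rw [h2]
    by_cases h3 : σ e = b
    · rw [if_pos h3, ← Finset.mul_prod_erase _ _ (Finset.mem_univ e), h3, Matrix.updateRow_self,
        Pi.single_eq_same, abs_one, one_mul]
      have h4 : ∏ i ∈ Finset.univ.erase e, |(M.updateRow b (Pi.single e 1)) (σ i) i| ≤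
          ∏ i ∈ Finset.univ.erase e, ((w : ℤ) * d i) := by
        refine Finset.prod_le_prod (fun i _ => abs_nonneg _) fun i hi => ?_
        have h5 : σ i ≠ b := by
          intro h
          exact (Finset.ne_of_mem_erase hi) (σ.injective (h.trans h3.symm))
        rw [Matrix.updateRow_ne h5]
        exact hM _ _
      refine (mul_le_mul_of_nonneg_right h4 (by positivity)).trans (le_of_eq ?_)
      rw [Finset.prod_mul_distrib, Finset.prod_const, Finset.card_erase_of_mem (Finset.mem_univ e),
        Finset.card_univ]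
      push_cast
      rw [mul_assoc, Finset.prod_erase_mul _ _ (Finset.mem_univ e)]
    · rw [if_neg h3]
      have h4 : ∏ i, |(M.updateRow b (Pi.single e 1)) (σ i) i| = 0 := by
        refine Finset.prod_eq_zero (Finset.mem_univ (σ.symm b)) ?_
        rw [Equiv.apply_symm_apply, Matrix.updateRow_self, Pi.single_eq_of_ne, abs_zero]
        intro h
        exact h3 (by rw [← h, Equiv.apply_symm_apply])
      rw [h4, zero_mul]
  refine (Finset.sum_le_sum fun e _ => h1 e).trans ?_
  rw [Finset.sum_comm]
  have h2 : ∀ σ : Equiv.Perm E, (∑ e, if σ e = b then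
      ((w ^ (Fintype.card E - 1) * ∏ e, d e : ℕ) : ℤ) else 0) =
      ((w ^ (Fintype.card E - 1) * ∏ e, d e : ℕ) : ℤ) := by
    intro σ
    rw [Finset.sum_eq_single (σ.symm b)]
    · rw [if_pos (Equiv.apply_symm_apply _ _)]
    · intro e _ he
      rw [if_neg]
      intro h
      exact he (by rw [← h, Equiv.symm_apply_apply])
    · intro h
      exact absurd (Finset.mem_univ _) h
  rw [Finset.sum_congr rfl fun σ _ => h2 σ, Finset.sum_const, Finset.card_univ,
    Fintype.card_perm, nsmul_eq_mul]
  push_cast
  exact le_rfl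

/-- **Small integral relations.** -/
theorem small_rel (d : E → ℕ) (hd : ∀ e, 1 ≤ d e) (w : ℕ) (hw : 1 ≤ w) (Z : Set (E → ℤ))
    (hZ : ∀ v ∈ Z, ∀ e, |v e| ≤ (w : ℤ) * d e) (γ : E → ℝ) (hγ : γ ≠ 0)
    (hγZ : ∀ v ∈ Z, ∑ e, γ e * v e = 0) :
    ∃ s : E → ℤ, (∀ v ∈ Z, ∑ e, s e * v e = 0) ∧ ∑ e, (s e : ℝ) * (d e * γ e) ≠ 0 ∧
      ∑ e, |s e| * d e ≤ ((Fintype.card E).factorial * (w ^ (Fintype.card E - 1) *
        ∏ e, d e) : ℕ) := by
  classical
  let cst : (E → ℤ) → (E → ℝ) := fun v e => v e
  have hcst : Function.Injective cst := by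
    intro v v' h
    funext e
    have h1 : (v e : ℝ) = v' e := congrFun h e
    exact_mod_cast h1
  let T : Set (E → ℝ) := cst '' {v | ∀ e, |v e| ≤ (w : ℤ) * d e}
  have hZT : cst '' Z ⊆ T := Set.image_mono fun v hv => hZ v hv
  -- `u` is not in the span
  let u : E → ℝ := fun e => d e * γ e
  have hspan : ∀ z ∈ Submodule.span ℝ (cst '' Z), ∑ e, γ e * z e = 0 := by
    intro z hz
    induction hz using Submodule.span_induction with
    | mem z hz =>
      obtain ⟨v, hv, rfl⟩ := hz
      exact hγZ v hv
    | zero => simp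
    | add a b _ _ ha hb =>
      simp only [Pi.add_apply, mul_add, Finset.sum_add_distrib, ha, hb, add_zero]
    | smul c a _ ha =>
      have h1 : ∀ e, γ e * (c • a) e = c * (γ e * a e) := by
        intro e
        rw [Pi.smul_apply, smul_eq_mul]
        ring
      rw [Finset.sum_congr rfl fun e _ => h1 e, ← Finset.mul_sum, ha, mul_zero]
  have hu : u ∉ Submodule.span ℝ (cst '' Z) := by
    intro h
    have h1 := hspan u h
    have h2 : ∀ e, 0 ≤ γ e * u e := by
      intro e
      have h3 : γ e * u e = d e * (γ e * γ e) := by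
        change γ e * (d e * γ e) = _
        ring
      rw [h3]
      exact mul_nonneg (Nat.cast_nonneg _) (mul_self_nonneg _)
    have h3 := (Finset.sum_eq_zero_iff_of_nonneg (fun e _ => h2 e)).1 h1
    apply hγ
    funext e
    have h4 := h3 e (Finset.mem_univ e)
    have h5 : γ e * ((d e : ℝ) * γ e) = 0 := h4
    have h6 : (d e : ℝ) ≠ 0 := by
      have := hd e
      positivity
    rcases mul_eq_zero.1 h5 with h7 | h7
    · exact h7
    · exact (mul_eq_zero.1 h7).resolve_left h6
  -- the basis
  obtain ⟨s0, hs0, hs0s, hs0i⟩ := exists_linearIndependent ℝ (cst '' Z)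
  obtain ⟨b, hbT, hsb, hTb, hbi⟩ := exists_linearIndepOn_id_extension
    (s := s0) (t := T) hs0i (hs0.trans hZT)
  have htop : ⊤ ≤ Submodule.span ℝ b := by
    intro z _
    have h1 : z = ∑ e, z e • (Pi.single e (1 : ℝ) : E → ℝ) := by
      funext e
      rw [Finset.sum_apply]
      simp [Pi.single_apply]
    rw [h1]
    refine Submodule.sum_mem _ fun e _ => Submodule.smul_mem _ _ (hTb ?_)
    refine ⟨Pi.single e 1, fun e' => ?_, ?_⟩
    · by_cases h : e' = e
      · subst h
        rw [Pi.single_eq_same, abs_one]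
        have h2 : 1 * 1 ≤ w * d e' := Nat.mul_le_mul hw (hd e')
        exact_mod_cast h2
      · rw [Pi.single_eq_of_ne h, abs_zero]
        positivity
    · funext e'
      change ((Pi.single e (1 : ℤ) : E → ℤ) e' : ℝ) = (Pi.single e (1 : ℝ) : E → ℝ) e'
      by_cases h : e' = e
      · subst h
        rw [Pi.single_eq_same, Pi.single_eq_same, Int.cast_one]
      · rw [Pi.single_eq_of_ne h, Pi.single_eq_of_ne h, Int.cast_zero]
  have hbi' : LinearIndependent ℝ (fun x : b => (x : E → ℝ)) := hbi
  let bas : Module.Basis b ℝ (E → ℝ) := Module.Basis.mk hbi' (by rw [Subtype.range_coe]; exact htop)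
  have _ : Finite b := Module.Finite.finite_basis bas
  have _ : Fintype b := Fintype.ofFinite b
  have hcard : Fintype.card E = Fintype.card b := by
    rw [← Module.finrank_eq_card_basis bas, Module.finrank_pi]
  let f : E ≃ b := Fintype.equivOfCardEq hcard
  choose g hg1 hg2 using fun a : E => hbT (f a).2
  let M : Matrix E E ℤ := fun a => g a
  have hMrow : ∀ a, cst (M a) = bas (f a) := by
    intro a
    rw [Module.Basis.mk_apply]
    exact hg2 a
  -- pairing with the columns of the adjugate
  have hpair : ∀ a b', ∑ e, M a e * M.adjugate e b' = if a = b' then M.det else 0 := by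
    intro a b'
    have h1 := congrFun (congrFun (Matrix.mul_adjugate M) a) b'
    rw [Matrix.mul_apply, Matrix.smul_apply, Matrix.one_apply, smul_eq_mul, mul_ite, mul_one,
      mul_zero] at h1
    exact h1
  have hpairR : ∀ (z : E → ℝ) b', ∑ e, (M.adjugate e b' : ℝ) * z e =
      bas.repr z (f b') * M.det := by
    intro z b'
    have h1 : z = ∑ a, bas.repr z (f a) • cst (M a) := by
      conv_lhs => rw [← bas.sum_repr z]
      rw [← Equiv.sum_comp f]
      refine Finset.sum_congr rfl fun a _ => ?_
      rw [hMrow]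
    conv_lhs => rw [h1]
    simp only [Finset.sum_apply, Pi.smul_apply, smul_eq_mul, Finset.mul_sum]
    rw [Finset.sum_comm]
    have h2 : ∀ a, ∑ e, (M.adjugate e b' : ℝ) * (bas.repr z (f a) * cst (M a) e) =
        bas.repr z (f a) * if a = b' then (M.det : ℝ) else 0 := by
      intro a
      have h3 : ((∑ e, M a e * M.adjugate e b' : ℤ) : ℝ) = if a = b' then (M.det : ℝ) else 0 := by
        rw [hpair]
        split_ifs
        · rfl
        · exact Int.cast_zero
      rw [← h3]
      push_cast
      rw [Finset.mul_sum]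
      refine Finset.sum_congr rfl fun e _ => ?_
      change (M.adjugate e b' : ℝ) * (bas.repr z (f a) * (M a e : ℝ)) = _
      ring
    rw [Finset.sum_congr rfl fun a _ => h2 a]
    simp
  -- the choice of the column
  have hex : ∃ b' : E, ((f b' : b) : E → ℝ) ∉ s0 ∧ ∑ e, (M.adjugate e b' : ℝ) * u e ≠ 0 := by
    by_contra hcon
    push Not at hcon
    apply hu
    rw [← hs0s, ← bas.sum_repr u]
    refine Submodule.sum_mem _ fun x _ => ?_
    by_cases hx : (x : E → ℝ) ∈ s0
    · refine Submodule.smul_mem _ _ (Submodule.subset_span ?_)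
      rw [Module.Basis.mk_apply]
      exact hx
    · have h1 := hcon (f.symm x) (by rw [Equiv.apply_symm_apply]; exact hx)
      rw [hpairR, Equiv.apply_symm_apply] at h1
      have hdet : (M.det : ℝ) ≠ 0 := by
        intro h0
        have h2 : ∀ z : E → ℝ, ∀ b', ∑ e, (M.adjugate e b' : ℝ) * z e = 0 := by
          intro z b'
          rw [hpairR, h0, mul_zero]
        have h3 : LinearIndependent ℝ (M.map (Int.cast : ℤ → ℝ)).row := by
          have h4 : (M.map (Int.cast : ℤ → ℝ)).row = fun a => bas (f a) := by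
            funext a
            rw [← hMrow]
            rfl
          rw [h4]
          exact bas.linearIndependent.comp f f.injective
        have h5 := Matrix.linearIndependent_rows_iff_isUnit.1 h3
        have h6 := (Matrix.isUnit_iff_isUnit_det _).1 h5
        have h7 : (M.map (Int.cast : ℤ → ℝ)).det = (M.det : ℝ) := by
          have := (Int.castRingHom ℝ).map_det M
          rw [eq_comm]
          exact this
        rw [h7, h0] at h6
        exact not_isUnit_zero h6
      have h2 := (mul_eq_zero.1 h1).resolve_right hdet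
      rw [h2, zero_smul]
      exact Submodule.zero_mem _
  obtain ⟨b', hb', hub'⟩ := hex
  refine ⟨fun e => M.adjugate e b', fun v hv => ?_, hub', cof_bound M d w (fun a e => hg1 a e) b'⟩
  have h1 : ∀ z ∈ Submodule.span ℝ s0, ∑ e, (M.adjugate e b' : ℝ) * z e = 0 := by
    intro z hz
    induction hz using Submodule.span_induction with
    | mem z hz =>
      rw [hpairR]
      have h2 : z = bas ⟨z, hsb hz⟩ := by
        rw [Module.Basis.mk_apply]
      have h3 : bas.repr z (f b') = 0 := by
        conv_lhs => rw [h2]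
        rw [Module.Basis.repr_self, Finsupp.single_eq_of_ne]
        intro h
        apply hb'
        rw [h]
        exact hz
      rw [h3, zero_mul]
    | zero => simp
    | add a b _ _ ha hb =>
      simp only [Pi.add_apply, mul_add, Finset.sum_add_distrib, ha, hb, add_zero]
    | smul c a _ ha =>
      have h1 : ∀ e, (M.adjugate e b' : ℝ) * (c • a) e = c * (M.adjugate e b' * a e) := by
        intro e
        rw [Pi.smul_apply, smul_eq_mul]
        ring
      rw [Finset.sum_congr rfl fun e _ => h1 e, ← Finset.mul_sum, ha, mul_zero]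
  have h2 := h1 (cst v) (by rw [hs0s]; exact Submodule.subset_span ⟨v, hv, rfl⟩)
  have h3 : ((∑ e, M.adjugate e b' * v e : ℤ) : ℝ) = 0 := by
    rw [← h2]
    push_cast
    rfl
  exact_mod_cast h3

/-- the simple form of the bound -/
theorem bound_simple (d : E → ℕ) (hd : ∀ e, 1 ≤ d e) (w : ℕ) (hw : 1 ≤ w) (N : ℕ)
    (hN : ∑ e, d e = N) :
    (Fintype.card E).factorial * (w ^ (Fintype.card E - 1) * ∏ e, d e) ≤
      N.factorial * w ^ (N - 1) := by
  obtain ⟨h1, h2⟩ := fact_bound Finset.univ d hd
  rw [Finset.card_univ, hN] at h1 h2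
  calc (Fintype.card E).factorial * (w ^ (Fintype.card E - 1) * ∏ e, d e) =
      ((Fintype.card E).factorial * ∏ e, d e) * w ^ (Fintype.card E - 1) := by ring
    _ ≤ N.factorial * w ^ (N - 1) := Nat.mul_le_mul h2 (Nat.pow_le_pow_right hw (by omega))

end Pool.Agent.E8helper56.TX
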