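import Pool.Agent.E8helper56.TX.Det
import Pool.Agent.E8helper56.TX.Cramer

set_option autoImplicit false
set_option linter.unusedSectionVars false

/-!
# Lie algebras spanned by matrices with bounded integral eigenvalues
-/

open Matrix

noncomputable section

namespace Pool.Agent.E8helper56.TX

open Pool.Agent.E8helper1.TX

variable {n : Type} [Fintype n] [DecidableEq n] {m : ℕ}

/-- The eigenvalues are integers of absolute value at most `w`. -/
def IsInt (w : ℕ) (x : Matrix n n ℂ) : Prop :=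
  ∀ (μ : ℂ) (v : n → ℂ), v ≠ 0 → x *ᵥ v = μ • v → ∃ k : ℤ, |k| ≤ w ∧ μ = k

/-- skew-hermitian matrices are diagonalizable -/
theorem skew_diag (c : Matrix n n ℂ) (hc : cᴴ = -c) : ∃ (V : Matrix n n ℂ) (lam : n → ℝ),
    Vᴴ * V = 1 ∧ V * Vᴴ = 1 ∧ c = V * diagonal (fun k => (lam k : ℂ) * Complex.I) * Vᴴ := by
  set H : Matrix n n ℂ := (-Complex.I) • c with hH
  have hHH : H.IsHermitian := by
    show Hᴴ = H
    rw [hH, Matrix.conjTranspose_smul, hc]
    simp
  have hsp := hHH.spectral_theorem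
  set V : Matrix n n ℂ := (hHH.eigenvectorUnitary : Matrix n n ℂ) with hV
  set lam : n → ℝ := hHH.eigenvalues with hlam
  have hV1 : Vᴴ * V = 1 := Matrix.mem_unitaryGroup_iff'.1 hHH.eigenvectorUnitary.2
  have hV2 : V * Vᴴ = 1 := Matrix.mem_unitaryGroup_iff.1 hHH.eigenvectorUnitary.2
  have hHV : H = V * diagonal (fun k => (lam k : ℂ)) * Vᴴ := hsp
  refine ⟨V, lam, hV1, hV2, ?_⟩
  have h1 : c = Complex.I • H := by
    rw [hH, smul_smul, mul_neg, Complex.I_mul_I, neg_neg, one_smul]
  have h2 : diagonal (fun k => (lam k : ℂ) * Complex.I) =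
      Complex.I • diagonal (fun k => (lam k : ℂ)) := by
    rw [← Matrix.diagonal_smul]
    congr 1
    funext k
    rw [Pi.smul_apply, smul_eq_mul, mul_comm]
  rw [h2, Matrix.mul_smul, Matrix.smul_mul, ← hHV, ← h1]

/-- the positions of the determinants -/
theorem exists_pos {E : Type} [Fintype E] [DecidableEq E] (b : n → E) (k : E → ℕ) (m : ℕ)
    (hm : ∑ e, k e * Fintype.card {i // b i = e} = m) :
    ∃ (β : Fin m → Σ e, Fin (k e)) (pr : Fin m → n),
      (∀ p p', β p = β p' → pr p = pr p' → p = p') ∧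
      (∀ p a, b a = b (pr p) → ∃ p', β p' = β p ∧ pr p' = a) ∧
      ∀ f : n → ℂ, ∑ p, f (pr p) = ∑ e, (k e : ℂ) * ∑ i : {i // b i = e}, f i.1 := by
  have hcard : Fintype.card (Fin m) = Fintype.card (Σ e, Fin (k e) × {i // b i = e}) := by
    rw [Fintype.card_fin, Fintype.card_sigma, ← hm]
    refine Finset.sum_congr rfl fun e _ => ?_
    rw [Fintype.card_prod, Fintype.card_fin]
  let f : Fin m ≃ Σ e, Fin (k e) × {i // b i = e} := Fintype.equivOfCardEq hcard
  let β₀ : (Σ e, Fin (k e) × {i // b i = e}) → Σ e, Fin (k e) := fun q => ⟨q.1, q.2.1⟩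
  let pr₀ : (Σ e, Fin (k e) × {i // b i = e}) → n := fun q => q.2.2.1
  have hinj : ∀ q q', β₀ q = β₀ q' → pr₀ q = pr₀ q' → q = q' := by
    rintro ⟨e, c, i, hi⟩ ⟨e', c', i', hi'⟩ h1 h2
    change i = i' at h2
    subst h2
    have he : e = e' := congrArg Sigma.fst h1
    subst he
    have hc : c = c' := eq_of_heq (Sigma.mk.inj h1).2
    subst hc
    rfl
  refine ⟨fun p => β₀ (f p), fun p => pr₀ (f p), ?_, ?_, ?_⟩
  · intro p p' h1 h2
    exact f.injective (hinj _ _ h1 h2)
  · intro p a ha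
    have hb : b a = (f p).1 := by
      rw [ha]
      exact (f p).2.2.2
    refine ⟨f.symm ⟨(f p).1, (f p).2.1, a, hb⟩, ?_, ?_⟩
    · change β₀ (f (f.symm _)) = _
      rw [Equiv.apply_symm_apply]
    · change pr₀ (f (f.symm _)) = _
      rw [Equiv.apply_symm_apply]
  · intro g
    rw [Equiv.sum_comp f (fun q => g (pr₀ q)), Fintype.sum_sigma]
    refine Finset.sum_congr rfl fun e _ => ?_
    rw [Fintype.sum_prod_type]
    change ∑ _c : Fin (k e), ∑ i : {i // b i = e}, g i.1 = _
    rw [Finset.sum_const, Finset.card_univ, Fintype.card_fin, nsmul_eq_mul]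

/-- sums of integers of bounded size -/
theorem multiset_int (w : ℕ) (s : Multiset ℂ) (h : ∀ μ ∈ s, ∃ k : ℤ, |k| ≤ w ∧ μ = k) :
    ∃ k : ℤ, |k| ≤ (w : ℤ) * Multiset.card s ∧ s.sum = k := by
  induction s using Multiset.induction_on with
  | empty => exact ⟨0, by simp, by simp⟩
  | cons a s ih =>
    obtain ⟨k, hk, hk'⟩ := ih fun μ hμ => h μ (Multiset.mem_cons_of_mem hμ)
    obtain ⟨l, hl, hl'⟩ := h a (Multiset.mem_cons_self a s)
    refine ⟨l + k, ?_, ?_⟩
    · rw [Multiset.card_cons]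
      push_cast
      refine (abs_add_le l k).trans ?_
      rw [mul_add, mul_one, add_comm]
      exact add_le_add hk hl
    · rw [Multiset.sum_cons, hk', hl']
      push_cast
      rfl

/-- the traces of the blocks are integers -/
theorem int_trace {E : Type} [Fintype E] [DecidableEq E] (b : n → E) {w : ℕ} {x : Matrix n n ℂ}
    (hx : IsInt w x) (hb : ∀ i j, b i ≠ b j → x i j = 0) (e : E) :
    ∃ k : ℤ, |k| ≤ (w : ℤ) * Fintype.card {i // b i = e} ∧ ∑ i : {i // b i = e}, x i.1 i.1 = k := by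
  let y : Matrix {i // b i = e} {i // b i = e} ℂ := fun i j => x i.1 j.1
  have hy : ∑ i : {i // b i = e}, x i.1 i.1 = (y.charpoly.roots).sum := by
    rw [← Matrix.trace_eq_sum_roots_charpoly]
    rfl
  have hroot : ∀ μ ∈ y.charpoly.roots, ∃ k : ℤ, |k| ≤ w ∧ μ = k := by
    intro μ hμ
    have h1 := (Polynomial.mem_roots'.1 hμ).2
    rw [Polynomial.IsRoot, Matrix.eval_charpoly] at h1
    obtain ⟨v, hv0, hv⟩ := Matrix.exists_mulVec_eq_zero_iff.2 h1
    let u : n → ℂ := fun i => if h : b i = e then v ⟨i, h⟩ else 0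
    have hu : ∀ i : {i // b i = e}, u i.1 = v i := fun i => by
      change (if h : b i.1 = e then v ⟨i.1, h⟩ else 0) = v i
      rw [dif_pos i.2]
    have hu' : ∀ i, b i ≠ e → u i = 0 := fun i hi => by
      change (if h : b i = e then v ⟨i, h⟩ else 0) = 0
      rw [dif_neg hi]
    have hyv : ∀ i : {i // b i = e}, ∑ j, y i j * v j = μ * v i := by
      intro i
      have h2 := congrFun hv i
      rw [Matrix.sub_mulVec, Matrix.scalar_apply, Pi.sub_apply, Pi.zero_apply, sub_eq_zero,
        Matrix.mulVec_diagonal] at h2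
      exact h2.symm
    refine hx μ u ?_ ?_
    · obtain ⟨i, hi⟩ := Function.ne_iff.1 hv0
      intro h0
      apply hi
      rw [← hu, h0]
      rfl
    · funext i
      rw [Pi.smul_apply, smul_eq_mul, Matrix.mulVec, dotProduct]
      by_cases hi : b i = e
      · have h3 := hyv ⟨i, hi⟩
        rw [hu ⟨i, hi⟩, ← h3]
        symm
        refine Fintype.sum_of_injective Subtype.val Subtype.val_injective _ _ (fun j hj => ?_)
          (fun j => ?_)
        · have hj' : b j ≠ e := fun h => hj ⟨⟨j, h⟩, rfl⟩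
          rw [hu' j hj', mul_zero]
        · rw [hu j]
      · rw [hu' i hi, mul_zero]
        refine Finset.sum_eq_zero fun j _ => ?_
        by_cases hj : b j = e
        · rw [hb i j (fun h => hi (h.trans hj)), zero_mul]
        · rw [hu' j hj, mul_zero]
  obtain ⟨k, hk, hk'⟩ := multiset_int w _ hroot
  refine ⟨k, ?_, by rw [hy, hk']⟩
  have h1 : Multiset.card y.charpoly.roots = Fintype.card {i // b i = e} := by
    rw [← (IsAlgClosed.splits y.charpoly).natDegree_eq_card_roots, Matrix.charpoly_natDegree_eq_dim]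
  rwa [h1] at hk

end Pool.Agent.E8helper56.TX
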