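import Pool.Agent.E8helper56.TX.Ten

set_option autoImplicit false
set_option linter.unusedSectionVars false

/-!
# Averages over the unitary group
-/

open Matrix MeasureTheory

noncomputable section

namespace Pool.Agent.E8helper56.TX

section avg

variable {U : Type*} [TopologicalSpace U] [CompactSpace U] [MeasurableSpace U] [BorelSpace U]
  (μ : Measure U) [IsFiniteMeasure μ]

/-- the average of a matrix valued function -/
def avg {α β : Type*} (M : U → Matrix α β ℂ) : Matrix α β ℂ := fun a b => ∫ u, M u a b ∂μ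

theorem integ (f : U → ℂ) (hf : Continuous f) : Integrable f μ :=
  hf.integrable_of_hasCompactSupport (HasCompactSupport.of_compactSpace _)

theorem avg_lin {α β γ δ : Type*} [Fintype α] [Fintype β] [DecidableEq α] [DecidableEq β]
    (L : Matrix α β ℂ →ₗ[ℂ] Matrix γ δ ℂ) (M : U → Matrix α β ℂ) (hM : Continuous M) :
    L (avg μ M) = avg μ (fun u => L (M u)) := by
  have h1 : ∀ Z : Matrix α β ℂ, L Z = ∑ a, ∑ b, Z a b • L (Matrix.single a b 1) := by
    intro Z
    conv_lhs => rw [Matrix.matrix_eq_sum_single Z]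
    rw [map_sum]
    refine Finset.sum_congr rfl fun a _ => ?_
    rw [map_sum]
    refine Finset.sum_congr rfl fun b _ => ?_
    rw [← map_smul, Matrix.smul_single, smul_eq_mul, mul_one]
  have hc : ∀ a b, Continuous fun u => M u a b := fun a b => hM.matrix_elem a b
  ext c d
  rw [h1]
  simp only [avg]
  have h2 : ∀ u, L (M u) c d = ∑ a, ∑ b, M u a b * L (Matrix.single a b 1) c d := by
    intro u
    rw [h1]
    simp only [Matrix.sum_apply, Matrix.smul_apply, smul_eq_mul]
  simp only [h2, Matrix.sum_apply, Matrix.smul_apply, smul_eq_mul]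
  rw [integral_finsetSum]
  · refine Finset.sum_congr rfl fun a _ => ?_
    rw [integral_finsetSum]
    · refine Finset.sum_congr rfl fun b _ => ?_
      rw [integral_mul_const]
    · intro b _
      exact integ μ _ ((hc a b).mul continuous_const)
  · intro a _
    exact integ μ _ (continuous_finsetSum _ fun b _ => (hc a b).mul continuous_const)

theorem avg_mul_left {α β γ : Type*} [Fintype α] [Fintype β] [DecidableEq α] [DecidableEq β]
    (P : Matrix γ α ℂ) (M : U → Matrix α β ℂ) (hM : Continuous M) :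
    P * avg μ M = avg μ (fun u => P * M u) := by
  let L : Matrix α β ℂ →ₗ[ℂ] Matrix γ β ℂ :=
    { toFun := fun Z => P * Z
      map_add' := fun A B => Matrix.mul_add _ _ _
      map_smul' := fun c A => Matrix.mul_smul _ _ _ }
  exact avg_lin μ L M hM

theorem avg_mul_right {α β γ : Type*} [Fintype α] [Fintype β] [DecidableEq α] [DecidableEq β]
    (P : Matrix β γ ℂ) (M : U → Matrix α β ℂ) (hM : Continuous M) :
    avg μ M * P = avg μ (fun u => M u * P) := by
  let L : Matrix α β ℂ →ₗ[ℂ] Matrix α γ ℂ :=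
    { toFun := fun Z => Z * P
      map_add' := fun A B => Matrix.add_mul _ _ _
      map_smul' := fun c A => Matrix.smul_mul _ _ _ }
  exact avg_lin μ L M hM

end avg

section group

variable {n : Type*} [Fintype n] [DecidableEq n]
variable {U : Type*} [Group U] [TopologicalSpace U] [IsTopologicalGroup U] [CompactSpace U]
  [MeasurableSpace U] [BorelSpace U] (μ : Measure U) [IsFiniteMeasure μ] [μ.IsMulLeftInvariant]
  (ρ : U →* Matrix n n ℂ)

theorem continuous_tp {M : Type*} [Fintype M] {f : U → Matrix n n ℂ} (hf : Continuous f) :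
    Continuous fun u => tp M (f u) := by
  refine continuous_matrix fun a b => ?_
  simp only [tp_apply]
  exact continuous_finsetProd _ fun i _ => hf.matrix_elem _ _

theorem continuous_conj {M : Type*} [Fintype M] [DecidableEq M] (hρ : Continuous ρ)
    (Z : Matrix (M → n) (M → n) ℂ) :
    Continuous fun u => tp M (ρ u) * Z * (tp M (ρ u))ᴴ :=
  ((continuous_tp hρ).matrix_mul continuous_const).matrix_mul
    (continuous_tp hρ).matrix_conjTranspose

/-- the average of the conjugates of an operator lies in the span of the permutations -/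
theorem avg_conj_mem {M : Type*} [Fintype M] [DecidableEq M] (hρ : Continuous ρ)
    (hU : ∀ u, ρ u ∈ Matrix.unitaryGroup n ℂ)
    (hs : ∀ g ∈ Matrix.unitaryGroup n ℂ, ∃ u, ρ u = g) (Z : Matrix (M → n) (M → n) ℂ) :
    avg μ (fun u => tp M (ρ u) * Z * (tp M (ρ u))ᴴ) ∈
      Submodule.span ℂ (Set.range (pm (M := M) n ℂ)) := by
  refine sw _ fun g hg => ?_
  obtain ⟨h, rfl⟩ := hs g hg
  set Y := avg μ (fun u => tp M (ρ u) * Z * (tp M (ρ u))ᴴ) with hY
  have h1 : tp M (ρ h) * Y * (tp M (ρ h))ᴴ = Y := by
    rw [hY, avg_mul_left μ _ _ (continuous_conj ρ hρ Z), avg_mul_right μ _ _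
      (continuous_const.matrix_mul (continuous_conj ρ hρ Z))]
    ext a b
    simp only [avg]
    have h2 : ∀ u, (tp M (ρ h) * (tp M (ρ u) * Z * (tp M (ρ u))ᴴ) * (tp M (ρ h))ᴴ) a b =
        (tp M (ρ (h * u)) * Z * (tp M (ρ (h * u)))ᴴ) a b := by
      intro u
      rw [map_mul, tp_mul, Matrix.conjTranspose_mul]
      simp only [Matrix.mul_assoc]
    simp only [h2]
    exact integral_mul_left_eq_self (μ := μ) (fun u => (tp M (ρ u) * Z * (tp M (ρ u))ᴴ) a b) h
  have h3 : (tp M (ρ h))ᴴ * tp M (ρ h) = 1 := by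
    rw [← tp_conjTranspose, ← tp_mul, ← Matrix.star_eq_conjTranspose,
      Matrix.mem_unitaryGroup_iff'.1 (hU h), tp_one]
  calc Y * tp M (ρ h) = tp M (ρ h) * Y * (tp M (ρ h))ᴴ * tp M (ρ h) := by rw [h1]
    _ = tp M (ρ h) * Y * ((tp M (ρ h))ᴴ * tp M (ρ h)) := by simp only [Matrix.mul_assoc]
    _ = tp M (ρ h) * Y := by rw [h3, Matrix.mul_one]

end group

end Pool.Agent.E8helper56.TX
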