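import Pool.Agent.E8helper56.TX.Tan

set_option autoImplicit false
set_option linter.unusedSectionVars false

/-!
# Tannaka duality for tensor systems: the theorem
-/

open Matrix MeasureTheory

noncomputable section

namespace Pool.Agent.E8helper56.TX

section abstract

variable {n : Type*} [Fintype n] [DecidableEq n] (S : Sys n)

variable {U : Type*} [Group U] [TopologicalSpace U] [IsTopologicalGroup U] [CompactSpace U]
  [MeasurableSpace U] [BorelSpace U] (μ : Measure U) [IsFiniteMeasure μ] [μ.IsMulLeftInvariant]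
  (ρ : U →* Matrix n n ℂ)

/-- the functional attached to an operator -/
def LE {m : ℕ} (E : Matrix (Fin m → n) (Fin m → n) ℂ) (f : C(QX S ρ, ℂ)) :
    Matrix (Fin m → n) (Fin m → n) ℂ :=
  avg μ (fun u => f (Quotient.mk _ u⁻¹) • cj m (ρ u) E)

theorem cont_mk (f : C(QX S ρ, ℂ)) : Continuous fun u : U => f (Quotient.mk _ u⁻¹) :=
  f.continuous.comp (continuous_quotient_mk'.comp continuous_inv)

theorem cont_smul (hρ : Continuous ρ) {m : ℕ} (E : Matrix (Fin m → n) (Fin m → n) ℂ)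
    (f : C(QX S ρ, ℂ)) : Continuous fun u => f (Quotient.mk _ u⁻¹) • cj m (ρ u) E :=
  (cont_mk S ρ f).smul (continuous_conj ρ hρ E)

theorem LE_add (hρ : Continuous ρ) {m : ℕ} (E : Matrix (Fin m → n) (Fin m → n) ℂ)
    (f g : C(QX S ρ, ℂ)) : LE S μ ρ E (f + g) = LE S μ ρ E f + LE S μ ρ E g := by
  ext a b
  rw [Matrix.add_apply]
  simp only [LE, avg]
  rw [← integral_add]
  · congr 1
    ext u
    rw [ContinuousMap.add_apply, add_smul, Matrix.add_apply]
  · exact integ μ _ ((cont_smul S ρ hρ E f).matrix_elem a b)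
  · exact integ μ _ ((cont_smul S ρ hρ E g).matrix_elem a b)

theorem LE_smul {m : ℕ} (E : Matrix (Fin m → n) (Fin m → n) ℂ)
    (c : ℂ) (f : C(QX S ρ, ℂ)) : LE S μ ρ E (c • f) = c • LE S μ ρ E f := by
  ext a b
  rw [Matrix.smul_apply]
  simp only [LE, avg]
  rw [smul_eq_mul, ← integral_const_mul]
  congr 1
  ext u
  rw [ContinuousMap.smul_apply, Matrix.smul_apply, Matrix.smul_apply]
  simp only [smul_eq_mul]
  ring

theorem LE_continuous (hρ : Continuous ρ) {m : ℕ} (E : Matrix (Fin m → n) (Fin m → n) ℂ) :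
    Continuous (LE S μ ρ E) := by
  refine continuous_matrix fun a b => ?_
  have hc : Continuous fun u => cj m (ρ u) E a b := (continuous_conj ρ hρ E).matrix_elem a b
  let c : C(U, ℂ) := ⟨fun u => cj m (ρ u) E a b, hc⟩
  refine continuous_of_linear_of_bound (𝕜 := ℂ) (f := fun f => LE S μ ρ E f a b)
    (fun f g => ?_) (fun z f => ?_) (C := ‖c‖ * μ.real Set.univ) (fun f => ?_)
  · rw [LE_add S μ ρ hρ]
    rfl
  · rw [LE_smul S μ ρ]
    rfl
  · simp only [LE, avg]
    have h1 : ∀ u, ‖(f (Quotient.mk _ u⁻¹) • cj m (ρ u) E) a b‖ ≤ ‖f‖ * ‖c‖ := by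
      intro u
      rw [Matrix.smul_apply, smul_eq_mul, norm_mul]
      exact mul_le_mul (f.norm_coe_le_norm _) (c.norm_coe_le_norm u) (norm_nonneg _) (norm_nonneg _)
    have h2 := norm_integral_le_of_norm_le_const (μ := μ) (Filter.Eventually.of_forall h1)
    refine h2.trans (le_of_eq ?_)
    ring

/-- the basic functions are mapped into the system -/
theorem LE_basic (hρ : Continuous ρ)
    (hU : ∀ u, ρ u ∈ Matrix.unitaryGroup n ℂ)
    (hs : ∀ g ∈ Matrix.unitaryGroup n ℂ, ∃ u, ρ u = g) {m : ℕ}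
    (E : Matrix (Fin m → n) (Fin m → n) ℂ) (f : C(QX S ρ, ℂ)) (hf : f ∈ basic S ρ) :
    LE S μ ρ E f ∈ S.S m := by
  obtain ⟨k, A, B, hA, hf⟩ := hf
  let L : Matrix (Fin (m + k) → n) (Fin (m + k) → n) ℂ →ₗ[ℂ] Matrix (Fin m → n) (Fin m → n) ℂ :=
    { toFun := fun Z => ptr m k (ten 1 A * Z)
      map_add' := fun P Q => by
        rw [Matrix.mul_add]
        exact (ptrL m k).map_add _ _
      map_smul' := fun c P => by
        rw [Matrix.mul_smul]
        exact (ptrL m k).map_smul _ _ }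
  have h1 : LE S μ ρ E f = L (avg μ (fun u => tp (Fin (m + k)) (ρ u) * ten E B *
      (tp (Fin (m + k)) (ρ u))ᴴ)) := by
    rw [avg_lin μ L _ (continuous_conj ρ hρ _), LE]
    congr 1
    ext1 u
    rw [hf]
    have h2 := key_ptr (ρ u) E A B
    have h3 : ρ u⁻¹ = (ρ u)ᴴ := by
      have h4 : ρ u⁻¹ * ρ u = 1 := by rw [← map_mul, inv_mul_cancel, map_one]
      have h5 : (ρ u)ᴴ * ρ u = 1 := Matrix.mem_unitaryGroup_iff'.1 (hU u)
      have h6 : ρ u * (ρ u)ᴴ = 1 := Matrix.mem_unitaryGroup_iff.1 (hU u)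
      calc ρ u⁻¹ = ρ u⁻¹ * (ρ u * (ρ u)ᴴ) := by rw [h6, Matrix.mul_one]
        _ = (ρ u)ᴴ := by rw [← Matrix.mul_assoc, h4, Matrix.one_mul]
    show _ = ptr m k (ten 1 A * (tp (Fin (m + k)) (ρ u) * ten E B * (tp (Fin (m + k)) (ρ u))ᴴ))
    rw [h2, cj, cj, h3, tp_conjTranspose, Matrix.conjTranspose_conjTranspose]
  rw [h1]
  refine S.ptr m k _ (S.mul _ _ (S.ten _ _ _ (S.one_mem m) _ hA) _ ?_)
  refine (Submodule.span_le.2 ?_) (avg_conj_mem μ ρ hρ hU hs (ten E B))
  rintro _ ⟨σ, rfl⟩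
  exact S.perm _ σ

theorem LE_mem (hρ : Continuous ρ)
    (hU : ∀ u, ρ u ∈ Matrix.unitaryGroup n ℂ)
    (hs : ∀ g ∈ Matrix.unitaryGroup n ℂ, ∃ u, ρ u = g) {m : ℕ}
    (E : Matrix (Fin m → n) (Fin m → n) ℂ) (f : C(QX S ρ, ℂ)) :
    LE S μ ρ E f ∈ S.S m := by
  have hcl : IsClosed {f | LE S μ ρ E f ∈ S.S m} :=
    IsClosed.preimage (LE_continuous S μ ρ hρ E) (S.S m).closed_of_finiteDimensional
  have h1 : (alg S ρ hρ).topologicalClosure = ⊤ :=
    ContinuousMap.starSubalgebra_topologicalClosure_eq_top_of_separatesPoints _ (sep S ρ hρ)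
  have h2 : f ∈ (alg S ρ hρ).topologicalClosure := by rw [h1]; trivial
  have h3 : f ∈ closure ((alg S ρ hρ : Set C(QX S ρ, ℂ))) := h2
  refine (hcl.closure_subset_iff.2 ?_) h3
  intro g hg
  have hg' : g ∈ Submodule.span ℂ (basic S ρ) := hg
  show LE S μ ρ E g ∈ S.S m
  clear hg
  induction hg' using Submodule.span_induction with
  | mem g hg => exact LE_basic S μ ρ hρ hU hs E g hg
  | zero =>
    have h4 : LE S μ ρ E 0 = 0 := by
      have h5 := LE_smul S μ ρ E 0 0
      rwa [zero_smul, zero_smul] at h5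
    rw [h4]
    exact Submodule.zero_mem _
  | add x y hx' hy' hx hy =>
    rw [LE_add S μ ρ hρ]
    exact Submodule.add_mem _ hx hy
  | smul c x hx' hx =>
    rw [LE_smul]
    exact Submodule.smul_mem _ _ hx

theorem main_abs (hρ : Continuous ρ)
    (hU : ∀ u, ρ u ∈ Matrix.unitaryGroup n ℂ)
    (hs : ∀ g ∈ Matrix.unitaryGroup n ℂ, ∃ u, ρ u = g) (hμ : μ.real Set.univ ≠ 0) {m : ℕ}
    (T : Matrix (Fin m → n) (Fin m → n) ℂ)
    (hT : ∀ g ∈ S.G, T * tp (Fin m) g = tp (Fin m) g * T) : T ∈ S.S m := by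
  -- the entries of `u ↦ û T û*` are functions on the quotient
  have hinv : ∀ u v : U, (rel S ρ) u v → cj m (ρ u) T = cj m (ρ v) T := by
    intro u v h
    have hg : ρ (v⁻¹ * u) ∈ S.G := by
      refine ⟨hU _, fun k A hA => ?_⟩
      have h1 := h k A hA
      have h2 : tp (Fin k) (ρ v) * tp (Fin k) (ρ (v⁻¹ * u)) = tp (Fin k) (ρ u) := by
        rw [← tp_mul, ← map_mul, mul_inv_cancel_left]
      rw [cj, cj, ← h2, Matrix.conjTranspose_mul] at h1
      have hv := tp_unitary (m := k) (hU v)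
      have hg := tp_unitary (m := k) (hU (v⁻¹ * u))
      set P := tp (Fin k) (ρ v)
      set Q := tp (Fin k) (ρ (v⁻¹ * u))
      have h3 : Q * A * Qᴴ = A := by
        calc Q * A * Qᴴ = (Pᴴ * P) * (Q * A * Qᴴ) * (Pᴴ * P) := by
              rw [hv, Matrix.one_mul, Matrix.mul_one]
          _ = Pᴴ * (P * Q * A * (Qᴴ * Pᴴ)) * P := by simp only [Matrix.mul_assoc]
          _ = Pᴴ * (P * A * Pᴴ) * P := by rw [h1]
          _ = (Pᴴ * P) * A * (Pᴴ * P) := by simp only [Matrix.mul_assoc]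
          _ = A := by rw [hv, Matrix.one_mul, Matrix.mul_one]
      calc A * Q = (Q * A * Qᴴ) * Q := by rw [h3]
        _ = Q * A * (Qᴴ * Q) := by simp only [Matrix.mul_assoc]
        _ = Q * A := by rw [hg, Matrix.mul_one]
    have h1 := hT _ hg
    have h2 : tp (Fin m) (ρ v) * tp (Fin m) (ρ (v⁻¹ * u)) = tp (Fin m) (ρ u) := by
      rw [← tp_mul, ← map_mul, mul_inv_cancel_left]
    have hg' := tp_unitary' (m := m) (hU (v⁻¹ * u))
    rw [cj, cj, ← h2, Matrix.conjTranspose_mul]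
    set P := tp (Fin m) (ρ v)
    set Q := tp (Fin m) (ρ (v⁻¹ * u))
    calc P * Q * T * (Qᴴ * Pᴴ) = P * (Q * T) * (Qᴴ * Pᴴ) := by simp only [Matrix.mul_assoc]
      _ = P * (T * Q) * (Qᴴ * Pᴴ) := by rw [h1]
      _ = P * T * (Q * Qᴴ) * Pᴴ := by simp only [Matrix.mul_assoc]
      _ = P * T * Pᴴ := by rw [hg', Matrix.mul_one]
  have hex : ∀ a b : Fin m → n, ∃ f : C(QX S ρ, ℂ), ∀ u, f (Quotient.mk _ u) = cj m (ρ u) T a b := by
    intro a b
    refine ⟨{ toFun := Quotient.lift (fun u => cj m (ρ u) T a b) (fun u v h => ?_)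
              continuous_toFun := ?_ }, fun u => rfl⟩
    · show cj m (ρ u) T a b = cj m (ρ v) T a b
      rw [hinv u v h]
    · exact Continuous.quotient_lift ((continuous_conj ρ hρ T).matrix_elem a b) _
  choose φ hφ using hex
  have h1 : (μ.real Set.univ : ℂ) • T = ∑ a, ∑ b, LE S μ ρ (Matrix.single a b 1) (φ a b) := by
    ext p q
    rw [Matrix.smul_apply, Matrix.sum_apply]
    simp only [Matrix.sum_apply]
    simp only [LE, avg]
    have hint : ∀ a b, Integrable (fun u => (φ a b (Quotient.mk _ u⁻¹) •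
        cj m (ρ u) (Matrix.single a b (1 : ℂ))) p q) μ := fun a b =>
      integ μ _ ((cont_smul S ρ hρ _ _).matrix_elem p q)
    have h2 : ∑ a, ∑ b, ∫ u, (φ a b (Quotient.mk _ u⁻¹) •
        cj m (ρ u) (Matrix.single a b (1 : ℂ))) p q ∂μ =
        ∫ u, (∑ a, ∑ b, (φ a b (Quotient.mk _ u⁻¹) •
        cj m (ρ u) (Matrix.single a b (1 : ℂ))) p q) ∂μ := by
      rw [integral_finsetSum _ fun a _ => integrable_finsetSum _ fun b _ => hint a b]
      refine Finset.sum_congr rfl fun a _ => ?_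
      rw [integral_finsetSum _ fun b _ => hint a b]
    rw [h2]
    have h3 : ∀ u, (∑ a, ∑ b, (φ a b (Quotient.mk _ u⁻¹) •
        cj m (ρ u) (Matrix.single a b (1 : ℂ))) p q) = T p q := by
      intro u
      have h4 : ∑ a, ∑ b, (φ a b (Quotient.mk _ u⁻¹) • cj m (ρ u) (Matrix.single a b (1 : ℂ))) =
          cj m (ρ u) (cj m (ρ u⁻¹) T) := by
        conv_rhs => rw [Matrix.matrix_eq_sum_single (cj m (ρ u⁻¹) T)]
        have hlin : ∀ (c : ℂ) (Z : Matrix (Fin m → n) (Fin m → n) ℂ),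
            c • cj m (ρ u) Z = cj m (ρ u) (c • Z) := by
          intro c Z
          simp only [cj, Matrix.mul_smul, Matrix.smul_mul]
        have hsum : ∀ (s : (Fin m → n) → Matrix (Fin m → n) (Fin m → n) ℂ),
            cj m (ρ u) (∑ a, s a) = ∑ a, cj m (ρ u) (s a) := by
          intro s
          simp only [cj, Matrix.mul_sum, Matrix.sum_mul]
        rw [hsum]
        refine Finset.sum_congr rfl fun a _ => ?_
        rw [hsum]
        refine Finset.sum_congr rfl fun b _ => ?_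
        rw [hφ, hlin, Matrix.smul_single, smul_eq_mul, mul_one]
      have h5 : cj m (ρ u) (cj m (ρ u⁻¹) T) = T := by
        have h6 : tp (Fin m) (ρ u) * tp (Fin m) (ρ u⁻¹) = 1 := by
          rw [← tp_mul, ← map_mul, mul_inv_cancel, map_one, tp_one]
        simp only [cj]
        have h7 : (tp (Fin m) (ρ u⁻¹))ᴴ * (tp (Fin m) (ρ u))ᴴ = 1 := by
          rw [← Matrix.conjTranspose_mul, h6, Matrix.conjTranspose_one]
        set P := tp (Fin m) (ρ u)
        set Q := tp (Fin m) (ρ u⁻¹)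
        calc P * (Q * T * Qᴴ) * Pᴴ = (P * Q) * T * (Qᴴ * Pᴴ) := by simp only [Matrix.mul_assoc]
          _ = T := by rw [h6, h7, Matrix.one_mul, Matrix.mul_one]
      rw [h5] at h4
      have h8 := congrFun (congrFun h4 p) q
      rw [Matrix.sum_apply] at h8
      simp only [Matrix.sum_apply] at h8
      exact h8
    simp only [h3]
    rw [integral_const, smul_eq_mul]
    simp
  have h2 : (μ.real Set.univ : ℂ) • T ∈ S.S m := by
    rw [h1]
    exact Submodule.sum_mem _ fun a _ => Submodule.sum_mem _ fun b _ => LE_mem S μ ρ hρ hU hs _ _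
  have h3 : (μ.real Set.univ : ℂ) ≠ 0 := by exact_mod_cast hμ
  exact ((S.S m).smul_mem_iff h3).1 h2

end abstract

section final

variable {n : Type*} [Fintype n] [DecidableEq n]

theorem compact_unitary : CompactSpace (Matrix.unitaryGroup n ℂ) := by
  refine (isCompact_iff_compactSpace (s := ((Matrix.unitaryGroup n ℂ : Submonoid (Matrix n n ℂ)) :
    Set (Matrix n n ℂ)))).1 ?_
  have h1 : ((Matrix.unitaryGroup n ℂ : Submonoid (Matrix n n ℂ)) : Set (Matrix n n ℂ)) =
      {A : Matrix n n ℂ | Aᴴ * A = 1} := by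
    ext A
    exact Matrix.mem_unitaryGroup_iff'
  have h2 : IsClosed ({A : Matrix n n ℂ | Aᴴ * A = 1}) :=
    isClosed_eq (by fun_prop) continuous_const
  rw [← h1] at h2
  have h3 : IsCompact (Set.univ.pi fun _ : n => Set.univ.pi fun _ : n =>
      Metric.closedBall (0 : ℂ) 1) :=
    isCompact_univ_pi fun _ => isCompact_univ_pi fun _ => isCompact_closedBall _ _
  refine IsCompact.of_isClosed_subset h3 h2 ?_
  intro A hA i _ j _
  rw [mem_closedBall_zero_iff]
  exact entry_norm_bound_of_unitary hA i j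

/-- **Tannaka duality.** An operator on `V^{⊗ m}` belongs to a tensor system iff it commutes with
the group of the system. -/
theorem tannaka (S : Sys n) {m : ℕ} (T : Matrix (Fin m → n) (Fin m → n) ℂ)
    (hT : ∀ g ∈ S.G, T * tp (Fin m) g = tp (Fin m) g * T) : T ∈ S.S m := by
  have hc := compact_unitary (n := n)
  let _ : MeasurableSpace (Matrix.unitaryGroup n ℂ) := borel _
  have : BorelSpace (Matrix.unitaryGroup n ℂ) := ⟨rfl⟩
  let μ : Measure (Matrix.unitaryGroup n ℂ) := Measure.haar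
  refine main_abs S μ (Submonoid.subtype (Matrix.unitaryGroup n ℂ)) continuous_subtype_val
    (fun u => u.2) (fun g hg => ⟨⟨g, hg⟩, rfl⟩) ?_ T hT
  have h1 : 0 < μ.real Set.univ := by
    rw [measureReal_def, ENNReal.toReal_pos_iff]
    refine ⟨?_, measure_lt_top _ _⟩
    exact isOpen_univ.measure_pos _ ⟨1, trivial⟩
  exact h1.ne'

theorem tannaka_iff (S : Sys n) {m : ℕ} (T : Matrix (Fin m → n) (Fin m → n) ℂ) :
    T ∈ S.S m ↔ ∀ g ∈ S.G, T * tp (Fin m) g = tp (Fin m) g * T :=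
  ⟨fun h _ hg => hg.2 m T h, tannaka S T⟩

end final

end Pool.Agent.E8helper56.TX
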