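import Pool.Agent.E8helper1.TX.Defs
import Pool.Agent.E8helper56.TX.Tan2

set_option autoImplicit false
set_option linter.unusedSectionVars false

/-!
# Schur-Weyl duality and Tannaka duality, in the form of the project TX4
-/

open Matrix

noncomputable section

namespace Pool.Agent.E8helper56.TX

open Pool.Agent.E8helper1.TX

variable {n : Type} [Fintype n] [DecidableEq n]

theorem perm_eq {m : ℕ} (σ : Equiv.Perm (Fin m)) : perm (n := n) σ = pm n ℂ σ⁻¹ := by
  ext I J
  rw [perm, pm_apply]
  have h : (I = J ∘ σ) ↔ (I ∘ (σ⁻¹ : Equiv.Perm (Fin m)) = J) := by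
    constructor
    · rintro rfl
      ext i
      simp
    · rintro rfl
      ext i
      simp
  by_cases h1 : I = J ∘ σ
  · rw [if_pos h1, if_pos (h.1 h1)]
  · rw [if_neg h1, if_neg (fun h2 => h1 (h.2 h2))]

/-- the tensor system of a `TSys` -/
def toSys (S : TSys n) : Sys n where
  S := S.S
  mul := fun _ _ hA _ hB => S.mul_mem hA hB
  adj := fun _ _ hA => S.star_mem hA
  perm := fun m σ => by
    have h := S.perm_mem (σ⁻¹ : Equiv.Perm (Fin m))
    rw [perm_eq, inv_inv] at h
    exact h
  ten := fun _ _ _ hA _ hB => S.tens_mem hA hB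
  ptr := fun _ _ _ hZ => S.ptr_mem hZ

theorem t_SW : S_SW := by
  intro n _ _ m A hA
  have h1 := sw (M := Fin m) A hA
  refine (Submodule.span_le.2 ?_) h1
  rintro _ ⟨σ, rfl⟩
  refine Submodule.subset_span ⟨σ⁻¹, ?_⟩
  rw [perm_eq, inv_inv]

theorem t_TAN : S_TAN := by
  intro n _ _ S m A hA
  exact tannaka (toSys S) A fun g hg => hA g hg.1 hg.2

end Pool.Agent.E8helper56.TX
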