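import Pool.Agent.E8helper56.TX.Lie

set_option autoImplicit false
set_option linter.unusedSectionVars false

/-!
# Determinant vectors
-/

open Matrix

noncomputable section

namespace Pool.Agent.E8helper56.TX

open Pool.Agent.E8helper1.TX

variable {n : Type} [Fintype n] [DecidableEq n] {m : ℕ}

/-- replacing each row in turn -/
theorem sum_updateRow {P : Type} [Fintype P] [DecidableEq P] (M R : Matrix P P ℂ) :
    ∑ p, (M.updateRow p (R p)).det = (R * M.adjugate).trace := by
  rw [Matrix.trace]
  refine Finset.sum_congr rfl fun p _ => ?_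
  rw [Matrix.diag_apply, Matrix.mul_apply, ← Matrix.cramer_transpose_apply,
    Matrix.cramer_eq_adjugate_mulVec, ← Matrix.adjugate_transpose, Matrix.mulVec]
  refine Finset.sum_congr rfl fun q _ => ?_
  exact mul_comm _ _

/-- the derivative of the determinant -/
theorem sum_updateRow_mul {P : Type} [Fintype P] [DecidableEq P] (M X : Matrix P P ℂ) :
    ∑ p, (M.updateRow p ((M * X) p)).det = X.trace * M.det := by
  rw [sum_updateRow, Matrix.mul_assoc, Matrix.trace_mul_comm, Matrix.mul_assoc,
    Matrix.adjugate_mul, Matrix.mul_smul, Matrix.mul_one, Matrix.trace_smul, smul_eq_mul, mul_comm]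

variable {B : Type} [DecidableEq B]

/-- the matrix of a determinant vector -/
def dM (β : Fin m → B) (pr I : Fin m → n) : Matrix (Fin m) (Fin m) ℂ :=
  fun p p' => if β p = β p' ∧ I p = pr p' then 1 else 0

/-- a product of determinants, as a tensor -/
def dv (β : Fin m → B) (pr I : Fin m → n) : ℂ := (dM β pr I).det

theorem dv_self {β : Fin m → B} {pr : Fin m → n}
    (hinj : ∀ p p', β p = β p' → pr p = pr p' → p = p') : dv β pr pr = 1 := by
  have h1 : dM β pr pr = 1 := by
    ext p p'
    unfold dM
    by_cases h : p = p'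
    · subst h
      rw [if_pos ⟨rfl, rfl⟩, Matrix.one_apply_eq]
    · rw [if_neg (fun h1 => h (hinj _ _ h1.1 h1.2)), Matrix.one_apply_ne h]
  unfold dv
  rw [h1, Matrix.det_one]

theorem sum_off' (i : Fin m) (I : Fin m → n) (f : (Fin m → n) → ℂ) :
    (∑ J, if ∀ j, j ≠ i → I j = J j then f J else 0) = ∑ a, f (Function.update I i a) := by
  rw [← Finset.sum_filter]
  symm
  refine Finset.sum_bij (fun a _ => Function.update I i a) ?_ ?_ ?_ ?_
  · intro a _
    rw [Finset.mem_filter]
    exact ⟨Finset.mem_univ _, fun j hj => (Function.update_of_ne hj _ _).symm⟩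
  · intro a _ b _ h
    have h1 := congrFun h i
    rwa [Function.update_self, Function.update_self] at h1
  · intro J hJ
    rw [Finset.mem_filter] at hJ
    refine ⟨J i, Finset.mem_univ _, ?_⟩
    funext j
    by_cases hj : j = i
    · subst hj
      rw [Function.update_self]
    · rw [Function.update_of_ne hj, hJ.2 j hj]
  · intro a _
    rfl

theorem dpow_sum (x : Matrix n n ℂ) (I : Fin m → n) (f : (Fin m → n) → ℂ) :
    ∑ J, dpow x m I J * f J = ∑ p, ∑ a, x (I p) a * f (Function.update I p a) := by
  simp only [dpow, Finset.sum_mul, ite_mul, zero_mul]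
  rw [Finset.sum_comm]
  refine Finset.sum_congr rfl fun p _ => ?_
  rw [sum_off' p I (fun J => x (I p) (J p) * f J)]
  refine Finset.sum_congr rfl fun a _ => ?_
  rw [Function.update_self]

theorem dM_update (β : Fin m → B) (pr I : Fin m → n) (p : Fin m) (a : n) :
    dM β pr (Function.update I p a) = (dM β pr I).updateRow p
      (fun p' => if β p = β p' ∧ a = pr p' then 1 else 0) := by
  ext q p'
  by_cases h : q = p
  · subst h
    rw [Matrix.updateRow_self]
    unfold dM
    rw [Function.update_self]
  · rw [Matrix.updateRow_ne h]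
    unfold dM
    rw [Function.update_of_ne h]

theorem det_updateRow_sum {P : Type} [Fintype P] [DecidableEq P] (M : Matrix P P ℂ) (p : P)
    (c : n → ℂ) (r : n → P → ℂ) :
    ∑ a, c a * (M.updateRow p (r a)).det = (M.updateRow p (∑ a, c a • r a)).det := by
  have h : ∀ s : Finset n, ∑ a ∈ s, c a * (M.updateRow p (r a)).det =
      (M.updateRow p (∑ a ∈ s, c a • r a)).det := by
    intro s
    induction s using Finset.induction_on with
    | empty =>
      rw [Finset.sum_empty, Finset.sum_empty]
      symm
      refine Matrix.det_eq_zero_of_row_eq_zero p fun j => ?_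
      rw [Matrix.updateRow_self]
      rfl
    | insert a s ha ih =>
      rw [Finset.sum_insert ha, Finset.sum_insert ha, ih, Matrix.det_updateRow_add,
        Matrix.det_updateRow_smul]
  exact h Finset.univ

/-- **Determinant vectors are eigenvectors** of the block diagonal matrices. -/
theorem dv_eig {α : Type} {γ : n → α} {β : Fin m → B} {pr : Fin m → n}
    (hinj : ∀ p p', β p = β p' → pr p = pr p' → p = p')
    (hcomp : ∀ p a, γ a = γ (pr p) → ∃ p', β p' = β p ∧ pr p' = a)
    {x : Matrix n n ℂ} (hx : ∀ i j, γ i ≠ γ j → x i j = 0) (I : Fin m → n) :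
    ∑ J, dpow x m I J * dv β pr J = (∑ p, x (pr p) (pr p)) * dv β pr I := by
  rw [dpow_sum]
  let X : Matrix (Fin m) (Fin m) ℂ := fun p'' p' => if β p'' = β p' then x (pr p'') (pr p') else 0
  have hX : X.trace = ∑ p, x (pr p) (pr p) := by
    rw [Matrix.trace]
    refine Finset.sum_congr rfl fun p _ => ?_
    rw [Matrix.diag_apply]
    exact if_pos rfl
  have key : ∀ p, (∑ a, x (I p) a • fun p' => if β p = β p' ∧ a = pr p' then (1 : ℂ) else 0) =
      (dM β pr I * X) p := by
    intro p
    funext p'
    rw [Finset.sum_apply, Matrix.mul_apply]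
    simp only [Pi.smul_apply, smul_eq_mul]
    by_cases h1 : β p = β p'
    · have e1 : (∑ a, x (I p) a * if β p = β p' ∧ a = pr p' then (1 : ℂ) else 0) =
          x (I p) (pr p') := by
        rw [Finset.sum_eq_single (pr p')]
        · rw [if_pos ⟨h1, rfl⟩, mul_one]
        · intro a _ ha
          rw [if_neg (fun h => ha h.2), mul_zero]
        · intro h
          exact absurd (Finset.mem_univ _) h
      rw [e1]
      by_cases h2 : ∃ p0, β p0 = β p ∧ pr p0 = I p
      · obtain ⟨p0, hp0, hp0'⟩ := h2
        rw [Finset.sum_eq_single p0]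
        · have e2 : dM β pr I p p0 = 1 := if_pos ⟨hp0.symm, hp0'.symm⟩
          have e3 : X p0 p' = x (pr p0) (pr p') := if_pos (hp0.trans h1)
          rw [e2, e3, one_mul, hp0']
        · intro q _ hq
          have e2 : dM β pr I p q = 0 := if_neg fun h => hq (hinj q p0 (h.1.symm.trans hp0.symm)
            (h.2.symm.trans hp0'.symm))
          rw [e2, zero_mul]
        · intro h
          exact absurd (Finset.mem_univ _) h
      · have e2 : x (I p) (pr p') = 0 := by
          by_contra h3
          have h4 : γ (I p) = γ (pr p') := by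
            by_contra h5
            exact h3 (hx _ _ h5)
          obtain ⟨p0, hp0, hp0'⟩ := hcomp p' (I p) h4
          exact h2 ⟨p0, hp0.trans h1.symm, hp0'⟩
        rw [e2]
        symm
        refine Finset.sum_eq_zero fun q _ => ?_
        have e3 : dM β pr I p q = 0 := if_neg fun h => h2 ⟨q, h.1.symm, h.2.symm⟩
        rw [e3, zero_mul]
    · have e1 : (∑ a, x (I p) a * if β p = β p' ∧ a = pr p' then (1 : ℂ) else 0) = 0 :=
        Finset.sum_eq_zero fun a _ => by rw [if_neg (fun h => h1 h.1), mul_zero]
      rw [e1]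
      symm
      refine Finset.sum_eq_zero fun q _ => ?_
      by_cases h2 : β p = β q ∧ I p = pr q
      · have e3 : X q p' = 0 := if_neg fun h => h1 (h2.1.trans h)
        rw [e3, mul_zero]
      · have e3 : dM β pr I p q = 0 := if_neg h2
        rw [e3, zero_mul]
  have h1 : ∀ p, ∑ a, x (I p) a * dv β pr (Function.update I p a) =
      ((dM β pr I).updateRow p ((dM β pr I * X) p)).det := by
    intro p
    rw [← key, ← det_updateRow_sum]
    refine Finset.sum_congr rfl fun a _ => ?_
    unfold dv
    rw [dM_update]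
  rw [Finset.sum_congr rfl fun p _ => h1 p, sum_updateRow_mul, hX]
  rfl

/-- the rank one operator given by two determinant vectors -/
def dA {B' : Type} [DecidableEq B'] (β : Fin m → B) (pr : Fin m → n) (β' : Fin m → B')
    (pr' : Fin m → n) : Op n m := fun I J => dv β pr I * dv β' pr' J

theorem dpow_transpose (x : Matrix n n ℂ) (I J : Fin m → n) : dpow x m I J = dpow xᵀ m J I := by
  simp only [dpow, Matrix.transpose_apply]
  refine Finset.sum_congr rfl fun i _ => ?_
  by_cases h : ∀ j, j ≠ i → I j = J j
  · rw [if_pos h, if_pos fun j hj => (h j hj).symm]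
  · rw [if_neg h, if_neg (fun h' => h fun j hj => (h' j hj).symm)]

theorem dA_comm {α B' : Type} [DecidableEq B'] {γ : n → α} {β : Fin m → B} {pr : Fin m → n}
    (hinj : ∀ p p', β p = β p' → pr p = pr p' → p = p')
    (hcomp : ∀ p a, γ a = γ (pr p) → ∃ p', β p' = β p ∧ pr p' = a)
    {β' : Fin m → B'} {pr' : Fin m → n}
    (hinj' : ∀ p p', β' p = β' p' → pr' p = pr' p' → p = p')
    (hcomp' : ∀ p a, γ a = γ (pr' p) → ∃ p', β' p' = β' p ∧ pr' p' = a)
    {x : Matrix n n ℂ} (hx : ∀ i j, γ i ≠ γ j → x i j = 0) :
    dA β pr β' pr' * dpow x m = dpow x m * dA β pr β' pr' ↔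
      ∑ p, x (pr p) (pr p) = ∑ p, x (pr' p) (pr' p) := by
  have h1 : dpow x m * dA β pr β' pr' = (∑ p, x (pr p) (pr p)) • dA β pr β' pr' := by
    ext I J
    rw [Matrix.mul_apply, Matrix.smul_apply, smul_eq_mul]
    simp only [dA]
    simp only [← mul_assoc]
    rw [← Finset.sum_mul, dv_eig hinj hcomp hx]
  have h2 : dA β pr β' pr' * dpow x m = (∑ p, x (pr' p) (pr' p)) • dA β pr β' pr' := by
    ext I J
    rw [Matrix.mul_apply, Matrix.smul_apply, smul_eq_mul]
    simp only [dA]
    have h3 := dv_eig hinj' hcomp' (x := xᵀ) (fun i j hij => hx j i (Ne.symm hij)) J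
    have h4 : ∑ K, dv β pr I * dv β' pr' K * dpow x m K J =
        dv β pr I * ∑ K, dpow xᵀ m J K * dv β' pr' K := by
      rw [Finset.mul_sum]
      refine Finset.sum_congr rfl fun K _ => ?_
      rw [dpow_transpose x K J]
      ring
    rw [h4, h3]
    simp only [Matrix.transpose_apply]
    ring
  rw [h1, h2]
  constructor
  · intro h
    have h3 := congrFun (congrFun h pr) pr'
    simp only [Matrix.smul_apply, smul_eq_mul, dA] at h3
    rw [dv_self hinj, dv_self hinj', mul_one, mul_one, mul_one] at h3
    exact h3.symm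
  · intro h
    rw [h]

end Pool.Agent.E8helper56.TX
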