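import Pool.Agent.E8helper56.TX.Torus

set_option autoImplicit false
set_option linter.unusedSectionVars false

/-!
# One bounded tensor power decides: the general theorem
-/

open Matrix

noncomputable section

namespace Pool.Agent.E8helper56.TX

open Pool.Agent.E8helper1.TX

variable {n : Type} [Fintype n] [DecidableEq n] {m : ℕ}

/-- derivations on a tensor product -/
theorem dpow_add_deg (x : Matrix n n ℂ) (k j : ℕ) :
    dpow x (k + j) = tens (dpow x k) (1 : Op n j) + tens (1 : Op n k) (dpow x j) := by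
  ext I J
  rw [Matrix.add_apply]
  simp only [tens, dpow]
  rw [Fin.sum_univ_add]
  congr 1
  · rw [Finset.sum_mul]
    refine Finset.sum_congr rfl fun i _ => ?_
    by_cases h : (fun l : Fin j => I (Fin.natAdd k l)) = fun l => J (Fin.natAdd k l)
    · rw [h, Matrix.one_apply_eq, mul_one]
      by_cases h1 : ∀ l : Fin k, l ≠ i → I (Fin.castAdd j l) = J (Fin.castAdd j l)
      · rw [if_pos h1, if_pos]
        intro l
        refine Fin.addCases (fun l' hl => ?_) (fun l' _ => congrFun h l') l
        exact h1 l' fun h2 => hl (by rw [h2])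
      · rw [if_neg h1, if_neg]
        intro h2
        exact h1 fun l hl => h2 (Fin.castAdd j l) fun h3 => hl (Fin.castAdd_injective _ _ h3)
    · rw [Matrix.one_apply_ne h, mul_zero, if_neg]
      intro h2
      apply h
      funext l
      refine h2 (Fin.natAdd k l) fun h3 => ?_
      have h4 := congrArg Fin.val h3
      rw [Fin.val_natAdd, Fin.val_castAdd] at h4
      have := i.2
      omega
  · rw [Finset.mul_sum]
    refine Finset.sum_congr rfl fun i _ => ?_
    by_cases h : (fun l : Fin k => I (Fin.castAdd j l)) = fun l => J (Fin.castAdd j l)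
    · rw [h, Matrix.one_apply_eq, one_mul]
      by_cases h1 : ∀ l : Fin j, l ≠ i → I (Fin.natAdd k l) = J (Fin.natAdd k l)
      · rw [if_pos h1, if_pos]
        intro l
        refine Fin.addCases (fun l' _ => congrFun h l') (fun l' hl => ?_) l
        exact h1 l' fun h2 => hl (by rw [h2])
      · rw [if_neg h1, if_neg]
        intro h2
        exact h1 fun l hl => h2 (Fin.natAdd k l) fun h3 => hl (Fin.natAdd_injective _ _ h3)
    · rw [Matrix.one_apply_ne h, zero_mul, if_neg]
      intro h2
      apply h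
      funext l
      refine h2 (Fin.castAdd j l) fun h3 => ?_
      have h4 := congrArg Fin.val h3
      rw [Fin.val_natAdd, Fin.val_castAdd] at h4
      have := l.2
      omega

theorem tens_add_l {k j : ℕ} (A A' : Op n k) (B : Op n j) :
    tens (A + A') B = tens A B + tens A' B := by
  ext I J
  simp only [tens, Matrix.add_apply]
  ring

theorem tens_sub_l {k j : ℕ} (A A' : Op n k) (B : Op n j) :
    tens (A - A') B = tens A B - tens A' B := by
  ext I J
  simp only [tens, Matrix.sub_apply]
  ring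

theorem comm_tens {k j : ℕ} (A : Op n k) (x : Matrix n n ℂ) :
    tens A (1 : Op n j) * dpow x (k + j) - dpow x (k + j) * tens A (1 : Op n j) =
      tens (A * dpow x k - dpow x k * A) (1 : Op n j) := by
  have h : ∀ (A A' : Op n k) (B B' : Op n j), tens A B * tens A' B' = tens (A * A') (B * B') :=
    fun A A' B B' => ten_mul A A' B B'
  rw [dpow_add_deg, Matrix.mul_add, Matrix.add_mul, h, h, h, h, tens_sub_l]
  simp only [Matrix.mul_one, Matrix.one_mul]
  abel

theorem ptr_tens {k j : ℕ} (A : Op n k) :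
    Pool.Agent.E8helper1.TX.ptr (tens A (1 : Op n j)) =
      ((Fintype.card n : ℂ) ^ j) • A := by
  have h := ptr_ten A (1 : Op n j)
  rw [Matrix.trace_one] at h
  have h2 : ((Fintype.card (Fin j → n) : ℕ) : ℂ) = (Fintype.card n : ℂ) ^ j := by
    rw [Fintype.card_fun, Fintype.card_fin]
    push_cast
    rfl
  rw [h2] at h
  exact h

theorem card_ne [Nonempty n] (j : ℕ) : ((Fintype.card n : ℂ) ^ j) ≠ 0 :=
  pow_ne_zero _ (Nat.cast_ne_zero.2 Fintype.card_ne_zero)

theorem tens_mem_TL {L0 : Set (Matrix n n ℂ)} {k j : ℕ} {A : Op n k} (hA : A ∈ TL L0 k) :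
    tens A (1 : Op n j) ∈ TL L0 (k + j) := by
  intro x hx
  rw [← sub_eq_zero, comm_tens, hA x hx, sub_self]
  ext I J
  simp [tens]

/-- smaller degrees -/
theorem comm_down [Nonempty n] {k j : ℕ} {A : Op n k} {x : Matrix n n ℂ}
    (h : tens A (1 : Op n j) * dpow x (k + j) = dpow x (k + j) * tens A (1 : Op n j)) :
    A * dpow x k = dpow x k * A := by
  rw [← sub_eq_zero, comm_tens] at h
  have h1 := congrArg Pool.Agent.E8helper1.TX.ptr h
  rw [ptr_tens] at h1
  have h2 : Pool.Agent.E8helper1.TX.ptr (0 : Op n (k + j)) = 0 := by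
    ext I J
    simp [Pool.Agent.E8helper1.TX.ptr]
  rw [h2] at h1
  exact sub_eq_zero.1 ((smul_eq_zero.1 h1).resolve_left (card_ne j))

theorem TL_down [Nonempty n] (S : TSys n) {L0 : Set (Matrix n n ℂ)} {m : ℕ}
    (h : TL L0 m ≤ S.S m) {k : ℕ} (hk : k ≤ m) : TL L0 k ≤ S.S k := by
  obtain ⟨j, rfl⟩ := Nat.exists_eq_add_of_le hk
  intro A hA
  have h1 := S.ptr_mem (h (tens_mem_TL (j := j) hA))
  rw [ptr_tens] at h1
  have h2 := (S.S k).smul_mem (((Fintype.card n : ℂ) ^ j)⁻¹) h1
  rwa [smul_smul, inv_mul_cancel₀ (card_ne j), one_smul] at h2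

/-- **One bounded tensor power decides**, for Lie algebras generated by matrices with bounded
integral eigenvalues. -/
theorem uni4 [Nonempty n] (w : ℕ) (hw : 1 ≤ w) (S : TSys n) (L0 : Set (Matrix n n ℂ))
    (hL0 : ∀ x ∈ L0, IsInt w x) (hS : ∀ x ∈ L0, Kills S.S x)
    (hstar : ∀ m, ∀ A ∈ TL L0 m, Aᴴ ∈ TL L0 m) (M0 : ℕ)
    (hM0 : M0 = (Fintype.card n).factorial * w ^ (Fintype.card n - 1)) (m : ℕ)
    (hm : (Fintype.card n : ℝ) ^ 3 * (M0 : ℝ) ^ 2 * Real.log (2 * Fintype.card n * M0 + 1) ≤ m)
    (hT : TL L0 m ≤ S.S m) (k : ℕ) : TL L0 k = S.S k := by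
  have hST : ∀ k, S.S k ≤ TL L0 k := fun k A hA x hx => hS x hx k A hA
  have hone : ∀ m, (1 : Op n m) ∈ S.S m := by
    intro m
    have h1 := S.perm_mem (m := m) 1
    have h2 : perm (n := n) (1 : Equiv.Perm (Fin m)) = 1 := by
      ext I J
      rw [perm, Matrix.one_apply]
      rfl
    rwa [h2] at h1
  rcases Nat.lt_or_ge (Fintype.card n) 2 with hN | hN
  · -- dimension one
    have hsub : Subsingleton n := Fintype.card_le_one_iff_subsingleton.1 (by omega)
    refine le_antisymm (fun A _ => ?_) (hST k)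
    have h1 : A = A (fun _ => Classical.arbitrary n) (fun _ => Classical.arbitrary n) •
        (1 : Op n k) := by
      ext I J
      have hI : I = fun _ => Classical.arbitrary n := Subsingleton.elim _ _
      have hJ : J = fun _ => Classical.arbitrary n := Subsingleton.elim _ _
      rw [hI, hJ, Matrix.smul_apply, Matrix.one_apply_eq, smul_eq_mul, mul_one]
    rw [h1]
    exact (S.S k).smul_mem _ (hone k)
  have hM2 : 2 ≤ M0 := by
    rw [hM0]
    have h1 : 2 ≤ (Fintype.card n).factorial :=
      (by decide : 2 ≤ Nat.factorial 2).trans (Nat.factorial_le hN)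
    have h2 : 1 ≤ w ^ (Fintype.card n - 1) := Nat.one_le_pow _ _ hw
    nlinarith
  have hMm : M0 ≤ m := by
    have h1 : (M0 : ℝ) ≤ m := by
      refine le_trans ?_ hm
      have h2 : (2 : ℝ) ≤ Fintype.card n := by exact_mod_cast hN
      have h3 : (2 : ℝ) ≤ M0 := by exact_mod_cast hM2
      have h4 : 1 ≤ Real.log (2 * Fintype.card n * M0 + 1) := by
        rw [Real.le_log_iff_exp_le (by positivity)]
        have h5 := Real.exp_one_lt_d9
        nlinarith
      have h5 : (1 : ℝ) ≤ (Fintype.card n : ℝ) ^ 3 := one_le_pow₀ (by linarith)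
      have h6 : (M0 : ℝ) ≤ (M0 : ℝ) ^ 2 := by nlinarith
      have h7 : (M0 : ℝ) ≤ (Fintype.card n : ℝ) ^ 3 * (M0 : ℝ) ^ 2 := by nlinarith
      nlinarith
    exact_mod_cast h1
  have hdown : ∀ k ≤ m, TL L0 k ≤ S.S k := fun k hk => TL_down S hT hk
  have hL0A : ∀ x ∈ L0, x ∈ Ann (TL L0) := fun x hx k A hA => hA x hx
  have h1A : (1 : Matrix n n ℂ) ∈ Ann (TL L0) := by
    intro k A _
    have h1 : dpow (1 : Matrix n n ℂ) k = (k : ℂ) • 1 := by
      have h2 : (1 : Matrix n n ℂ) = diagonal (fun _ => 1) := Matrix.diagonal_one.symm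
      rw [h2, dpow_diag]
      ext I J
      by_cases hIJ : I = J
      · subst hIJ
        rw [Matrix.diagonal_apply_eq, Matrix.smul_apply, Matrix.one_apply_eq, Finset.sum_const,
          Finset.card_univ, Fintype.card_fin, nsmul_eq_mul, smul_eq_mul]
      · rw [Matrix.diagonal_apply_ne _ hIJ, Matrix.smul_apply, Matrix.one_apply_ne hIJ, smul_zero]
    rw [h1, Matrix.mul_smul, Matrix.smul_mul, Matrix.mul_one, Matrix.one_mul]
  refine uni3 M0 hM2 S (TL L0) hST ?_ ?_ m hm hT k
  · -- the Lie part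
    intro x hx hxM
    have hxk : ∀ k ≤ M0, ∀ A ∈ TL L0 k, A * dpow x k = dpow x k * A := by
      intro k hk A hA
      obtain ⟨j, rfl⟩ := Nat.exists_eq_add_of_le hk
      exact comm_down (hxM _ (hdown _ hMm (tens_mem_TL (j := j) hA)))
    obtain ⟨y, c, hxy, hy, hc, hcA, hcc⟩ := lie_lemma (TL L0) hstar
      (fun A hA x hx => hA x (hL0A x hx)) x hx (hxk 2 hM2)
    have hc0 : c = 0 := by
      refine core_c w hw L0 hL0 c hc (fun x hx => hcc x (hL0A x hx)) (fun x hx => ?_) ?_ ?_
      · have h1 := hcA _ (Ann_star hstar (hL0A x hx))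
        rwa [Matrix.conjTranspose_conjTranspose] at h1
      · have h1 := hcA 1 h1A
        rwa [Matrix.conjTranspose_one, Matrix.one_mul] at h1
      · intro k hk A hA
        have h1 := hxk k (hk.trans hM0.ge) A hA
        rw [hxy, dpow_add, Matrix.mul_add, Matrix.add_mul, hy k A hA] at h1
        exact add_left_cancel h1
    rw [hxy, hc0, add_zero]
    exact hy
  · -- the commutant of the group
    intro k A hA x hx
    have hskew : ∀ y : Matrix n n ℂ, yᴴ = -y → y ∈ Ann (TL L0) → A * dpow y k = dpow y k * A := by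
      intro y hy hyT
      obtain ⟨g, hgu, hg1, hg2⟩ := exp_lemma y hy k
      exact hg2 A (hA g hgu (fun m B hB => hg1 m B (hyT m B (hST m hB)))
        (fun m B hB => hg1 m B (hyT m B hB)))
    have hxA := hL0A x hx
    have hxA' := Ann_star hstar hxA
    set y1 : Matrix n n ℂ := (1 / 2 : ℂ) • x + (-(1 / 2) : ℂ) • xᴴ with hy1
    set y2 : Matrix n n ℂ := (-(Complex.I / 2)) • x + (-(Complex.I / 2)) • xᴴ with hy2
    have h1 : y1ᴴ = -y1 := by
      rw [hy1, Matrix.conjTranspose_add, Matrix.conjTranspose_smul, Matrix.conjTranspose_smul,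
        Matrix.conjTranspose_conjTranspose]
      ext i j
      simp
    have h2 : y2ᴴ = -y2 := by
      rw [hy2, Matrix.conjTranspose_add, Matrix.conjTranspose_smul, Matrix.conjTranspose_smul,
        Matrix.conjTranspose_conjTranspose]
      ext i j
      simp
      ring
    have h3 : x = y1 + Complex.I • y2 := by
      ext i j
      simp only [hy1, hy2, Matrix.add_apply, Matrix.smul_apply, smul_eq_mul]
      ring_nf
      rw [Complex.I_sq]
      ring
    have h4 := hskew y1 h1 ((Ann _).add_mem ((Ann _).smul_mem _ hxA) ((Ann _).smul_mem _ hxA'))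
    have h5 := hskew y2 h2 ((Ann _).add_mem ((Ann _).smul_mem _ hxA) ((Ann _).smul_mem _ hxA'))
    rw [h3, dpow_add, dpow_smul, mul_add, add_mul, Matrix.mul_smul, Matrix.smul_mul, h4, h5]

end Pool.Agent.E8helper56.TX
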