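import Pool.Agent.E8helper56.TX.Main

set_option autoImplicit false
set_option linter.unusedSectionVars false

/-!
# The trace gap with a parameter
-/

open Matrix MeasureTheory

noncomputable section

namespace Pool.Agent.E8helper56.TX

open Pool.Agent.E8helper1.TX

variable {n : Type} [Fintype n] [DecidableEq n] {m : ℕ}

/-- the numerical inequality -/
theorem numeric2 {N m m₀ : ℕ} (hN : 1 ≤ N) (hm₀ : 2 ≤ m₀)
    (hm : (N : ℝ) ^ 3 * (m₀ : ℝ) ^ 2 * Real.log (2 * N * m₀ + 1) ≤ m) :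
    ((2 * N * m₀ + 1 : ℝ)) ^ (2 * N ^ 2) * ((N : ℝ) - 2 / (m₀ : ℝ) ^ 2) ^ (2 * m) <
      ((N : ℝ) - 2 / (m₀ : ℝ) ^ 2 / 2) ^ (2 * m) := by
  have hN' : (1 : ℝ) ≤ N := by exact_mod_cast hN
  have hm0' : (2 : ℝ) ≤ m₀ := by exact_mod_cast hm₀
  set δ : ℝ := 2 / (m₀ : ℝ) ^ 2 with hδ
  have hδ0 : 0 < δ := by rw [hδ]; positivity
  have hδ1 : δ ≤ 1 / 2 := by
    rw [hδ, div_le_iff₀ (by positivity)]
    nlinarith
  have hlog : 0 < Real.log (2 * N * m₀ + 1) := Real.log_pos (by nlinarith)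
  have ha : (0 : ℝ) < N - δ := by linarith
  have hb : (0 : ℝ) < N - δ / 2 := by linarith
  have hmpos : (0 : ℝ) < m := lt_of_lt_of_le (by positivity) hm
  rw [← Real.log_lt_log_iff (by positivity) (by positivity), Real.log_mul (by positivity)
    (by positivity), Real.log_pow, Real.log_pow, Real.log_pow]
  push_cast
  have h2 : 1 - ((N : ℝ) - δ) / (N - δ / 2) ≤ -Real.log (((N : ℝ) - δ) / (N - δ / 2)) := by
    have := Real.log_le_sub_one_of_pos (div_pos ha hb)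
    linarith
  rw [Real.log_div ha.ne' hb.ne'] at h2
  have h3 : δ / (2 * (N : ℝ)) < 1 - ((N : ℝ) - δ) / (N - δ / 2) := by
    have h4 : 1 - ((N : ℝ) - δ) / (N - δ / 2) = (δ / 2) / (N - δ / 2) := by
      rw [eq_div_iff hb.ne', _root_.sub_mul, div_mul_cancel₀ _ hb.ne']
      ring
    rw [h4, div_lt_div_iff₀ (by positivity) hb]
    nlinarith
  have h5 : δ / (2 * (N : ℝ)) < Real.log (N - δ / 2) - Real.log (N - δ) := by linarith
  have h6 : 2 * (m : ℝ) * (δ / (2 * (N : ℝ))) <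
      2 * (m : ℝ) * (Real.log (N - δ / 2) - Real.log (N - δ)) :=
    mul_lt_mul_of_pos_left h5 (by positivity)
  have h7 : 2 * (N : ℝ) ^ 2 * Real.log (2 * N * m₀ + 1) ≤ 2 * (m : ℝ) * (δ / (2 * (N : ℝ))) := by
    have h8 : 2 * (m : ℝ) * (δ / (2 * (N : ℝ))) = 2 * m / (N * (m₀ : ℝ) ^ 2) := by
      rw [hδ]
      field_simp
    rw [h8, le_div_iff₀ (by positivity)]
    calc 2 * (N : ℝ) ^ 2 * Real.log (2 * N * m₀ + 1) * (N * (m₀ : ℝ) ^ 2) =
          2 * ((N : ℝ) ^ 3 * (m₀ : ℝ) ^ 2 * Real.log (2 * N * m₀ + 1)) := by ring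
      _ ≤ 2 * (m : ℝ) := by linarith
  linarith

/-- the groups are equal if the dimensions of the commutants are equal in one large degree -/
theorem group_eq2 [Nonempty n] (m₀ : ℕ) (hm₀ : 2 ≤ m₀) (G H : Set (Matrix n n ℂ)) (hG : IsCGroup G) (hH : IsCGroup H)
    (hHG : H ⊆ G) (hb : ∀ g ∈ G, (Fintype.card n : ℝ) - 2 / (m₀ : ℝ) ^ 2 < ‖g.trace‖ → g ∈ H)
    (m : ℕ)
    (hm : (Fintype.card n : ℝ) ^ 3 * (m₀ : ℝ) ^ 2 * Real.log (2 * Fintype.card n * m₀ + 1) ≤ m)
    (heq : Module.finrank ℂ (comm H m) = Module.finrank ℂ (comm G m)) : G ⊆ H := by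
  have hN : 1 ≤ Fintype.card n := Fintype.card_pos
  have hN' : (1 : ℝ) ≤ Fintype.card n := by exact_mod_cast hN
  have hm0' : (2 : ℝ) ≤ m₀ := by exact_mod_cast hm₀
  set δ : ℝ := 2 / (m₀ : ℝ) ^ 2 with hδ
  have hδ0 : 0 < δ := by rw [hδ]; positivity
  have hδ1 : δ ≤ 1 / 2 := by
    rw [hδ, div_le_iff₀ (by positivity)]
    nlinarith
  have hcomp := compact_KG G hG
  let _ : MeasurableSpace (KG G hG) := borel _
  have : BorelSpace (KG G hG) := ⟨rfl⟩
  let μ : Measure (KG G hG) := Measure.haar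
  have hre : ∀ g ∈ G, (Fintype.card n : ℝ) - δ < (g.trace).re → g ∈ H := fun g hg h =>
    hb g hg (h.trans_le (Complex.re_le_norm _))
  have hre2 : ∀ g ∈ G, (Fintype.card n : ℝ) - δ / 2 < (g.trace).re → g ∈ H := fun g hg h =>
    hre g hg (by linarith)
  have hμ1 : 0 < μ.real Set.univ := by
    rw [measureReal_def, ENNReal.toReal_pos_iff]
    exact ⟨isOpen_univ.measure_pos _ ⟨1, trivial⟩, measure_lt_top _ _⟩
  have hball := ball_measure G hG μ (δ := δ / 2) (by positivity) (k := 2 * Fintype.card n * m₀ + 1)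
    (by omega) (by
    rw [div_lt_iff₀ (by positivity), hδ]
    have h1 : 2 * (2 / (m₀ : ℝ) ^ 2 / 2) * (((2 * Fintype.card n * m₀ + 1 : ℕ) : ℝ)) ^ 2 =
        2 * ((2 * Fintype.card n * m₀ + 1) / m₀) ^ 2 := by
      push_cast
      field_simp
    rw [h1]
    have h2 : 2 * (Fintype.card n : ℝ) < (2 * Fintype.card n * m₀ + 1) / m₀ := by
      rw [lt_div_iff₀ (by positivity)]
      linarith
    nlinarith)
  have hop := sub_open G H hG hH hδ0 hre
  have hmeas := hop.measurableSet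
  set Γ := sub G H hG with hΓ
  have hbs : ball G hG (δ / 2) ⊆ Γ := ball_sub_of G H hG hre2
  set P : ℝ := (((2 * Fintype.card n * m₀ + 1) ^ (2 * Fintype.card n ^ 2) : ℕ) : ℝ) with hP
  have hP0 : 0 < P := by rw [hP]; positivity
  have hμb : 0 < μ.real (ball G hG (δ / 2)) := by
    by_contra h0
    have h1 : μ.real (ball G hG (δ / 2)) ≤ 0 := not_lt.1 h0
    have h2 : P * μ.real (ball G hG (δ / 2)) ≤ 0 := mul_nonpos_of_nonneg_of_nonpos hP0.le h1
    linarith
  have hμΓ : 0 < μ.real Γ := hμb.trans_le (measureReal_mono hbs (measure_ne_top _ _))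
  by_contra hcon
  obtain ⟨g, hgG, hgH⟩ := Set.not_subset.1 hcon
  obtain ⟨w, hw⟩ := rho_surj G hG hgG
  have hwΓ : w ∉ Γ := fun h => hgH (by rw [← hw]; exact h)
  -- the complement has positive measure
  have hcompl : 0 < μ.real Γᶜ := by
    have h1 : (fun u => w⁻¹ * u) ⁻¹' Γ ⊆ Γᶜ := by
      intro u hu huΓ
      have h2 : w⁻¹ * u ∈ Γ := hu
      have h3 : u⁻¹ * w ∈ Γ := by
        have h4 : rho G hG ((w⁻¹ * u)⁻¹) ∈ H := by
          rw [rho_inv]
          exact hH.star_mem h2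
        rwa [_root_.mul_inv_rev, inv_inv] at h4
      have h5 := (sub_mul G H hG hH (h := u) (u := u⁻¹ * w) huΓ).2 h3
      rw [mul_inv_cancel_left] at h5
      exact hwΓ h5
    have h2 : μ.real ((fun u => w⁻¹ * u) ⁻¹' Γ) = μ.real Γ := by
      rw [measureReal_def, measureReal_def, measure_preimage_mul]
    rw [← h2] at hμΓ
    exact hμΓ.trans_le (measureReal_mono h1 (measure_ne_top _ _))
  have hsum : μ.real Γ + μ.real Γᶜ = μ.real Set.univ := measureReal_add_measureReal_compl hmeas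
  have h1 := dim_G G hG μ hμ1 m
  have h2 := dim_H G H hG hH μ hHG hmeas hμΓ m
  rw [heq, h1] at h2
  have hint := fm_int G hG μ m
  have hsplit : ∫ u in Γ, fm G hG m u ∂μ + ∫ u in Γᶜ, fm G hG m u ∂μ = ∫ u, fm G hG m u ∂μ :=
    integral_add_compl hmeas hint
  have hJ : ∫ u in Γᶜ, fm G hG m u ∂μ ≤ ((Fintype.card n : ℝ) - δ) ^ (2 * m) * μ.real Γᶜ := by
    have h3 : ∫ u in Γᶜ, fm G hG m u ∂μ ≤
        ∫ _u in Γᶜ, ((Fintype.card n : ℝ) - δ) ^ (2 * m) ∂μ := by
      refine setIntegral_mono_on hint.integrableOn (integrable_const _).integrableOn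
        hmeas.compl fun u hu => ?_
      rw [fm_eq]
      refine pow_le_pow_left₀ (norm_nonneg _) ?_ _
      by_contra h4
      exact hu (hb _ (rho_mem G hG u) (not_le.1 h4))
    rw [setIntegral_const, smul_eq_mul, mul_comm] at h3
    exact h3
  have hI : ((Fintype.card n : ℝ) - δ / 2) ^ (2 * m) * μ.real (ball G hG (δ / 2)) ≤
      ∫ u in Γ, fm G hG m u ∂μ := by
    have hbm : MeasurableSet (ball G hG (δ / 2)) := by
      have hc : Continuous fun u : KG G hG => ((rho G hG u).trace).re :=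
        Complex.continuous_re.comp ((rho_cont G hG).matrix_trace)
      exact (isOpen_lt continuous_const hc).measurableSet
    have h3 : ∫ _u in ball G hG (δ / 2), ((Fintype.card n : ℝ) - δ / 2) ^ (2 * m) ∂μ ≤
        ∫ u in ball G hG (δ / 2), fm G hG m u ∂μ := by
      refine setIntegral_mono_on (integrable_const _).integrableOn hint.integrableOn
        hbm fun u hu => ?_
      rw [fm_eq]
      refine pow_le_pow_left₀ (by linarith) ?_ _
      have h4 : (Fintype.card n : ℝ) - δ / 2 < ((rho G hG u).trace).re := hu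
      exact h4.le.trans (Complex.re_le_norm _)
    rw [setIntegral_const, smul_eq_mul, mul_comm] at h3
    refine h3.trans ?_
    exact setIntegral_mono_set hint.integrableOn
      (Filter.Eventually.of_forall (fm_nonneg G hG m)) (Filter.Eventually.of_forall hbs)
  set I := ∫ u in Γ, fm G hG m u ∂μ with hIdef
  set J := ∫ u in Γᶜ, fm G hG m u ∂μ with hJdef
  rw [← hsplit] at h2
  have h3 : μ.real Γᶜ * I = μ.real Γ * J := by
    have h4 : (μ.real Set.univ) * I = μ.real Γ * (I + J) := by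
      rw [inv_mul_eq_div, inv_mul_eq_div, div_eq_div_iff hμ1.ne' hμΓ.ne'] at h2
      rw [mul_comm, ← h2, mul_comm]
    rw [← hsum] at h4
    linarith
  have h4 : I ≤ μ.real Γ * ((Fintype.card n : ℝ) - δ) ^ (2 * m) := by
    have h5 : μ.real Γᶜ * I ≤ μ.real Γᶜ * (μ.real Γ * ((Fintype.card n : ℝ) - δ) ^ (2 * m)) := by
      rw [h3]
      calc μ.real Γ * J ≤ μ.real Γ * (((Fintype.card n : ℝ) - δ) ^ (2 * m) * μ.real Γᶜ) :=
            mul_le_mul_of_nonneg_left hJ hμΓ.le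
        _ = _ := by ring
    exact le_of_mul_le_mul_left h5 hcompl
  have h5 : μ.real Γ ≤ μ.real Set.univ := measureReal_mono (Set.subset_univ _) (measure_ne_top _ _)
  have h6 := numeric2 hN hm₀ hm
  have hx : (0 : ℝ) ≤ ((Fintype.card n : ℝ) - δ) ^ (2 * m) := by
    have : (0 : ℝ) ≤ (Fintype.card n : ℝ) - δ := by linarith
    positivity
  have h7 : ((Fintype.card n : ℝ) - δ / 2) ^ (2 * m) * μ.real (ball G hG (δ / 2)) ≤
      P * ((Fintype.card n : ℝ) - δ) ^ (2 * m) * μ.real (ball G hG (δ / 2)) := by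
    calc _ ≤ I := hI
      _ ≤ μ.real Γ * ((Fintype.card n : ℝ) - δ) ^ (2 * m) := h4
      _ ≤ μ.real Set.univ * ((Fintype.card n : ℝ) - δ) ^ (2 * m) := mul_le_mul_of_nonneg_right h5 hx
      _ ≤ (P * μ.real (ball G hG (δ / 2))) * ((Fintype.card n : ℝ) - δ) ^ (2 * m) :=
          mul_le_mul_of_nonneg_right hball hx
      _ = _ := by ring
  have h8 := le_of_mul_le_mul_right h7 hμb
  rw [hP] at h8
  push_cast at h8
  rw [← hδ] at h6
  linarith


/-- **The trace gap**, for operators of any degree. -/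
theorem gap2 (m₀ : ℕ) (hm₀ : 2 ≤ m₀) (S : TSys n) (T : ∀ m, Submodule ℂ (Op n m))
    (h : ∀ x : Matrix n n ℂ, xᴴ = -x → (∀ A ∈ S.S m₀, A * dpow x m₀ = dpow x m₀ * A) → Kills T x)
    (g : Matrix n n ℂ) (hg : g ∈ GF S.S)
    (htr : (Fintype.card n : ℝ) - 2 / (m₀ : ℝ) ^ 2 < ‖g.trace‖)
    (hpos : 0 < ‖g.trace‖) :
    Fixes T g := by
  set c : ℂ := (starRingEnd ℂ) g.trace / ‖g.trace‖ with hc
  have hne : (‖g.trace‖ : ℂ) ≠ 0 := by exact_mod_cast hpos.ne'
  have hc1 : ‖c‖ = 1 := by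
    rw [hc, norm_div, Complex.norm_conj, Complex.norm_real, norm_norm, div_self hpos.ne']
  have hc0 : c ≠ 0 := by
    intro h0
    rw [h0, norm_zero] at hc1
    exact zero_ne_one hc1
  have hcu : (c • g) ∈ Matrix.unitaryGroup n ℂ := by
    rw [Matrix.mem_unitaryGroup_iff, Matrix.star_eq_conjTranspose, Matrix.conjTranspose_smul,
      Matrix.smul_mul, Matrix.mul_smul, smul_smul]
    have h1 : g * gᴴ = 1 := Matrix.mem_unitaryGroup_iff.1 hg.1
    rw [h1]
    have h2 : c * star c = 1 := by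
      have h3 := Complex.mul_conj' c
      rw [hc1] at h3
      simpa using h3
    rw [h2, one_smul]
  have htr' : (Fintype.card n : ℝ) - 2 / (m₀ : ℝ) ^ 2 < ((c • g).trace).re := by
    rw [Matrix.trace_smul, smul_eq_mul, hc, div_mul_eq_mul_div, Complex.conj_mul']
    have h1 : ((‖g.trace‖ : ℂ) ^ 2 / ‖g.trace‖) = (‖g.trace‖ : ℂ) := by
      field_simp
    rw [h1, Complex.ofReal_re]
    exact htr
  obtain ⟨x, hx, hx1, hx2⟩ := log_lemma2 m₀ hm₀ (c • g) hcu htr'
  have hK : Kills T x := by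
    refine h x hx fun A hA => hx1 A ?_
    rw [tpow_smul, Matrix.mul_smul, Matrix.smul_mul, hg.2 m₀ A hA]
  intro m A hA
  have h3 := hx2 m A (hK m A hA)
  rw [tpow_smul, Matrix.mul_smul, Matrix.smul_mul] at h3
  exact smul_right_injective _ (pow_ne_zero m hc0) h3

/-- **One bounded tensor power decides**, the general form. -/
theorem uni3 [Nonempty n] (m₀ : ℕ) (hm₀ : 2 ≤ m₀) (S : TSys n) (T : ∀ m, Submodule ℂ (Op n m))
    (hST : ∀ m, S.S m ≤ T m)
    (h : ∀ x : Matrix n n ℂ, xᴴ = -x → (∀ A ∈ S.S m₀, A * dpow x m₀ = dpow x m₀ * A) → Kills T x)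
    (h2 : ∀ m (A : Op n m), (∀ g ∈ Matrix.unitaryGroup n ℂ, Fixes S.S g → Fixes T g →
      A * tpow g m = tpow g m * A) → A ∈ T m) (m : ℕ)
    (hm : (Fintype.card n : ℝ) ^ 3 * (m₀ : ℝ) ^ 2 * Real.log (2 * Fintype.card n * m₀ + 1) ≤ m)
    (hT : T m ≤ S.S m) (k : ℕ) : T k = S.S k := by
  have hcomm : ∀ k, comm (GF fun m => S.S m ⊔ T m) k = T k := by
    intro k
    apply le_antisymm
    · intro A hA
      exact h2 k A fun g hg hS hTg => hA g ⟨hg, fixes_sup.2 ⟨hS, hTg⟩⟩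
    · intro A hA g hg
      exact (fixes_sup.1 hg.2).2 k A hA
  have h1 : (1 : ℝ) ≤ Fintype.card n := by exact_mod_cast (Fintype.card_pos : 0 < Fintype.card n)
  have hm0' : (2 : ℝ) ≤ m₀ := by exact_mod_cast hm₀
  have hδ1 : 2 / (m₀ : ℝ) ^ 2 ≤ 1 / 2 := by
    rw [div_le_iff₀ (by positivity)]
    nlinarith
  have hGH : GF S.S ⊆ GF fun m => S.S m ⊔ T m := by
    refine group_eq2 m₀ hm₀ (GF S.S) (GF fun m => S.S m ⊔ T m) (isCGroup_GF _) (isCGroup_GF _)
      (fun g hg => ⟨hg.1, (fixes_sup.1 hg.2).1⟩)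
      (fun g hg htr => ⟨hg.1, fixes_sup.2 ⟨hg.2, gap2 m₀ hm₀ S T h g hg htr (by linarith)⟩⟩) m hm ?_
    rw [hcomm, comm_GF, le_antisymm hT (hST m)]
  refine le_antisymm ?_ (hST k)
  intro A hA
  rw [← hcomm] at hA
  rw [← comm_GF S]
  exact fun g hg => hA g (hGH hg)

end Pool.Agent.E8helper56.TX
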