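import Pool.Agent.E8helper1.TX.Defs
import Pool.Agent.E8helper56.TX.Tan2

set_option autoImplicit false
set_option linter.unusedSectionVars false

/-!
# The dimensions of commutants of an open subgroup of a compact group
-/

open Matrix MeasureTheory

noncomputable section

namespace Pool.Agent.E8helper56.TX

open Pool.Agent.E8helper1.TX

section proj

variable {n : Type} [Fintype n] [DecidableEq n]

variable {U : Type} [Group U] [TopologicalSpace U] [IsTopologicalGroup U] [CompactSpace U]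
  [MeasurableSpace U] [BorelSpace U] (ν : Measure U) [IsFiniteMeasure ν]
  (ρ : U →* Matrix n n ℂ)

/-- the averaging operator -/
def PN (hρ : Continuous ρ) (m : ℕ) : Op n m →ₗ[ℂ] Op n m where
  toFun A := ((ν.real Set.univ : ℂ))⁻¹ • avg ν (fun u => cj m (ρ u) A)
  map_add' := by
    intro A B
    rw [← smul_add]
    congr 1
    ext a b
    rw [Matrix.add_apply]
    simp only [avg]
    rw [← integral_add]
    · congr 1
      ext u
      simp only [cj, Matrix.mul_add, Matrix.add_mul, Matrix.add_apply]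
    · exact integ ν _ ((continuous_conj ρ hρ A).matrix_elem a b)
    · exact integ ν _ ((continuous_conj ρ hρ B).matrix_elem a b)
  map_smul' := by
    intro c A
    rw [RingHom.id_apply, smul_comm]
    congr 1
    ext a b
    rw [Matrix.smul_apply]
    simp only [avg]
    rw [smul_eq_mul, ← integral_const_mul]
    congr 1
    ext u
    simp only [cj, Matrix.mul_smul, Matrix.smul_mul, Matrix.smul_apply, smul_eq_mul]

theorem trace_lin {α : Type*} [Fintype α] [DecidableEq α] (f : Matrix α α ℂ →ₗ[ℂ] Matrix α α ℂ) :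
    LinearMap.trace ℂ _ f = ∑ a, ∑ b, f (Matrix.single a b 1) a b := by
  rw [LinearMap.trace_eq_matrix_trace ℂ (Matrix.stdBasis ℂ α α) f, Matrix.trace,
    Fintype.sum_prod_type]
  refine Finset.sum_congr rfl fun a _ => Finset.sum_congr rfl fun b _ => ?_
  rw [Matrix.diag_apply, LinearMap.toMatrix_apply, Matrix.stdBasis_eq_single]
  rfl

theorem cj_entry {m : ℕ} (g : Matrix n n ℂ) (a b : Fin m → n) :
    cj m g (Matrix.single a b 1) a b = tp (Fin m) g a a * star (tp (Fin m) g b b) := by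
  rw [cj, Matrix.mul_apply]
  simp [Matrix.mul_apply, Matrix.single_apply, ite_and, Matrix.conjTranspose_apply]

/-- the projection property and its consequence for the dimension -/
theorem finrank_comm (hρ : Continuous ρ) (hU : ∀ u, ρ u ∈ Matrix.unitaryGroup n ℂ)
    (Γ : Set U) (D : Set (Matrix n n ℂ)) (hD : ∀ g, g ∈ D ↔ ∃ u ∈ Γ, ρ u = g)
    (hΓ : ∀ᵐ u ∂ν, u ∈ Γ)
    (hinv : ∀ h ∈ Γ, ∀ F : U → ℂ, Continuous F → ∫ u, F (h * u) ∂ν = ∫ u, F u ∂ν)
    (hν : ν.real Set.univ ≠ 0) (m : ℕ) :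
    (Module.finrank ℂ (comm D m) : ℝ) =
      (ν.real Set.univ)⁻¹ * ∫ u, ‖(tp (Fin m) (ρ u)).trace‖ ^ 2 ∂ν := by
  have hν' : (ν.real Set.univ : ℂ) ≠ 0 := by exact_mod_cast hν
  have hproj : LinearMap.IsProj (comm D m) (PN ν ρ hρ m) := by
    constructor
    · intro A
      show ((ν.real Set.univ : ℂ))⁻¹ • avg ν (fun u => cj m (ρ u) A) ∈ comm D m
      refine Submodule.smul_mem _ _ ?_
      intro g hg
      obtain ⟨h, hh, rfl⟩ := (hD g).1 hg
      set Y := avg ν (fun u => cj m (ρ u) A) with hY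
      have h1 : tp (Fin m) (ρ h) * Y * (tp (Fin m) (ρ h))ᴴ = Y := by
        have hcj : Continuous fun u => cj m (ρ u) A := continuous_conj ρ hρ A
        rw [hY, avg_mul_left ν _ (fun u => cj m (ρ u) A) hcj, avg_mul_right ν _
          (fun u => tp (Fin m) (ρ h) * cj m (ρ u) A) (continuous_const.matrix_mul hcj)]
        ext a b
        simp only [avg]
        have h2 : ∀ u, (tp (Fin m) (ρ h) * cj m (ρ u) A * (tp (Fin m) (ρ h))ᴴ) a b =
            cj m (ρ (h * u)) A a b := by
          intro u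
          rw [cj, cj, map_mul, tp_mul, Matrix.conjTranspose_mul]
          simp only [Matrix.mul_assoc]
        simp only [h2]
        exact hinv h hh (fun u => cj m (ρ u) A a b) ((continuous_conj ρ hρ A).matrix_elem a b)
      have h3 := tp_unitary (m := m) (hU h)
      show Y * tp (Fin m) (ρ h) = tp (Fin m) (ρ h) * Y
      calc Y * tp (Fin m) (ρ h) = tp (Fin m) (ρ h) * Y * (tp (Fin m) (ρ h))ᴴ * tp (Fin m) (ρ h) := by
            rw [h1]
        _ = tp (Fin m) (ρ h) * Y * ((tp (Fin m) (ρ h))ᴴ * tp (Fin m) (ρ h)) := by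
            simp only [Matrix.mul_assoc]
        _ = tp (Fin m) (ρ h) * Y := by rw [h3, Matrix.mul_one]
    · intro A hA
      show ((ν.real Set.univ : ℂ))⁻¹ • avg ν (fun u => cj m (ρ u) A) = A
      have h1 : avg ν (fun u => cj m (ρ u) A) = (ν.real Set.univ : ℂ) • A := by
        ext a b
        simp only [avg]
        have h2 : ∫ u, cj m (ρ u) A a b ∂ν = ∫ _u : U, A a b ∂ν := by
          refine integral_congr_ae ?_
          filter_upwards [hΓ] with u hu
          have h3 : A * tp (Fin m) (ρ u) = tp (Fin m) (ρ u) * A := hA _ ((hD _).2 ⟨u, hu, rfl⟩)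
          have h4 := tp_unitary' (m := m) (hU u)
          have h5 : cj m (ρ u) A = A := by
            rw [cj, ← h3, Matrix.mul_assoc, h4, Matrix.mul_one]
          rw [h5]
        rw [h2, integral_const, Matrix.smul_apply]
        simp
      rw [h1, smul_smul, inv_mul_cancel₀ hν', one_smul]
  have h1 := hproj.trace
  rw [trace_lin] at h1
  have h2 : ∑ a, ∑ b, (PN ν ρ hρ m (Matrix.single a b 1)) a b =
      ((ν.real Set.univ : ℂ))⁻¹ * ∫ u, ((‖(tp (Fin m) (ρ u)).trace‖ ^ 2 : ℝ) : ℂ) ∂ν := by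
    have h3 : ∀ a b : Fin m → n, (PN ν ρ hρ m (Matrix.single a b 1)) a b =
        ((ν.real Set.univ : ℂ))⁻¹ * ∫ u, tp (Fin m) (ρ u) a a * star (tp (Fin m) (ρ u) b b) ∂ν := by
      intro a b
      show (((ν.real Set.univ : ℂ))⁻¹ • avg ν (fun u => cj m (ρ u) (Matrix.single a b 1))) a b = _
      rw [Matrix.smul_apply, smul_eq_mul]
      congr 1
      simp only [avg]
      congr 1
      ext u
      exact cj_entry _ _ _
    simp only [h3]
    simp only [← Finset.mul_sum]
    congr 1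
    have hc : ∀ a b : Fin m → n, Continuous fun u =>
        tp (Fin m) (ρ u) a a * star (tp (Fin m) (ρ u) b b) := fun a b =>
      ((continuous_tp hρ).matrix_elem a a).mul ((continuous_tp hρ).matrix_elem b b).star
    have h4 : ∑ a, ∑ b, ∫ u, tp (Fin m) (ρ u) a a * star (tp (Fin m) (ρ u) b b) ∂ν =
        ∫ u, (∑ a, ∑ b, tp (Fin m) (ρ u) a a * star (tp (Fin m) (ρ u) b b)) ∂ν := by
      rw [integral_finsetSum _ fun a _ => integrable_finsetSum _ fun b _ => integ ν _ (hc a b)]
      refine Finset.sum_congr rfl fun a _ => ?_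
      rw [integral_finsetSum _ fun b _ => integ ν _ (hc a b)]
    rw [h4]
    congr 1
    ext u
    rw [← Complex.normSq_eq_norm_sq, ← Complex.mul_conj, Matrix.trace, map_sum, Finset.sum_mul_sum]
    rfl
  rw [h2, integral_complex_ofReal] at h1
  have h5 : (((ν.real Set.univ)⁻¹ * ∫ u, ‖(tp (Fin m) (ρ u)).trace‖ ^ 2 ∂ν : ℝ) : ℂ) =
      (Module.finrank ℂ (comm D m) : ℂ) := by
    rw [← h1]
    push_cast
    rfl
  exact_mod_cast h5.symm

end proj

section haar

variable {n : Type} [Fintype n] [DecidableEq n]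

/-- the subgroup of the unitary group -/
def KG (G : Set (Matrix n n ℂ)) (hG : IsCGroup G) : Subgroup (Matrix.unitaryGroup n ℂ) where
  carrier := {u | (u : Matrix n n ℂ) ∈ G}
  one_mem' := hG.one_mem
  mul_mem' := fun ha hb => hG.mul_mem ha hb
  inv_mem' := fun ha => hG.star_mem ha

theorem tp_eq (g : Matrix n n ℂ) (m : ℕ) : tp (Fin m) g = tpow g m := rfl

theorem t_HAAR : S_HAAR := by
  intro n _ _ G H hG hH hHG hO
  obtain ⟨O, hO, h1O, hGO⟩ := hO
  have hcU := compact_unitary (n := n)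
  let U : Type := KG G hG
  have hclosed : IsClosed ((KG G hG : Subgroup (Matrix.unitaryGroup n ℂ)) :
      Set (Matrix.unitaryGroup n ℂ)) := hG.closed.preimage continuous_subtype_val
  have hcomp : CompactSpace (KG G hG) := isCompact_iff_compactSpace.1 hclosed.isCompact
  let _ : MeasurableSpace (KG G hG) := borel _
  have : BorelSpace (KG G hG) := ⟨rfl⟩
  let μ : Measure (KG G hG) := Measure.haar
  let ρ : KG G hG →* Matrix n n ℂ := (Submonoid.subtype (Matrix.unitaryGroup n ℂ)).comp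
    (KG G hG).subtype
  have hρ : Continuous ρ := continuous_subtype_val.comp continuous_subtype_val
  have hU : ∀ u, ρ u ∈ Matrix.unitaryGroup n ℂ := fun u => u.1.2
  have hGm : ∀ u, ρ u ∈ G := fun u => u.2
  have hGs : ∀ g ∈ G, ∃ u, ρ u = g := fun g hg => ⟨⟨⟨g, hG.unitary g hg⟩, hg⟩, rfl⟩
  -- the open subgroup
  let Γ : Set (KG G hG) := {u | ρ u ∈ H}
  have hρinv : ∀ u, ρ u⁻¹ = (ρ u)ᴴ := fun u => rfl
  have hΓmul : ∀ h ∈ Γ, ∀ u, h * u ∈ Γ ↔ u ∈ Γ := by
    intro h hh u
    constructor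
    · intro hu
      have h1 : ρ (h⁻¹ * (h * u)) ∈ H := by
        rw [map_mul, hρinv]
        exact hH.mul_mem (hH.star_mem hh) hu
      rwa [inv_mul_cancel_left] at h1
    · intro hu
      show ρ (h * u) ∈ H
      rw [map_mul]
      exact hH.mul_mem hh hu
  have hΓo : IsOpen Γ := by
    rw [isOpen_iff_mem_nhds]
    intro h hh
    have h1 : {u | ρ (h⁻¹ * u) ∈ O} ∈ nhds h := by
      refine (hO.preimage (hρ.comp (continuous_const.mul continuous_id))).mem_nhds ?_
      show ρ (h⁻¹ * h) ∈ O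
      rw [inv_mul_cancel, map_one]
      exact h1O
    refine Filter.mem_of_superset h1 fun u hu => ?_
    have h2 : h⁻¹ * u ∈ Γ := hGO ⟨hGm _, hu⟩
    have h3 := (hΓmul h hh (h⁻¹ * u)).2 h2
    rwa [mul_inv_cancel_left] at h3
  have h1Γ : (1 : KG G hG) ∈ Γ := by
    show ρ 1 ∈ H
    rw [map_one]
    exact hH.one_mem
  have hμ1 : 0 < μ.real Set.univ := by
    rw [measureReal_def, ENNReal.toReal_pos_iff]
    exact ⟨isOpen_univ.measure_pos _ ⟨1, trivial⟩, measure_lt_top _ _⟩
  have hμΓ : 0 < μ.real Γ := by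
    rw [measureReal_def, ENNReal.toReal_pos_iff]
    exact ⟨hΓo.measure_pos _ ⟨1, h1Γ⟩, measure_lt_top _ _⟩
  have hmeas : MeasurableSet Γ := hΓo.measurableSet
  refine ⟨⌈(μ.real Γ)⁻¹ * μ.real Set.univ⌉₊, fun m => ?_⟩
  have hGd := finrank_comm μ ρ hρ hU Set.univ G (fun g => ⟨fun hg => by
      obtain ⟨u, hu⟩ := hGs g hg
      exact ⟨u, trivial, hu⟩, by
      rintro ⟨u, -, rfl⟩
      exact hGm u⟩) (Filter.Eventually.of_forall fun _ => trivial)
    (fun h _ F hF => integral_mul_left_eq_self F h) hμ1.ne' m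
  have hrest : (μ.restrict Γ).real Set.univ = μ.real Γ := by
    rw [measureReal_restrict_apply_univ]
  have hHd := finrank_comm (μ.restrict Γ) ρ hρ hU Γ H (fun g => ⟨fun hg => by
      obtain ⟨u, hu⟩ := hGs g (hHG hg)
      exact ⟨u, by show ρ u ∈ H; rw [hu]; exact hg, hu⟩, by
      rintro ⟨u, hu, rfl⟩
      exact hu⟩) (ae_restrict_mem hmeas)
    (fun h hh F hF => by
      rw [← integral_indicator hmeas, ← integral_indicator hmeas,
        ← integral_mul_left_eq_self (Γ.indicator F) h]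
      congr 1
      ext u
      by_cases hu : u ∈ Γ
      · rw [Set.indicator_of_mem hu, Set.indicator_of_mem ((hΓmul h hh u).2 hu)]
      · rw [Set.indicator_of_notMem hu, Set.indicator_of_notMem fun h' => hu ((hΓmul h hh u).1 h')])
    (by rw [hrest]; exact hμΓ.ne') m
  rw [hrest] at hHd
  have hle : ∫ u, ‖(tp (Fin m) (ρ u)).trace‖ ^ 2 ∂(μ.restrict Γ) ≤
      ∫ u, ‖(tp (Fin m) (ρ u)).trace‖ ^ 2 ∂μ := by
    refine setIntegral_le_integral ?_ ?_
    · exact (((continuous_tp hρ).matrix_trace.norm.pow 2)).integrable_of_hasCompactSupport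
        (HasCompactSupport.of_compactSpace _)
    · exact Filter.Eventually.of_forall fun u => by positivity
  have hfin : (Module.finrank ℂ (comm H m) : ℝ) ≤
      (μ.real Γ)⁻¹ * μ.real Set.univ * Module.finrank ℂ (comm G m) := by
    rw [hHd, hGd]
    calc (μ.real Γ)⁻¹ * ∫ u, ‖(tp (Fin m) (ρ u)).trace‖ ^ 2 ∂(μ.restrict Γ)
        ≤ (μ.real Γ)⁻¹ * ∫ u, ‖(tp (Fin m) (ρ u)).trace‖ ^ 2 ∂μ :=
          mul_le_mul_of_nonneg_left hle (inv_nonneg.2 hμΓ.le)
      _ = _ := by
          field_simp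
  have h2 : (Module.finrank ℂ (comm H m) : ℝ) ≤
      (⌈(μ.real Γ)⁻¹ * μ.real Set.univ⌉₊ : ℝ) * Module.finrank ℂ (comm G m) :=
    hfin.trans (mul_le_mul_of_nonneg_right (Nat.le_ceil _) (Nat.cast_nonneg _))
  exact_mod_cast h2

end haar

end Pool.Agent.E8helper56.TX
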