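import Pool.Agent.E8helper56.TX.Gap

set_option autoImplicit false
set_option linter.unusedSectionVars false

/-!
# The Lie algebra of a tensor system: the Casimir operator
-/

open Matrix

noncomputable section

namespace Pool.Agent.E8helper56.TX

open Pool.Agent.E8helper1.TX

variable {n : Type} [Fintype n] [DecidableEq n] {m : ℕ}

/-- matrices as vectors -/
def vecE : Matrix n n ℂ ≃ₗ[ℂ] EuclideanSpace ℂ (n × n) where
  toFun a := WithLp.toLp 2 fun p => a p.1 p.2
  map_add' a b := rfl
  map_smul' c a := rfl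
  invFun v := fun i j => v.ofLp (i, j)
  left_inv a := rfl
  right_inv v := rfl

theorem inner_vecE (a b : Matrix n n ℂ) : inner ℂ (vecE a) (vecE b) = (aᴴ * b).trace := by
  rw [PiLp.inner_apply, Matrix.trace, Fintype.sum_prod_type_right]
  refine Finset.sum_congr rfl fun i _ => ?_
  rw [Matrix.diag_apply, Matrix.mul_apply]
  refine Finset.sum_congr rfl fun j _ => ?_
  rw [Matrix.conjTranspose_apply, mul_comm]
  rfl

theorem eq_zero_of_trace (a : Matrix n n ℂ) (h : (aᴴ * a).trace = 0) : a = 0 := by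
  rw [← inner_vecE] at h
  exact (LinearEquiv.map_eq_zero_iff vecE).1 (inner_self_eq_zero.1 h)

/-- the orthogonal projection onto a space of matrices -/
theorem exists_proj (L : Submodule ℂ (Matrix n n ℂ)) :
    ∃ P : Matrix n n ℂ →ₗ[ℂ] Matrix n n ℂ, (∀ a, P a ∈ L) ∧
      ∀ a, ∀ z ∈ L, (zᴴ * (a - P a)).trace = 0 := by
  let L' : Submodule ℂ (EuclideanSpace ℂ (n × n)) := L.map (vecE (n := n)).toLinearMap
  refine ⟨(vecE (n := n)).symm.toLinearMap ∘ₗ L'.subtype ∘ₗ
    (L'.orthogonalProjectionOnto).toLinearMap ∘ₗ (vecE (n := n)).toLinearMap, fun a => ?_, fun a z hz => ?_⟩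
  · obtain ⟨b, hb, hb2⟩ := (L'.orthogonalProjectionOnto (vecE a)).2
    show (vecE (n := n)).symm (L'.orthogonalProjectionOnto (vecE a) : EuclideanSpace ℂ (n × n)) ∈ L
    rw [← hb2]
    simpa using hb
  · rw [← inner_vecE, map_sub]
    show inner ℂ (vecE z) (vecE a - vecE ((vecE (n := n)).symm
      (L'.orthogonalProjectionOnto (vecE a) : EuclideanSpace ℂ (n × n)))) = 0
    rw [LinearEquiv.apply_symm_apply]
    have h1 : vecE z ∈ L' := ⟨z, hz, rfl⟩
    have h2 := L'.sub_starProjection_mem_orthogonal (vecE a)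
    exact (Submodule.mem_orthogonal _ _).1 h2 _ h1

theorem proj_unique {L : Submodule ℂ (Matrix n n ℂ)} {P : Matrix n n ℂ →ₗ[ℂ] Matrix n n ℂ}
    (h1 : ∀ a, P a ∈ L) (h2 : ∀ a, ∀ z ∈ L, (zᴴ * (a - P a)).trace = 0) {a b : Matrix n n ℂ}
    (hb : b ∈ L) (hb2 : ∀ z ∈ L, (zᴴ * (a - b)).trace = 0) : P a = b := by
  rw [← sub_eq_zero]
  apply eq_zero_of_trace
  have h3 : P a - b ∈ L := L.sub_mem (h1 a) hb
  have h4 : P a - b = (a - b) - (a - P a) := by abel
  have h5 := hb2 _ h3
  have h6 := h2 a _ h3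
  calc ((P a - b)ᴴ * (P a - b)).trace = ((P a - b)ᴴ * ((a - b) - (a - P a))).trace := by
        rw [← h4]
    _ = 0 := by rw [Matrix.mul_sub, Matrix.trace_sub, h5, h6, sub_zero]

/-- the operator of degree two attached to a linear map -/
def Om (F : Matrix n n ℂ →ₗ[ℂ] Matrix n n ℂ) : Op n 2 :=
  fun I J => F (Matrix.single (J 1) (I 1) 1) (I 0) (J 0)

theorem sum_two (F : (Fin 2 → n) → ℂ) : ∑ K, F K = ∑ p : n, ∑ q : n, F ![p, q] := by
  rw [← Fintype.sum_prod_type' (f := fun p q => F ![p, q])]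
  exact (Equiv.sum_comp (finTwoArrowEquiv n).symm F).symm

theorem dpow_two (z : Matrix n n ℂ) (I K : Fin 2 → n) : dpow z 2 I K =
    (if I 1 = K 1 then z (I 0) (K 0) else 0) + (if I 0 = K 0 then z (I 1) (K 1) else 0) := by
  simp only [dpow, Fin.sum_univ_two]
  congr 1
  · have h : (∀ j : Fin 2, j ≠ 0 → I j = K j) ↔ I 1 = K 1 := by
      constructor
      · intro h
        exact h 1 (by decide)
      · intro h j hj
        fin_cases j
        · exact absurd rfl hj
        · exact h
    by_cases h2 : I 1 = K 1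
    · rw [if_pos h2, if_pos (h.2 h2)]
    · rw [if_neg h2, if_neg fun h3 => h2 (h.1 h3)]
  · have h : (∀ j : Fin 2, j ≠ 1 → I j = K j) ↔ I 0 = K 0 := by
      constructor
      · intro h
        exact h 0 (by decide)
      · intro h j hj
        fin_cases j
        · exact h
        · exact absurd rfl hj
    by_cases h2 : I 0 = K 0
    · rw [if_pos h2, if_pos (h.2 h2)]
    · rw [if_neg h2, if_neg fun h3 => h2 (h.1 h3)]

theorem dpow_two_l (z : Matrix n n ℂ) (I : Fin 2 → n) (p q : n) : dpow z 2 I ![p, q] =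
    (if I 1 = q then z (I 0) p else 0) + (if I 0 = p then z (I 1) q else 0) :=
  dpow_two z I ![p, q]

theorem dpow_two_r (z : Matrix n n ℂ) (J : Fin 2 → n) (p q : n) : dpow z 2 ![p, q] J =
    (if q = J 1 then z p (J 0) else 0) + (if p = J 0 then z q (J 1) else 0) :=
  dpow_two z ![p, q] J

theorem Om_l (F : Matrix n n ℂ →ₗ[ℂ] Matrix n n ℂ) (J : Fin 2 → n) (p q : n) :
    Om F ![p, q] J = F (Matrix.single (J 1) q 1) p (J 0) := rfl

theorem Om_r (F : Matrix n n ℂ →ₗ[ℂ] Matrix n n ℂ) (I : Fin 2 → n) (p q : n) :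
    Om F I ![p, q] = F (Matrix.single q (I 1) 1) (I 0) p := rfl

theorem single_mul_sum (z : Matrix n n ℂ) (k l : n) :
    Matrix.single k l (1 : ℂ) * z = ∑ q, z l q • Matrix.single k q (1 : ℂ) := by
  ext i j
  rw [Matrix.sum_apply]
  simp [Matrix.mul_apply, Matrix.single_apply, ite_and]

theorem mul_single_sum (z : Matrix n n ℂ) (k l : n) :
    z * Matrix.single k l (1 : ℂ) = ∑ q, z q k • Matrix.single q l (1 : ℂ) := by
  ext i j
  rw [Matrix.sum_apply]
  simp [Matrix.mul_apply, Matrix.single_apply, ite_and]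

theorem Om_left (F : Matrix n n ℂ →ₗ[ℂ] Matrix n n ℂ) (z : Matrix n n ℂ) (I J : Fin 2 → n) :
    (dpow z 2 * Om F) I J = (z * F (Matrix.single (J 1) (I 1) 1)) (I 0) (J 0) +
      F (Matrix.single (J 1) (I 1) 1 * z) (I 0) (J 0) := by
  rw [Matrix.mul_apply, sum_two]
  simp only [dpow_two_l, Om_l, add_mul, Finset.sum_add_distrib]
  congr 1
  · rw [Matrix.mul_apply]
    refine Finset.sum_congr rfl fun p _ => ?_
    rw [Finset.sum_eq_single (I 1), if_pos rfl]
    · intro q _ hq
      rw [if_neg fun h => hq h.symm]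
      exact zero_mul _
    · intro h
      exact absurd (Finset.mem_univ _) h
  · rw [single_mul_sum, map_sum, Matrix.sum_apply, Finset.sum_comm]
    refine Finset.sum_congr rfl fun q _ => ?_
    rw [Finset.sum_eq_single (I 0), if_pos rfl, map_smul, Matrix.smul_apply, smul_eq_mul]
    · intro q _ hq
      rw [if_neg fun h => hq h.symm]
      exact zero_mul _
    · intro h
      exact absurd (Finset.mem_univ _) h

theorem Om_right (F : Matrix n n ℂ →ₗ[ℂ] Matrix n n ℂ) (z : Matrix n n ℂ) (I J : Fin 2 → n) :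
    (Om F * dpow z 2) I J = (F (Matrix.single (J 1) (I 1) 1) * z) (I 0) (J 0) +
      F (z * Matrix.single (J 1) (I 1) 1) (I 0) (J 0) := by
  rw [Matrix.mul_apply, sum_two]
  simp only [dpow_two_r, Om_r, mul_add, Finset.sum_add_distrib]
  congr 1
  · rw [Matrix.mul_apply]
    refine Finset.sum_congr rfl fun p _ => ?_
    rw [Finset.sum_eq_single (J 1), if_pos rfl]
    · intro q _ hq
      rw [if_neg hq]
      exact mul_zero _
    · intro h
      exact absurd (Finset.mem_univ _) h
  · rw [mul_single_sum, map_sum, Matrix.sum_apply, Finset.sum_comm]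
    refine Finset.sum_congr rfl fun q _ => ?_
    rw [Finset.sum_eq_single (J 0), if_pos rfl, map_smul, Matrix.smul_apply, smul_eq_mul, mul_comm]
    · intro q _ hq
      rw [if_neg hq]
      exact mul_zero _
    · intro h
      exact absurd (Finset.mem_univ _) h

theorem Om_comm_iff (F : Matrix n n ℂ →ₗ[ℂ] Matrix n n ℂ) (z : Matrix n n ℂ) :
    Om F * dpow z 2 = dpow z 2 * Om F ↔ ∀ a, F (z * a - a * z) = z * F a - F a * z := by
  constructor
  · intro h
    have h1 : ∀ k l : n, F (z * Matrix.single k l 1 - Matrix.single k l 1 * z) =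
        z * F (Matrix.single k l 1) - F (Matrix.single k l 1) * z := by
      intro k l
      ext i j
      have h2 := congrFun (congrFun h ![i, l]) ![j, k]
      rw [Om_left, Om_right] at h2
      simp only [Matrix.cons_val_zero, Matrix.cons_val_one] at h2
      rw [map_sub, Matrix.sub_apply, Matrix.sub_apply]
      linear_combination h2
    intro a
    rw [Matrix.matrix_eq_sum_single a]
    simp only [Matrix.mul_sum, Matrix.sum_mul, map_sub, map_sum, ← Finset.sum_sub_distrib]
    refine Finset.sum_congr rfl fun k _ => Finset.sum_congr rfl fun l _ => ?_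
    have h3 : Matrix.single k l (a k l) = a k l • Matrix.single k l (1 : ℂ) := by
      rw [Matrix.smul_single, smul_eq_mul, mul_one]
    have h4 := h1 k l
    rw [map_sub] at h4
    rw [h3, Matrix.mul_smul, Matrix.smul_mul, map_smul, map_smul, map_smul, Matrix.mul_smul,
      Matrix.smul_mul, ← smul_sub, ← smul_sub, h4]
  · intro h
    ext I J
    rw [Om_left, Om_right]
    have h1 := congrFun (congrFun (h (Matrix.single (J 1) (I 1) 1)) (I 0)) (J 0)
    rw [map_sub, Matrix.sub_apply, Matrix.sub_apply] at h1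
    linear_combination h1

/-- The annihilator of a family of operators. -/
def Ann (T : ∀ m, Submodule ℂ (Op n m)) : Submodule ℂ (Matrix n n ℂ) where
  carrier := {x | Kills T x}
  zero_mem' := by
    intro m A _
    have h : dpow (0 : Matrix n n ℂ) m = 0 := by
      ext I J
      simp [dpow]
    rw [h, Matrix.mul_zero, Matrix.zero_mul]
  add_mem' := by
    intro x y hx hy m A hA
    rw [dpow_add, mul_add, add_mul, hx m A hA, hy m A hA]
  smul_mem' := by
    intro c x hx m A hA
    rw [dpow_smul, Matrix.mul_smul, Matrix.smul_mul, hx m A hA]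

/-- products of the elementary operators of degree `m` -/
theorem dpow_comm (x y : Matrix n n ℂ) : dpow (x * y - y * x) m =
    dpow x m * dpow y m - dpow y m * dpow x m := by
  rw [dpow_mt, dpow_mt, dpow_mt, Finset.sum_mul_sum, Finset.sum_mul_sum]
  simp only [mt_mul]
  have h1 : ∑ i : Fin m, ∑ j : Fin m, mt (fun l => Function.update (fun _ => (1 : Matrix n n ℂ)) i y l *
      Function.update (fun _ => (1 : Matrix n n ℂ)) j x l) =
      ∑ i : Fin m, ∑ j : Fin m, mt (fun l => Function.update (fun _ => (1 : Matrix n n ℂ)) j y l *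
      Function.update (fun _ => (1 : Matrix n n ℂ)) i x l) := Finset.sum_comm
  rw [h1, ← Finset.sum_sub_distrib]
  refine Finset.sum_congr rfl fun i _ => ?_
  rw [← Finset.sum_sub_distrib]
  have h2 : ∀ j : Fin m, j ≠ i →
      mt (fun l => Function.update (fun _ => (1 : Matrix n n ℂ)) i x l *
        Function.update (fun _ => (1 : Matrix n n ℂ)) j y l) -
      mt (fun l => Function.update (fun _ => (1 : Matrix n n ℂ)) j y l *
        Function.update (fun _ => (1 : Matrix n n ℂ)) i x l) = 0 := by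
    intro j hj
    rw [sub_eq_zero]
    congr 1
    ext1 l
    by_cases h3 : l = i
    · subst h3
      rw [Function.update_self, Function.update_of_ne hj.symm, Matrix.mul_one, Matrix.one_mul]
    · rw [Function.update_of_ne h3, Matrix.mul_one, Matrix.one_mul]
  rw [Finset.sum_eq_single i (fun j _ hj => h2 j hj) (fun h => absurd (Finset.mem_univ i) h)]
  ext I J
  rw [Matrix.sub_apply]
  simp only [mt]
  rw [Fintype.prod_eq_mul_prod_compl i, Fintype.prod_eq_mul_prod_compl i,
    Fintype.prod_eq_mul_prod_compl i, Function.update_self, Function.update_self,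
    Function.update_self, Matrix.sub_apply]
  have h4 : ∀ (u v : Matrix n n ℂ), ∏ l ∈ ({i} : Finset (Fin m))ᶜ,
      (Function.update (fun _ => (1 : Matrix n n ℂ)) i u l *
        Function.update (fun _ => (1 : Matrix n n ℂ)) i v l) (I l) (J l) =
      ∏ l ∈ ({i} : Finset (Fin m))ᶜ, (1 : Matrix n n ℂ) (I l) (J l) := by
    intro u v
    refine Finset.prod_congr rfl fun l hl => ?_
    have hli : l ≠ i := by simpa using hl
    rw [Function.update_of_ne hli, Function.update_of_ne hli, Matrix.mul_one]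
  have h5 : ∏ l ∈ ({i} : Finset (Fin m))ᶜ, (Function.update (fun _ => (1 : Matrix n n ℂ)) i
      (x * y - y * x) l) (I l) (J l) =
      ∏ l ∈ ({i} : Finset (Fin m))ᶜ, (1 : Matrix n n ℂ) (I l) (J l) := by
    refine Finset.prod_congr rfl fun l hl => ?_
    have hli : l ≠ i := by simpa using hl
    rw [Function.update_of_ne hli]
  rw [h4, h4, h5]
  ring

theorem Ann_lie {T : ∀ m, Submodule ℂ (Op n m)} {x y : Matrix n n ℂ} (hx : x ∈ Ann T)
    (hy : y ∈ Ann T) : x * y - y * x ∈ Ann T := by
  intro m A hA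
  rw [dpow_comm, Matrix.mul_sub, Matrix.sub_mul]
  have h1 := hx m A hA
  have h2 := hy m A hA
  rw [← Matrix.mul_assoc, ← Matrix.mul_assoc, h1, h2, Matrix.mul_assoc, Matrix.mul_assoc, h1, h2]
  simp only [Matrix.mul_assoc]

theorem Ann_star {T : ∀ m, Submodule ℂ (Op n m)} (hT : ∀ m, ∀ A ∈ T m, Aᴴ ∈ T m)
    {x : Matrix n n ℂ} (hx : x ∈ Ann T) : xᴴ ∈ Ann T := by
  intro m A hA
  have h1 := congrArg Matrix.conjTranspose (hx m Aᴴ (hT m A hA))
  rw [Matrix.conjTranspose_mul, Matrix.conjTranspose_mul, Matrix.conjTranspose_conjTranspose] at h1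
  rw [dpow_star]
  exact h1.symm

/-- **The Casimir argument.** A skew-hermitian matrix which kills the operators of degree two is the
sum of an element of the Lie algebra and of an orthogonal element which commutes with it. -/
theorem lie_lemma (T : ∀ m, Submodule ℂ (Op n m)) (hstar : ∀ m, ∀ A ∈ T m, Aᴴ ∈ T m)
    (hT2 : ∀ A : Op n 2, (∀ z ∈ Ann T, A * dpow z 2 = dpow z 2 * A) → A ∈ T 2)
    (x : Matrix n n ℂ) (hx : xᴴ = -x) (hx2 : ∀ A ∈ T 2, A * dpow x 2 = dpow x 2 * A) :
    ∃ y c : Matrix n n ℂ, x = y + c ∧ y ∈ Ann T ∧ cᴴ = -c ∧ (∀ z ∈ Ann T, (zᴴ * c).trace = 0) ∧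
      ∀ z ∈ Ann T, z * c = c * z := by
  obtain ⟨P, hP1, hP2⟩ := exists_proj (Ann T)
  -- equivariance
  have heq : ∀ z ∈ Ann T, ∀ a, P (z * a - a * z) = z * P a - P a * z := by
    intro z hz a
    refine proj_unique hP1 hP2 (Ann_lie hz (hP1 a)) fun w hw => ?_
    have h1 : zᴴ * w - w * zᴴ ∈ Ann T := Ann_lie (Ann_star hstar hz) hw
    have h2 := hP2 a _ h1
    rw [Matrix.conjTranspose_sub, Matrix.conjTranspose_mul, Matrix.conjTranspose_mul,
      Matrix.conjTranspose_conjTranspose, Matrix.sub_mul, Matrix.trace_sub] at h2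
    have h3 : (z * wᴴ * (a - P a)).trace = (wᴴ * ((a - P a) * z)).trace := by
      rw [Matrix.mul_assoc, Matrix.trace_mul_comm z, Matrix.mul_assoc]
    have h4 : z * a - a * z - (z * P a - P a * z) = z * (a - P a) - (a - P a) * z := by
      rw [Matrix.mul_sub, Matrix.sub_mul]
      abel
    rw [h4, Matrix.mul_sub, Matrix.trace_sub, ← h3, ← Matrix.mul_assoc]
    exact h2
  have hOm : Om P ∈ T 2 := hT2 _ fun z hz => (Om_comm_iff P z).2 (heq z hz)
  have hxP := (Om_comm_iff P x).1 (hx2 _ hOm)
  have hPid : ∀ a ∈ Ann T, P a = a := fun a ha => proj_unique hP1 hP2 ha fun z _ => by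
    rw [sub_self, Matrix.mul_zero, Matrix.trace_zero]
  have hxnorm : ∀ a ∈ Ann T, x * a - a * x ∈ Ann T := by
    intro a ha
    have h1 := hxP a
    rw [hPid a ha] at h1
    rw [← h1]
    exact hP1 _
  refine ⟨P x, x - P x, by abel, hP1 x, ?_, fun z hz => hP2 x z hz, fun z hz => ?_⟩
  · -- `P x` is skew-hermitian
    have h1 : (P x)ᴴ = -P x := by
      have h2 : P (-x) = (P x)ᴴ := by
        refine proj_unique hP1 hP2 (Ann_star hstar (hP1 x)) fun z hz => ?_
        have h3 := hP2 x _ (Ann_star hstar hz)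
        rw [Matrix.conjTranspose_conjTranspose] at h3
        have h4 := congrArg star h3
        rw [← Matrix.trace_conjTranspose, Matrix.conjTranspose_mul, Matrix.conjTranspose_sub, hx,
          star_zero, Matrix.trace_mul_comm] at h4
        exact h4
      rw [← h2, map_neg]
    rw [Matrix.conjTranspose_sub, hx, h1]
    abel
  · -- `c` commutes with the Lie algebra
    have hcz : z * (x - P x) - (x - P x) * z ∈ Ann T := by
      have h1 := (Ann T).neg_mem (hxnorm z hz)
      have h2 := Ann_lie (hP1 x) hz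
      have h3 := (Ann T).add_mem h1 h2
      have h4 : -(x * z - z * x) + (P x * z - z * P x) = z * (x - P x) - (x - P x) * z := by
        rw [Matrix.mul_sub, Matrix.sub_mul]
        abel
      rwa [h4] at h3
    rw [← sub_eq_zero]
    apply eq_zero_of_trace
    set b := z * (x - P x) - (x - P x) * z with hb
    have h5 : zᴴ * b - b * zᴴ ∈ Ann T := Ann_lie (Ann_star hstar hz) hcz
    have h6 := hP2 x _ h5
    have h7 : (bᴴ * b).trace = ((zᴴ * b - b * zᴴ)ᴴ * (x - P x)).trace := by
      have h9 : (zᴴ * b - b * zᴴ)ᴴ = bᴴ * z - z * bᴴ := by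
        rw [Matrix.conjTranspose_sub, Matrix.conjTranspose_mul, Matrix.conjTranspose_mul,
          Matrix.conjTranspose_conjTranspose]
      rw [h9, Matrix.sub_mul, Matrix.trace_sub]
      have h8 : (z * bᴴ * (x - P x)).trace = (bᴴ * ((x - P x) * z)).trace := by
        rw [Matrix.mul_assoc, Matrix.trace_mul_comm z, Matrix.mul_assoc]
      rw [h8]
      conv_lhs => rw [hb]
      rw [Matrix.mul_sub, Matrix.trace_sub, ← hb, ← Matrix.mul_assoc]
    rw [h7, h6]

end Pool.Agent.E8helper56.TX
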