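import Pool.Agent.E8helper1.TX.Defs
import Pool.Agent.E8helper56.TX.Tan2

set_option autoImplicit false
set_option linter.unusedSectionVars false

/-!
# The logarithm of a unitary matrix near the identity
-/

open Matrix

noncomputable section

namespace Pool.Agent.E8helper56.TX

open Pool.Agent.E8helper1.TX

variable {n : Type} [Fintype n] [DecidableEq n] {m k : ℕ}

/-- the tensor product of a family of matrices -/
def mt (y : Fin m → Matrix n n ℂ) : Op n m := fun I J => ∏ j, y j (I j) (J j)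

theorem mt_mul (y z : Fin m → Matrix n n ℂ) : mt y * mt z = mt fun j => y j * z j := by
  ext a b
  simp only [mt, Matrix.mul_apply]
  rw [Finset.prod_univ_sum, Fintype.piFinset_univ]
  exact (Finset.sum_congr rfl fun c _ => Finset.prod_mul_distrib).symm

theorem tpow_mt (g : Matrix n n ℂ) : tpow g m = mt fun _ => g := rfl

theorem dpow_mt (x : Matrix n n ℂ) :
    dpow x m = ∑ i, mt (Function.update (fun _ => (1 : Matrix n n ℂ)) i x) := by
  ext I J
  rw [Matrix.sum_apply]
  simp only [dpow, mt]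
  refine Finset.sum_congr rfl fun i _ => ?_
  rw [Fintype.prod_eq_mul_prod_compl i, Function.update_self]
  by_cases h : ∀ j, j ≠ i → I j = J j
  · rw [if_pos h, Finset.prod_eq_one, mul_one]
    intro j hj
    have hji : j ≠ i := by
      simpa using hj
    rw [Function.update_of_ne hji, h j hji, Matrix.one_apply_eq]
  · rw [if_neg h]
    push Not at h
    obtain ⟨j, hji, hne⟩ := h
    rw [Finset.prod_eq_zero (i := j), mul_zero]
    · simpa using hji
    · rw [Function.update_of_ne hji, Matrix.one_apply_ne hne]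

theorem tpow_dpow (V W x : Matrix n n ℂ) (h : V * W = 1) :
    tpow V m * dpow x m * tpow W m = dpow (V * x * W) m := by
  rw [dpow_mt, dpow_mt, Finset.mul_sum, Finset.sum_mul]
  refine Finset.sum_congr rfl fun i _ => ?_
  rw [tpow_mt, tpow_mt, mt_mul, mt_mul]
  congr 1
  ext1 j
  by_cases hj : j = i
  · subst hj
    rw [Function.update_self, Function.update_self]
  · rw [Function.update_of_ne hj, Function.update_of_ne hj, Matrix.mul_one, h]

theorem tpow_mul (V W : Matrix n n ℂ) : tpow V m * tpow W m = tpow (V * W) m :=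
  (tp_mul (M := Fin m) V W).symm

theorem tpow_one' : tpow (1 : Matrix n n ℂ) m = 1 := tp_one (M := Fin m)

theorem tpow_diag (d : n → ℂ) : tpow (diagonal d) m = diagonal fun I => ∏ i, d (I i) := by
  ext I J
  rw [tpow, Matrix.diagonal_apply]
  by_cases h : I = J
  · rw [if_pos h, h]
    exact Finset.prod_congr rfl fun i _ => by rw [Matrix.diagonal_apply_eq]
  · rw [if_neg h]
    obtain ⟨i, hi⟩ := Function.ne_iff.1 h
    exact Finset.prod_eq_zero (Finset.mem_univ i) (Matrix.diagonal_apply_ne _ hi)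

theorem dpow_diag (d : n → ℂ) : dpow (diagonal d) m = diagonal fun I => ∑ i, d (I i) := by
  ext I J
  rw [Matrix.diagonal_apply]
  simp only [dpow]
  by_cases h : I = J
  · subst h
    rw [if_pos rfl]
    refine Finset.sum_congr rfl fun i _ => ?_
    rw [if_pos (fun _ _ => rfl), Matrix.diagonal_apply_eq]
  · rw [if_neg h]
    refine Finset.sum_eq_zero fun i _ => ?_
    by_cases h2 : ∀ j, j ≠ i → I j = J j
    · rw [if_pos h2]
      refine Matrix.diagonal_apply_ne _ fun h3 => h ?_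
      ext j
      by_cases hj : j = i
      · rw [hj]; exact h3
      · exact h2 j hj
    · rw [if_neg h2]

/-- spectral theorem for a unitary matrix near the identity -/
theorem spec (g : Matrix n n ℂ) (hg : g ∈ Matrix.unitaryGroup n ℂ)
    (htr : (Fintype.card n : ℝ) - 1 < (g.trace).re) :
    ∃ V : Matrix n n ℂ, Vᴴ * V = 1 ∧ V * Vᴴ = 1 ∧ ∃ θ : n → ℝ, (∀ k, |θ k| < Real.pi / 2) ∧
      g = V * diagonal (fun k => Complex.exp ((θ k : ℂ) * Complex.I)) * Vᴴ ∧
      ∀ k, (g.trace).re - ((Fintype.card n : ℝ) - 1) ≤ Real.cos (θ k) := by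
  have hg1 : gᴴ * g = 1 := Matrix.mem_unitaryGroup_iff'.1 hg
  have hg2 : g * gᴴ = 1 := Matrix.mem_unitaryGroup_iff.1 hg
  -- `-1` is not an eigenvalue
  have hdet : (g + 1).det ≠ 0 := by
    intro h0
    obtain ⟨v, hv, hv0⟩ := Matrix.exists_mulVec_eq_zero_iff.2 h0
    have hgv : ∀ i, (g.mulVec v) i = - v i := by
      intro i
      have h1 := congrFun hv0 i
      rw [Matrix.add_mulVec, Matrix.one_mulVec, Pi.add_apply, Pi.zero_apply] at h1
      exact eq_neg_of_add_eq_zero_left h1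
    -- Frobenius norm
    have hF : ∑ i, ∑ j, ‖(g - 1) i j‖ ^ 2 = 2 * (Fintype.card n : ℝ) - 2 * (g.trace).re := by
      have h2 : ((g - 1) * (g - 1)ᴴ).trace = ((∑ i, ∑ j, ‖(g - 1) i j‖ ^ 2 : ℝ) : ℂ) := by
        rw [Matrix.trace]
        push_cast
        refine Finset.sum_congr rfl fun i _ => ?_
        rw [Matrix.diag_apply, Matrix.mul_apply]
        refine Finset.sum_congr rfl fun j _ => ?_
        rw [Matrix.conjTranspose_apply, ← Complex.mul_conj']
        rfl
      have h3 : (g - 1) * (g - 1)ᴴ = 1 - g - gᴴ + 1 := by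
        rw [Matrix.conjTranspose_sub, Matrix.conjTranspose_one, sub_mul, mul_sub, mul_sub, hg2,
          Matrix.mul_one, Matrix.one_mul, Matrix.one_mul]
        abel
      rw [h3] at h2
      have h4 := congrArg Complex.re h2
      rw [Complex.ofReal_re] at h4
      rw [← h4]
      simp only [Matrix.trace_add, Matrix.trace_sub, Matrix.trace_one, Matrix.trace_conjTranspose,
        Complex.add_re, Complex.sub_re]
      simp
      ring
    have hCS : ∑ i, ‖((g - 1).mulVec v) i‖ ^ 2 ≤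
        (∑ i, ∑ j, ‖(g - 1) i j‖ ^ 2) * ∑ j, ‖v j‖ ^ 2 := by
      rw [Finset.sum_mul]
      refine Finset.sum_le_sum fun i _ => ?_
      have h5 : ‖((g - 1).mulVec v) i‖ ≤ ∑ j, ‖(g - 1) i j‖ * ‖v j‖ := by
        rw [Matrix.mulVec, dotProduct]
        refine (norm_sum_le _ _).trans (le_of_eq ?_)
        exact Finset.sum_congr rfl fun j _ => norm_mul _ _
      calc ‖((g - 1).mulVec v) i‖ ^ 2 ≤ (∑ j, ‖(g - 1) i j‖ * ‖v j‖) ^ 2 :=
            pow_le_pow_left₀ (norm_nonneg _) h5 2
        _ ≤ (∑ j, ‖(g - 1) i j‖ ^ 2) * ∑ j, ‖v j‖ ^ 2 := Finset.sum_mul_sq_le_sq_mul_sq _ _ _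
    have hl : ∑ i, ‖((g - 1).mulVec v) i‖ ^ 2 = 4 * ∑ j, ‖v j‖ ^ 2 := by
      rw [Finset.mul_sum]
      refine Finset.sum_congr rfl fun i _ => ?_
      rw [Matrix.sub_mulVec, Matrix.one_mulVec, Pi.sub_apply, hgv i]
      have : -v i - v i = -2 * v i := by ring
      rw [this, norm_mul, mul_pow]
      norm_num
    have hpos : 0 < ∑ j, ‖v j‖ ^ 2 := by
      obtain ⟨j, hj⟩ := Function.ne_iff.1 hv
      refine Finset.sum_pos' (fun _ _ => by positivity) ⟨j, Finset.mem_univ j, ?_⟩
      have : v j ≠ 0 := hj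
      positivity
    rw [hl, hF] at hCS
    nlinarith
  have hu : IsUnit (g + 1).det := isUnit_iff_ne_zero.2 hdet
  -- the Cayley transform
  set H : Matrix n n ℂ := (-Complex.I) • ((g - 1) * (g + 1)⁻¹) with hH
  have hinv1 : (g + 1) * (g + 1)⁻¹ = 1 := Matrix.mul_nonsing_inv _ hu
  have hinv2 : (g + 1)⁻¹ * (g + 1) = 1 := Matrix.nonsing_inv_mul _ hu
  have hHg : H * (g + 1) = (-Complex.I) • (g - 1) := by
    rw [hH, Matrix.smul_mul, Matrix.mul_assoc, hinv2, Matrix.mul_one]
  have hHerm : Hᴴ = H := by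
    have h1 : (gᴴ + 1) * Hᴴ = Complex.I • (gᴴ - 1) := by
      have h2 : (H * (g + 1))ᴴ = (gᴴ + 1) * Hᴴ := by
        rw [Matrix.conjTranspose_mul, Matrix.conjTranspose_add, Matrix.conjTranspose_one]
      have h2' : ((-Complex.I) • (g - 1))ᴴ = Complex.I • (gᴴ - 1) := by
        rw [Matrix.conjTranspose_smul, Matrix.conjTranspose_sub, Matrix.conjTranspose_one]
        simp
      rw [← h2, hHg, h2']
    -- multiply by `g`
    have h3 : (1 + g) * Hᴴ = Complex.I • (1 - g) := by
      have h4 := congrArg (fun Z => g * Z) h1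
      simp only [← Matrix.mul_assoc, Matrix.mul_add, Matrix.mul_smul, Matrix.mul_sub, hg2,
        Matrix.mul_one] at h4
      exact h4
    have h5 : (g + 1) * Hᴴ = (g + 1) * H := by
      have h6 : (g + 1) * (g - 1) = (g - 1) * (g + 1) := by
        simp only [add_mul, mul_sub, sub_mul, mul_add, Matrix.one_mul, Matrix.mul_one]
        abel
      have h7 : (g + 1) * H = (-Complex.I) • (g - 1) := by
        rw [hH, Matrix.mul_smul, ← Matrix.mul_assoc, h6, Matrix.mul_assoc, hinv1, Matrix.mul_one]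
      rw [h7, add_comm g 1, h3, neg_smul, ← smul_neg, neg_sub]
    calc Hᴴ = (g + 1)⁻¹ * ((g + 1) * Hᴴ) := by rw [← Matrix.mul_assoc, hinv2, Matrix.one_mul]
      _ = (g + 1)⁻¹ * ((g + 1) * H) := by rw [h5]
      _ = H := by rw [← Matrix.mul_assoc, hinv2, Matrix.one_mul]
  have hHH : H.IsHermitian := hHerm
  have hsp := hHH.spectral_theorem
  set V : Matrix n n ℂ := (hHH.eigenvectorUnitary : Matrix n n ℂ) with hV
  set lam : n → ℝ := hHH.eigenvalues with hlam
  have hV1 : Vᴴ * V = 1 := Matrix.mem_unitaryGroup_iff'.1 hHH.eigenvectorUnitary.2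
  have hV2 : V * Vᴴ = 1 := Matrix.mem_unitaryGroup_iff.1 hHH.eigenvectorUnitary.2
  set D : Matrix n n ℂ := diagonal (fun k => (lam k : ℂ)) with hD
  have hHV : H = V * D * Vᴴ := hsp
  have hDH : D = Vᴴ * H * V := by
    rw [hHV]
    calc D = (Vᴴ * V) * D * (Vᴴ * V) := by rw [hV1, Matrix.one_mul, Matrix.mul_one]
      _ = Vᴴ * (V * D * Vᴴ) * V := by simp only [Matrix.mul_assoc]
  have hkey : (1 - Complex.I • H) * g = 1 + Complex.I • H := by
    have h1 : H * g = (-Complex.I) • (g - 1) - H := by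
      rw [← hHg, Matrix.mul_add, Matrix.mul_one]
      abel
    rw [Matrix.sub_mul, Matrix.one_mul, Matrix.smul_mul, h1, smul_sub, smul_smul]
    have h2 : Complex.I * -Complex.I = 1 := by
      rw [mul_neg, Complex.I_mul_I, neg_neg]
    rw [h2, one_smul]
    abel
  set g' : Matrix n n ℂ := Vᴴ * g * V with hg'
  have hgg' : g = V * g' * Vᴴ := by
    rw [hg']
    calc g = (V * Vᴴ) * g * (V * Vᴴ) := by rw [hV2, Matrix.one_mul, Matrix.mul_one]
      _ = V * (Vᴴ * g * V) * Vᴴ := by simp only [Matrix.mul_assoc]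
  have hkey' : (1 - Complex.I • D) * g' = 1 + Complex.I • D := by
    have h1 : 1 - Complex.I • D = Vᴴ * (1 - Complex.I • H) * V := by
      rw [Matrix.mul_sub, Matrix.sub_mul, Matrix.mul_one, hV1, Matrix.mul_smul, Matrix.smul_mul, hDH]
    have h2 : 1 + Complex.I • D = Vᴴ * (1 + Complex.I • H) * V := by
      rw [Matrix.mul_add, Matrix.add_mul, Matrix.mul_one, hV1, Matrix.mul_smul, Matrix.smul_mul, hDH]
    rw [h1, h2, hg', ← hkey]
    calc Vᴴ * (1 - Complex.I • H) * V * (Vᴴ * g * V)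
        = Vᴴ * (1 - Complex.I • H) * (V * Vᴴ) * g * V := by simp only [Matrix.mul_assoc]
      _ = Vᴴ * ((1 - Complex.I • H) * g) * V := by
          rw [hV2, Matrix.mul_one]
          simp only [Matrix.mul_assoc]
  have hne : ∀ t : ℝ, (1 : ℂ) - Complex.I * t ≠ 0 := by
    intro t h0
    have h1 := congrArg Complex.re h0
    simp at h1
  have hentry : ∀ a b, (1 - Complex.I * (lam a : ℂ)) * g' a b =
      if a = b then 1 + Complex.I * (lam a : ℂ) else 0 := by
    intro a b
    have h1 := congrFun (congrFun hkey' a) b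
    have h2 : (1 - Complex.I • D) = diagonal fun k => (1 - Complex.I * (lam k : ℂ)) := by
      rw [hD, ← Matrix.diagonal_one, ← Matrix.diagonal_smul, Matrix.diagonal_sub]
      rfl
    rw [h2, Matrix.diagonal_mul] at h1
    rw [h1, hD, Matrix.add_apply, Matrix.one_apply, Matrix.smul_apply, Matrix.diagonal_apply]
    split_ifs with hab
    · simp
    · simp
  set ζ : n → ℂ := fun k => (1 + Complex.I * (lam k : ℂ)) / (1 - Complex.I * (lam k : ℂ)) with hζ
  have hg'd : g' = diagonal ζ := by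
    ext a b
    have h1 := hentry a b
    rw [Matrix.diagonal_apply]
    split_ifs with hab
    · rw [if_pos hab] at h1
      rw [hζ]
      rw [eq_div_iff (hne _), mul_comm]
      exact h1
    · rw [if_neg hab] at h1
      exact (mul_eq_zero.1 h1).resolve_left (hne _)
  have hnorm : ∀ k, ‖ζ k‖ = 1 := by
    intro k
    have h1 : (1 : ℂ) + Complex.I * (lam k : ℂ) = (starRingEnd ℂ) (1 - Complex.I * (lam k : ℂ)) := by
      simp
    rw [hζ]
    simp only
    rw [norm_div, h1, Complex.norm_conj, div_self]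
    rw [norm_ne_zero_iff]
    exact hne _
  have htr' : (g.trace) = ∑ k, ζ k := by
    rw [hgg', hg'd, Matrix.trace_mul_comm, ← Matrix.mul_assoc, hV1, Matrix.one_mul,
      Matrix.trace_diagonal]
  have hre' : ∀ k, (g.trace).re - ((Fintype.card n : ℝ) - 1) ≤ (ζ k).re := by
    intro k
    rw [htr', Complex.re_sum, ← Finset.add_sum_erase _ _ (Finset.mem_univ k)]
    have h1 : ∑ j ∈ Finset.univ.erase k, (ζ j).re ≤ ∑ j ∈ Finset.univ.erase k, (1 : ℝ) :=
      Finset.sum_le_sum fun j _ => (Complex.re_le_norm _).trans (hnorm j).le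
    rw [Finset.sum_const, Finset.card_erase_of_mem (Finset.mem_univ k), Finset.card_univ,
      nsmul_eq_mul, mul_one] at h1
    have h2 : 1 ≤ Fintype.card n := Fintype.card_pos_iff.2 ⟨k⟩
    rw [Nat.cast_sub h2] at h1
    push_cast at h1
    linarith
  have hre : ∀ k, 0 < (ζ k).re := fun k => lt_of_lt_of_le (by linarith) (hre' k)
  refine ⟨V, hV1, hV2, fun k => Complex.arg (ζ k), fun k => ?_, ?_, fun k => ?_⟩
  · exact Complex.abs_arg_lt_pi_div_two_iff.2 (Or.inl (hre k))
  · have h1 : (fun k => Complex.exp (((Complex.arg (ζ k) : ℝ) : ℂ) * Complex.I)) = ζ := by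
      funext k
      have h2 := Complex.norm_mul_exp_arg_mul_I (ζ k)
      rw [hnorm k] at h2
      simpa using h2
    rw [h1, ← hg'd]
    exact hgg'
  · have hne0 : ζ k ≠ 0 := by
      intro h0
      have h1 := hnorm k
      rw [h0, norm_zero] at h1
      exact zero_ne_one h1
    rw [Complex.cos_arg hne0, hnorm k, div_one]
    exact hre' k

/-- commutation after a change of basis -/
theorem comm_conj {α : Type} [Fintype α] [DecidableEq α] (P Q A X : Matrix α α ℂ)
    (h1 : Q * P = 1) (h2 : P * Q = 1) :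
    A * (P * X * Q) = (P * X * Q) * A ↔ (Q * A * P) * X = X * (Q * A * P) := by
  constructor
  · intro h
    calc (Q * A * P) * X = (Q * A * P) * X * (Q * P) := by rw [h1, Matrix.mul_one]
      _ = Q * (A * (P * X * Q)) * P := by simp only [Matrix.mul_assoc]
      _ = Q * ((P * X * Q) * A) * P := by rw [h]
      _ = (Q * P) * X * (Q * A * P) := by simp only [Matrix.mul_assoc]
      _ = X * (Q * A * P) := by rw [h1, Matrix.one_mul]
  · intro h
    calc A * (P * X * Q) = (P * Q) * A * (P * X * Q) := by rw [h2, Matrix.one_mul]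
      _ = P * ((Q * A * P) * X) * Q := by simp only [Matrix.mul_assoc]
      _ = P * (X * (Q * A * P)) * Q := by rw [h]
      _ = (P * X * Q) * A * (P * Q) := by simp only [Matrix.mul_assoc]
      _ = (P * X * Q) * A := by rw [h2, Matrix.mul_one]

theorem comm_diag {α : Type} [Fintype α] [DecidableEq α] (A : Matrix α α ℂ) (d : α → ℂ) :
    A * diagonal d = diagonal d * A ↔ ∀ a b, A a b ≠ 0 → d a = d b := by
  constructor
  · intro h a b hab
    have h1 := congrFun (congrFun h a) b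
    rw [Matrix.mul_diagonal, Matrix.diagonal_mul, mul_comm (A a b)] at h1
    exact (mul_right_cancel₀ hab h1).symm
  · intro h
    ext a b
    rw [Matrix.mul_diagonal, Matrix.diagonal_mul, mul_comm (A a b)]
    by_cases hab : A a b = 0
    · rw [hab, mul_zero, mul_zero]
    · rw [h a b hab]

/-- **The logarithm.** -/
theorem log_lemma (g : Matrix n n ℂ) (hg : g ∈ Matrix.unitaryGroup n ℂ)
    (htr : (Fintype.card n : ℝ) - 1 < (g.trace).re) :
    ∃ x : Matrix n n ℂ, xᴴ = -x ∧
      (∀ A : Op n 2, A * tpow g 2 = tpow g 2 * A → A * dpow x 2 = dpow x 2 * A) ∧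
      ∀ m, ∀ A : Op n m, A * dpow x m = dpow x m * A → A * tpow g m = tpow g m * A := by
  obtain ⟨V, hV1, hV2, θ, hθ, hgV, -⟩ := spec g hg htr
  have ht1 : ∀ m, tpow Vᴴ m * tpow V m = 1 := fun m => by rw [tpow_mul, hV1, tpow_one']
  have ht2 : ∀ m, tpow V m * tpow Vᴴ m = 1 := fun m => by rw [tpow_mul, hV2, tpow_one']
  have htg : ∀ m, tpow g m = tpow V m * diagonal (fun I : Fin m → n =>
      Complex.exp (((∑ i, θ (I i) : ℝ) : ℂ) * Complex.I)) * tpow Vᴴ m := by
    intro m
    rw [hgV, ← tpow_mul, ← tpow_mul, tpow_diag]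
    congr 3
    funext I
    rw [← Complex.exp_sum]
    congr 1
    push_cast
    rw [Finset.sum_mul]
  have htx : ∀ m, dpow (V * diagonal (fun k => (θ k : ℂ) * Complex.I) * Vᴴ) m =
      tpow V m * diagonal (fun I : Fin m → n => ((∑ i, θ (I i) : ℝ) : ℂ) * Complex.I) *
        tpow Vᴴ m := by
    intro m
    rw [← tpow_dpow _ _ _ hV2, dpow_diag]
    congr 3
    funext I
    push_cast
    rw [Finset.sum_mul]
  refine ⟨V * diagonal (fun k => (θ k : ℂ) * Complex.I) * Vᴴ, ?_, ?_, ?_⟩
  · rw [Matrix.conjTranspose_mul, Matrix.conjTranspose_mul, Matrix.conjTranspose_conjTranspose,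
      Matrix.diagonal_conjTranspose, ← Matrix.mul_assoc]
    have h1 : diagonal (star (fun k => (θ k : ℂ) * Complex.I)) =
        -diagonal (fun k => (θ k : ℂ) * Complex.I) := by
      ext a b
      rw [Matrix.neg_apply, Matrix.diagonal_apply, Matrix.diagonal_apply]
      split_ifs
      · simp
      · simp
    rw [h1, Matrix.mul_neg, Matrix.neg_mul]
  · intro A hA
    rw [htg, comm_conj _ _ _ _ (ht1 2) (ht2 2), comm_diag] at hA
    rw [htx, comm_conj _ _ _ _ (ht1 2) (ht2 2), comm_diag]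
    intro I J hIJ
    have h1 := hA I J hIJ
    have hb : ∀ I : Fin 2 → n, |∑ i, θ (I i)| < Real.pi := by
      intro I
      rw [Fin.sum_univ_two]
      calc |θ (I 0) + θ (I 1)| ≤ |θ (I 0)| + |θ (I 1)| := abs_add_le _ _
        _ < Real.pi := by linarith [hθ (I 0), hθ (I 1)]
    have h2 := Complex.exp_inj_of_neg_pi_lt_of_le_pi (x := ((∑ i, θ (I i) : ℝ) : ℂ) * Complex.I)
      (y := ((∑ i, θ (J i) : ℝ) : ℂ) * Complex.I) (by
        have := (abs_lt.1 (hb I)).1
        simpa using this) (by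
        have := (abs_lt.1 (hb I)).2.le
        simpa using this) (by
        have := (abs_lt.1 (hb J)).1
        simpa using this) (by
        have := (abs_lt.1 (hb J)).2.le
        simpa using this) h1
    exact h2
  · intro m A hA
    rw [htx, comm_conj _ _ _ _ (ht1 m) (ht2 m), comm_diag] at hA
    rw [htg, comm_conj _ _ _ _ (ht1 m) (ht2 m), comm_diag]
    intro I J hIJ
    rw [hA I J hIJ]

theorem theta_lt {m₀ : ℕ} (hm : 2 ≤ m₀) {θ : ℝ} (hθ : |θ| < Real.pi / 2)
    (hc : 1 - 2 / (m₀ : ℝ) ^ 2 < Real.cos θ) : |θ| < Real.pi / m₀ := by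
  have hm' : (2 : ℝ) ≤ m₀ := by exact_mod_cast hm
  have h1 : 2 / Real.pi * (|θ| / 2) ≤ Real.sin (|θ| / 2) :=
    Real.mul_le_sin (by positivity) (by linarith [Real.pi_pos])
  have h2 : Real.cos θ = 1 - 2 * Real.sin (|θ| / 2) ^ 2 := by
    have h3 := Real.cos_sq' (|θ| / 2)
    have h4 := Real.cos_two_mul (|θ| / 2)
    rw [mul_div_cancel₀ _ (two_ne_zero), Real.cos_abs] at h4
    rw [h4, h3]
    ring
  rw [h2] at hc
  have h5 : (2 / Real.pi * (|θ| / 2)) ^ 2 ≤ Real.sin (|θ| / 2) ^ 2 :=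
    pow_le_pow_left₀ (by positivity) h1 2
  have h6 : (|θ| / Real.pi) ^ 2 < (1 / (m₀ : ℝ)) ^ 2 := by
    have h7 : (2 / Real.pi * (|θ| / 2)) = |θ| / Real.pi := by
      field_simp
    rw [h7] at h5
    have h8 : (1 / (m₀ : ℝ)) ^ 2 = 1 / (m₀ : ℝ) ^ 2 := by rw [_root_.one_div_pow]
    have h9 : 2 / (m₀ : ℝ) ^ 2 = 2 * (1 / (m₀ : ℝ) ^ 2) := by ring
    rw [h8]
    linarith
  have h7 := (pow_lt_pow_iff_left₀ (by positivity) (by positivity) two_ne_zero).1 h6
  rw [div_lt_iff₀ Real.pi_pos] at h7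
  calc |θ| < 1 / (m₀ : ℝ) * Real.pi := h7
    _ = Real.pi / m₀ := by ring

/-- **The logarithm**, for operators of any degree. -/
theorem log_lemma2 (m₀ : ℕ) (hm₀ : 2 ≤ m₀) (g : Matrix n n ℂ) (hg : g ∈ Matrix.unitaryGroup n ℂ)
    (htr : (Fintype.card n : ℝ) - 2 / (m₀ : ℝ) ^ 2 < (g.trace).re) :
    ∃ x : Matrix n n ℂ, xᴴ = -x ∧
      (∀ A : Op n m₀, A * tpow g m₀ = tpow g m₀ * A → A * dpow x m₀ = dpow x m₀ * A) ∧
      ∀ m, ∀ A : Op n m, A * dpow x m = dpow x m * A → A * tpow g m = tpow g m * A := by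
  have hm' : (2 : ℝ) ≤ m₀ := by exact_mod_cast hm₀
  have hle1 : 2 / (m₀ : ℝ) ^ 2 ≤ 1 := by
    rw [div_le_one (by positivity)]
    nlinarith
  obtain ⟨V, hV1, hV2, θ, hθ0, hgV, hcos⟩ := spec g hg (by linarith)
  have hθ : ∀ k, |θ k| < Real.pi / m₀ := fun k => theta_lt hm₀ (hθ0 k) (by
    have := hcos k
    linarith)
  have ht1 : ∀ m, tpow Vᴴ m * tpow V m = 1 := fun m => by rw [tpow_mul, hV1, tpow_one']
  have ht2 : ∀ m, tpow V m * tpow Vᴴ m = 1 := fun m => by rw [tpow_mul, hV2, tpow_one']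
  have htg : ∀ m, tpow g m = tpow V m * diagonal (fun I : Fin m → n =>
      Complex.exp (((∑ i, θ (I i) : ℝ) : ℂ) * Complex.I)) * tpow Vᴴ m := by
    intro m
    rw [hgV, ← tpow_mul, ← tpow_mul, tpow_diag]
    congr 3
    funext I
    rw [← Complex.exp_sum]
    congr 1
    push_cast
    rw [Finset.sum_mul]
  have htx : ∀ m, dpow (V * diagonal (fun k => (θ k : ℂ) * Complex.I) * Vᴴ) m =
      tpow V m * diagonal (fun I : Fin m → n => ((∑ i, θ (I i) : ℝ) : ℂ) * Complex.I) *
        tpow Vᴴ m := by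
    intro m
    rw [← tpow_dpow _ _ _ hV2, dpow_diag]
    congr 3
    funext I
    push_cast
    rw [Finset.sum_mul]
  refine ⟨V * diagonal (fun k => (θ k : ℂ) * Complex.I) * Vᴴ, ?_, ?_, ?_⟩
  · rw [Matrix.conjTranspose_mul, Matrix.conjTranspose_mul, Matrix.conjTranspose_conjTranspose,
      Matrix.diagonal_conjTranspose, ← Matrix.mul_assoc]
    have h1 : diagonal (star (fun k => (θ k : ℂ) * Complex.I)) =
        -diagonal (fun k => (θ k : ℂ) * Complex.I) := by
      ext a b
      rw [Matrix.neg_apply, Matrix.diagonal_apply, Matrix.diagonal_apply]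
      split_ifs
      · simp
      · simp
    rw [h1, Matrix.mul_neg, Matrix.neg_mul]
  · intro A hA
    rw [htg, comm_conj _ _ _ _ (ht1 m₀) (ht2 m₀), comm_diag] at hA
    rw [htx, comm_conj _ _ _ _ (ht1 m₀) (ht2 m₀), comm_diag]
    intro I J hIJ
    have h1 := hA I J hIJ
    have hb : ∀ I : Fin m₀ → n, |∑ i, θ (I i)| < Real.pi := by
      intro I
      have hne : (Finset.univ : Finset (Fin m₀)).Nonempty := ⟨⟨0, by omega⟩, Finset.mem_univ _⟩
      calc |∑ i, θ (I i)| ≤ ∑ i, |θ (I i)| := Finset.abs_sum_le_sum_abs _ _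
        _ < ∑ _i : Fin m₀, Real.pi / m₀ := Finset.sum_lt_sum_of_nonempty hne fun i _ => hθ (I i)
        _ = Real.pi := by
            rw [Finset.sum_const, Finset.card_univ, Fintype.card_fin, nsmul_eq_mul]
            field_simp
    have h2 := Complex.exp_inj_of_neg_pi_lt_of_le_pi (x := ((∑ i, θ (I i) : ℝ) : ℂ) * Complex.I)
      (y := ((∑ i, θ (J i) : ℝ) : ℂ) * Complex.I) (by
        have := (abs_lt.1 (hb I)).1
        simpa using this) (by
        have := (abs_lt.1 (hb I)).2.le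
        simpa using this) (by
        have := (abs_lt.1 (hb J)).1
        simpa using this) (by
        have := (abs_lt.1 (hb J)).2.le
        simpa using this) h1
    exact h2
  · intro m A hA
    rw [htx, comm_conj _ _ _ _ (ht1 m) (ht2 m), comm_diag] at hA
    rw [htg, comm_conj _ _ _ _ (ht1 m) (ht2 m), comm_diag]
    intro I J hIJ
    rw [hA I J hIJ]

end Pool.Agent.E8helper56.TX
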