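import Pool.Agent.E8helper56.TX.Final

set_option autoImplicit false
set_option linter.unusedSectionVars false

/-!
# Systems without a part of type IV, and the index from one power
-/

open Matrix MeasureTheory

noncomputable section

namespace Pool.Agent.E8helper56.TX

open Pool.Agent.E8helper1.TX

variable {n : Type} [Fintype n] [DecidableEq n] {m : ℕ}

/-! ### The operator of degree two given by a bilinear form -/

/-- the operator `v ⊗ b` of degree two, where `v` is the vector with the matrix `C` and `b` the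
covector with the matrix `B` -/
def bOp (C B : Matrix n n ℂ) : Op n 2 := fun I J => C (I 0) (I 1) * B (J 0) (J 1)

theorem bOp_left (C B z : Matrix n n ℂ) (I J : Fin 2 → n) :
    (dpow z 2 * bOp C B) I J = (z * C + C * zᵀ) (I 0) (I 1) * B (J 0) (J 1) := by
  rw [Matrix.mul_apply, sum_two]
  simp only [dpow_two_l, bOp, Matrix.cons_val_zero, Matrix.cons_val_one, add_mul,
    Finset.sum_add_distrib, Matrix.add_apply]
  congr 1
  · rw [Matrix.mul_apply, Finset.sum_mul]
    refine Finset.sum_congr rfl fun p _ => ?_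
    rw [Finset.sum_eq_single (I 1), if_pos rfl, mul_assoc]
    · intro q _ hq
      rw [if_neg fun h => hq h.symm, zero_mul]
    · intro h
      exact absurd (Finset.mem_univ _) h
  · rw [Matrix.mul_apply, Finset.sum_mul, Finset.sum_comm]
    refine Finset.sum_congr rfl fun q _ => ?_
    rw [Finset.sum_eq_single (I 0), if_pos rfl, Matrix.transpose_apply]
    · ring
    · intro p _ hp
      rw [if_neg fun h => hp h.symm, zero_mul]
    · intro h
      exact absurd (Finset.mem_univ _) h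

theorem bOp_right (C B z : Matrix n n ℂ) (I J : Fin 2 → n) :
    (bOp C B * dpow z 2) I J = C (I 0) (I 1) * (zᵀ * B + B * z) (J 0) (J 1) := by
  rw [Matrix.mul_apply, sum_two]
  simp only [dpow_two_r, bOp, Matrix.cons_val_zero, Matrix.cons_val_one, mul_add,
    Finset.sum_add_distrib, Matrix.add_apply]
  congr 1
  · rw [Matrix.mul_apply, Finset.mul_sum]
    refine Finset.sum_congr rfl fun p _ => ?_
    rw [Finset.sum_eq_single (J 1), if_pos rfl, Matrix.transpose_apply]
    · ring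
    · intro q _ hq
      rw [if_neg hq, mul_zero]
    · intro h
      exact absurd (Finset.mem_univ _) h
  · rw [Matrix.mul_apply, Finset.mul_sum, Finset.sum_comm]
    refine Finset.sum_congr rfl fun q _ => ?_
    rw [Finset.sum_eq_single (J 0), if_pos rfl, mul_assoc]
    · intro p _ hp
      rw [if_neg hp, mul_zero]
    · intro h
      exact absurd (Finset.mem_univ _) h

/-- skew matrices commute with the operator of the form -/
theorem bOp_comm {C B z : Matrix n n ℂ} (h1 : C * B = 1) (h2 : B * C = 1)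
    (hz : zᵀ * B = -(B * z)) : bOp C B * dpow z 2 = dpow z 2 * bOp C B := by
  have h3 : z * C + C * zᵀ = 0 := by
    have h4 : C * (zᵀ * B) * C = C * -(B * z) * C := by rw [hz]
    have h5 : C * (zᵀ * B) * C = C * zᵀ := by
      rw [Matrix.mul_assoc, Matrix.mul_assoc, h2, Matrix.mul_one]
    have h6 : C * -(B * z) * C = -(z * C) := by
      rw [Matrix.mul_neg, ← Matrix.mul_assoc, h1, Matrix.one_mul, Matrix.neg_mul]
    rw [h5, h6] at h4
    rw [h4]
    abel
  have h4 : zᵀ * B + B * z = 0 := by rw [hz]; abel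
  ext I J
  rw [bOp_left, bOp_right, h3, h4]
  simp

/-- matrices which commute with the operator of the form are skew up to a scalar -/
theorem skew_of_comm [Nonempty n] {C B z : Matrix n n ℂ} (h1 : C * B = 1)
    (hz : bOp C B * dpow z 2 = dpow z 2 * bOp C B) : ∃ c : ℂ, (z - c • 1)ᵀ * B = -(B * (z - c • 1)) := by
  have hC : C ≠ 0 := by
    rintro rfl
    rw [Matrix.zero_mul] at h1
    exact zero_ne_one h1
  obtain ⟨i, j, hij⟩ : ∃ i j, C i j ≠ 0 := by
    by_contra h
    push Not at h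
    exact hC (by ext i j; exact h i j)
  refine ⟨(z * C + C * zᵀ) i j / C i j / 2, ?_⟩
  set c := (z * C + C * zᵀ) i j / C i j with hc
  have h2 : zᵀ * B + B * z = c • B := by
    ext k l
    have h3 := congrFun (congrFun hz ![i, j]) ![k, l]
    rw [bOp_left, bOp_right] at h3
    simp only [Matrix.cons_val_zero, Matrix.cons_val_one] at h3
    rw [Matrix.smul_apply, smul_eq_mul, hc, div_mul_eq_mul_div, eq_div_iff hij, ← h3, mul_comm]
  rw [Matrix.transpose_sub, Matrix.transpose_smul, Matrix.transpose_one, Matrix.sub_mul,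
    Matrix.mul_sub, Matrix.smul_mul, Matrix.mul_smul, Matrix.one_mul, Matrix.mul_one]
  have h3 : zᵀ * B = c • B - B * z := by rw [← h2]; abel
  rw [h3]
  have h4 : c • B = (c / 2) • B + (c / 2) • B := by rw [← add_smul, add_halves]
  rw [h4]
  abel

theorem dpow_scalar (c : ℂ) (k : ℕ) : dpow (c • (1 : Matrix n n ℂ)) k = (k * c : ℂ) • 1 := by
  have h2 : (1 : Matrix n n ℂ) = diagonal (fun _ => 1) := Matrix.diagonal_one.symm
  rw [dpow_smul, h2, dpow_diag]
  ext I J
  by_cases hIJ : I = J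
  · subst hIJ
    rw [Matrix.smul_apply, Matrix.diagonal_apply_eq, Matrix.smul_apply, Matrix.one_apply_eq,
      Finset.sum_const, Finset.card_univ, Fintype.card_fin, nsmul_eq_mul, smul_eq_mul, smul_eq_mul]
    ring
  · rw [Matrix.smul_apply, Matrix.diagonal_apply_ne _ hIJ, Matrix.smul_apply,
      Matrix.one_apply_ne hIJ, smul_zero, smul_zero]

theorem kills_scalar (T : ∀ m, Submodule ℂ (Op n m)) (c : ℂ) : Kills T (c • 1) := by
  intro m A _
  rw [dpow_scalar, Matrix.mul_smul, Matrix.smul_mul, Matrix.mul_one, Matrix.one_mul]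

/-- matrices as operators of degree one -/
def o1 (z : Matrix n n ℂ) : Op n 1 := fun I J => z (I 0) (J 0)

theorem dpow_one' (z : Matrix n n ℂ) : dpow z 1 = o1 z := by
  ext I J
  simp only [dpow, Finset.univ_unique, Fin.default_eq_zero, Finset.sum_singleton, o1]
  rw [if_pos]
  intro j hj
  exact absurd (Subsingleton.elim j 0) hj

theorem o1_mul (z w : Matrix n n ℂ) : o1 z * o1 w = o1 (z * w) := by
  ext I J
  simp only [Matrix.mul_apply, o1]
  exact Fintype.sum_equiv (Equiv.funUnique (Fin 1) n) _ _ fun K => rfl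

theorem o1_inj {z w : Matrix n n ℂ} (h : o1 z = o1 w) : z = w := by
  ext i j
  exact congrFun (congrFun h fun _ => i) fun _ => j

theorem o1_comm (A z : Matrix n n ℂ) : o1 A * dpow z 1 = dpow z 1 * o1 A ↔ A * z = z * A := by
  rw [dpow_one', o1_mul, o1_mul]
  exact ⟨o1_inj, fun h => by rw [h]⟩

/-- **No part of type IV**: what commutes with the operators of degree two commutes with all. -/
theorem kills_noIV [Nonempty n] (L0 : Set (Matrix n n ℂ))
    (hstar : ∀ m, ∀ A ∈ TL L0 m, Aᴴ ∈ TL L0 m) (B : Matrix n n ℂ) (hB : IsUnit B.det)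
    (hBx : ∀ x ∈ L0, xᵀ * B = -(B * x))
    (hno : ∀ z : Matrix n n ℂ, (∀ x ∈ L0, z * x = x * z) →
      (∀ a, (∀ x ∈ L0, a * x = x * a) → z * a = a * z) → zᵀ * B = -(B * z) → z = 0)
    (x : Matrix n n ℂ) (hx : xᴴ = -x) (hx2 : ∀ A ∈ TL L0 2, A * dpow x 2 = dpow x 2 * A) :
    Kills (TL L0) x := by
  have h1 : B⁻¹ * B = 1 := Matrix.nonsing_inv_mul _ hB
  have h2 : B * B⁻¹ = 1 := Matrix.mul_nonsing_inv _ hB
  have hβ : bOp B⁻¹ B ∈ TL L0 2 := fun z hz => bOp_comm h1 h2 (hBx z hz)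
  have hL0A : ∀ x ∈ L0, x ∈ Ann (TL L0) := fun x hx k A hA => hA x hx
  obtain ⟨y, c, hxy, hy, hc, hcA, hcc⟩ := lie_lemma (TL L0) hstar
    (fun A hA x hx => hA x (hL0A x hx)) x hx hx2
  obtain ⟨a, ha⟩ := skew_of_comm h1 (hx2 _ hβ)
  obtain ⟨b, hb⟩ := skew_of_comm h1 (hy 2 _ hβ)
  have hone : ∀ A : Matrix n n ℂ, (∀ x ∈ L0, A * x = x * A) → x * A = A * x ∧ y * A = A * y := by
    intro A hA
    have hA1m : o1 A ∈ TL L0 1 := fun z hz => (o1_comm A z).2 (hA z hz)
    refine ⟨((o1_comm A x).1 ?_).symm, ((o1_comm A y).1 (hy 1 _ hA1m)).symm⟩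
    exact comm_down (j := 1) (hx2 _ (tens_mem_TL (j := 1) hA1m))
  have hceq : c = x - y := by rw [hxy]; abel
  have hzero : c - (a - b) • 1 = 0 := by
    refine hno _ (fun z hz => ?_) (fun A hA => ?_) ?_
    · rw [Matrix.sub_mul, Matrix.mul_sub, hcc z (hL0A z hz), Matrix.smul_mul, Matrix.mul_smul,
        Matrix.one_mul, Matrix.mul_one]
    · obtain ⟨h3, h4⟩ := hone A hA
      rw [hceq, Matrix.sub_mul, Matrix.mul_sub, Matrix.sub_mul, Matrix.mul_sub, h3, h4,
        Matrix.smul_mul, Matrix.mul_smul, Matrix.one_mul, Matrix.mul_one]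
    · have h3 : c - (a - b) • 1 = (x - a • 1) - (y - b • 1) := by
        rw [hceq, sub_smul]
        abel
      rw [h3, Matrix.transpose_sub, Matrix.sub_mul, ha, hb, Matrix.mul_sub B (x - a • 1)]
      abel
  rw [hxy, sub_eq_zero.1 hzero]
  exact (Ann (TL L0)).add_mem hy (kills_scalar _ _)

/-- **The index of a system without type IV**: one power gives a bounded index. -/
theorem uni6 [Nonempty n] (S : TSys n) (L0 : Set (Matrix n n ℂ)) (hS : ∀ x ∈ L0, Kills S.S x)
    (hstar : ∀ m, ∀ A ∈ TL L0 m, Aᴴ ∈ TL L0 m) (B : Matrix n n ℂ) (hB : IsUnit B.det)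
    (hBx : ∀ x ∈ L0, xᵀ * B = -(B * x))
    (hno : ∀ z : Matrix n n ℂ, (∀ x ∈ L0, z * x = x * z) →
      (∀ a, (∀ x ∈ L0, a * x = x * a) → z * a = a * z) → zᵀ * B = -(B * z) → z = 0)
    (h2 : TL L0 2 ≤ S.S 2) :
    (∀ m, Module.finrank ℂ (TL L0 m) ≤
      (2 * Fintype.card n + 1) ^ (2 * Fintype.card n ^ 2) * Module.finrank ℂ (S.S m)) ∧
    ∀ m : ℕ, 2 * (Fintype.card n : ℝ) ^ 3 * Real.log (3 * Fintype.card n) ≤ m →
      TL L0 m ≤ S.S m → ∀ k, TL L0 k = S.S k := by
  have h : ∀ x : Matrix n n ℂ, xᴴ = -x → (∀ A ∈ S.S 2, A * dpow x 2 = dpow x 2 * A) →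
      Kills (TL L0) x := fun x hx hx2 =>
    kills_noIV L0 hstar B hB hBx hno x hx fun A hA => hx2 A (h2 hA)
  exact ⟨fun m => uni1 S (TL L0) h m, fun m hm hT k => uni2 S L0 hS h m hm hT k⟩

/-! ### The index from one power, with type IV -/

/-- the uniform bound for the dimensions of the commutants, with a parameter -/
theorem dim_le2 [Nonempty n] (m₀ : ℕ) (hm₀ : 1 ≤ m₀) (G H : Set (Matrix n n ℂ)) (hG : IsCGroup G)
    (hH : IsCGroup H) (hHG : H ⊆ G)
    (hb : ∀ g ∈ G, (Fintype.card n : ℝ) - 2 / (m₀ : ℝ) ^ 2 < (g.trace).re → g ∈ H) (m : ℕ) :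
    Module.finrank ℂ (comm H m) ≤
      (2 * Fintype.card n * m₀) ^ (2 * Fintype.card n ^ 2) * Module.finrank ℂ (comm G m) := by
  have hN : 1 ≤ Fintype.card n := Fintype.card_pos
  have hN' : (1 : ℝ) ≤ Fintype.card n := by exact_mod_cast hN
  have hm0' : (1 : ℝ) ≤ m₀ := by exact_mod_cast hm₀
  set δ : ℝ := 2 / (m₀ : ℝ) ^ 2 with hδ
  have hδ0 : 0 < δ := by rw [hδ]; positivity
  have hcomp := compact_KG G hG
  let _ : MeasurableSpace (KG G hG) := borel _
  have : BorelSpace (KG G hG) := ⟨rfl⟩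
  let μ : Measure (KG G hG) := Measure.haar
  have hμ1 : 0 < μ.real Set.univ := by
    rw [measureReal_def, ENNReal.toReal_pos_iff]
    exact ⟨isOpen_univ.measure_pos _ ⟨1, trivial⟩, measure_lt_top _ _⟩
  have hk0 : 0 < 2 * Fintype.card n * m₀ := by positivity
  have hball := ball_measure G hG μ (δ := δ) hδ0 (k := 2 * Fintype.card n * m₀) hk0 (by
    rw [div_lt_iff₀ (by positivity), hδ]
    push_cast
    have h1 : 2 * (2 / (m₀ : ℝ) ^ 2) * (2 * (Fintype.card n : ℝ) * m₀) ^ 2 =
        16 * (Fintype.card n : ℝ) ^ 2 := by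
      field_simp
      ring
    rw [h1]
    nlinarith)
  have hbs : μ.real (ball G hG δ) ≤ μ.real (sub G H hG) :=
    measureReal_mono (ball_sub_of G H hG hb) (measure_ne_top _ _)
  have hop := sub_open G H hG hH hδ0 hb
  set P : ℝ := (((2 * Fintype.card n * m₀) ^ (2 * Fintype.card n ^ 2) : ℕ) : ℝ) with hP
  have hP0 : 0 < P := by rw [hP]; positivity
  have hμs : μ.real Set.univ ≤ P * μ.real (sub G H hG) :=
    hball.trans (mul_le_mul_of_nonneg_left hbs hP0.le)
  have hμ2 : 0 < μ.real (sub G H hG) := by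
    by_contra h0
    have h1 : μ.real (sub G H hG) ≤ 0 := not_lt.1 h0
    have h2 : P * μ.real (sub G H hG) ≤ 0 := mul_nonpos_of_nonneg_of_nonpos hP0.le h1
    linarith
  have h1 := dim_G G hG μ hμ1 m
  have h2 := dim_H G H hG hH μ hHG hop.measurableSet hμ2 m
  have hle : ∫ u in sub G H hG, fm G hG m u ∂μ ≤ ∫ u, fm G hG m u ∂μ :=
    setIntegral_le_integral (fm_int G hG μ m) (Filter.Eventually.of_forall (fm_nonneg G hG m))
  have h3 : (Module.finrank ℂ (comm H m) : ℝ) ≤ P * Module.finrank ℂ (comm G m) := by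
    rw [h1, h2]
    have hI : 0 ≤ ∫ u, fm G hG m u ∂μ := integral_nonneg (fm_nonneg G hG m)
    calc (μ.real (sub G H hG))⁻¹ * ∫ u in sub G H hG, fm G hG m u ∂μ
        ≤ (μ.real (sub G H hG))⁻¹ * ∫ u, fm G hG m u ∂μ :=
          mul_le_mul_of_nonneg_left hle (inv_nonneg.2 hμ2.le)
      _ ≤ (P * (μ.real Set.univ)⁻¹) * ∫ u, fm G hG m u ∂μ := by
          refine mul_le_mul_of_nonneg_right ?_ hI
          rw [← div_eq_mul_inv, le_div_iff₀ hμ1, inv_mul_le_iff₀ hμ2, mul_comm]
          exact hμs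
      _ = _ := by ring
  rw [hP] at h3
  exact_mod_cast h3

/-- **The index from one power**, the general form. -/
theorem uni3' [Nonempty n] (m₀ : ℕ) (hm₀ : 2 ≤ m₀) (S : TSys n) (T : ∀ m, Submodule ℂ (Op n m))
    (h : ∀ x : Matrix n n ℂ, xᴴ = -x → (∀ A ∈ S.S m₀, A * dpow x m₀ = dpow x m₀ * A) → Kills T x)
    (m : ℕ) : Module.finrank ℂ (T m) ≤
      (2 * Fintype.card n * m₀) ^ (2 * Fintype.card n ^ 2) * Module.finrank ℂ (S.S m) := by
  have h1 : (1 : ℝ) ≤ Fintype.card n := by exact_mod_cast (Fintype.card_pos : 0 < Fintype.card n)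
  have hm0' : (2 : ℝ) ≤ m₀ := by exact_mod_cast hm₀
  have hδ1 : 2 / (m₀ : ℝ) ^ 2 ≤ 1 / 2 := by
    rw [div_le_iff₀ (by positivity)]
    nlinarith
  have h1 := dim_le2 m₀ (by omega) (GF S.S) (GF fun m => S.S m ⊔ T m) (isCGroup_GF _)
    (isCGroup_GF _) (fun g hg => ⟨hg.1, (fixes_sup.1 hg.2).1⟩)
    (fun g hg htr => by
      have h3 := htr.trans_le (Complex.re_le_norm _)
      exact ⟨hg.1, fixes_sup.2 ⟨hg.2, gap2 m₀ hm₀ S T h g hg h3 (by linarith)⟩⟩) m
  rw [comm_GF] at h1
  refine le_trans (Submodule.finrank_mono ?_) h1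
  intro A hA g hg
  exact (fixes_sup.1 hg.2).2 m A hA

/-- what commutes with the operators of degree `M0` commutes with all -/
theorem kills_int [Nonempty n] (w : ℕ) (hw : 1 ≤ w) (L0 : Set (Matrix n n ℂ))
    (hL0 : ∀ x ∈ L0, IsInt w x) (hstar : ∀ m, ∀ A ∈ TL L0 m, Aᴴ ∈ TL L0 m) (M0 : ℕ)
    (hM0 : M0 = (Fintype.card n).factorial * w ^ (Fintype.card n - 1)) (hM2 : 2 ≤ M0)
    (x : Matrix n n ℂ) (hx : xᴴ = -x) (hxM : ∀ A ∈ TL L0 M0, A * dpow x M0 = dpow x M0 * A) :
    Kills (TL L0) x := by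
  have hL0A : ∀ x ∈ L0, x ∈ Ann (TL L0) := fun x hx k A hA => hA x hx
  have h1A : (1 : Matrix n n ℂ) ∈ Ann (TL L0) := by
    have h := kills_scalar (TL L0) 1
    rwa [one_smul] at h
  have hxk : ∀ k ≤ M0, ∀ A ∈ TL L0 k, A * dpow x k = dpow x k * A := by
    intro k hk A hA
    obtain ⟨j, rfl⟩ := Nat.exists_eq_add_of_le hk
    exact comm_down (hxM _ (tens_mem_TL (j := j) hA))
  obtain ⟨y, c, hxy, hy, hc, hcA, hcc⟩ := lie_lemma (TL L0) hstar
    (fun A hA x hx => hA x (hL0A x hx)) x hx (hxk 2 hM2)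
  have hc0 : c = 0 := by
    refine core_c w hw L0 hL0 c hc (fun x hx => hcc x (hL0A x hx)) (fun x hx => ?_) ?_ ?_
    · have h1 := hcA _ (Ann_star hstar (hL0A x hx))
      rwa [Matrix.conjTranspose_conjTranspose] at h1
    · have h1 := hcA 1 h1A
      rwa [Matrix.conjTranspose_one, Matrix.one_mul] at h1
    · intro k hk A hA
      have h1 := hxk k (hk.trans hM0.ge) A hA
      rw [hxy, dpow_add, Matrix.mul_add, Matrix.add_mul, hy k A hA] at h1
      exact add_left_cancel h1
  rw [hxy, hc0, add_zero]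
  exact hy

/-- **The index from one power**, for Lie algebras generated by matrices with bounded integral
eigenvalues. -/
theorem uni7 [Nonempty n] (w : ℕ) (hw : 1 ≤ w) (S : TSys n) (L0 : Set (Matrix n n ℂ))
    (hL0 : ∀ x ∈ L0, IsInt w x) 
    (hstar : ∀ m, ∀ A ∈ TL L0 m, Aᴴ ∈ TL L0 m) (M0 : ℕ)
    (hM0 : M0 = (Fintype.card n).factorial * w ^ (Fintype.card n - 1))
    (hT : TL L0 M0 ≤ S.S M0) (m : ℕ) : Module.finrank ℂ (TL L0 m) ≤
      (2 * Fintype.card n * M0) ^ (2 * Fintype.card n ^ 2) * Module.finrank ℂ (S.S m) := by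
  have hone : ∀ m, (1 : Op n m) ∈ S.S m := by
    intro m
    have h1 := S.perm_mem (m := m) 1
    have h2 : perm (n := n) (1 : Equiv.Perm (Fin m)) = 1 := by
      ext I J
      rw [perm, Matrix.one_apply]
      rfl
    rwa [h2] at h1
  rcases Nat.lt_or_ge (Fintype.card n) 2 with hN | hN
  · -- dimension one
    have hsub : Subsingleton n := Fintype.card_le_one_iff_subsingleton.1 (by omega)
    have hle : TL L0 m ≤ S.S m := by
      intro A _
      have h1 : A = A (fun _ => Classical.arbitrary n) (fun _ => Classical.arbitrary n) •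
          (1 : Op n m) := by
        ext I J
        have hI : I = fun _ => Classical.arbitrary n := Subsingleton.elim _ _
        have hJ : J = fun _ => Classical.arbitrary n := Subsingleton.elim _ _
        rw [hI, hJ, Matrix.smul_apply, Matrix.one_apply_eq, smul_eq_mul, mul_one]
      rw [h1]
      exact (S.S m).smul_mem _ (hone m)
    have hN0 : 0 < Fintype.card n := Fintype.card_pos
    have hM : 0 < M0 := by
      rw [hM0]
      positivity
    refine (Submodule.finrank_mono hle).trans (Nat.le_mul_of_pos_left _ ?_)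
    positivity
  have hM2 : 2 ≤ M0 := by
    rw [hM0]
    have h1 : 2 ≤ (Fintype.card n).factorial :=
      (by decide : 2 ≤ Nat.factorial 2).trans (Nat.factorial_le hN)
    have h2 : 1 ≤ w ^ (Fintype.card n - 1) := Nat.one_le_pow _ _ hw
    nlinarith
  exact uni3' M0 hM2 S (TL L0) (fun x hx hxM => kills_int w hw L0 hL0 hstar M0 hM0 hM2 x hx
    fun A hA => hxM A (hT hA)) m

end Pool.Agent.E8helper56.TX
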