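import Mathlib

/-!
# Schur-Weyl duality for the unitary group, in matrix form

Operators on `V^{⊗ M}`, `V = ℂ^n`, are matrices indexed by `M → n`.
-/

set_option autoImplicit false
set_option linter.unusedSectionVars false

open Matrix

noncomputable section

namespace Pool.Agent.E8helper56.TX

section tp

variable {M n : Type*} [Fintype M] [DecidableEq M] [Fintype n] [DecidableEq n]
variable {R : Type*} [CommRing R]

/-- the tensor power of an operator -/
def tp (M : Type*) [Fintype M] {n : Type*} {R : Type*} [CommRing R] (T : Matrix n n R) :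
    Matrix (M → n) (M → n) R :=
  fun a b => ∏ i, T (a i) (b i)

/-- the permutation operators -/
def pm {M : Type*} [Fintype M] (n : Type*) [DecidableEq n] (R : Type*) [CommRing R]
    (σ : Equiv.Perm M) :
    Matrix (M → n) (M → n) R :=
  fun a b => if a ∘ σ = b then 1 else 0

theorem tp_apply (T : Matrix n n R) (a b : M → n) : tp M T a b = ∏ i, T (a i) (b i) := rfl

theorem pm_apply (σ : Equiv.Perm M) (a b : M → n) :
    pm n R σ a b = if a ∘ σ = b then 1 else 0 := rfl

theorem tp_mul (A B : Matrix n n R) : tp M (A * B) = tp M A * tp M B := by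
  ext a b
  simp only [tp_apply, Matrix.mul_apply]
  rw [Finset.prod_univ_sum, Fintype.piFinset_univ]
  exact Finset.sum_congr rfl fun c _ => Finset.prod_mul_distrib

theorem tp_one : tp M (1 : Matrix n n R) = 1 := by
  ext a b
  rw [tp_apply, Matrix.one_apply]
  by_cases h : a = b
  · rw [if_pos h, h]
    exact Finset.prod_eq_one fun i _ => Matrix.one_apply_eq _
  · rw [if_neg h]
    obtain ⟨i, hi⟩ := Function.ne_iff.1 h
    exact Finset.prod_eq_zero (Finset.mem_univ i) (Matrix.one_apply_ne hi)

theorem tp_smul (c : R) (A : Matrix n n R) : tp M (c • A) = c ^ Fintype.card M • tp M A := by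
  ext a b
  simp only [tp_apply, Matrix.smul_apply, smul_eq_mul]
  rw [Finset.prod_mul_distrib, Finset.prod_const, Finset.card_univ]

theorem tp_map {S : Type*} [CommRing S] (f : R →+* S) (A : Matrix n n R) :
    tp M (A.map f) = (tp M A).map f := by
  ext a b
  simp only [tp_apply, Matrix.map_apply, map_prod]

theorem tp_conjTranspose [StarRing R] (A : Matrix n n R) : tp M Aᴴ = (tp M A)ᴴ := by
  ext a b
  simp only [tp_apply, Matrix.conjTranspose_apply, star_prod]

theorem pm_mul_apply (σ : Equiv.Perm M) (X : Matrix (M → n) (M → n) R) (a c : M → n) :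
    (pm n R σ * X) a c = X (a ∘ σ) c := by
  rw [Matrix.mul_apply]
  simp only [pm_apply, ite_mul, one_mul, zero_mul]
  rw [Finset.sum_ite_eq]
  simp

theorem mul_pm_apply (σ : Equiv.Perm M) (X : Matrix (M → n) (M → n) R) (a c : M → n) :
    (X * pm n R σ) a c = X a (c ∘ σ.symm) := by
  rw [Matrix.mul_apply]
  have h : ∀ b : M → n, (b ∘ σ = c) ↔ (b = c ∘ σ.symm) := by
    intro b
    constructor
    · rintro rfl
      ext i
      simp
    · rintro rfl
      ext i
      simp
  simp only [pm_apply, mul_ite, mul_one, mul_zero, h]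
  rw [Finset.sum_ite_eq']
  simp

theorem pm_one : pm n R (1 : Equiv.Perm M) = 1 := by
  ext a b
  rw [pm_apply, Matrix.one_apply]
  rfl

theorem pm_mul (σ τ : Equiv.Perm M) : pm n R σ * pm n R τ = pm n R (σ * τ) := by
  ext a b
  rw [pm_mul_apply, pm_apply, pm_apply]
  rfl

theorem pm_conjTranspose [StarRing R] (σ : Equiv.Perm M) :
    (pm n R σ)ᴴ = pm n R σ⁻¹ := by
  ext a b
  rw [Matrix.conjTranspose_apply, pm_apply, pm_apply]
  have h : (b ∘ σ = a) ↔ (a ∘ (σ⁻¹ : Equiv.Perm M) = b) := by
    constructor
    · rintro rfl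
      ext i
      simp
    · rintro rfl
      ext i
      simp
  by_cases h1 : b ∘ σ = a
  · rw [if_pos h1, if_pos (h.1 h1), star_one]
  · rw [if_neg h1, if_neg (fun h2 => h1 (h.2 h2)), star_zero]

theorem tp_comp (A : Matrix n n R) (σ : Equiv.Perm M) (a b : M → n) :
    tp M A (a ∘ σ) (b ∘ σ) = tp M A a b := by
  rw [tp_apply, tp_apply]
  exact Equiv.prod_comp σ (fun i => A (a i) (b i))

end tp

section polar

variable {M ι : Type*} [Fintype M] [DecidableEq M] [Fintype ι] [DecidableEq ι]

/-- the exponent of a monomial -/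
def expo (f : M → ι) : ι →₀ ℕ := ∑ i, Finsupp.single (f i) 1

theorem expo_apply (f : M → ι) (c : ι) : expo f c = Fintype.card {i // f i = c} := by
  rw [expo, Finsupp.finsetSum_apply, Fintype.card_subtype, Finset.card_filter]
  exact Finset.sum_congr rfl fun i _ => by rw [Finsupp.single_apply]

theorem exists_perm_of_expo {f g : M → ι} (h : expo f = expo g) :
    ∃ σ : Equiv.Perm M, g ∘ σ = f := by
  have h1 : ∀ c, Nonempty ({i // f i = c} ≃ {i // g i = c}) := by
    intro c
    rw [← Fintype.card_eq, ← expo_apply, ← expo_apply, h]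
  refine ⟨Equiv.ofFiberEquiv (f := f) (g := g) (fun c => (h1 c).some), ?_⟩
  ext i
  exact Equiv.ofFiberEquiv_map _ i

/-- **Polarization.** -/
theorem polar (C : (M → ι) → ℂ) (hC : ∀ t : ι → ℂ, ∑ f, C f * ∏ i, t (f i) = 0)
    (Y : (M → ι) → ℂ) (hY : ∀ (σ : Equiv.Perm M) f, Y (f ∘ σ) = Y f) :
    ∑ f, C f * Y f = 0 := by
  classical
  let P : MvPolynomial ι ℂ := ∑ f, MvPolynomial.monomial (expo f) (C f)
  have hP : P = 0 := by
    refine MvPolynomial.funext fun t => ?_
    rw [map_zero, map_sum, ← hC t]
    refine Finset.sum_congr rfl fun f _ => ?_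
    rw [MvPolynomial.eval_monomial, expo, ← Finsupp.prod_finsetSum_index]
    · congr 1
      refine Finset.prod_congr rfl fun i _ => ?_
      rw [Finsupp.prod_single_index] <;> simp
    · simp
    · intro a b1 b2
      exact pow_add _ _ _
  have hco : ∀ μ : ι →₀ ℕ, ∑ f with expo f = μ, C f = 0 := by
    intro μ
    have h1 : MvPolynomial.coeff μ P = 0 := by rw [hP, MvPolynomial.coeff_zero]
    rw [MvPolynomial.coeff_sum] at h1
    rw [Finset.sum_filter]
    refine Eq.trans (Finset.sum_congr rfl fun f _ => ?_) h1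
    rw [MvPolynomial.coeff_monomial]
  rw [← Finset.sum_fiberwise_of_maps_to (s := Finset.univ) (t := Finset.univ.image (expo (M := M) (ι := ι)))
    (g := expo) (fun f _ => Finset.mem_image_of_mem _ (Finset.mem_univ f))]
  refine Finset.sum_eq_zero fun μ hμ => ?_
  obtain ⟨f0, -, hf0⟩ := Finset.mem_image.1 hμ
  have h2 : ∀ f ∈ Finset.univ.filter (fun f : M → ι => expo f = μ), C f * Y f = C f * Y f0 := by
    intro f hf
    have h3 : expo f = expo f0 := by rw [hf0]; exact (Finset.mem_filter.1 hf).2
    obtain ⟨σ, hσ⟩ := exists_perm_of_expo h3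
    rw [← hσ, hY]
  rw [Finset.sum_congr rfl h2, ← Finset.sum_mul, hco, zero_mul]

end polar

section step2

variable {M n : Type*} [Fintype M] [DecidableEq M] [Fintype n] [DecidableEq n]

/-- An operator that commutes with all tensor powers commutes with all symmetric operators. -/
theorem comm_symm (X : Matrix (M → n) (M → n) ℂ)
    (hX : ∀ T : Matrix n n ℂ, X * tp M T = tp M T * X)
    (Y : Matrix (M → n) (M → n) ℂ) (hY : ∀ (σ : Equiv.Perm M) a b, Y (a ∘ σ) (b ∘ σ) = Y a b) :
    X * Y = Y * X := by
  ext a c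
  let e : (M → n × n) ≃ (M → n) × (M → n) := Equiv.arrowProdEquivProdArrow M (fun _ => n) (fun _ => n)
  let C : (M → n × n) → ℂ := fun f =>
    (if (fun i => (f i).2) = c then X a (fun i => (f i).1) else 0) -
      (if (fun i => (f i).1) = a then X (fun i => (f i).2) c else 0)
  have key : ∀ Z : Matrix (M → n) (M → n) ℂ,
      ∑ f, C f * Z (fun i => (f i).1) (fun i => (f i).2) = (X * Z) a c - (Z * X) a c := by
    intro Z
    have h1 : ∑ f, C f * Z (fun i => (f i).1) (fun i => (f i).2) =
        ∑ p : (M → n) × (M → n), ((if p.2 = c then X a p.1 else 0) -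
          (if p.1 = a then X p.2 c else 0)) * Z p.1 p.2 :=
      Fintype.sum_equiv e _ _ (fun f => rfl)
    rw [h1]
    simp only [sub_mul, Finset.sum_sub_distrib]
    congr 1
    · rw [Fintype.sum_prod_type]
      simp only [ite_mul, zero_mul]
      rw [Matrix.mul_apply]
      refine Finset.sum_congr rfl fun x _ => ?_
      rw [Finset.sum_ite_eq' Finset.univ c (fun y => X a x * Z x y)]
      simp
    · rw [Fintype.sum_prod_type_right]
      simp only [ite_mul, zero_mul]
      rw [Matrix.mul_apply]
      refine Finset.sum_congr rfl fun x _ => ?_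
      rw [Finset.sum_ite_eq' Finset.univ a (fun y => X x c * Z y x)]
      simp [mul_comm]
  have h2 := polar C (fun t => by
    have h3 := key (tp M (Matrix.of fun i j => t (i, j)))
    rw [hX, sub_self] at h3
    rw [← h3]
    rfl) (fun f => Y (fun i => (f i).1) (fun i => (f i).2)) 
    (fun σ f => hY σ (fun i => (f i).1) (fun i => (f i).2))
  rw [key] at h2
  exact sub_eq_zero.1 h2

end step2

end Pool.Agent.E8helper56.TX
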