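import Pool.Agent.E8helper56.TX.SW

set_option autoImplicit false
set_option linter.unusedSectionVars false

open Matrix
open scoped ComplexOrder

noncomputable section

namespace Pool.Agent.E8helper56.TX

section step1

variable {M n : Type*} [Fintype M] [DecidableEq M] [Fintype n] [DecidableEq n]

/-- the (unnormalised) Cayley transform -/
def cay {R : Type*} [CommRing R] (A : Matrix n n R) : Matrix n n R := (1 + A) * adjugate (1 - A)

theorem comm_smul_iff (X : Matrix (M → n) (M → n) ℂ) (T : Matrix n n ℂ) (c : ℂ) (hc : c ≠ 0) :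
    X * tp M (c • T) = tp M (c • T) * X ↔ X * tp M T = tp M T * X := by
  rw [tp_smul, Matrix.mul_smul, Matrix.smul_mul]
  constructor
  · intro h
    exact smul_right_injective _ (pow_ne_zero _ hc) h
  · intro h
    rw [h]

theorem det_ne (H : Matrix n n ℂ) (hH : Hᴴ = H) : (1 - Complex.I • H).det ≠ 0 := by
  have h1 : (1 - Complex.I • H)ᴴ = 1 + Complex.I • H := by
    rw [Matrix.conjTranspose_sub, Matrix.conjTranspose_one, Matrix.conjTranspose_smul, hH]
    simp
  have h2 : (1 - Complex.I • H) * (1 - Complex.I • H)ᴴ = 1 + H * Hᴴ := by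
    rw [h1, hH]
    rw [sub_mul, mul_add, mul_add]
    simp only [Matrix.one_mul, Matrix.mul_one, Matrix.smul_mul, Matrix.mul_smul, smul_smul,
      Complex.I_mul_I]
    simp only [neg_smul, one_smul]
    abel
  have h3 : (1 + H * Hᴴ).PosDef :=
    Matrix.PosDef.one.add_posSemidef (Matrix.posSemidef_self_mul_conjTranspose H)
  have h4 := h3.det_pos
  rw [← h2, Matrix.det_mul] at h4
  intro h5
  rw [h5, zero_mul] at h4
  exact lt_irrefl _ h4

theorem adj_eq (B : Matrix n n ℂ) (hB : B.det ≠ 0) : adjugate B = B.det • B⁻¹ := by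
  have hu : IsUnit B.det := isUnit_iff_ne_zero.2 hB
  calc adjugate B = adjugate B * (B * B⁻¹) := by rw [Matrix.mul_nonsing_inv _ hu, Matrix.mul_one]
    _ = (adjugate B * B) * B⁻¹ := by rw [Matrix.mul_assoc]
    _ = B.det • B⁻¹ := by rw [Matrix.adjugate_mul, Matrix.smul_mul, Matrix.one_mul]

theorem cay_herm (X : Matrix (M → n) (M → n) ℂ)
    (hX : ∀ g ∈ Matrix.unitaryGroup n ℂ, X * tp M g = tp M g * X) (H : Matrix n n ℂ)
    (hH : Hᴴ = H) :
    X * tp M (cay (Complex.I • H)) = tp M (cay (Complex.I • H)) * X := by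
  have hd := det_ne H hH
  set B := 1 - Complex.I • H with hB
  have hu : IsUnit B.det := isUnit_iff_ne_zero.2 hd
  have h1 : Bᴴ = 1 + Complex.I • H := by
    rw [hB, Matrix.conjTranspose_sub, Matrix.conjTranspose_one, Matrix.conjTranspose_smul, hH]
    simp
  have hcomm : B * Bᴴ = Bᴴ * B := by
    rw [h1, hB]
    simp only [sub_mul, add_mul, mul_add, mul_sub, Matrix.one_mul, Matrix.mul_one]
    abel
  have hg : Bᴴ * B⁻¹ ∈ Matrix.unitaryGroup n ℂ := by
    rw [Matrix.mem_unitaryGroup_iff', Matrix.star_eq_conjTranspose, Matrix.conjTranspose_mul,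
      Matrix.conjTranspose_conjTranspose, Matrix.conjTranspose_nonsing_inv]
    have hu' : IsUnit Bᴴ.det := by
      rw [Matrix.det_conjTranspose]
      exact hu.star
    calc Bᴴ⁻¹ * B * (Bᴴ * B⁻¹) = Bᴴ⁻¹ * (B * Bᴴ) * B⁻¹ := by simp only [Matrix.mul_assoc]
      _ = Bᴴ⁻¹ * (Bᴴ * B) * B⁻¹ := by rw [hcomm]
      _ = (Bᴴ⁻¹ * Bᴴ) * (B * B⁻¹) := by simp only [Matrix.mul_assoc]
      _ = 1 := by rw [Matrix.nonsing_inv_mul _ hu', Matrix.mul_nonsing_inv _ hu, Matrix.mul_one]
  have h2 : cay (Complex.I • H) = B.det • (Bᴴ * B⁻¹) := by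
    rw [cay, ← hB, ← h1, adj_eq B hd, Matrix.mul_smul]
  rw [h2, comm_smul_iff _ _ _ hd]
  exact hX _ hg

theorem cay_map {R S : Type*} [CommRing R] [CommRing S] (f : R →+* S) (A : Matrix n n R) :
    (cay A).map f = cay (A.map f) := by
  have h1 : f.mapMatrix (cay A) = cay (f.mapMatrix A) := by
    rw [cay, cay, map_mul, RingHom.map_adjugate, map_add, map_sub, map_one]
  exact h1

open Polynomial in
theorem cay_all (X : Matrix (M → n) (M → n) ℂ)
    (hX : ∀ g ∈ Matrix.unitaryGroup n ℂ, X * tp M g = tp M g * X) (A : Matrix n n ℂ) :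
    X * tp M (cay A) = tp M (cay A) * X := by
  obtain ⟨H₁, H₂, hH₁, hH₂, hA⟩ : ∃ H₁ H₂ : Matrix n n ℂ, H₁ᴴ = H₁ ∧ H₂ᴴ = H₂ ∧
      A = Complex.I • (H₁ + Complex.I • H₂) := by
    refine ⟨realPart (-Complex.I • A), imaginaryPart (-Complex.I • A), (realPart _).2,
      (imaginaryPart _).2, ?_⟩
    rw [realPart_add_I_smul_imaginaryPart, smul_smul]
    simp
  let Ap : Matrix n n ℂ[X] := (C Complex.I) • (H₁.map C + (Polynomial.X : ℂ[X]) • H₂.map C)
  let Wp : Matrix (M → n) (M → n) ℂ[X] := X.map C * tp M (cay Ap) - tp M (cay Ap) * X.map C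
  have hev : ∀ t : ℂ, Wp.map (evalRingHom t) =
      X * tp M (cay (Complex.I • (H₁ + t • H₂))) - tp M (cay (Complex.I • (H₁ + t • H₂))) * X := by
    intro t
    have h1 : Ap.map (evalRingHom t) = Complex.I • (H₁ + t • H₂) := by
      ext i j
      simp [Ap]
      ring
    have h2 : (X.map C).map (evalRingHom t) = X := by
      ext i j
      simp
    have h3 : (tp M (cay Ap)).map (evalRingHom t) = tp M (cay (Complex.I • (H₁ + t • H₂))) := by
      rw [← tp_map, cay_map, h1]
    have h4 : (evalRingHom t).mapMatrix Wp =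
        (evalRingHom t).mapMatrix (X.map C) * (evalRingHom t).mapMatrix (tp M (cay Ap)) -
        (evalRingHom t).mapMatrix (tp M (cay Ap)) * (evalRingHom t).mapMatrix (X.map C) := by
      rw [← map_mul, ← map_mul, ← map_sub]
    simp only [RingHom.mapMatrix_apply] at h4
    rw [h4, h2, h3]
  have hreal : ∀ t : ℝ, Wp.map (evalRingHom (t : ℂ)) = 0 := by
    intro t
    rw [hev, cay_herm X hX, sub_self]
    rw [Matrix.conjTranspose_add, Matrix.conjTranspose_smul, hH₁, hH₂]
    simp
  have hzero : Wp = 0 := by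
    ext1 i j
    refine Polynomial.eq_zero_of_infinite_isRoot _ ?_
    refine Set.Infinite.mono (s := Set.range (fun t : ℝ => (t : ℂ))) ?_
      (Set.infinite_range_of_injective Complex.ofReal_injective)
    rintro _ ⟨t, rfl⟩
    have h5 := congrFun (congrFun (hreal t) i) j
    exact h5
  have h6 := hev Complex.I
  rw [hzero, ← hA] at h6
  have h7 : (0 : Matrix (M → n) (M → n) ℂ[X]).map (evalRingHom Complex.I) = 0 := by
    ext i j
    simp
  rw [h7] at h6
  exact (sub_eq_zero.1 h6.symm)

theorem comm_all (X : Matrix (M → n) (M → n) ℂ)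
    (hX : ∀ g ∈ Matrix.unitaryGroup n ℂ, X * tp M g = tp M g * X) (T : Matrix n n ℂ) :
    X * tp M T = tp M T * X := by
  -- first: `det (1 + T) ≠ 0`
  have h1 : ∀ T : Matrix n n ℂ, (1 + T).det ≠ 0 → X * tp M T = tp M T * X := by
    intro T hT
    have hu : IsUnit (1 + T).det := isUnit_iff_ne_zero.2 hT
    set B := 1 + T with hB
    have hTB : T = B - 1 := by rw [hB]; abel
    set A := (T - 1) * B⁻¹ with hA
    have hBB : B * B⁻¹ = 1 := Matrix.mul_nonsing_inv _ hu
    have h2 : 1 + A = (2 : ℂ) • (T * B⁻¹) := by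
      calc 1 + A = B * B⁻¹ + (T - 1) * B⁻¹ := by rw [hBB]
        _ = (2 : ℂ) • (T * B⁻¹) := by
          rw [← add_mul, hB, two_smul, ← add_mul]
          congr 1
          abel
    have h3 : 1 - A = (2 : ℂ) • B⁻¹ := by
      calc 1 - A = B * B⁻¹ - (T - 1) * B⁻¹ := by rw [hBB]
        _ = (2 : ℂ) • B⁻¹ := by
          rw [← sub_mul, hB, two_smul]
          have : 1 + T - (T - 1) = 1 + 1 := by abel
          rw [this, add_mul, Matrix.one_mul]
    have h4 : ((2 : ℂ) • B⁻¹) * ((1 / 2 : ℂ) • B) = 1 := by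
      rw [Matrix.smul_mul, Matrix.mul_smul, smul_smul, Matrix.nonsing_inv_mul _ hu]
      norm_num
    have h5 : ((2 : ℂ) • B⁻¹).det ≠ 0 := by
      intro h6
      have h7 := congrArg Matrix.det h4
      rw [Matrix.det_mul, h6, zero_mul, Matrix.det_one] at h7
      exact zero_ne_one h7
    have h6 : ((2 : ℂ) • B⁻¹)⁻¹ = (1 / 2 : ℂ) • B := Matrix.inv_eq_right_inv h4
    have h7 : cay A = ((2 : ℂ) • B⁻¹).det • T := by
      rw [cay, h2, h3, adj_eq _ h5, h6, Matrix.mul_smul, Matrix.smul_mul, Matrix.mul_smul,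
        Matrix.mul_assoc, Matrix.nonsing_inv_mul _ hu, Matrix.mul_one]
      congr 1
      rw [smul_smul]
      norm_num
    have h8 := cay_all X hX A
    rw [h7, comm_smul_iff _ _ _ h5] at h8
    exact h8
  -- general case: choose `s ≠ 0` with `det (1 + s T) ≠ 0`
  obtain ⟨z, hz, hz2⟩ : ∃ z : ℂ, z ≠ 0 ∧ T.charpoly.eval z ≠ 0 := by
    have h2 : T.charpoly * Polynomial.X ≠ 0 :=
      mul_ne_zero (Matrix.charpoly_monic T).ne_zero Polynomial.X_ne_zero
    obtain ⟨z, hz⟩ := Polynomial.exists_eval_ne_zero_of_natDegree_lt_card (T.charpoly * Polynomial.X) h2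
      (lt_of_lt_of_le Cardinal.natCast_lt_aleph0 (Cardinal.aleph0_le_mk ℂ))
    rw [Polynomial.eval_mul, Polynomial.eval_X] at hz
    exact ⟨z, right_ne_zero_of_mul hz, left_ne_zero_of_mul hz⟩
  have h3 : (1 + (-z⁻¹) • T).det ≠ 0 := by
    rw [Matrix.eval_charpoly] at hz2
    have h4 : (1 : Matrix n n ℂ) + (-z⁻¹) • T = z⁻¹ • (Matrix.scalar n z - T) := by
      rw [smul_sub, neg_smul]
      have h5 : z⁻¹ • (Matrix.scalar n z : Matrix n n ℂ) = 1 := by
        ext i j
        rw [Matrix.smul_apply, Matrix.scalar_apply, Matrix.diagonal_apply, Matrix.one_apply]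
        split_ifs
        · simp [hz]
        · simp
      rw [h5]
      abel
    rw [h4, Matrix.det_smul]
    exact mul_ne_zero (pow_ne_zero _ (inv_ne_zero hz)) hz2
  have h4 := h1 _ h3
  rwa [comm_smul_iff _ _ _ (neg_ne_zero.2 (inv_ne_zero hz))] at h4

end step1

section dc

/-- density for a semisimple module -/
theorem dens {K V : Type*} [Field K] [AddCommGroup V] [Module K V] [FiniteDimensional K V]
    (S : Subalgebra K (Module.End K V))
    (hss : ∀ W : Submodule K V, (∀ a ∈ S, ∀ w ∈ W, a w ∈ W) →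
      ∃ W' : Submodule K V, (∀ a ∈ S, ∀ w ∈ W', a w ∈ W') ∧ IsCompl W W')
    (φ : Module.End K V)
    (hcom : ∀ d : Module.End K V, (∀ a ∈ S, d * a = a * d) → ∀ v, φ (d v) = d (φ v)) :
    φ ∈ S := by
  classical
  have hsm : ∀ (c : K) (v : V), (algebraMap K S c) • v = c • v := by
    intro c v
    rw [Subalgebra.smul_def, Subalgebra.coe_algebraMap, Module.End.smul_def,
      Module.algebraMap_end_apply]
  have hsemi : IsSemisimpleModule S V := by
    rw [isSemisimpleModule_iff]
    refine { exists_isCompl := fun W => ?_ }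
    let W1 : Submodule K V :=
      { carrier := W
        add_mem' := fun h1 h2 => W.add_mem h1 h2
        zero_mem' := W.zero_mem
        smul_mem' := fun c w hw => by
          have h1 : (algebraMap K S c) • w ∈ W := W.smul_mem _ hw
          rw [hsm] at h1
          exact h1 }
    obtain ⟨W', h1, h2⟩ := hss W1 (fun a ha w hw => W.smul_mem (⟨a, ha⟩ : S) hw)
    let W2 : Submodule S V :=
      { carrier := W'
        add_mem' := fun h1 h2 => W'.add_mem h1 h2
        zero_mem' := W'.zero_mem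
        smul_mem' := fun c w hw => h1 c.1 c.2 w hw }
    refine ⟨W2, ?_⟩
    rw [isCompl_iff, Submodule.disjoint_def, codisjoint_iff, Submodule.eq_top_iff']
    refine ⟨fun x hx hx' => ?_, fun x => ?_⟩
    · exact (Submodule.disjoint_def.1 h2.disjoint) x hx hx'
    · have h3 : x ∈ W1 ⊔ W' := by
        rw [h2.sup_eq_top]
        trivial
      obtain ⟨y, hy, z, hz, hyz⟩ := Submodule.mem_sup.1 h3
      exact Submodule.mem_sup.2 ⟨y, hy, z, hz, hyz⟩
  let f : Module.End (Module.End S V) V :=
    { toFun := φ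
      map_add' := fun x y => map_add φ x y
      map_smul' := fun g v => by
        let d : Module.End K V :=
          { toFun := g
            map_add' := fun x y => map_add g x y
            map_smul' := fun c v => by
              rw [← hsm, map_smul, hsm]
              rfl }
        exact hcom d (fun a ha => by
          refine LinearMap.ext fun v => ?_
          exact g.map_smul (⟨a, ha⟩ : S) v) v }
  let b := Module.finBasis K V
  obtain ⟨r, hr⟩ := jacobson_density f (Finset.univ.image b)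
  have h1 : φ = r.1 := b.ext fun i => hr (b i) (Finset.mem_image_of_mem _ (Finset.mem_univ i))
  rw [h1]
  exact r.2

variable {ι : Type*} [Fintype ι] [DecidableEq ι]

theorem toE_mul (A B : Matrix ι ι ℂ) :
    Matrix.toEuclideanLin (A * B) = Matrix.toEuclideanLin A ∘ₗ Matrix.toEuclideanLin B := by
  ext v i
  simp [Matrix.toEuclideanLin, Matrix.mulVec_mulVec]

theorem toE_one : Matrix.toEuclideanLin (1 : Matrix ι ι ℂ) = LinearMap.id := by
  ext v i
  simp [Matrix.toEuclideanLin]

/-- **The double commutant theorem** for `*`-closed algebras of matrices. -/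
theorem dc (S : Submodule ℂ (Matrix ι ι ℂ)) (h1 : 1 ∈ S)
    (hmul : ∀ A ∈ S, ∀ B ∈ S, A * B ∈ S) (hst : ∀ A ∈ S, Aᴴ ∈ S)
    (X : Matrix ι ι ℂ) (hX : ∀ D : Matrix ι ι ℂ, (∀ A ∈ S, D * A = A * D) → X * D = D * X) :
    X ∈ S := by
  classical
  let S' : Subalgebra ℂ (Module.End ℂ (EuclideanSpace ℂ ι)) :=
    { carrier := {L | ∃ A ∈ S, Matrix.toEuclideanLin A = L}
      mul_mem' := by
        rintro _ _ ⟨A, hA, rfl⟩ ⟨B, hB, rfl⟩
        exact ⟨A * B, hmul A hA B hB, toE_mul A B⟩
      one_mem' := ⟨1, h1, toE_one⟩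
      add_mem' := by
        rintro _ _ ⟨A, hA, rfl⟩ ⟨B, hB, rfl⟩
        exact ⟨A + B, S.add_mem hA hB, map_add _ _ _⟩
      zero_mem' := ⟨0, S.zero_mem, map_zero _⟩
      algebraMap_mem' := fun c => ⟨c • 1, S.smul_mem c h1, by
        rw [map_smul, toE_one]
        rfl⟩ }
  have key : Matrix.toEuclideanLin X ∈ S' := by
    refine dens S' ?_ _ ?_
    · intro W hW
      refine ⟨Wᗮ, ?_, Submodule.isCompl_orthogonal _⟩
      rintro _ ⟨A, hA, rfl⟩ w hw
      rw [Submodule.mem_orthogonal]
      intro u hu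
      have h4 : Matrix.toEuclideanLin Aᴴ u ∈ W := hW _ ⟨Aᴴ, hst A hA, rfl⟩ u hu
      have h5 : inner ℂ (Matrix.toEuclideanLin Aᴴ u) w = 0 :=
        (Submodule.mem_orthogonal W w).1 hw _ h4
      rw [Matrix.toEuclideanLin_conjTranspose_eq_adjoint, LinearMap.adjoint_inner_left] at h5
      exact h5
    · intro d hd v
      obtain ⟨D, hD⟩ : ∃ D : Matrix ι ι ℂ, Matrix.toEuclideanLin D = d :=
        ⟨Matrix.toEuclideanLin.symm d, LinearEquiv.apply_symm_apply _ _⟩
      have h3 : ∀ A ∈ S, D * A = A * D := by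
        intro A hA
        apply Matrix.toEuclideanLin.injective
        rw [toE_mul, toE_mul, hD]
        exact hd _ ⟨A, hA, rfl⟩
      have h4 := congrArg (fun Z => Matrix.toEuclideanLin Z v) (hX D h3)
      simp only [toE_mul, hD] at h4
      exact h4
  obtain ⟨A, hA, hAX⟩ := key
  rw [← Matrix.toEuclideanLin.injective hAX]
  exact hA

end dc

section sw

variable {M n : Type*} [Fintype M] [DecidableEq M] [Fintype n] [DecidableEq n]

/-- **Schur-Weyl duality for the unitary group.** -/
theorem sw (X : Matrix (M → n) (M → n) ℂ)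
    (hX : ∀ g ∈ Matrix.unitaryGroup n ℂ, X * tp M g = tp M g * X) :
    X ∈ Submodule.span ℂ (Set.range (pm (M := M) n ℂ)) := by
  have hmem : ∀ σ : Equiv.Perm M, pm n ℂ σ ∈ Submodule.span ℂ (Set.range (pm (M := M) n ℂ)) :=
    fun σ => Submodule.subset_span ⟨σ, rfl⟩
  refine dc _ ?_ ?_ ?_ X ?_
  · rw [← pm_one (M := M)]
    exact hmem 1
  · intro A hA B hB
    induction hA using Submodule.span_induction with
    | mem A hA =>
      obtain ⟨σ, rfl⟩ := hA
      induction hB using Submodule.span_induction with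
      | mem B hB =>
        obtain ⟨τ, rfl⟩ := hB
        rw [pm_mul]
        exact hmem _
      | zero => rw [Matrix.mul_zero]; exact Submodule.zero_mem _
      | add x y _ _ hx hy => rw [Matrix.mul_add]; exact Submodule.add_mem _ hx hy
      | smul c x _ hx => rw [Matrix.mul_smul]; exact Submodule.smul_mem _ _ hx
    | zero => rw [Matrix.zero_mul]; exact Submodule.zero_mem _
    | add x y _ _ hx hy => rw [Matrix.add_mul]; exact Submodule.add_mem _ hx hy
    | smul c x _ hx => rw [Matrix.smul_mul]; exact Submodule.smul_mem _ _ hx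
  · intro A hA
    induction hA using Submodule.span_induction with
    | mem A hA =>
      obtain ⟨σ, rfl⟩ := hA
      rw [pm_conjTranspose]
      exact hmem _
    | zero => rw [Matrix.conjTranspose_zero]; exact Submodule.zero_mem _
    | add x y _ _ hx hy => rw [Matrix.conjTranspose_add]; exact Submodule.add_mem _ hx hy
    | smul c x _ hx => rw [Matrix.conjTranspose_smul]; exact Submodule.smul_mem _ _ hx
  · intro D hD
    refine comm_symm X (comm_all X hX) D fun σ a b => ?_
    have h1 := congrFun (congrFun (hD _ (hmem σ)) a) (b ∘ σ)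
    rw [mul_pm_apply, pm_mul_apply] at h1
    rw [← h1]
    congr 1
    ext i
    simp

end sw

end Pool.Agent.E8helper56.TX
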