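import Pool.Agent.E8helper56.TX.Haar
import Pool.Agent.E8helper56.TX.Log

set_option autoImplicit false
set_option linter.unusedSectionVars false

/-!
# The Haar measure of small balls in closed groups of unitary matrices
-/

open Matrix MeasureTheory

noncomputable section

namespace Pool.Agent.E8helper56.TX

open Pool.Agent.E8helper1.TX

section sep

variable {U : Type} [Group U] [TopologicalSpace U] [IsTopologicalGroup U] [CompactSpace U]
  [MeasurableSpace U] [BorelSpace U] (μ : Measure U) [IsFiniteMeasure μ] [μ.IsMulLeftInvariant]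

/-- separated sets -/
def IsSep (B : Set U) (s : Finset U) : Prop := ∀ u ∈ s, ∀ v ∈ s, u ≠ v → u⁻¹ * v ∉ B

theorem measure_le_of_sep (B : Set U) (h1 : (1 : U) ∈ B)
    (hsymm : ∀ u, u ∈ B → u⁻¹ ∈ B) (P : ℕ) (hP : ∀ s : Finset U, IsSep B s → s.card ≤ P) :
    μ.real Set.univ ≤ P * μ.real B := by
  classical
  -- a separated set with the greatest number of elements
  obtain ⟨s, hs, hmax⟩ : ∃ s : Finset U, IsSep B s ∧ ∀ t : Finset U, IsSep B t → t.card ≤ s.card := by
    have h0 : ∃ s : Finset U, IsSep B s ∧ s.card = 0 := ⟨∅, by intro u hu; simp at hu, rfl⟩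
    obtain ⟨s, hs, hsc⟩ := Nat.findGreatest_spec (P := fun k => ∃ s : Finset U, IsSep B s ∧ s.card = k)
      (Nat.zero_le P) h0
    refine ⟨s, hs, fun t ht => ?_⟩
    rw [hsc]
    exact Nat.le_findGreatest (hP t ht) ⟨t, ht, rfl⟩
  have hcov : ∀ w, ∃ u ∈ s, u⁻¹ * w ∈ B := by
    intro w
    by_contra h
    push Not at h
    have hws : w ∉ s := fun hw => h w hw (by rw [inv_mul_cancel]; exact h1)
    have hsep : IsSep B (insert w s) := by
      intro u hu v hv huv
      rw [Finset.mem_insert] at hu hv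
      rcases hu with rfl | hu
      · rcases hv with rfl | hv
        · exact absurd rfl huv
        · intro hB
          have := hsymm _ hB
          rw [_root_.mul_inv_rev, inv_inv] at this
          exact h v hv this
      · rcases hv with rfl | hv
        · exact h u hu
        · exact hs u hu v hv huv
    have h2 := hmax _ hsep
    rw [Finset.card_insert_of_notMem hws] at h2
    omega
  have hle : μ.real Set.univ ≤ ∑ u ∈ s, μ.real ((fun w => u⁻¹ * w) ⁻¹' B) := by
    refine le_trans ?_ (measureReal_biUnion_finset_le s _)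
    refine measureReal_mono ?_ (measure_ne_top _ _)
    intro w _
    obtain ⟨u, hu, hw⟩ := hcov w
    simp only [Set.mem_iUnion]
    exact ⟨u, hu, hw⟩
  have heq : ∀ u : U, μ.real ((fun w => u⁻¹ * w) ⁻¹' B) = μ.real B := by
    intro u
    rw [measureReal_def, measureReal_def, measure_preimage_mul]
  simp only [heq, Finset.sum_const, nsmul_eq_mul] at hle
  refine hle.trans (mul_le_mul_of_nonneg_right ?_ measureReal_nonneg)
  exact_mod_cast hP s hs

end sep

section cell

variable {n : Type} [Fintype n] [DecidableEq n]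

/-- the cell of a real number -/
def cell (k : ℕ) (t : ℝ) : ℕ := min ⌊(t + 1) * k / 2⌋₊ (k - 1)

theorem cell_lt {k : ℕ} (hk : 0 < k) (t : ℝ) : cell k t < k := by
  unfold cell
  omega

theorem cell_close {k : ℕ} (hk : 0 < k) {t t' : ℝ} (ht : |t| ≤ 1) (ht' : |t'| ≤ 1)
    (h : cell k t = cell k t') : |t - t'| ≤ 2 / k := by
  have hk' : (0 : ℝ) < k := by exact_mod_cast hk
  set a := (t + 1) * k / 2 with ha
  set a' := (t' + 1) * k / 2 with ha'
  have ha0 : 0 ≤ a := by
    have := (abs_le.1 ht).1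
    have : 0 ≤ t + 1 := by linarith
    positivity
  have ha0' : 0 ≤ a' := by
    have := (abs_le.1 ht').1
    have : 0 ≤ t' + 1 := by linarith
    positivity
  have ha1 : a ≤ k := by
    have := (abs_le.1 ht).2
    rw [ha]
    nlinarith
  have ha1' : a' ≤ k := by
    have := (abs_le.1 ht').2
    rw [ha']
    nlinarith
  have hab : |a - a'| ≤ 1 := by
    unfold cell at h
    have hf1 := Nat.floor_le ha0
    have hf2 := Nat.lt_floor_add_one a
    have hf1' := Nat.floor_le ha0'
    have hf2' := Nat.lt_floor_add_one a'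
    rw [← ha, ← ha'] at h
    have hk1 : ((k - 1 : ℕ) : ℝ) = (k : ℝ) - 1 := by
      rw [Nat.cast_sub (by omega)]
      simp
    rcases Nat.lt_or_ge ⌊a⌋₊ (k - 1) with h1 | h1
    · rw [min_eq_left h1.le] at h
      rcases Nat.lt_or_ge ⌊a'⌋₊ (k - 1) with h2 | h2
      · rw [min_eq_left h2.le] at h
        rw [h] at hf1 hf2
        rw [abs_le]
        constructor <;> linarith
      · rw [min_eq_right h2] at h
        omega
    · rw [min_eq_right h1] at h
      rcases Nat.lt_or_ge ⌊a'⌋₊ (k - 1) with h2 | h2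
      · rw [min_eq_left h2.le] at h
        omega
      · have h1' : (k : ℝ) - 1 ≤ ⌊a⌋₊ := by rw [← hk1]; exact_mod_cast h1
        have h2' : (k : ℝ) - 1 ≤ ⌊a'⌋₊ := by rw [← hk1]; exact_mod_cast h2
        rw [abs_le]
        constructor <;> linarith
  have h3 : t - t' = (a - a') * (2 / k) := by
    rw [ha, ha']
    field_simp
    ring
  rw [h3, abs_mul, abs_of_pos (show (0 : ℝ) < 2 / k by positivity)]
  calc |a - a'| * (2 / k) ≤ 1 * (2 / k) := mul_le_mul_of_nonneg_right hab (by positivity)
    _ = 2 / k := one_mul _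

/-- The squared Frobenius distance. -/
def fd (u v : Matrix n n ℂ) : ℝ := ∑ i, ∑ j, ‖(u - v) i j‖ ^ 2

theorem fd_eq {u v : Matrix n n ℂ} (hu : u ∈ Matrix.unitaryGroup n ℂ)
    (hv : v ∈ Matrix.unitaryGroup n ℂ) :
    fd u v = 2 * (Fintype.card n : ℝ) - 2 * ((uᴴ * v).trace).re := by
  have hu1 : uᴴ * u = 1 := Matrix.mem_unitaryGroup_iff'.1 hu
  have hv1 : vᴴ * v = 1 := Matrix.mem_unitaryGroup_iff'.1 hv
  have h2 : ((u - v)ᴴ * (u - v)).trace = ((fd u v : ℝ) : ℂ) := by
    rw [Matrix.trace, fd, Finset.sum_comm]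
    push_cast
    refine Finset.sum_congr rfl fun i _ => ?_
    rw [Matrix.diag_apply, Matrix.mul_apply]
    refine Finset.sum_congr rfl fun j _ => ?_
    rw [Matrix.conjTranspose_apply, ← Complex.conj_mul']
    rfl
  have h3 : (u - v)ᴴ * (u - v) = 1 - uᴴ * v - (uᴴ * v)ᴴ + 1 := by
    rw [Matrix.conjTranspose_sub, sub_mul, mul_sub, mul_sub, hu1, hv1, Matrix.conjTranspose_mul,
      Matrix.conjTranspose_conjTranspose]
    abel
  rw [h3] at h2
  have h4 := congrArg Complex.re h2
  rw [Complex.ofReal_re] at h4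
  rw [← h4]
  simp only [Matrix.trace_add, Matrix.trace_sub, Matrix.trace_one, Matrix.trace_conjTranspose,
    Complex.add_re, Complex.sub_re]
  simp
  ring

theorem card_le_cells {α : Type*} (s : Finset α) (φ : α → Matrix n n ℂ)
    (hs : ∀ u ∈ s, φ u ∈ Matrix.unitaryGroup n ℂ)
    {k : ℕ} (hk : 0 < k) {δ : ℝ} (hδ : 8 * (Fintype.card n : ℝ) ^ 2 / (k : ℝ) ^ 2 < δ)
    (hsep : ∀ u ∈ s, ∀ v ∈ s, u ≠ v → δ ≤ fd (φ u) (φ v)) :
    s.card ≤ k ^ (2 * Fintype.card n ^ 2) := by
  classical
  let F : α → (n × n → Fin k × Fin k) := fun u p =>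
    (⟨cell k (φ u p.1 p.2).re, cell_lt hk _⟩, ⟨cell k (φ u p.1 p.2).im, cell_lt hk _⟩)
  have hinj : Set.InjOn F s := by
    intro u hu v hv huv
    by_contra hne
    have h1 := hsep u hu v hv hne
    have h2 : fd (φ u) (φ v) ≤ 8 * (Fintype.card n : ℝ) ^ 2 / (k : ℝ) ^ 2 := by
      have h3 : ∀ i j, ‖(φ u - φ v) i j‖ ^ 2 ≤ 8 / (k : ℝ) ^ 2 := by
        intro i j
        have h4 := congrFun huv (i, j)
        have h5 : cell k (φ u i j).re = cell k (φ v i j).re := congrArg (fun q => (q.1 : ℕ)) h4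
        have h6 : cell k (φ u i j).im = cell k (φ v i j).im := congrArg (fun q => (q.2 : ℕ)) h4
        have hu1 := entry_norm_bound_of_unitary (hs u hu) i j
        have hv1 := entry_norm_bound_of_unitary (hs v hv) i j
        have h7 := cell_close hk ((Complex.abs_re_le_norm _).trans hu1)
          ((Complex.abs_re_le_norm _).trans hv1) h5
        have h8 := cell_close hk ((Complex.abs_im_le_norm _).trans hu1)
          ((Complex.abs_im_le_norm _).trans hv1) h6
        rw [← Complex.normSq_eq_norm_sq, Complex.normSq_apply, Matrix.sub_apply, Complex.sub_re,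
          Complex.sub_im]
        have h9 := mul_self_le_mul_self (abs_nonneg _) h7
        have h10 := mul_self_le_mul_self (abs_nonneg _) h8
        rw [abs_mul_abs_self] at h9 h10
        have h11 : 2 / (k : ℝ) * (2 / (k : ℝ)) = 4 / (k : ℝ) ^ 2 := by
          rw [div_mul_div_comm, sq]
          norm_num
        rw [h11] at h9 h10
        have h12 : 8 / (k : ℝ) ^ 2 = 4 / (k : ℝ) ^ 2 + 4 / (k : ℝ) ^ 2 := by ring
        rw [h12]
        exact add_le_add h9 h10
      calc fd (φ u) (φ v) ≤ ∑ _i : n, ∑ _j : n, 8 / (k : ℝ) ^ 2 :=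
            Finset.sum_le_sum fun i _ => Finset.sum_le_sum fun j _ => h3 i j
        _ = 8 * (Fintype.card n : ℝ) ^ 2 / (k : ℝ) ^ 2 := by
            simp only [Finset.sum_const, Finset.card_univ, nsmul_eq_mul]
            ring
    linarith
  have hcard : s.card ≤ Fintype.card (n × n → Fin k × Fin k) := by
    rw [← Finset.card_image_of_injOn hinj]
    exact Finset.card_le_univ _
  rw [Fintype.card_fun, Fintype.card_prod, Fintype.card_prod, Fintype.card_fin] at hcard
  calc s.card ≤ _ := hcard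
    _ = k ^ (2 * Fintype.card n ^ 2) := by
      rw [← sq, ← sq, ← pow_mul]

end cell

end Pool.Agent.E8helper56.TX
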