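import Pool.Agent.E8helper56.TX.Avg

set_option autoImplicit false
set_option linter.unusedSectionVars false

/-!
# Tannaka duality for tensor systems
-/

open Matrix MeasureTheory

noncomputable section

namespace Pool.Agent.E8helper56.TX

variable {n : Type*} [Fintype n] [DecidableEq n] (S : Sys n)

variable {U : Type*} [Group U] [TopologicalSpace U] [IsTopologicalGroup U] [CompactSpace U]
  [MeasurableSpace U] [BorelSpace U] (μ : Measure U) [IsFiniteMeasure μ] [μ.IsMulLeftInvariant]
  (ρ : U →* Matrix n n ℂ)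

/-- conjugation by the tensor power -/
def cj (m : ℕ) (g : Matrix n n ℂ) (A : Matrix (Fin m → n) (Fin m → n) ℂ) :
    Matrix (Fin m → n) (Fin m → n) ℂ := tp (Fin m) g * A * (tp (Fin m) g)ᴴ

/-- same class -/
def rel : Setoid U where
  r u v := ∀ k, ∀ A ∈ S.S k, cj k (ρ u) A = cj k (ρ v) A
  iseqv :=
    { refl := fun _ _ _ _ => rfl
      symm := fun h k A hA => (h k A hA).symm
      trans := fun h h' k A hA => (h k A hA).trans (h' k A hA) }

/-- the quotient -/
abbrev QX : Type _ := Quotient (rel S ρ)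

instance : CompactSpace (QX S ρ) := Quotient.compactSpace

/-- the basic functions -/
def basic : Set C(QX S ρ, ℂ) :=
  {f | ∃ (k : ℕ) (A B : Matrix (Fin k → n) (Fin k → n) ℂ), A ∈ S.S k ∧
    ∀ u, f (Quotient.mk _ u) = (cj k (ρ u) A * B).trace}

theorem exists_basic (hρ : Continuous ρ) (k : ℕ) (A B : Matrix (Fin k → n) (Fin k → n) ℂ)
    (hA : A ∈ S.S k) :
    ∃ f ∈ basic S ρ, ∀ u, f (Quotient.mk _ u) = (cj k (ρ u) A * B).trace := by
  let f : C(QX S ρ, ℂ) :=
    { toFun := Quotient.lift (fun u => (cj k (ρ u) A * B).trace) (by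
        intro u v h
        show (cj k (ρ u) A * B).trace = (cj k (ρ v) A * B).trace
        rw [h k A hA])
      continuous_toFun := by
        refine Continuous.quotient_lift ?_ _
        exact ((continuous_conj ρ hρ A).matrix_mul continuous_const).matrix_trace }
  exact ⟨f, ⟨k, A, B, hA, fun u => rfl⟩, fun u => rfl⟩

theorem cj_ten {m k : ℕ} (g : Matrix n n ℂ) (A : Matrix (Fin m → n) (Fin m → n) ℂ)
    (B : Matrix (Fin k → n) (Fin k → n) ℂ) :
    cj (m + k) g (ten A B) = ten (cj m g A) (cj k g B) := by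
  rw [cj, cj, cj, tp_add, ten_conjTranspose, ten_mul, ten_mul]

theorem cj_adj {m : ℕ} (g : Matrix n n ℂ) (A : Matrix (Fin m → n) (Fin m → n) ℂ) :
    cj m g Aᴴ = (cj m g A)ᴴ := by
  rw [cj, cj, Matrix.conjTranspose_mul, Matrix.conjTranspose_mul, Matrix.conjTranspose_conjTranspose,
    Matrix.mul_assoc]

theorem ext_mk {f g : C(QX S ρ, ℂ)} (h : ∀ u, f (Quotient.mk _ u) = g (Quotient.mk _ u)) : f = g := by
  ext x
  obtain ⟨u, rfl⟩ := Quotient.exists_rep x
  exact h u

/-- the algebra of basic functions -/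
def alg (hρ : Continuous ρ) : StarSubalgebra ℂ C(QX S ρ, ℂ) where
  carrier := Submodule.span ℂ (basic S ρ)
  mul_mem' := by
    intro f g hf hg
    show f * g ∈ Submodule.span ℂ (basic S ρ)
    induction hf using Submodule.span_induction with
    | mem f hf =>
      obtain ⟨k, A, B, hA, hf⟩ := hf
      induction hg using Submodule.span_induction with
      | mem g hg =>
        obtain ⟨l, A', B', hA', hg⟩ := hg
        obtain ⟨p, hp, hp'⟩ := exists_basic S ρ hρ (k + l) (ten A A') (ten B B') (S.ten _ _ _ hA _ hA')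
        have h1 : f * g = p := by
          refine ext_mk S ρ fun u => ?_
          rw [hp', ContinuousMap.mul_apply, hf, hg, cj_ten, ten_mul, trace_ten]
        rw [h1]
        exact Submodule.subset_span hp
      | zero => rw [mul_zero]; exact Submodule.zero_mem _
      | add x y _ _ hx hy => rw [mul_add]; exact Submodule.add_mem _ hx hy
      | smul c x _ hx => rw [mul_smul_comm]; exact Submodule.smul_mem _ _ hx
    | zero => rw [zero_mul]; exact Submodule.zero_mem _
    | add x y _ _ hx hy => rw [add_mul]; exact Submodule.add_mem _ hx hy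
    | smul c x _ hx => rw [smul_mul_assoc]; exact Submodule.smul_mem _ _ hx
  add_mem' := fun hf hg => Submodule.add_mem _ hf hg
  algebraMap_mem' := by
    intro c
    obtain ⟨p, hp, hp'⟩ := exists_basic S ρ hρ 0 (1 : Matrix (Fin 0 → n) (Fin 0 → n) ℂ)
      (c • 1) (S.one_mem 0)
    have h1 : algebraMap ℂ C(QX S ρ, ℂ) c = p := by
      refine ext_mk S ρ fun u => ?_
      rw [hp', cj]
      have h2 : tp (Fin 0) (ρ u) = 1 := by
        ext a b
        rw [tp_apply, Matrix.one_apply, if_pos (Subsingleton.elim a b)]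
        simp
      rw [h2]
      simp
    rw [h1]
    exact Submodule.subset_span hp
  star_mem' := by
    intro f hf
    show star f ∈ Submodule.span ℂ (basic S ρ)
    induction hf using Submodule.span_induction with
    | mem f hf =>
      obtain ⟨k, A, B, hA, hf⟩ := hf
      obtain ⟨p, hp, hp'⟩ := exists_basic S ρ hρ k Aᴴ Bᴴ (S.adj _ _ hA)
      have h1 : star f = p := by
        refine ext_mk S ρ fun u => ?_
        rw [hp', ContinuousMap.star_apply, hf, cj_adj, ← Matrix.trace_conjTranspose,
          Matrix.conjTranspose_mul, Matrix.trace_mul_comm]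
      rw [h1]
      exact Submodule.subset_span hp
    | zero => rw [star_zero]; exact Submodule.zero_mem _
    | add x y _ _ hx hy => rw [star_add]; exact Submodule.add_mem _ hx hy
    | smul c x _ hx => rw [star_smul]; exact Submodule.smul_mem _ _ hx

theorem sep (hρ : Continuous ρ) : (alg S ρ hρ).SeparatesPoints := by
  intro x y hxy
  obtain ⟨u, rfl⟩ := Quotient.exists_rep x
  obtain ⟨v, rfl⟩ := Quotient.exists_rep y
  have h1 : ¬ (∀ k, ∀ A ∈ S.S k, cj k (ρ u) A = cj k (ρ v) A) := fun h => hxy (Quotient.sound h)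
  push Not at h1
  obtain ⟨k, A, hA, hne⟩ := h1
  obtain ⟨a, b, hab⟩ : ∃ a b, cj k (ρ u) A a b ≠ cj k (ρ v) A a b := by
    by_contra h2
    push Not at h2
    exact hne (Matrix.ext h2)
  obtain ⟨p, hp, hp'⟩ := exists_basic S ρ hρ k A (Matrix.single b a 1) hA
  refine ⟨p, ⟨p, Submodule.subset_span hp, rfl⟩, ?_⟩
  rw [hp', hp']
  have h3 : ∀ Z : Matrix (Fin k → n) (Fin k → n) ℂ, (Z * Matrix.single b a 1).trace = Z a b := by
    intro Z
    rw [Matrix.trace_mul_comm]
    simp [Matrix.trace, Matrix.mul_apply, Matrix.single_apply, ite_and]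
  rw [h3, h3]
  exact hab

end Pool.Agent.E8helper56.TX
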