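import Pool.Agent.E8helper56.TX.All

set_option autoImplicit false
set_option linter.unusedSectionVars false

/-!
# The central part of the Lie algebra is detected in bounded degree
-/

open Matrix

noncomputable section

namespace Pool.Agent.E8helper56.TX

open Pool.Agent.E8helper1.TX

variable {n : Type} [Fintype n] [DecidableEq n] {m : ℕ}

/-- the fibres of a real function -/
theorem exists_fib (lam : n → ℝ) : ∃ (E : Type) (_ : Fintype E) (_ : DecidableEq E) (b : n → E)
    (γ : E → ℝ), Function.Surjective b ∧ (∀ i, γ (b i) = lam i) ∧ Function.Injective γ := by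
  classical
  have h1 : Finite (Set.range lam) := Finite.Set.finite_range lam
  refine ⟨Set.range lam, Fintype.ofFinite _, Classical.decEq _,
    fun i => ⟨lam i, i, rfl⟩, fun e => e.1, ?_,
    fun i => rfl, Subtype.val_injective⟩
  rintro ⟨r, i, hi⟩
  exact ⟨i, Subtype.ext hi⟩

/-- **The central part.** -/
theorem core_c (w : ℕ) (hw : 1 ≤ w) (L0 : Set (Matrix n n ℂ)) (hL0 : ∀ x ∈ L0, IsInt w x)
    (c : Matrix n n ℂ) (hc : cᴴ = -c) (hcomm : ∀ x ∈ L0, x * c = c * x)
    (horth : ∀ x ∈ L0, (x * c).trace = 0) (htr : c.trace = 0)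
    (hkill : ∀ k ≤ (Fintype.card n).factorial * w ^ (Fintype.card n - 1), ∀ A ∈ TL L0 k,
      A * dpow c k = dpow c k * A) : c = 0 := by
  classical
  by_contra hne
  obtain ⟨V, lam, hV1, hV2, hcV⟩ := skew_diag c hc
  obtain ⟨E, _, _, b, γ, hbs, hγb, hγi⟩ := exists_fib lam
  let d : E → ℕ := fun e => Fintype.card {i // b i = e}
  have hd : ∀ e, 1 ≤ d e := by
    intro e
    obtain ⟨i, hi⟩ := hbs e
    have h1 : Nonempty {i // b i = e} := ⟨⟨i, hi⟩⟩
    exact Fintype.card_pos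
  have hdN : ∑ e, d e = Fintype.card n := by
    rw [← Fintype.card_congr (Equiv.sigmaFiberEquiv b), Fintype.card_sigma]
  let D : Matrix n n ℂ := diagonal (fun k => (lam k : ℂ) * Complex.I)
  have hcV' : c = V * D * Vᴴ := hcV
  -- the change of basis
  let cj : Matrix n n ℂ → Matrix n n ℂ := fun x => Vᴴ * x * V
  have hcj : ∀ x, V * cj x * Vᴴ = x := by
    intro x
    change V * (Vᴴ * x * V) * Vᴴ = x
    calc V * (Vᴴ * x * V) * Vᴴ = (V * Vᴴ) * x * (V * Vᴴ) := by simp only [Matrix.mul_assoc]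
      _ = x := by rw [hV2, Matrix.one_mul, Matrix.mul_one]
  have hblock : ∀ x, x * c = c * x → ∀ i j, b i ≠ b j → cj x i j = 0 := by
    intro x hx i j hij
    rw [hcV', comm_conj _ _ _ _ hV1 hV2, comm_diag] at hx
    by_contra h0
    have h1 := mul_right_cancel₀ Complex.I_ne_zero (hx i j h0)
    apply hij
    apply hγi
    rw [hγb, hγb]
    exact_mod_cast h1
  have hint : ∀ x, IsInt w x → IsInt w (cj x) := by
    intro x hx μ v hv0 hv
    refine hx μ (V *ᵥ v) ?_ ?_
    · intro h0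
      apply hv0
      have h1 : Vᴴ *ᵥ (V *ᵥ v) = v := by rw [Matrix.mulVec_mulVec, hV1, Matrix.one_mulVec]
      rw [← h1, h0, Matrix.mulVec_zero]
    · have h1 : x *ᵥ (V *ᵥ v) = V *ᵥ (cj x *ᵥ v) := by
        change _ = V *ᵥ ((Vᴴ * x * V) *ᵥ v)
        rw [Matrix.mulVec_mulVec, Matrix.mulVec_mulVec]
        congr 1
        calc x * V = (V * Vᴴ) * x * V := by rw [hV2, Matrix.one_mul]
          _ = V * (Vᴴ * x * V) := by simp only [Matrix.mul_assoc]
      rw [h1, hv, Matrix.mulVec_smul]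
  have hone : IsInt w (1 : Matrix n n ℂ) := by
    intro μ v hv0 hv
    obtain ⟨i, hi⟩ := Function.ne_iff.1 hv0
    have h1 := congrFun hv i
    rw [Matrix.one_mulVec, Pi.smul_apply, smul_eq_mul] at h1
    have h2 : μ = 1 := by
      have h3 : (μ - 1) * v i = 0 := by linear_combination -h1
      exact sub_eq_zero.1 ((mul_eq_zero.1 h3).resolve_right hi)
    exact ⟨1, by rw [abs_one]; exact_mod_cast hw, by rw [h2, Int.cast_one]⟩
  have hL1 : ∀ x, (x ∈ L0 ∨ x = 1) → IsInt w x ∧ x * c = c * x ∧ (x * c).trace = 0 := by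
    rintro x (hx | rfl)
    · exact ⟨hL0 x hx, hcomm x hx, horth x hx⟩
    · exact ⟨hone, by rw [Matrix.one_mul, Matrix.mul_one], by rw [Matrix.one_mul, htr]⟩
  let Z : Set (E → ℤ) := {v | ∃ x, (x ∈ L0 ∨ x = 1) ∧
    ∀ e, ∑ i : {i // b i = e}, cj x i.1 i.1 = v e}
  have hZ : ∀ v ∈ Z, ∀ e, |v e| ≤ (w : ℤ) * d e := by
    rintro v ⟨x, hx, hv⟩ e
    obtain ⟨h1, h2, -⟩ := hL1 x hx
    obtain ⟨k, hk, hk'⟩ := int_trace b (hint x h1) (hblock x h2) e
    rw [hv e] at hk'
    have h3 : v e = k := by exact_mod_cast hk'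
    rw [h3]
    exact hk
  have hZex : ∀ x, (x ∈ L0 ∨ x = 1) → ∃ v ∈ Z, ∀ e, ∑ i : {i // b i = e}, cj x i.1 i.1 = v e := by
    intro x hx
    obtain ⟨h1, h2, -⟩ := hL1 x hx
    choose v hv hv' using fun e => int_trace b (hint x h1) (hblock x h2) e
    exact ⟨v, ⟨x, hx, hv'⟩, hv'⟩
  have hγ0 : γ ≠ 0 := by
    intro h0
    apply hne
    have h1 : D = 0 := by
      change diagonal (fun k => (lam k : ℂ) * Complex.I) = 0
      have h2 : (fun k => (lam k : ℂ) * Complex.I) = 0 := by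
        funext k
        have h3 : lam k = 0 := by
          rw [← hγb, h0]
          rfl
        rw [h3, Complex.ofReal_zero, zero_mul, Pi.zero_apply]
      rw [h2]
      exact Matrix.diagonal_zero
    rw [hcV', h1, Matrix.mul_zero, Matrix.zero_mul]
  have hγZ : ∀ v ∈ Z, ∑ e, γ e * v e = 0 := by
    rintro v ⟨x, hx, hv⟩
    obtain ⟨-, -, h3⟩ := hL1 x hx
    have h4 : (x * c).trace = ∑ i, cj x i i * ((lam i : ℂ) * Complex.I) := by
      have h5 : (x * c).trace = (cj x * D).trace := by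
        rw [hcV']
        change _ = (Vᴴ * x * V * D).trace
        rw [Matrix.mul_assoc Vᴴ x, Matrix.mul_assoc Vᴴ, Matrix.trace_mul_comm Vᴴ]
        congr 1
        simp only [Matrix.mul_assoc]
      rw [h5, Matrix.trace]
      refine Finset.sum_congr rfl fun i _ => ?_
      rw [Matrix.diag_apply, Matrix.mul_diagonal]
    rw [h4, ← Fintype.sum_fiberwise b] at h3
    have h5 : ∀ e, ∑ i : {i // b i = e}, cj x i.1 i.1 * ((lam i.1 : ℂ) * Complex.I) =
        Complex.I * ((γ e : ℂ) * v e) := by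
      intro e
      rw [← hv e, Finset.mul_sum, Finset.mul_sum]
      refine Finset.sum_congr rfl fun i _ => ?_
      have h6 : lam i.1 = γ e := by
        rw [← hγb, i.2]
      rw [h6]
      ring
    rw [Finset.sum_congr rfl fun e _ => h5 e, ← Finset.mul_sum] at h3
    have h6 := (mul_eq_zero.1 h3).resolve_left Complex.I_ne_zero
    exact_mod_cast h6
  obtain ⟨s, hs1, hs2, hs3⟩ := small_rel d hd w hw Z hZ γ hγ0 hγZ
  have hs4 := bound_simple d hd w hw _ hdN
  -- the total degree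
  have hsum0 : ∑ e, s e * (d e : ℤ) = 0 := by
    refine hs1 (fun e => (d e : ℤ)) ⟨1, Or.inr rfl, fun e => ?_⟩
    have h1 : cj 1 = 1 := by
      change Vᴴ * 1 * V = 1
      rw [Matrix.mul_one, hV1]
    rw [h1]
    simp only [Matrix.one_apply_eq]
    rw [Finset.sum_const, Finset.card_univ, nsmul_eq_mul, mul_one]
    push_cast
    rfl
  have hpm : ∀ e, ((s e).toNat : ℤ) - ((-s e).toNat : ℤ) = s e := fun e => by omega
  obtain ⟨m0, hm0⟩ : ∃ m0, ∑ e, (s e).toNat * d e = m0 := ⟨_, rfl⟩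
  have hm0' : ∑ e, (-s e).toNat * d e = m0 := by
    have h1 : ((∑ e, (s e).toNat * d e : ℕ) : ℤ) - ((∑ e, (-s e).toNat * d e : ℕ) : ℤ) = 0 := by
      push_cast
      rw [← Finset.sum_sub_distrib, ← hsum0]
      refine Finset.sum_congr rfl fun e _ => ?_
      rw [← _root_.sub_mul, hpm]
    rw [hm0] at h1
    omega
  have hm0le : m0 ≤ (Fintype.card n).factorial * w ^ (Fintype.card n - 1) := by
    refine le_trans ?_ hs4
    have h1 : (m0 : ℤ) ≤ ∑ e, |s e| * d e := by
      rw [← hm0]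
      push_cast
      refine Finset.sum_le_sum fun e _ => mul_le_mul_of_nonneg_right ?_ (by positivity)
      have h3 := le_abs_self (s e)
      have h4 := abs_nonneg (s e)
      omega
    have h2 := h1.trans hs3
    exact_mod_cast h2
  obtain ⟨β, pr, i1, i2, i3⟩ := exists_pos b (fun e => (s e).toNat) m0 hm0
  obtain ⟨β', pr', j1, j2, j3⟩ := exists_pos b (fun e => (-s e).toNat) m0 hm0'
  have hT1 : tpow Vᴴ m0 * tpow V m0 = 1 := by rw [tpow_mul, hV1, tpow_one']
  have hT2 : tpow V m0 * tpow Vᴴ m0 = 1 := by rw [tpow_mul, hV2, tpow_one']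
  -- the commutation criterion
  have hcrit : ∀ x y : Matrix n n ℂ, x = V * y * Vᴴ → (∀ i j, b i ≠ b j → y i j = 0) →
      ((tpow V m0 * dA β pr β' pr' * tpow Vᴴ m0) * dpow x m0 =
        dpow x m0 * (tpow V m0 * dA β pr β' pr' * tpow Vᴴ m0) ↔
        ∑ e, (s e : ℂ) * ∑ i : {i // b i = e}, y i.1 i.1 = 0) := by
    intro x y hxy hy
    have h1 : dpow x m0 = tpow V m0 * dpow y m0 * tpow Vᴴ m0 := by
      rw [tpow_dpow _ _ _ hV2, hxy]
    have h2 : tpow Vᴴ m0 * (tpow V m0 * dA β pr β' pr' * tpow Vᴴ m0) * tpow V m0 =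
        dA β pr β' pr' := by
      calc _ = (tpow Vᴴ m0 * tpow V m0) * dA β pr β' pr' * (tpow Vᴴ m0 * tpow V m0) := by
            simp only [Matrix.mul_assoc]
        _ = _ := by rw [hT1, Matrix.one_mul, Matrix.mul_one]
    rw [h1, comm_conj _ _ _ _ hT1 hT2, h2, dA_comm i1 i2 j1 j2 hy, i3 (fun i => y i i),
      j3 (fun i => y i i), ← sub_eq_zero, ← Finset.sum_sub_distrib]
    have h3 : ∀ e, (((s e).toNat : ℕ) : ℂ) * (∑ i : {i // b i = e}, y i.1 i.1) -
        (((-s e).toNat : ℕ) : ℂ) * (∑ i : {i // b i = e}, y i.1 i.1) =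
        (s e : ℂ) * ∑ i : {i // b i = e}, y i.1 i.1 := by
      intro e
      have h4 : (((s e).toNat : ℕ) : ℂ) - (((-s e).toNat : ℕ) : ℂ) = (s e : ℂ) := by
        have h5 := congrArg (fun z : ℤ => (z : ℂ)) (hpm e)
        push_cast at h5 ⊢
        exact_mod_cast h5
      rw [← _root_.sub_mul, h4]
    rw [Finset.sum_congr rfl fun e _ => h3 e]
  have hmem : (tpow V m0 * dA β pr β' pr' * tpow Vᴴ m0) ∈ TL L0 m0 := by
    intro x hx
    obtain ⟨v, hv, hv'⟩ := hZex x (Or.inl hx)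
    refine (hcrit x (cj x) (hcj x).symm (hblock x (hcomm x hx))).2 ?_
    rw [Finset.sum_congr rfl fun e _ => by rw [hv' e]]
    exact_mod_cast hs1 v hv
  have hfin := (hcrit c D hcV' (fun i j hij => Matrix.diagonal_apply_ne _
    (fun h => hij (by rw [h])))).1 (hkill m0 hm0le _ hmem)
  apply hs2
  have h5 : ∀ e, (s e : ℂ) * ∑ i : {i // b i = e}, D i.1 i.1 =
      Complex.I * ((s e : ℂ) * ((d e : ℂ) * γ e)) := by
    intro e
    have h6 : ∀ i : {i // b i = e}, D i.1 i.1 = (γ e : ℂ) * Complex.I := by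
      intro i
      have h7 : lam i.1 = γ e := by
        rw [← hγb, i.2]
      change diagonal (fun k => (lam k : ℂ) * Complex.I) i.1 i.1 = _
      rw [Matrix.diagonal_apply_eq, h7]
    rw [Finset.sum_congr rfl fun i _ => h6 i, Finset.sum_const, Finset.card_univ, nsmul_eq_mul]
    change (s e : ℂ) * ((d e : ℂ) * ((γ e : ℂ) * Complex.I)) = _
    ring
  rw [Finset.sum_congr rfl fun e _ => h5 e, ← Finset.mul_sum] at hfin
  have h6 := (mul_eq_zero.1 hfin).resolve_left Complex.I_ne_zero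
  exact_mod_cast h6

end Pool.Agent.E8helper56.TX
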