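import Pool.Agent.E8helper56.TX.Sep
import Pool.Agent.E8helper56.TX.Conv

set_option autoImplicit false
set_option linter.unusedSectionVars false

/-!
# Uniform bounds for tensor systems
-/

open Matrix MeasureTheory

noncomputable section

namespace Pool.Agent.E8helper56.TX

open Pool.Agent.E8helper1.TX

variable {n : Type} [Fintype n] [DecidableEq n] {m : ℕ}

/-- the unitary matrices which commute with a family of operators -/
def GF (T : ∀ m, Submodule ℂ (Op n m)) : Set (Matrix n n ℂ) :=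
  {g | g ∈ Matrix.unitaryGroup n ℂ ∧ Fixes T g}

theorem tpow_star (g : Matrix n n ℂ) : tpow gᴴ m = (tpow g m)ᴴ := tp_conjTranspose (M := Fin m) g

theorem tpow_unitary {g : Matrix n n ℂ} (hg : g ∈ Matrix.unitaryGroup n ℂ) :
    (tpow g m)ᴴ * tpow g m = 1 ∧ tpow g m * (tpow g m)ᴴ = 1 :=
  ⟨tp_unitary hg, tp_unitary' hg⟩

theorem comm_star {α : Type} [Fintype α] [DecidableEq α] {A P : Matrix α α ℂ}
    (h1 : Pᴴ * P = 1) (h2 : P * Pᴴ = 1) (h : A * P = P * A) : A * Pᴴ = Pᴴ * A := by
  calc A * Pᴴ = (Pᴴ * P) * A * Pᴴ := by rw [h1, Matrix.one_mul]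
    _ = Pᴴ * (P * A) * Pᴴ := by simp only [Matrix.mul_assoc]
    _ = Pᴴ * (A * P) * Pᴴ := by rw [h]
    _ = Pᴴ * A * (P * Pᴴ) := by simp only [Matrix.mul_assoc]
    _ = Pᴴ * A := by rw [h2, Matrix.mul_one]

theorem continuous_tp' {X M : Type*} [TopologicalSpace X] [Fintype M] {f : X → Matrix n n ℂ}
    (hf : Continuous f) : Continuous fun u => tp M (f u) := by
  refine continuous_matrix fun a b => ?_
  simp only [tp_apply]
  exact continuous_finsetProd _ fun i _ => hf.matrix_elem _ _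

theorem isCGroup_GF (T : ∀ m, Submodule ℂ (Op n m)) : IsCGroup (GF T) where
  closed := by
    have h1 : IsClosed {g : Matrix n n ℂ | g ∈ Matrix.unitaryGroup n ℂ} := by
      have h2 : {g : Matrix n n ℂ | g ∈ Matrix.unitaryGroup n ℂ} =
          {A : Matrix n n ℂ | Aᴴ * A = 1} := by
        ext A
        exact Matrix.mem_unitaryGroup_iff'
      rw [h2]
      exact isClosed_eq (by fun_prop) continuous_const
    have h2 : GF T = {g : Matrix n n ℂ | g ∈ Matrix.unitaryGroup n ℂ} ∩
        ⋂ m, ⋂ A ∈ T m, {g : Matrix n n ℂ | A * tpow g m = tpow g m * A} := by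
      ext g
      simp only [GF, Fixes, Set.mem_ofPred_eq, Set.mem_inter_iff, Set.mem_iInter]
    rw [h2]
    refine h1.inter (isClosed_iInter fun m => isClosed_iInter fun A => isClosed_iInter fun _ => ?_)
    have hc : Continuous fun g : Matrix n n ℂ => tpow g m := continuous_tp' (M := Fin m) continuous_id
    exact isClosed_eq (continuous_const.matrix_mul hc) (hc.matrix_mul continuous_const)
  unitary := fun g hg => hg.1
  one_mem := ⟨(Matrix.unitaryGroup n ℂ).one_mem, fun m A _ => by rw [tpow_one', Matrix.mul_one, Matrix.one_mul]⟩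
  mul_mem := fun {g h} hg hh => ⟨(Matrix.unitaryGroup n ℂ).mul_mem hg.1 hh.1, fun m A hA => by
    rw [← tpow_mul, ← Matrix.mul_assoc, hg.2 m A hA, Matrix.mul_assoc, hh.2 m A hA,
      Matrix.mul_assoc]⟩
  star_mem := fun {g} hg => ⟨by
      rw [Matrix.mem_unitaryGroup_iff, Matrix.star_eq_conjTranspose,
        Matrix.conjTranspose_conjTranspose]
      exact Matrix.mem_unitaryGroup_iff'.1 hg.1, fun m A hA => by
    rw [tpow_star]
    exact comm_star (tpow_unitary hg.1).1 (tpow_unitary hg.1).2 (hg.2 m A hA)⟩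

theorem tpow_smul (c : ℂ) (g : Matrix n n ℂ) : tpow (c • g) m = c ^ m • tpow g m := by
  have h := tp_smul (M := Fin m) c g
  rw [Fintype.card_fin] at h
  exact h

/-- **The trace gap.** -/
theorem gap (S : TSys n) (T : ∀ m, Submodule ℂ (Op n m))
    (h : ∀ x : Matrix n n ℂ, xᴴ = -x → (∀ A ∈ S.S 2, A * dpow x 2 = dpow x 2 * A) → Kills T x)
    (g : Matrix n n ℂ) (hg : g ∈ GF S.S) (htr : (Fintype.card n : ℝ) - 1 < ‖g.trace‖)
    (hpos : 0 < ‖g.trace‖) :
    Fixes T g := by
  set c : ℂ := (starRingEnd ℂ) g.trace / ‖g.trace‖ with hc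
  have hne : (‖g.trace‖ : ℂ) ≠ 0 := by exact_mod_cast hpos.ne'
  have hc1 : ‖c‖ = 1 := by
    rw [hc, norm_div, Complex.norm_conj, Complex.norm_real, norm_norm, div_self hpos.ne']
  have hc0 : c ≠ 0 := by
    intro h0
    rw [h0, norm_zero] at hc1
    exact zero_ne_one hc1
  have hcu : (c • g) ∈ Matrix.unitaryGroup n ℂ := by
    rw [Matrix.mem_unitaryGroup_iff, Matrix.star_eq_conjTranspose, Matrix.conjTranspose_smul,
      Matrix.smul_mul, Matrix.mul_smul, smul_smul]
    have h1 : g * gᴴ = 1 := Matrix.mem_unitaryGroup_iff.1 hg.1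
    rw [h1]
    have h2 : c * star c = 1 := by
      have h3 := Complex.mul_conj' c
      rw [hc1] at h3
      simpa using h3
    rw [h2, one_smul]
  have htr' : (Fintype.card n : ℝ) - 1 < ((c • g).trace).re := by
    rw [Matrix.trace_smul, smul_eq_mul, hc, div_mul_eq_mul_div, Complex.conj_mul']
    have h1 : ((‖g.trace‖ : ℂ) ^ 2 / ‖g.trace‖) = (‖g.trace‖ : ℂ) := by
      field_simp
    rw [h1, Complex.ofReal_re]
    exact htr
  obtain ⟨x, hx, hx1, hx2⟩ := log_lemma (c • g) hcu htr'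
  have hK : Kills T x := by
    refine h x hx fun A hA => hx1 A ?_
    rw [tpow_smul, Matrix.mul_smul, Matrix.smul_mul, hg.2 2 A hA]
  intro m A hA
  have h3 := hx2 m A (hK m A hA)
  rw [tpow_smul, Matrix.mul_smul, Matrix.smul_mul] at h3
  exact smul_right_injective _ (pow_ne_zero m hc0) h3

theorem trace_tpow (g : Matrix n n ℂ) : (tpow g m).trace = g.trace ^ m := by
  have h1 : g.trace ^ m = ∏ _i : Fin m, ∑ j, g j j := by
    rw [Finset.prod_const, Finset.card_univ, Fintype.card_fin]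
    rfl
  rw [h1, Finset.prod_univ_sum, Fintype.piFinset_univ]
  rfl

section groups

variable (G H : Set (Matrix n n ℂ)) (hG : IsCGroup G) (hH : IsCGroup H)

/-- the matrix of an element -/
def rho (G : Set (Matrix n n ℂ)) (hG : IsCGroup G) : KG G hG →* Matrix n n ℂ :=
  (Submonoid.subtype (Matrix.unitaryGroup n ℂ)).comp (KG G hG).subtype

theorem rho_cont : Continuous (rho G hG) := continuous_subtype_val.comp continuous_subtype_val

theorem rho_inv (u : KG G hG) : rho G hG u⁻¹ = (rho G hG u)ᴴ := rfl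

theorem rho_mem (u : KG G hG) : rho G hG u ∈ G := u.2

theorem rho_unitary (u : KG G hG) : rho G hG u ∈ Matrix.unitaryGroup n ℂ := u.1.2

theorem rho_surj {g : Matrix n n ℂ} (hg : g ∈ G) : ∃ u, rho G hG u = g :=
  ⟨⟨⟨g, hG.unitary g hg⟩, hg⟩, rfl⟩

theorem compact_KG : CompactSpace (KG G hG) := by
  have hcU := compact_unitary (n := n)
  have hclosed : IsClosed ((KG G hG : Subgroup (Matrix.unitaryGroup n ℂ)) :
      Set (Matrix.unitaryGroup n ℂ)) := hG.closed.preimage continuous_subtype_val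
  exact isCompact_iff_compactSpace.1 hclosed.isCompact

/-- the ball of the elements with large trace -/
def ball (δ : ℝ) : Set (KG G hG) :=
  {u | (Fintype.card n : ℝ) - δ < ((rho G hG u).trace).re}

theorem ball_card {δ : ℝ} {k : ℕ} (hk : 0 < k)
    (hδ : 8 * (Fintype.card n : ℝ) ^ 2 / (k : ℝ) ^ 2 < 2 * δ) (s : Finset (KG G hG))
    (hs : IsSep (ball G hG δ) s) : s.card ≤ k ^ (2 * Fintype.card n ^ 2) := by
  refine card_le_cells s (rho G hG) (fun u _ => rho_unitary G hG u) hk hδ fun u hu v hv huv => ?_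
  have h1 := hs u hu v hv huv
  rw [ball, Set.mem_ofPred_eq, map_mul, rho_inv, not_lt] at h1
  rw [fd_eq (rho_unitary G hG u) (rho_unitary G hG v)]
  linarith

variable [CompactSpace (KG G hG)] [MeasurableSpace (KG G hG)] [BorelSpace (KG G hG)]
  (μ : Measure (KG G hG)) [IsFiniteMeasure μ] [μ.IsMulLeftInvariant]

theorem ball_measure {δ : ℝ} (hδ0 : 0 < δ) {k : ℕ} (hk : 0 < k)
    (hδ : 8 * (Fintype.card n : ℝ) ^ 2 / (k : ℝ) ^ 2 < 2 * δ) :
    μ.real Set.univ ≤ ((k ^ (2 * Fintype.card n ^ 2) : ℕ) : ℝ) * μ.real (ball G hG δ) := by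
  refine measure_le_of_sep μ _ ?_ ?_ _ (fun s hs => ball_card G hG hk hδ s hs)
  · rw [ball, Set.mem_ofPred_eq, map_one, Matrix.trace_one]
    simp only [Complex.natCast_re]
    linarith
  · intro u hu
    rw [ball, Set.mem_ofPred_eq] at hu ⊢
    rw [rho_inv, Matrix.trace_conjTranspose]
    simpa using hu

/-- the elements of the subgroup -/
def sub : Set (KG G hG) := {u | rho G hG u ∈ H}

include hH in
theorem sub_mul {h u : KG G hG} (hh : h ∈ sub G H hG) : h * u ∈ sub G H hG ↔ u ∈ sub G H hG := by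
  constructor
  · intro hu
    have h1 : rho G hG (h⁻¹ * (h * u)) ∈ H := by
      rw [map_mul, rho_inv]
      exact hH.mul_mem (hH.star_mem hh) hu
    rwa [inv_mul_cancel_left] at h1
  · intro hu
    show rho G hG (h * u) ∈ H
    rw [map_mul]
    exact hH.mul_mem hh hu

/-- the function `|tr g|^(2m)` -/
def fm (m : ℕ) (u : KG G hG) : ℝ := ‖(tpow (rho G hG u) m).trace‖ ^ 2

theorem fm_eq (m : ℕ) (u : KG G hG) : fm G hG m u = ‖(rho G hG u).trace‖ ^ (2 * m) := by
  rw [fm, trace_tpow, norm_pow, ← pow_mul, mul_comm]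

theorem fm_nonneg (m : ℕ) (u : KG G hG) : 0 ≤ fm G hG m u := by
  rw [fm]; positivity

theorem fm_cont (m : ℕ) : Continuous (fm G hG m) :=
  ((continuous_tp (M := Fin m) (rho_cont G hG)).matrix_trace.norm.pow 2)

theorem fm_int (m : ℕ) : Integrable (fm G hG m) μ :=
  (fm_cont G hG m).integrable_of_hasCompactSupport (HasCompactSupport.of_compactSpace _)

theorem dim_G (hμ : 0 < μ.real Set.univ) (m : ℕ) : (Module.finrank ℂ (comm G m) : ℝ) =
    (μ.real Set.univ)⁻¹ * ∫ u, fm G hG m u ∂μ :=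
  finrank_comm μ (rho G hG) (rho_cont G hG) (rho_unitary G hG) Set.univ G (fun g => ⟨fun hg => by
      obtain ⟨u, hu⟩ := rho_surj G hG hg
      exact ⟨u, trivial, hu⟩, by
      rintro ⟨u, -, rfl⟩
      exact rho_mem G hG u⟩) (Filter.Eventually.of_forall fun _ => trivial)
    (fun h _ F hF => integral_mul_left_eq_self F h) hμ.ne' m

include hH in
theorem dim_H (hHG : H ⊆ G) (hmeas : MeasurableSet (sub G H hG)) (hμ : 0 < μ.real (sub G H hG))
    (m : ℕ) : (Module.finrank ℂ (comm H m) : ℝ) =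
    (μ.real (sub G H hG))⁻¹ * ∫ u in sub G H hG, fm G hG m u ∂μ := by
  have hrest : (μ.restrict (sub G H hG)).real Set.univ = μ.real (sub G H hG) := by
    rw [measureReal_restrict_apply_univ]
  have hHd := finrank_comm (μ.restrict (sub G H hG)) (rho G hG) (rho_cont G hG) (rho_unitary G hG)
    (sub G H hG) H (fun g => ⟨fun hg => by
      obtain ⟨u, hu⟩ := rho_surj G hG (hHG hg)
      exact ⟨u, by show rho G hG u ∈ H; rw [hu]; exact hg, hu⟩, by
      rintro ⟨u, hu, rfl⟩
      exact hu⟩) (ae_restrict_mem hmeas)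
    (fun h hh F hF => by
      rw [← integral_indicator hmeas, ← integral_indicator hmeas,
        ← integral_mul_left_eq_self ((sub G H hG).indicator F) h]
      congr 1
      ext u
      by_cases hu : u ∈ sub G H hG
      · rw [Set.indicator_of_mem hu, Set.indicator_of_mem ((sub_mul G H hG hH hh).2 hu)]
      · rw [Set.indicator_of_notMem hu, Set.indicator_of_notMem
          fun h' => hu ((sub_mul G H hG hH hh).1 h')])
    (by rw [hrest]; exact hμ.ne') m
  rw [hrest] at hHd
  exact hHd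

theorem ball_sub_of {δ : ℝ} (hb : ∀ g ∈ G, (Fintype.card n : ℝ) - δ < (g.trace).re → g ∈ H) :
    ball G hG δ ⊆ sub G H hG := fun u hu => hb _ (rho_mem G hG u) hu

include hH in
theorem sub_open {δ : ℝ} (hδ : 0 < δ)
    (hb : ∀ g ∈ G, (Fintype.card n : ℝ) - δ < (g.trace).re → g ∈ H) : IsOpen (sub G H hG) := by
  rw [isOpen_iff_mem_nhds]
  intro h hh
  have h1 : {u | h⁻¹ * u ∈ ball G hG δ} ∈ nhds h := by
    have hc : Continuous fun u : KG G hG => ((rho G hG (h⁻¹ * u)).trace).re :=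
      Complex.continuous_re.comp (((rho_cont G hG).comp (continuous_const.mul
        continuous_id)).matrix_trace)
    refine (isOpen_lt continuous_const hc).mem_nhds ?_
    show (Fintype.card n : ℝ) - δ < ((rho G hG (h⁻¹ * h)).trace).re
    rw [inv_mul_cancel, map_one, Matrix.trace_one]
    simp only [Complex.natCast_re]
    linarith
  refine Filter.mem_of_superset h1 fun u hu => ?_
  have h2 : h⁻¹ * u ∈ sub G H hG := ball_sub_of G H hG hb hu
  have h3 := (sub_mul G H hG hH (h := h) (u := h⁻¹ * u) hh).2 h2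
  rwa [mul_inv_cancel_left] at h3

end groups

/-- the uniform bound for the dimensions of the commutants -/
theorem dim_le (G H : Set (Matrix n n ℂ)) (hG : IsCGroup G) (hH : IsCGroup H) (hHG : H ⊆ G)
    (hb : ∀ g ∈ G, (Fintype.card n : ℝ) - 1 < (g.trace).re → g ∈ H) (m : ℕ) :
    Module.finrank ℂ (comm H m) ≤
      (2 * Fintype.card n + 1) ^ (2 * Fintype.card n ^ 2) * Module.finrank ℂ (comm G m) := by
  have hcomp := compact_KG G hG
  let _ : MeasurableSpace (KG G hG) := borel _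
  have : BorelSpace (KG G hG) := ⟨rfl⟩
  let μ : Measure (KG G hG) := Measure.haar
  have hμ1 : 0 < μ.real Set.univ := by
    rw [measureReal_def, ENNReal.toReal_pos_iff]
    exact ⟨isOpen_univ.measure_pos _ ⟨1, trivial⟩, measure_lt_top _ _⟩
  have hball := ball_measure G hG μ (δ := 1) one_pos (k := 2 * Fintype.card n + 1) (by omega) (by
    rw [div_lt_iff₀ (by positivity)]
    push_cast
    nlinarith [(Nat.cast_nonneg (Fintype.card n) : (0 : ℝ) ≤ Fintype.card n)])
  have hbs : μ.real (ball G hG 1) ≤ μ.real (sub G H hG) :=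
    measureReal_mono (ball_sub_of G H hG hb) (measure_ne_top _ _)
  have hop := sub_open G H hG hH one_pos hb
  set P : ℝ := (((2 * Fintype.card n + 1) ^ (2 * Fintype.card n ^ 2) : ℕ) : ℝ) with hP
  have hP0 : 0 < P := by rw [hP]; positivity
  have hμs : μ.real Set.univ ≤ P * μ.real (sub G H hG) :=
    hball.trans (mul_le_mul_of_nonneg_left hbs hP0.le)
  have hμ2 : 0 < μ.real (sub G H hG) := by
    by_contra h0
    have h1 : μ.real (sub G H hG) ≤ 0 := not_lt.1 h0
    have h2 : P * μ.real (sub G H hG) ≤ 0 := mul_nonpos_of_nonneg_of_nonpos hP0.le h1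
    linarith
  have h1 := dim_G G hG μ hμ1 m
  have h2 := dim_H G H hG hH μ hHG hop.measurableSet hμ2 m
  have hle : ∫ u in sub G H hG, fm G hG m u ∂μ ≤ ∫ u, fm G hG m u ∂μ :=
    setIntegral_le_integral (fm_int G hG μ m) (Filter.Eventually.of_forall (fm_nonneg G hG m))
  have h3 : (Module.finrank ℂ (comm H m) : ℝ) ≤ P * Module.finrank ℂ (comm G m) := by
    rw [h1, h2]
    have hI : 0 ≤ ∫ u, fm G hG m u ∂μ := integral_nonneg (fm_nonneg G hG m)
    calc (μ.real (sub G H hG))⁻¹ * ∫ u in sub G H hG, fm G hG m u ∂μ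
        ≤ (μ.real (sub G H hG))⁻¹ * ∫ u, fm G hG m u ∂μ :=
          mul_le_mul_of_nonneg_left hle (inv_nonneg.2 hμ2.le)
      _ ≤ (P * (μ.real Set.univ)⁻¹) * ∫ u, fm G hG m u ∂μ := by
          refine mul_le_mul_of_nonneg_right ?_ hI
          rw [← div_eq_mul_inv, le_div_iff₀ hμ1, inv_mul_le_iff₀ hμ2, mul_comm]
          exact hμs
      _ = _ := by ring
  rw [hP] at h3
  exact_mod_cast h3

/-- the numerical inequality -/
theorem numeric {N m : ℕ} (hN : 1 ≤ N) (hm : 2 * (N : ℝ) ^ 3 * Real.log (3 * N) ≤ m) :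
    ((3 * N : ℝ)) ^ (2 * N ^ 2) * ((N : ℝ) - 1) ^ (2 * m) < ((N : ℝ) - 1 / 2) ^ (2 * m) := by
  have hN' : (1 : ℝ) ≤ N := by exact_mod_cast hN
  have hm0 : m ≠ 0 := by
    rintro rfl
    have h1 : 0 < Real.log (3 * N) := Real.log_pos (by linarith)
    have h2 : 0 < 2 * (N : ℝ) ^ 3 * Real.log (3 * N) := by positivity
    simp only [Nat.cast_zero] at hm
    linarith
  rcases Nat.eq_or_lt_of_le hN with h1 | h1
  · rw [← h1]
    simp only [Nat.cast_one, sub_self]
    rw [zero_pow (by omega), mul_zero]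
    positivity
  · have hN2 : (2 : ℝ) ≤ N := by exact_mod_cast h1
    have ha : (0 : ℝ) < N - 1 := by linarith
    have hb : (0 : ℝ) < N - 1 / 2 := by linarith
    rw [← Real.log_lt_log_iff (by positivity) (by positivity), Real.log_mul (by positivity)
      (by positivity), Real.log_pow, Real.log_pow, Real.log_pow]
    push_cast
    have h2 : 1 - ((N : ℝ) - 1) / (N - 1 / 2) ≤ -Real.log (((N : ℝ) - 1) / (N - 1 / 2)) := by
      have := Real.log_le_sub_one_of_pos (div_pos ha hb)
      linarith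
    rw [Real.log_div ha.ne' hb.ne'] at h2
    have h3 : 1 / (2 * (N : ℝ)) < 1 - ((N : ℝ) - 1) / (N - 1 / 2) := by
      have h4 : 1 - ((N : ℝ) - 1) / (N - 1 / 2) = (1 / 2) / (N - 1 / 2) := by
        rw [eq_div_iff hb.ne', _root_.sub_mul, div_mul_cancel₀ _ hb.ne']
        ring
      rw [h4, div_lt_div_iff₀ (by positivity) hb]
      linarith
    have h5 : 1 / (2 * (N : ℝ)) < Real.log (N - 1 / 2) - Real.log (N - 1) := by linarith
    have hmpos : (0 : ℝ) < m := by exact_mod_cast Nat.pos_of_ne_zero hm0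
    have h6 : 2 * (m : ℝ) * (1 / (2 * (N : ℝ))) <
        2 * (m : ℝ) * (Real.log (N - 1 / 2) - Real.log (N - 1)) :=
      mul_lt_mul_of_pos_left h5 (by positivity)
    have h7 : 2 * (N : ℝ) ^ 2 * Real.log (3 * N) ≤ 2 * (m : ℝ) * (1 / (2 * (N : ℝ))) := by
      have h8 : 2 * (m : ℝ) * (1 / (2 * (N : ℝ))) = m / N := by
        field_simp
      rw [h8, le_div_iff₀ (by positivity)]
      calc 2 * (N : ℝ) ^ 2 * Real.log (3 * N) * (N : ℝ) = 2 * (N : ℝ) ^ 3 * Real.log (3 * N) := by ring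
        _ ≤ (m : ℝ) := hm
    linarith

/-- the groups are equal if the dimensions of the commutants are equal in one large degree -/
theorem group_eq [Nonempty n] (G H : Set (Matrix n n ℂ)) (hG : IsCGroup G) (hH : IsCGroup H)
    (hHG : H ⊆ G) (hb : ∀ g ∈ G, (Fintype.card n : ℝ) - 1 < ‖g.trace‖ → g ∈ H) (m : ℕ)
    (hm : 2 * (Fintype.card n : ℝ) ^ 3 * Real.log (3 * Fintype.card n) ≤ m)
    (heq : Module.finrank ℂ (comm H m) = Module.finrank ℂ (comm G m)) : G ⊆ H := by
  have hN : 1 ≤ Fintype.card n := Fintype.card_pos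
  have hN' : (1 : ℝ) ≤ Fintype.card n := by exact_mod_cast hN
  have hcomp := compact_KG G hG
  let _ : MeasurableSpace (KG G hG) := borel _
  have : BorelSpace (KG G hG) := ⟨rfl⟩
  let μ : Measure (KG G hG) := Measure.haar
  have hre : ∀ g ∈ G, (Fintype.card n : ℝ) - 1 < (g.trace).re → g ∈ H := fun g hg h =>
    hb g hg (h.trans_le (Complex.re_le_norm _))
  have hre2 : ∀ g ∈ G, (Fintype.card n : ℝ) - 1 / 2 < (g.trace).re → g ∈ H := fun g hg h =>
    hre g hg (by linarith)
  have hμ1 : 0 < μ.real Set.univ := by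
    rw [measureReal_def, ENNReal.toReal_pos_iff]
    exact ⟨isOpen_univ.measure_pos _ ⟨1, trivial⟩, measure_lt_top _ _⟩
  have hball := ball_measure G hG μ (δ := 1 / 2) one_half_pos (k := 3 * Fintype.card n) (by omega) (by
    rw [div_lt_iff₀ (by positivity)]
    push_cast
    nlinarith)
  have hop := sub_open G H hG hH one_pos hre
  have hmeas := hop.measurableSet
  set Γ := sub G H hG with hΓ
  have hbs : ball G hG (1 / 2) ⊆ Γ := ball_sub_of G H hG hre2
  set P : ℝ := (((3 * Fintype.card n) ^ (2 * Fintype.card n ^ 2) : ℕ) : ℝ) with hP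
  have hP0 : 0 < P := by rw [hP]; positivity
  have hμb : 0 < μ.real (ball G hG (1 / 2)) := by
    by_contra h0
    have h1 : μ.real (ball G hG (1 / 2)) ≤ 0 := not_lt.1 h0
    have h2 : P * μ.real (ball G hG (1 / 2)) ≤ 0 := mul_nonpos_of_nonneg_of_nonpos hP0.le h1
    linarith
  have hμΓ : 0 < μ.real Γ := hμb.trans_le (measureReal_mono hbs (measure_ne_top _ _))
  by_contra hcon
  obtain ⟨g, hgG, hgH⟩ := Set.not_subset.1 hcon
  obtain ⟨w, hw⟩ := rho_surj G hG hgG
  have hwΓ : w ∉ Γ := fun h => hgH (by rw [← hw]; exact h)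
  -- the complement has positive measure
  have hcompl : 0 < μ.real Γᶜ := by
    have h1 : (fun u => w⁻¹ * u) ⁻¹' Γ ⊆ Γᶜ := by
      intro u hu huΓ
      have h2 : w⁻¹ * u ∈ Γ := hu
      have h3 : u⁻¹ * w ∈ Γ := by
        have h4 : rho G hG ((w⁻¹ * u)⁻¹) ∈ H := by
          rw [rho_inv]
          exact hH.star_mem h2
        rwa [_root_.mul_inv_rev, inv_inv] at h4
      have h5 := (sub_mul G H hG hH (h := u) (u := u⁻¹ * w) huΓ).2 h3
      rw [mul_inv_cancel_left] at h5
      exact hwΓ h5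
    have h2 : μ.real ((fun u => w⁻¹ * u) ⁻¹' Γ) = μ.real Γ := by
      rw [measureReal_def, measureReal_def, measure_preimage_mul]
    rw [← h2] at hμΓ
    exact hμΓ.trans_le (measureReal_mono h1 (measure_ne_top _ _))
  have hsum : μ.real Γ + μ.real Γᶜ = μ.real Set.univ := measureReal_add_measureReal_compl hmeas
  have h1 := dim_G G hG μ hμ1 m
  have h2 := dim_H G H hG hH μ hHG hmeas hμΓ m
  rw [heq, h1] at h2
  have hint := fm_int G hG μ m
  have hsplit : ∫ u in Γ, fm G hG m u ∂μ + ∫ u in Γᶜ, fm G hG m u ∂μ = ∫ u, fm G hG m u ∂μ :=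
    integral_add_compl hmeas hint
  have hJ : ∫ u in Γᶜ, fm G hG m u ∂μ ≤ ((Fintype.card n : ℝ) - 1) ^ (2 * m) * μ.real Γᶜ := by
    have h3 : ∫ u in Γᶜ, fm G hG m u ∂μ ≤
        ∫ _u in Γᶜ, ((Fintype.card n : ℝ) - 1) ^ (2 * m) ∂μ := by
      refine setIntegral_mono_on hint.integrableOn (integrable_const _).integrableOn
        hmeas.compl fun u hu => ?_
      rw [fm_eq]
      refine pow_le_pow_left₀ (norm_nonneg _) ?_ _
      by_contra h4
      exact hu (hb _ (rho_mem G hG u) (not_le.1 h4))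
    rw [setIntegral_const, smul_eq_mul, mul_comm] at h3
    exact h3
  have hI : ((Fintype.card n : ℝ) - 1 / 2) ^ (2 * m) * μ.real (ball G hG (1 / 2)) ≤
      ∫ u in Γ, fm G hG m u ∂μ := by
    have hbm : MeasurableSet (ball G hG (1 / 2)) := by
      have hc : Continuous fun u : KG G hG => ((rho G hG u).trace).re :=
        Complex.continuous_re.comp ((rho_cont G hG).matrix_trace)
      exact (isOpen_lt continuous_const hc).measurableSet
    have h3 : ∫ _u in ball G hG (1 / 2), ((Fintype.card n : ℝ) - 1 / 2) ^ (2 * m) ∂μ ≤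
        ∫ u in ball G hG (1 / 2), fm G hG m u ∂μ := by
      refine setIntegral_mono_on (integrable_const _).integrableOn hint.integrableOn
        hbm fun u hu => ?_
      rw [fm_eq]
      refine pow_le_pow_left₀ (by linarith) ?_ _
      have h4 : (Fintype.card n : ℝ) - 1 / 2 < ((rho G hG u).trace).re := hu
      exact h4.le.trans (Complex.re_le_norm _)
    rw [setIntegral_const, smul_eq_mul, mul_comm] at h3
    refine h3.trans ?_
    exact setIntegral_mono_set hint.integrableOn
      (Filter.Eventually.of_forall (fm_nonneg G hG m)) (Filter.Eventually.of_forall hbs)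
  set I := ∫ u in Γ, fm G hG m u ∂μ with hIdef
  set J := ∫ u in Γᶜ, fm G hG m u ∂μ with hJdef
  rw [← hsplit] at h2
  have h3 : μ.real Γᶜ * I = μ.real Γ * J := by
    have h4 : (μ.real Set.univ) * I = μ.real Γ * (I + J) := by
      rw [inv_mul_eq_div, inv_mul_eq_div, div_eq_div_iff hμ1.ne' hμΓ.ne'] at h2
      rw [mul_comm, ← h2, mul_comm]
    rw [← hsum] at h4
    linarith
  have h4 : I ≤ μ.real Γ * ((Fintype.card n : ℝ) - 1) ^ (2 * m) := by
    have h5 : μ.real Γᶜ * I ≤ μ.real Γᶜ * (μ.real Γ * ((Fintype.card n : ℝ) - 1) ^ (2 * m)) := by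
      rw [h3]
      calc μ.real Γ * J ≤ μ.real Γ * (((Fintype.card n : ℝ) - 1) ^ (2 * m) * μ.real Γᶜ) :=
            mul_le_mul_of_nonneg_left hJ hμΓ.le
        _ = _ := by ring
    exact le_of_mul_le_mul_left h5 hcompl
  have h5 : μ.real Γ ≤ μ.real Set.univ := measureReal_mono (Set.subset_univ _) (measure_ne_top _ _)
  have h6 := numeric hN hm
  have hx : (0 : ℝ) ≤ ((Fintype.card n : ℝ) - 1) ^ (2 * m) := by
    have : (0 : ℝ) ≤ (Fintype.card n : ℝ) - 1 := by linarith
    positivity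
  have h7 : ((Fintype.card n : ℝ) - 1 / 2) ^ (2 * m) * μ.real (ball G hG (1 / 2)) ≤
      P * ((Fintype.card n : ℝ) - 1) ^ (2 * m) * μ.real (ball G hG (1 / 2)) := by
    calc _ ≤ I := hI
      _ ≤ μ.real Γ * ((Fintype.card n : ℝ) - 1) ^ (2 * m) := h4
      _ ≤ μ.real Set.univ * ((Fintype.card n : ℝ) - 1) ^ (2 * m) := mul_le_mul_of_nonneg_right h5 hx
      _ ≤ (P * μ.real (ball G hG (1 / 2))) * ((Fintype.card n : ℝ) - 1) ^ (2 * m) :=
          mul_le_mul_of_nonneg_right hball hx
      _ = _ := by ring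
  have h8 := le_of_mul_le_mul_right h7 hμb
  rw [hP] at h8
  push_cast at h8
  linarith

end Pool.Agent.E8helper56.TX
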